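import Pool.Agent.Lib.C4.Defs

/-!
# Row A0: bounds for the correlations.  helper15
-/

set_option autoImplicit false
open Finset

namespace Pool.Agent.C4

open Pool.Agent.Lib.MP_663568_nt Pool.Agent.Lib.MP_663568_nt.Katai Pool.Agent.Lib.MP_663568_nt.H6

/-- one coordinate is determined by the others -/
theorem A0_card {s : ℕ} (c : Fin s → ℤ) (k : ℤ) (H : ℕ) (hs : 1 ≤ s) (hc : ∀ i, c i ≠ 0) :
    #(Sol c k H) ≤ H ^ (s - 1) := by
  obtain ⟨s, rfl⟩ : ∃ s', s = s' + 1 := ⟨s - 1, by omega⟩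
  have h1 : #(Fintype.piFinset fun _ : Fin s => Icc 1 H) = H ^ s := by
    rw [Fintype.card_piFinset]
    simp
  rw [Nat.add_sub_cancel, ← h1]
  refine card_le_card_of_injOn (fun h i => h i.succ) (fun h hh => ?_) fun h hh h' hh' e => ?_
  · have hh1 : h ∈ Sol c k H := hh
    unfold Sol at hh1
    rw [mem_filter, Fintype.mem_piFinset] at hh1
    exact Fintype.mem_piFinset.2 fun i => hh1.1 i.succ
  · have hh1 : h ∈ Sol c k H := hh
    have hh2 : h' ∈ Sol c k H := hh'
    unfold Sol at hh1 hh2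
    rw [mem_filter, Fin.sum_univ_succ] at hh1 hh2
    have e1 : ∀ i : Fin s, h i.succ = h' i.succ := fun i => congrFun e i
    have e2 : c 0 * (h 0 : ℤ) = c 0 * (h' 0 : ℤ) := by
      have h3 := hh1.2.trans hh2.2.symm
      simp only [e1] at h3
      exact add_right_cancel h3
    have e3 : h 0 = h' 0 := by exact_mod_cast mul_left_cancel₀ (hc 0) e2
    funext i
    exact Fin.cases e3 e1 i

theorem A0_prod (f : ℕ → ℝ) (hf : ∀ n, |f n| ≤ 1) {s : ℕ} (n : ℕ) (h : Fin s → ℕ) :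
    |∏ i, f (n + h i)| ≤ 1 := by
  rw [abs_prod]
  exact prod_le_one (fun i _ => abs_nonneg _) fun i _ => hf _

theorem A0_conj (Q : ℕ) [NeZero Q] (f : ℕ → ℝ) (n H : ℕ) (t : ZMod Q) :
    S Q f n H (-t) = (starRingEnd ℂ) (S Q f n H t) := by
  unfold S
  rw [map_sum]
  refine sum_congr rfl fun h _ => ?_
  rw [_root_.map_mul (starRingEnd ℂ), Complex.conj_ofReal, mul_neg, AddChar.map_neg_eq_conj]

theorem A0_energy (hA1 : A1_stmt) (f : ℕ → ℝ) (n H Q : ℕ) [NeZero Q] (hQ : 4 * H < Q) :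
    J f c0 0 n H = eS Q f n H := by
  have h1 := hA1 4 c0 0 f n H Q (by
    have : ∑ i, (c0 i).natAbs = 4 := by decide
    rw [this, Int.natAbs_zero, add_zero]
    exact hQ)
  have h2 : F Q c0 0 (S Q f n H) = ((∑ t : ZMod Q, ‖S Q f n H t‖ ^ 4 : ℝ) : ℂ) / Q := by
    unfold F
    congr 1
    push_cast
    refine sum_congr rfl fun t _ => ?_
    rw [Fin.prod_univ_four]
    have e0 : ((c0 0 : ℤ) : ZMod Q) * t = t := by simp [c0]
    have e1 : ((c0 1 : ℤ) : ZMod Q) * t = t := by simp [c0]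
    have e2 : ((c0 2 : ℤ) : ZMod Q) * t = -t := by simp [c0]
    have e3 : ((c0 3 : ℤ) : ZMod Q) * t = -t := by simp [c0]
    rw [e0, e1, e2, e3, A0_conj]
    have e5 : (ZMod.stdAddChar (-(((0 : ℤ)) : ZMod Q) * t) : ℂ) = 1 := by
      rw [Int.cast_zero, neg_zero, zero_mul, AddChar.map_zero_eq_one]
    simp only [Int.cast_zero, neg_zero, zero_mul, AddChar.map_zero_eq_one, one_mul] at e5 ⊢
    have e4 := Complex.mul_conj' (S Q f n H t)
    calc S Q f n H t * S Q f n H t * (starRingEnd ℂ) (S Q f n H t) *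
          (starRingEnd ℂ) (S Q f n H t)
        = (S Q f n H t * (starRingEnd ℂ) (S Q f n H t)) *
          (S Q f n H t * (starRingEnd ℂ) (S Q f n H t)) := by ring
      _ = _ := by
        rw [e4]
        ring
  rw [h2] at h1
  have h3 : (∑ t : ZMod Q, ‖S Q f n H t‖ ^ 4) / Q = ∑ h ∈ Sol c0 0 H, ∏ i, f (n + h i) := by
    exact_mod_cast h1
  unfold J eS
  rw [← h3, div_div]

theorem rowA0 (hA1 : A1_stmt) : A0_stmt := by
  intro f hf
  refine ⟨fun s c k n H hs hc => ?_, fun s c k n hs => ?_, fun n H Q _ hQ =>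
    A0_energy hA1 f n H Q hQ, fun n H => ?_⟩
  · unfold J
    rw [abs_div, abs_of_nonneg (by positivity : (0 : ℝ) ≤ (H : ℝ) ^ (s - 1))]
    refine div_le_one_of_le₀ ?_ (by positivity)
    calc |∑ h ∈ Sol c k H, ∏ i, f (n + h i)| ≤ ∑ h ∈ Sol c k H, |∏ i, f (n + h i)| :=
          abs_sum_le_sum_abs _ _
      _ ≤ ∑ h ∈ Sol c k H, 1 := sum_le_sum fun h _ => A0_prod f hf n h
      _ = (#(Sol c k H) : ℝ) := by simp
      _ ≤ _ := by exact_mod_cast A0_card c k H hs hc
  · have h1 : Sol c k 0 = ∅ := by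
      rw [eq_empty_iff_forall_notMem]
      intro h hh
      unfold Sol at hh
      rw [mem_filter, Fintype.mem_piFinset] at hh
      have := hh.1 ⟨0, hs⟩
      simp at this
    unfold J
    rw [h1, sum_empty, zero_div]
  · have : NeZero (4 * H + 1) := ⟨by omega⟩
    rw [A0_energy hA1 f n H (4 * H + 1) (by omega)]
    unfold eS
    positivity

end Pool.Agent.C4
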