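import Pool.Agent.Lib.C4.Defs

/-!
# Row A1: the Fourier coefficient counts the solutions (helper54)
-/

set_option autoImplicit false
open Finset

namespace Pool.Agent.C4

theorem A1_map_sum {A M ι : Type*} [AddCommMonoid A] [CommMonoid M] (ψ : AddChar A M)
    (s : Finset ι) (a : ι → A) : ψ (∑ i ∈ s, a i) = ∏ i ∈ s, ψ (a i) := by
  classical
  induction s using Finset.induction_on with
  | empty => simp
  | insert i s hi ih => rw [sum_insert hi, prod_insert hi, AddChar.map_add_eq_mul, ih]

theorem rowA1 : A1_stmt := by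
  classical
  intro s c k f n H Q hQ hlt
  have hQ0 : (Q : ℂ) ≠ 0 := by exact_mod_cast NeZero.ne Q
  unfold F
  rw [div_eq_iff hQ0]
  -- expand the product
  have h1 : ∀ t : ZMod Q, ∏ i, S Q f n H ((c i : ZMod Q) * t) =
      ∑ h ∈ Fintype.piFinset (fun _ : Fin s => Icc 1 H),
        (∏ i, (f (n + h i) : ℂ)) * ZMod.stdAddChar ((∑ i, (c i : ZMod Q) * (h i : ZMod Q)) * t) := by
    intro t
    unfold S
    rw [prod_univ_sum]
    refine sum_congr rfl fun h _ => ?_
    rw [prod_mul_distrib]
    congr 1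
    rw [sum_mul, A1_map_sum]
    refine prod_congr rfl fun i _ => ?_
    congr 1
    ring
  have h2 : ∀ t : ZMod Q, ZMod.stdAddChar (-(k : ZMod Q) * t) *
      ∏ i, S Q f n H ((c i : ZMod Q) * t) =
      ∑ h ∈ Fintype.piFinset (fun _ : Fin s => Icc 1 H),
        (∏ i, (f (n + h i) : ℂ)) *
          ZMod.stdAddChar (t * (((∑ i, c i * (h i : ℤ)) - k : ℤ) : ZMod Q)) := by
    intro t
    rw [h1, mul_sum]
    refine sum_congr rfl fun h _ => ?_
    rw [mul_left_comm, ← AddChar.map_add_eq_mul]
    congr 2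
    push_cast
    ring
  rw [sum_congr rfl fun t _ => h2 t, sum_comm]
  have h3 : ∀ h ∈ Fintype.piFinset (fun _ : Fin s => Icc 1 H),
      ∑ t : ZMod Q, (∏ i, (f (n + h i) : ℂ)) *
          ZMod.stdAddChar (t * (((∑ i, c i * (h i : ℤ)) - k : ℤ) : ZMod Q)) =
      if ∑ i, c i * (h i : ℤ) = k then (∏ i, (f (n + h i) : ℂ)) * Q else 0 := by
    intro h hh
    rw [Fintype.mem_piFinset] at hh
    rw [← mul_sum, AddChar.sum_mulShift _ (ZMod.isPrimitive_stdAddChar Q), ZMod.card]
    have h4 : ((((∑ i, c i * (h i : ℤ)) - k : ℤ) : ZMod Q) = 0) ↔ ∑ i, c i * (h i : ℤ) = k := by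
      rw [ZMod.intCast_zmod_eq_zero_iff_dvd]
      constructor
      · intro hd
        have h5 : |(∑ i, c i * (h i : ℤ)) - k| < Q := by
          have h6 : |∑ i, c i * (h i : ℤ)| ≤ ∑ i, |c i| * (H : ℤ) := by
            refine (abs_sum_le_sum_abs _ _).trans (sum_le_sum fun i _ => ?_)
            rw [abs_mul, abs_of_nonneg (show (0 : ℤ) ≤ (h i : ℤ) by positivity)]
            refine mul_le_mul_of_nonneg_left ?_ (abs_nonneg _)
            exact_mod_cast (mem_Icc.1 (hh i)).2
          have h7 : ∑ i, |c i| * (H : ℤ) + |k| < Q := by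
            have h8 : (((∑ i, (c i).natAbs) * H + k.natAbs : ℕ) : ℤ) < (Q : ℤ) := by
              exact_mod_cast hlt
            push_cast at h8
            rw [sum_mul] at h8
            exact h8
          have h8 := abs_sub (∑ i, c i * (h i : ℤ)) k
          linarith
        have := Int.eq_zero_of_abs_lt_dvd hd h5
        linarith
      · intro he
        rw [he, sub_self]
        exact dvd_zero _
    by_cases h5 : ∑ i, c i * (h i : ℤ) = k
    · rw [if_pos (h4.2 h5), if_pos h5]
    · rw [if_neg (fun h6 => h5 (h4.1 h6)), if_neg h5]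
      simp
  rw [sum_congr rfl h3, ← sum_filter]
  push_cast
  rw [sum_mul]
  rfl

end Pool.Agent.C4
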