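import Pool.Agent.Lib.C4.Defs

/-!
# Row A2: the windows divided by `p`
-/

set_option autoImplicit false
open Finset

namespace Pool.Agent.C4

namespace A2

/-- The number of solutions of a linear equation in a box. -/
theorem card_le {s : ℕ} (A : Fin s → Finset ℕ) (c : Fin s → ℤ) (k : ℤ) (i0 : Fin s)
    (hc : c i0 ≠ 0) :
    #((Fintype.piFinset A).filter fun h => ∑ i, c i * (h i : ℤ) = k) ≤
      ∏ l ∈ univ.erase i0, #(A l) := by
  classical
  have h1 : ∏ l ∈ univ.erase i0, #(A l) = #(Fintype.piFinset (Function.update A i0 {0})) := by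
    rw [Fintype.card_piFinset, ← Finset.mul_prod_erase univ _ (mem_univ i0)]
    simp only [Function.update_self, card_singleton, one_mul]
    refine Finset.prod_congr rfl fun l hl => ?_
    rw [Function.update_of_ne (ne_of_mem_erase hl)]
  rw [h1]
  refine Finset.card_le_card_of_injOn (fun h => Function.update h i0 0) ?_ ?_
  · intro h hh
    simp only [coe_filter, Set.mem_ofPred_eq, Fintype.mem_piFinset] at hh
    simp only [Finset.mem_coe, Fintype.mem_piFinset]
    intro l
    by_cases hl : l = i0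
    · subst hl; simp
    · simp [Function.update_of_ne hl, hh.1 l]
  · intro h hh h' hh' e
    simp only [coe_filter, Set.mem_ofPred_eq] at hh hh'
    have e' : ∀ l, l ≠ i0 → h l = h' l := fun l hl => by
      have := congrFun e l
      simpa [Function.update_of_ne hl] using this
    have e0 : h i0 = h' i0 := by
      have h2 := hh.2.trans hh'.2.symm
      rw [← Finset.add_sum_erase univ _ (mem_univ i0),
        ← Finset.add_sum_erase univ (fun i => c i * (h' i : ℤ)) (mem_univ i0)] at h2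
      have h3 : ∑ x ∈ univ.erase i0, c x * (h x : ℤ) = ∑ x ∈ univ.erase i0, c x * (h' x : ℤ) :=
        Finset.sum_congr rfl fun l hl => by rw [e' l (ne_of_mem_erase hl)]
      rw [h3] at h2
      have h4 := add_right_cancel h2
      exact_mod_cast mul_left_cancel₀ hc h4
    funext l
    by_cases hl : l = i0
    · rw [hl, e0]
    · exact e' l hl

/-- An additive character of a sum. -/
theorem map_sum {ι : Type*} {Q : ℕ} [NeZero Q] (s : Finset ι) (g : ι → ZMod Q) :
    ZMod.stdAddChar (∑ i ∈ s, g i) = ∏ i ∈ s, ZMod.stdAddChar (g i) := by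
  classical
  induction s using Finset.induction_on with
  | empty => simp
  | insert a s ha ih => rw [Finset.sum_insert ha, Finset.prod_insert ha,
      AddChar.map_add_eq_mul, ih]

/-- Orthogonality. -/
theorem ortho {s : ℕ} (Q : ℕ) [NeZero Q] (c : Fin s → ℤ) (k : ℤ) (W : Finset ℕ) (a : ℕ → ℂ)
    (hW : ∀ h : Fin s → ℕ, (∀ i, h i ∈ W) → |∑ i, c i * (h i : ℤ) - k| < Q) :
    F Q c k (fun x => ∑ h ∈ W, a h * ZMod.stdAddChar ((h : ZMod Q) * x)) =
      ∑ h ∈ (Fintype.piFinset fun _ : Fin s => W).filter (fun h => ∑ i, c i * (h i : ℤ) = k),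
        ∏ i, a (h i) := by
  have hQ : (Q : ℂ) ≠ 0 := Nat.cast_ne_zero.2 (NeZero.ne Q)
  unfold F
  have h1 : ∀ t : ZMod Q,
      ∏ i, (∑ h ∈ W, a h * ZMod.stdAddChar ((h : ZMod Q) * ((c i : ZMod Q) * t))) =
      ∑ h ∈ Fintype.piFinset (fun _ : Fin s => W),
        (∏ i, a (h i)) * ZMod.stdAddChar (t * ((∑ i, c i * (h i : ℤ) : ℤ) : ZMod Q)) := by
    intro t
    rw [Finset.prod_univ_sum]
    refine Finset.sum_congr rfl fun h _ => ?_
    rw [Finset.prod_mul_distrib]
    congr 1
    rw [← map_sum]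
    congr 1
    push_cast
    rw [Finset.mul_sum]
    exact Finset.sum_congr rfl fun i _ => by ring
  have h2 : ∀ m : ℤ, ∑ t : ZMod Q, ZMod.stdAddChar (-(k : ZMod Q) * t) *
      ZMod.stdAddChar (t * ((m : ℤ) : ZMod Q)) = if ((m - k : ℤ) : ZMod Q) = 0 then (Q : ℂ) else 0 := by
    intro m
    have h3 := AddChar.sum_mulShift (((m - k : ℤ) : ZMod Q)) (ZMod.isPrimitive_stdAddChar Q)
    rw [ZMod.card] at h3
    have h4 : (if ((m - k : ℤ) : ZMod Q) = 0 then (Q : ℂ) else 0) =
        ((if ((m - k : ℤ) : ZMod Q) = 0 then Q else 0 : ℕ) : ℂ) := by split_ifs <;> simp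
    rw [h4, ← h3]
    refine Finset.sum_congr rfl fun t _ => ?_
    rw [← AddChar.map_add_eq_mul]
    congr 1
    push_cast
    ring
  simp_rw [h1, Finset.mul_sum]
  rw [Finset.sum_comm, div_eq_iff hQ, Finset.sum_filter, Finset.sum_mul]
  refine Finset.sum_congr rfl fun h hh => ?_
  have h4 : ∑ t : ZMod Q, ZMod.stdAddChar (-(k : ZMod Q) * t) * ((∏ i, a (h i)) *
      ZMod.stdAddChar (t * ((∑ i, c i * (h i : ℤ) : ℤ) : ZMod Q))) =
      (∏ i, a (h i)) * ∑ t : ZMod Q, ZMod.stdAddChar (-(k : ZMod Q) * t) *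
      ZMod.stdAddChar (t * ((∑ i, c i * (h i : ℤ) : ℤ) : ZMod Q)) := by
    rw [Finset.mul_sum]
    exact Finset.sum_congr rfl fun t _ => by ring
  rw [h4, h2]
  have h5 := hW h (fun i => Fintype.mem_piFinset.1 hh i)
  by_cases h6 : ∑ i, c i * (h i : ℤ) = k
  · rw [if_pos h6, if_pos (by rw [h6]; simp)]
  · rw [if_neg h6, if_neg]
    · simp
    · intro h7
      rw [ZMod.intCast_zmod_eq_zero_iff_dvd] at h7
      apply h6
      have := Int.eq_zero_of_abs_lt_dvd h7 h5
      linarith

/-- The bound for the number of solutions with one coordinate fixed. -/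
theorem card_edge {s : ℕ} (hs : 3 ≤ s) (c : Fin s → ℤ) (k : ℤ) (hc : ∀ i, c i ≠ 0) (B : Finset ℕ)
    (b : ℕ) (i : Fin s) :
    #((Fintype.piFinset fun _ : Fin s => B).filter
      (fun h => ∑ i, c i * (h i : ℤ) = k ∧ h i = b)) ≤ #B ^ (s - 2) := by
  classical
  obtain ⟨i', hi'⟩ : ∃ i' : Fin s, i' ≠ i := by
    have : Nontrivial (Fin s) := Fin.nontrivial_iff_two_le.2 (by omega)
    exact exists_ne i
  refine le_trans (Finset.card_le_card (t := (Fintype.piFinset
    (Function.update (fun _ : Fin s => B) i {b})).filter fun h => ∑ i, c i * (h i : ℤ) = k) ?_) ?_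
  · intro h hh
    simp only [Finset.mem_filter, Fintype.mem_piFinset] at hh ⊢
    refine ⟨fun l => ?_, hh.2.1⟩
    by_cases hl : l = i
    · subst hl; simp [hh.2.2]
    · simp [Function.update_of_ne hl, hh.1 l]
  · refine (card_le _ c k i' (hc i')).trans (le_of_eq ?_)
    have hm : i ∈ (univ : Finset (Fin s)).erase i' := Finset.mem_erase.2 ⟨hi'.symm, mem_univ _⟩
    rw [← Finset.mul_prod_erase _ _ hm]
    simp only [Function.update_self, card_singleton, one_mul]
    rw [Finset.prod_congr rfl (g := fun _ => #B)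
      (fun l hl => by rw [Function.update_of_ne (ne_of_mem_erase hl)])]
    rw [Finset.prod_const, Finset.card_erase_of_mem hm, Finset.card_erase_of_mem (mem_univ _)]
    simp only [card_univ, Fintype.card_fin]
    congr 1

/-- The sum over the solutions of the product of the values. -/
noncomputable def T {s : ℕ} (f : ℕ → ℝ) (c : Fin s → ℤ) (k : ℤ) (B : Finset ℕ) : ℝ :=
  ∑ j ∈ (Fintype.piFinset fun _ : Fin s => B).filter (fun j => ∑ i, c i * (j i : ℤ) = k),
    ∏ i, f (j i)

theorem abs_prod_le {s : ℕ} {f : ℕ → ℝ} (hf : ∀ n, |f n| ≤ 1) (j : Fin s → ℕ) :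
    |∏ i, f (j i)| ≤ 1 := by
  rw [Finset.abs_prod]
  exact Finset.prod_le_one (fun i _ => abs_nonneg _) fun i _ => hf _

/-- A bound for `T`. -/
theorem abs_T_le {s : ℕ} (hs : 3 ≤ s) {f : ℕ → ℝ} (hf : ∀ n, |f n| ≤ 1) (c : Fin s → ℤ) (k : ℤ)
    (hc : ∀ i, c i ≠ 0) (B : Finset ℕ) : |T f c k B| ≤ (#B : ℝ) ^ (s - 1) := by
  classical
  have h0 : 0 < s := by omega
  unfold T
  refine (Finset.abs_sum_le_sum_abs _ _).trans ?_
  refine (Finset.sum_le_card_nsmul _ _ 1 fun j _ => abs_prod_le hf j).trans ?_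
  rw [nsmul_eq_mul, mul_one]
  have h1 := card_le (fun _ : Fin s => B) c k ⟨0, h0⟩ (hc _)
  rw [Finset.prod_const, Finset.card_erase_of_mem (mem_univ _), card_univ, Fintype.card_fin] at h1
  exact_mod_cast h1

/-- The effect of one more term. -/
theorem T_insert {s : ℕ} (hs : 3 ≤ s) {f : ℕ → ℝ} (hf : ∀ n, |f n| ≤ 1) (c : Fin s → ℤ) (k : ℤ)
    (hc : ∀ i, c i ≠ 0) (B : Finset ℕ) (b : ℕ) :
    |T f c k (insert b B) - T f c k B| ≤ s * ((#B : ℝ) + 1) ^ (s - 2) := by
  classical
  have hsub : (Fintype.piFinset fun _ : Fin s => B).filter (fun j => ∑ i, c i * (j i : ℤ) = k) ⊆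
      (Fintype.piFinset fun _ : Fin s => insert b B).filter
        (fun j => ∑ i, c i * (j i : ℤ) = k) := by
    intro j hj
    simp only [Finset.mem_filter, Fintype.mem_piFinset] at hj ⊢
    exact ⟨fun i => Finset.mem_insert_of_mem (hj.1 i), hj.2⟩
  unfold T
  rw [← Finset.sum_sdiff hsub, add_sub_cancel_right]
  refine (Finset.abs_sum_le_sum_abs _ _).trans ?_
  refine (Finset.sum_le_card_nsmul _ _ 1 fun j _ => abs_prod_le hf j).trans ?_
  rw [nsmul_eq_mul, mul_one]
  have h1 : (Fintype.piFinset fun _ : Fin s => insert b B).filter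
        (fun j => ∑ i, c i * (j i : ℤ) = k) \
      (Fintype.piFinset fun _ : Fin s => B).filter (fun j => ∑ i, c i * (j i : ℤ) = k) ⊆
      (univ : Finset (Fin s)).biUnion fun i => (Fintype.piFinset fun _ : Fin s => insert b B).filter
        (fun j => ∑ i, c i * (j i : ℤ) = k ∧ j i = b) := by
    intro j hj
    simp only [Finset.mem_sdiff, Finset.mem_filter, Fintype.mem_piFinset] at hj
    simp only [Finset.mem_biUnion, Finset.mem_filter, Fintype.mem_piFinset, mem_univ, true_and]
    have h2 : ∃ i, j i ∉ B := by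
      by_contra h3
      push Not at h3
      exact hj.2 ⟨h3, hj.1.2⟩
    obtain ⟨i, hi⟩ := h2
    exact ⟨i, hj.1.1, hj.1.2, (Finset.mem_insert.1 (hj.1.1 i)).resolve_right hi⟩
  have h2 := (Finset.card_le_card h1).trans Finset.card_biUnion_le
  have h3 : ∀ i ∈ (univ : Finset (Fin s)), #((Fintype.piFinset fun _ : Fin s => insert b B).filter
        (fun j => ∑ i, c i * (j i : ℤ) = k ∧ j i = b)) ≤ (#B + 1) ^ (s - 2) := fun i _ =>
    (card_edge hs c k hc (insert b B) b i).trans
      (Nat.pow_le_pow_left (Finset.card_insert_le _ _) _)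
  have h4 := h2.trans (Finset.sum_le_card_nsmul _ _ _ h3)
  rw [card_univ, Fintype.card_fin, smul_eq_mul] at h4
  exact_mod_cast h4

/-- `J` in terms of `T`. -/
theorem J_eq {s : ℕ} (f : ℕ → ℝ) (c : Fin s → ℤ) (k : ℤ) (m M : ℕ) (hc : ∑ i, c i = 0) :
    J f c k m M = T f c k (Ioc m (m + M)) / (M : ℝ) ^ (s - 1) := by
  unfold J T Sol
  congr 1
  refine Finset.sum_nbij' (fun h i => m + h i) (fun j i => j i - m) ?_ ?_ ?_ ?_ ?_
  · intro h hh
    simp only [Finset.mem_filter, Fintype.mem_piFinset, Finset.mem_Icc, Finset.mem_Ioc] at hh ⊢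
    refine ⟨fun i => by have := hh.1 i; omega, ?_⟩
    push_cast
    simp only [mul_add, Finset.sum_add_distrib]
    rw [← Finset.sum_mul, hc, hh.2]
    ring
  · intro j hj
    simp only [Finset.mem_filter, Fintype.mem_piFinset, Finset.mem_Icc, Finset.mem_Ioc] at hj ⊢
    refine ⟨fun i => by have := hj.1 i; omega, ?_⟩
    have h1 : ∀ i, ((j i - m : ℕ) : ℤ) = (j i : ℤ) - m := fun i => by
      have := hj.1 i
      push_cast [Nat.cast_sub (show m ≤ j i by omega)]
      ring
    simp only [h1, mul_sub, Finset.sum_sub_distrib]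
    rw [← Finset.sum_mul, hc, hj.2]
    ring
  · intro h _
    funext i
    simp
  · intro j hj
    simp only [Finset.mem_filter, Fintype.mem_piFinset, Finset.mem_Ioc] at hj
    funext i
    have := hj.1 i
    simp only
    omega
  · intro h _
    rfl

/-- The Fourier coefficient of `V`. -/
theorem F_V {s : ℕ} (f : ℕ → ℝ) (c : Fin s → ℤ) (k : ℤ) (p n H Q : ℕ) [NeZero Q]
    (hc : ∑ i, c i = 0) (hf : ∀ j, 1 ≤ j → f (p * j) = - f j) (hp : 0 < p)
    (hQ : p * ((∑ i, (c i).natAbs) * (H + 1) + k.natAbs) < Q) :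
    F Q c (p * k) (V Q f p n H) =
      (p : ℂ) ^ s * ((-1) ^ s * T f c k (Ioc (n / p) ((n + H) / p)) : ℝ) := by
  classical
  have hV : V Q f p n H = fun x => ∑ h ∈ (Icc 1 H).filter (fun h => p ∣ n + h),
      ((p : ℂ) * (f (n + h) : ℂ)) * ZMod.stdAddChar ((h : ZMod Q) * x) := by
    funext x
    unfold V
    rw [Finset.mul_sum]
    exact Finset.sum_congr rfl fun h _ => by ring
  rw [hV, ortho]
  · unfold T
    push_cast
    rw [← mul_assoc, Finset.mul_sum]
    refine Finset.sum_nbij' (fun h i => (n + h i) / p) (fun j i => p * j i - n) ?_ ?_ ?_ ?_ ?_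
    · intro h hh
      simp only [Finset.mem_filter, Fintype.mem_piFinset, Finset.mem_Icc, Finset.mem_Ioc] at hh ⊢
      have h1 : ∀ i, p * ((n + h i) / p) = n + h i := fun i => Nat.mul_div_cancel' (hh.1 i).2
      refine ⟨fun i => ⟨?_, ?_⟩, ?_⟩
      · rw [Nat.div_lt_iff_lt_mul hp, mul_comm, h1]
        have := (hh.1 i).1; omega
      · exact Nat.div_le_div_right (by have := (hh.1 i).1; omega)
      · have hp' : (p : ℤ) ≠ 0 := by exact_mod_cast hp.ne'
        apply mul_left_cancel₀ hp'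
        rw [Finset.mul_sum, ← hh.2]
        have h2 : ∀ i, (p : ℤ) * (c i * (((n + h i) / p : ℕ) : ℤ)) = c i * n + c i * (h i : ℤ) := by
          intro i
          have := h1 i
          have h3 : (p : ℤ) * (((n + h i) / p : ℕ) : ℤ) = n + h i := by exact_mod_cast this
          rw [mul_left_comm, h3]; ring
        simp only [h2, Finset.sum_add_distrib]
        rw [← Finset.sum_mul, hc]; ring
    · intro j hj
      simp only [Finset.mem_filter, Fintype.mem_piFinset, Finset.mem_Icc, Finset.mem_Ioc] at hj ⊢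
      have h1 : ∀ i, n < p * j i := fun i => by
        have := (hj.1 i).1
        rw [Nat.div_lt_iff_lt_mul hp, mul_comm] at this
        exact this
      have h2 : ∀ i, p * j i ≤ n + H := fun i => by
        have := (hj.1 i).2
        rw [Nat.le_div_iff_mul_le hp, mul_comm] at this
        exact this
      refine ⟨fun i => ⟨⟨?_, ?_⟩, ?_⟩, ?_⟩
      · have := h1 i; omega
      · have := h2 i; omega
      · have := h1 i
        rw [show n + (p * j i - n) = p * j i by omega]
        exact dvd_mul_right _ _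
      · have h3 : ∀ i, ((p * j i - n : ℕ) : ℤ) = p * (j i : ℤ) - n := fun i => by
          have := h1 i
          push_cast [Nat.cast_sub (show n ≤ p * j i by omega)]
          ring
        simp only [h3, mul_sub, Finset.sum_sub_distrib]
        rw [← Finset.sum_mul, hc, ← hj.2, Finset.mul_sum]
        simp only [zero_mul, sub_zero]
        exact Finset.sum_congr rfl fun i _ => by ring
    · intro h hh
      simp only [Finset.mem_filter, Fintype.mem_piFinset] at hh
      funext i
      simp only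
      rw [Nat.mul_div_cancel' (hh.1 i).2]
      omega
    · intro j hj
      simp only [Finset.mem_filter, Fintype.mem_piFinset, Finset.mem_Ioc] at hj
      funext i
      have := (hj.1 i).1
      rw [Nat.div_lt_iff_lt_mul hp, mul_comm] at this
      simp only
      rw [show n + (p * j i - n) = p * j i by omega, Nat.mul_div_cancel_left _ hp]
    · intro h hh
      simp only [Finset.mem_filter, Fintype.mem_piFinset, Finset.mem_Icc] at hh
      have h1 : ∀ i, f (n + h i) = - f ((n + h i) / p) := fun i => by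
        rw [← hf _ ?_, Nat.mul_div_cancel' (hh.1 i).2]
        have h2 := Nat.mul_div_cancel' (hh.1 i).2
        have h3 := (hh.1 i).1.1
        rcases Nat.eq_zero_or_pos ((n + h i) / p) with h4 | h4
        · rw [h4] at h2; omega
        · exact h4
      simp only [h1]
      rw [Finset.prod_mul_distrib, Finset.prod_const, card_univ, Fintype.card_fin]
      push_cast
      rw [Finset.prod_neg, card_univ, Fintype.card_fin]
      ring
  · intro h hh
    simp only [Finset.mem_filter, Finset.mem_Icc] at hh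
    have h1 : |∑ i, c i * (h i : ℤ)| ≤ (∑ i, ((c i).natAbs : ℤ)) * H := by
      rw [Finset.sum_mul]
      refine (Finset.abs_sum_le_sum_abs _ _).trans (Finset.sum_le_sum fun i _ => ?_)
      rw [abs_mul, Int.natCast_natAbs, abs_of_nonneg (by positivity : (0 : ℤ) ≤ (h i : ℤ))]
      refine mul_le_mul_of_nonneg_left ?_ (abs_nonneg _)
      exact_mod_cast (hh i).1.2
    have h2 : |(p : ℤ) * k| = p * (k.natAbs : ℤ) := by
      rw [abs_mul, Int.natCast_natAbs, abs_of_nonneg (by positivity : (0 : ℤ) ≤ (p : ℤ))]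
    have h3 : (p : ℤ) * ((∑ i, ((c i).natAbs : ℤ)) * (H + 1) + k.natAbs) < Q := by
      exact_mod_cast hQ
    have h4 : (0 : ℤ) ≤ ∑ i, ((c i).natAbs : ℤ) := Finset.sum_nonneg fun i _ => by positivity
    have h5 : (1 : ℤ) ≤ p := by exact_mod_cast hp
    have h6 := abs_sub (∑ i, c i * (h i : ℤ)) ((p : ℤ) * k)
    have h7 : (∑ i, ((c i).natAbs : ℤ)) * H ≤ p * ((∑ i, ((c i).natAbs : ℤ)) * (H + 1)) := by
      nlinarith [mul_nonneg h4 (by positivity : (0 : ℤ) ≤ (H : ℤ))]
    calc |∑ i, c i * (h i : ℤ) - p * k| ≤ |∑ i, c i * (h i : ℤ)| + |(p : ℤ) * k| := h6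
      _ ≤ p * ((∑ i, ((c i).natAbs : ℤ)) * (H + 1)) + p * (k.natAbs : ℤ) := by
          rw [h2]; linarith
      _ < Q := by linarith

/-- The estimate in the real numbers. -/
theorem est {s : ℕ} (hs : 3 ≤ s) {p H M x y : ℝ} (hp : 1 ≤ p) (hM : 1 ≤ M) (h1 : p * M ≤ H)
    (h2 : H ≤ p * (M + 1)) (hxy : |x - y| ≤ s * (M + 1) ^ (s - 2)) (hy : |y| ≤ M ^ (s - 1)) :
    |(p / H) ^ (s - 1) * x - y / M ^ (s - 1)| ≤ (s * 2 ^ (s - 2) + s) * p / H := by
  have hM0 : 0 < M := by linarith
  have hp0 : 0 < p := by linarith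
  have hH0 : 0 < H := lt_of_lt_of_le (mul_pos hp0 hM0) h1
  have e1 : (p / H) ^ (s - 1) * x - y / M ^ (s - 1) =
      (p / H) ^ (s - 1) * (x - y) + (y / M ^ (s - 1)) * ((p * M / H) ^ (s - 1) - 1) := by
    rw [div_pow, div_pow, mul_pow]
    field_simp
    ring
  have hpH : p / H ≤ 1 := by
    rw [div_le_one hH0]
    nlinarith
  have h3 : |(p / H) ^ (s - 1) * (x - y)| ≤ s * 2 ^ (s - 2) * (p / H) := by
    rw [abs_mul, abs_of_nonneg (by positivity)]
    have e2 : s - 1 = (s - 2) + 1 := by omega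
    calc (p / H) ^ (s - 1) * |x - y| ≤ (p / H) ^ (s - 1) * (s * (M + 1) ^ (s - 2)) := by gcongr
      _ = s * (p / H * (M + 1)) ^ (s - 2) * (p / H) := by rw [e2, pow_succ, mul_pow]; ring
      _ ≤ s * 2 ^ (s - 2) * (p / H) := by
          have h4 : p / H * (M + 1) ≤ 2 := by
            rw [div_mul_eq_mul_div, div_le_iff₀ hH0]
            nlinarith
          gcongr
  have h5 : |(y / M ^ (s - 1)) * ((p * M / H) ^ (s - 1) - 1)| ≤ s * (p / H) := by
    rw [abs_mul]
    have h6 : |y / M ^ (s - 1)| ≤ 1 := by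
      rw [abs_div, abs_of_pos (by positivity : 0 < M ^ (s - 1)), div_le_one (by positivity)]
      exact hy
    have h7 : p * M / H ≤ 1 := by rwa [div_le_one hH0]
    have h8 : 1 - p / H ≤ p * M / H := by
      rw [sub_le_iff_le_add, ← add_div, le_div_iff₀ hH0]
      linarith
    have h9 : |(p * M / H) ^ (s - 1) - 1| ≤ s * (p / H) := by
      rw [abs_sub_comm, abs_of_nonneg (by
        have := pow_le_one₀ (n := s - 1) (by positivity : 0 ≤ p * M / H) h7
        linarith)]
      have h10 : (1 - p / H) ^ (s - 1) ≤ (p * M / H) ^ (s - 1) :=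
        pow_le_pow_left₀ (by linarith) h8 _
      have h11 := one_add_mul_le_pow (a := -(p / H)) (by
        have : 0 ≤ p / H := by positivity
        linarith) (s - 1)
      have h12 : ((s - 1 : ℕ) : ℝ) ≤ s := by exact_mod_cast Nat.sub_le _ _
      have h13 : 0 ≤ p / H := by positivity
      rw [← sub_eq_add_neg] at h11
      nlinarith
    calc |y / M ^ (s - 1)| * |(p * M / H) ^ (s - 1) - 1| ≤ 1 * (s * (p / H)) :=
          mul_le_mul h6 h9 (abs_nonneg _) (by norm_num)
      _ = _ := one_mul _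
  rw [e1]
  refine (abs_add_le _ _).trans ((add_le_add h3 h5).trans (le_of_eq ?_))
  ring

end A2

/-- Row A2. -/
theorem rowA2 : A2_stmt := by
  classical
  intro s hs
  refine ⟨s * 2 ^ (s - 2) + s, ?_, ?_⟩
  · have h1 : (3 : ℝ) ≤ s := by exact_mod_cast hs
    have h2 : (0 : ℝ) ≤ s * 2 ^ (s - 2) := by positivity
    linarith
  intro c k f p n H Q _ hc hf hfp hp hpQ hcop hpH hQ
  have hp0 : 0 < p := hp.pos
  have hQ2 : Q ≠ 1 := fun h => by
    rw [h] at hpQ
    exact hp.one_lt.ne' (Nat.dvd_one.1 hpQ)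
  have hc0 : ∀ i, c i ≠ 0 := fun i h => by
    have := hcop i
    rw [h] at this
    simp only [Int.natAbs_zero, Nat.coprime_zero_left] at this
    exact hQ2 this
  have hM1 : 1 ≤ H / p := (Nat.one_le_div_iff hp0).2 hpH
  have hH0 : 0 < H := lt_of_lt_of_le hp0 hpH
  have h1 : p * (H / p) ≤ H := Nat.mul_div_le H p
  have h2 : H < p * (H / p + 1) := Nat.lt_mul_div_succ H hp0
  have hT : |A2.T f c k (Ioc (n / p) ((n + H) / p)) - A2.T f c k (Ioc (n / p) (n / p + H / p))| ≤
      s * (((H / p : ℕ) : ℝ) + 1) ^ (s - 2) := by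
    have h3 : (n + H) / p = n / p + H / p ∨ (n + H) / p = n / p + H / p + 1 := by
      rw [Nat.add_div hp0]
      split_ifs <;> simp
    rcases h3 with h3 | h3
    · rw [h3, sub_self, abs_zero]; positivity
    · rw [h3]
      have h4 : Ioc (n / p) (n / p + H / p + 1) =
          insert (n / p + H / p + 1) (Ioc (n / p) (n / p + H / p)) := by
        ext x
        simp only [Finset.mem_insert, Finset.mem_Ioc]
        omega
      rw [h4]
      have h5 := A2.T_insert hs hf c k hc0 (Ioc (n / p) (n / p + H / p)) (n / p + H / p + 1)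
      rwa [Nat.card_Ioc, Nat.add_sub_cancel_left] at h5
  have hT0 : |A2.T f c k (Ioc (n / p) (n / p + H / p))| ≤ ((H / p : ℕ) : ℝ) ^ (s - 1) := by
    have h5 := A2.abs_T_le hs hf c k hc0 (Ioc (n / p) (n / p + H / p))
    rwa [Nat.card_Ioc, Nat.add_sub_cancel_left] at h5
  have hest := A2.est hs (p := p) (H := H) (M := ((H / p : ℕ) : ℝ)) (by exact_mod_cast hp0)
    (by exact_mod_cast hM1) (by exact_mod_cast h1) (by exact_mod_cast h2.le) hT hT0
  rw [A2.F_V f c k p n H Q hc hfp hp0 hQ, A2.J_eq f c k (n / p) (H / p) hc]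
  have e : (p : ℂ) ^ s * (((-1) ^ s * A2.T f c k (Ioc (n / p) ((n + H) / p)) : ℝ) : ℂ) /
      (p * (H : ℂ) ^ (s - 1)) - (-1) ^ s *
        ((A2.T f c k (Ioc (n / p) (n / p + H / p)) / ((H / p : ℕ) : ℝ) ^ (s - 1) : ℝ) : ℂ) =
      (-1) ^ s * (((p / H : ℝ) ^ (s - 1) * A2.T f c k (Ioc (n / p) ((n + H) / p)) -
        A2.T f c k (Ioc (n / p) (n / p + H / p)) / ((H / p : ℕ) : ℝ) ^ (s - 1) : ℝ) : ℂ) := by
    have hpc : (p : ℂ) ≠ 0 := Nat.cast_ne_zero.2 hp0.ne'
    have hHc : (H : ℂ) ≠ 0 := Nat.cast_ne_zero.2 hH0.ne'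
    have e2 : (p : ℂ) ^ s = p * p ^ (s - 1) := by
      rw [← pow_succ']
      congr 1
      omega
    rw [e2]
    push_cast
    rw [mul_sub]
    congr 1
    rw [div_pow]
    field_simp
  rw [e, norm_mul, norm_pow, norm_neg, norm_one, one_pow, one_mul, Complex.norm_real,
    Real.norm_eq_abs]
  exact hest

end Pool.Agent.C4
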