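import Pool.Agent.Lib.C4.Defs2
import Pool.Agent.Lib.C4.A2

/-!
# Row A2m: the windows divided by `p`, for functions like the Moebius function
-/

set_option autoImplicit false
open Finset

namespace Pool.Agent.C4

namespace A2m

open A2 (T)

/-- The estimate in the real numbers. -/
theorem est {s : ℕ} (hs : 3 ≤ s) {p H M x y E : ℝ} (hp : 1 ≤ p) (hM : 1 ≤ M) (hE : 0 ≤ E)
    (h1 : p * M ≤ H) (h2 : H ≤ p * (M + 1)) (hxy : |x - y| ≤ E * (M + 1) ^ (s - 2))
    (hy : |y| ≤ M ^ (s - 1)) :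
    |(p / H) ^ (s - 1) * x - y / M ^ (s - 1)| ≤ (E * 2 ^ (s - 2) + s) * (p / H) := by
  have hM0 : 0 < M := by linarith
  have hp0 : 0 < p := by linarith
  have hH0 : 0 < H := lt_of_lt_of_le (mul_pos hp0 hM0) h1
  have e1 : (p / H) ^ (s - 1) * x - y / M ^ (s - 1) =
      (p / H) ^ (s - 1) * (x - y) + (y / M ^ (s - 1)) * ((p * M / H) ^ (s - 1) - 1) := by
    rw [div_pow, div_pow, mul_pow]
    field_simp
    ring
  have hpH : p / H ≤ 1 := by
    rw [div_le_one hH0]
    nlinarith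
  have h3 : |(p / H) ^ (s - 1) * (x - y)| ≤ E * 2 ^ (s - 2) * (p / H) := by
    rw [abs_mul, abs_of_nonneg (by positivity)]
    have e2 : s - 1 = (s - 2) + 1 := by omega
    calc (p / H) ^ (s - 1) * |x - y| ≤ (p / H) ^ (s - 1) * (E * (M + 1) ^ (s - 2)) := by gcongr
      _ = E * (p / H * (M + 1)) ^ (s - 2) * (p / H) := by rw [e2, pow_succ, mul_pow]; ring
      _ ≤ E * 2 ^ (s - 2) * (p / H) := by
          have h4 : p / H * (M + 1) ≤ 2 := by
            rw [div_mul_eq_mul_div, div_le_iff₀ hH0]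
            nlinarith
          gcongr
  have h5 : |(y / M ^ (s - 1)) * ((p * M / H) ^ (s - 1) - 1)| ≤ s * (p / H) := by
    rw [abs_mul]
    have h6 : |y / M ^ (s - 1)| ≤ 1 := by
      rw [abs_div, abs_of_pos (by positivity : 0 < M ^ (s - 1)), div_le_one (by positivity)]
      exact hy
    have h7 : p * M / H ≤ 1 := by rwa [div_le_one hH0]
    have h8 : 1 - p / H ≤ p * M / H := by
      rw [sub_le_iff_le_add, ← add_div, le_div_iff₀ hH0]
      linarith
    have h9 : |(p * M / H) ^ (s - 1) - 1| ≤ s * (p / H) := by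
      rw [abs_sub_comm, abs_of_nonneg (by
        have := pow_le_one₀ (n := s - 1) (by positivity : 0 ≤ p * M / H) h7
        linarith)]
      have h10 : (1 - p / H) ^ (s - 1) ≤ (p * M / H) ^ (s - 1) :=
        pow_le_pow_left₀ (by linarith) h8 _
      have h11 := one_add_mul_le_pow (a := -(p / H)) (by
        have : 0 ≤ p / H := by positivity
        linarith) (s - 1)
      have h12 : ((s - 1 : ℕ) : ℝ) ≤ s := by exact_mod_cast Nat.sub_le _ _
      have h13 : 0 ≤ p / H := by positivity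
      rw [← sub_eq_add_neg] at h11
      nlinarith
    calc |y / M ^ (s - 1)| * |(p * M / H) ^ (s - 1) - 1| ≤ 1 * (s * (p / H)) :=
          mul_le_mul h6 h9 (abs_nonneg _) (by norm_num)
      _ = _ := one_mul _
  rw [e1]
  refine (abs_add_le _ _).trans ((add_le_add h3 h5).trans (le_of_eq ?_))
  ring

/-- Functions which differ on few elements only. -/
theorem T_diff {s : ℕ} (hs : 3 ≤ s) {f g : ℕ → ℝ} (hf : ∀ n, |f n| ≤ 1) (hg : ∀ n, |g n| ≤ 1)
    (c : Fin s → ℤ) (k : ℤ) (hc : ∀ i, c i ≠ 0) (B : Finset ℕ) (p : ℕ)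
    (hfg : ∀ j, ¬ p ∣ j → f j = g j) :
    |T f c k B - T g c k B| ≤ 2 * s * #(B.filter (p ∣ ·)) * (#B : ℝ) ^ (s - 2) := by
  classical
  unfold T
  rw [← Finset.sum_sub_distrib]
  set Z := (Fintype.piFinset fun _ : Fin s => B).filter (fun j => ∑ i, c i * (j i : ℤ) = k)
    with hZ
  have h1 : ∑ j ∈ Z, (∏ i, f (j i) - ∏ i, g (j i)) =
      ∑ j ∈ Z.filter (fun j => ∃ i, p ∣ j i), (∏ i, f (j i) - ∏ i, g (j i)) := by
    symm
    refine Finset.sum_filter_of_ne fun j _ hne => ?_
    by_contra h2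
    push Not at h2
    apply hne
    rw [sub_eq_zero]
    exact Finset.prod_congr rfl fun i _ => hfg _ (h2 i)
  rw [h1]
  refine (Finset.abs_sum_le_sum_abs _ _).trans ?_
  refine (Finset.sum_le_card_nsmul _ _ 2 fun j _ => ?_).trans ?_
  · refine (abs_sub _ _).trans ?_
    have := A2.abs_prod_le hf j
    have := A2.abs_prod_le hg j
    linarith
  rw [nsmul_eq_mul]
  have h3 : Z.filter (fun j => ∃ i, p ∣ j i) ⊆
      (univ : Finset (Fin s)).biUnion fun i => (B.filter (p ∣ ·)).biUnion fun b =>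
        (Fintype.piFinset fun _ : Fin s => B).filter
        (fun j => ∑ i, c i * (j i : ℤ) = k ∧ j i = b) := by
    intro j hj
    simp only [hZ, Finset.mem_filter, Fintype.mem_piFinset] at hj
    obtain ⟨⟨h4, h5⟩, i, hi⟩ := hj
    simp only [Finset.mem_biUnion, Finset.mem_filter, Fintype.mem_piFinset, mem_univ, true_and]
    exact ⟨i, j i, ⟨h4 i, hi⟩, h4, h5, rfl⟩
  have h4 : #(Z.filter (fun j => ∃ i, p ∣ j i)) ≤ s * (#(B.filter (p ∣ ·)) * #B ^ (s - 2)) := by
    refine (Finset.card_le_card h3).trans (Finset.card_biUnion_le.trans ?_)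
    refine (Finset.sum_le_card_nsmul _ _ (#(B.filter (p ∣ ·)) * #B ^ (s - 2)) fun i _ => ?_).trans ?_
    · refine Finset.card_biUnion_le.trans ?_
      refine (Finset.sum_le_card_nsmul _ _ _ fun b _ => A2.card_edge hs c k hc B b i).trans ?_
      rw [smul_eq_mul]
    · rw [card_univ, Fintype.card_fin, smul_eq_mul]
  have h5 : (#(Z.filter (fun j => ∃ i, p ∣ j i)) : ℝ) ≤
      s * (#(B.filter (p ∣ ·)) * (#B : ℝ) ^ (s - 2)) := by exact_mod_cast h4
  linarith

/-- The number of multiples in an interval. -/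
theorem card_mult (p m M : ℕ) (hp : 0 < p) :
    #((Ioc m (m + M)).filter (p ∣ ·)) ≤ M / p + 1 := by
  have h1 : #((Ioc m (m + M)).filter (p ∣ ·)) ≤ #(Ioc (m / p) ((m + M) / p)) := by
    refine Finset.card_le_card_of_injOn (fun j => j / p) ?_ ?_
    · intro j hj
      simp only [coe_filter, Set.mem_ofPred_eq, Finset.mem_Ioc] at hj
      obtain ⟨⟨h2, h3⟩, t, rfl⟩ := hj
      simp only [Finset.mem_coe, Finset.mem_Ioc, Nat.mul_div_cancel_left _ hp]
      refine ⟨?_, ?_⟩
      · rw [Nat.div_lt_iff_lt_mul hp, mul_comm]; exact h2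
      · rw [Nat.le_div_iff_mul_le hp, mul_comm]; exact h3
    · intro j hj j' hj' e
      simp only [coe_filter, Set.mem_ofPred_eq] at hj hj'
      obtain ⟨_, t, rfl⟩ := hj
      obtain ⟨_, t', rfl⟩ := hj'
      simp only [Nat.mul_div_cancel_left _ hp] at e
      rw [e]
  refine h1.trans ?_
  rw [Nat.card_Ioc, Nat.add_div hp]
  generalize m / p = a
  generalize M / p = b
  split_ifs <;> omega

/-- The Fourier coefficient of `V`. -/
theorem F_V {s : ℕ} (f : ℕ → ℝ) (c : Fin s → ℤ) (k : ℤ) (p n H Q : ℕ) [NeZero Q]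
    (hc : ∑ i, c i = 0) (hp : 0 < p)
    (hQ : p * ((∑ i, (c i).natAbs) * (H + 1) + k.natAbs) < Q) :
    F Q c (p * k) (V Q f p n H) =
      (p : ℂ) ^ s * (T (fun j => f (p * j)) c k (Ioc (n / p) ((n + H) / p)) : ℝ) := by
  classical
  have hV : V Q f p n H = fun x => ∑ h ∈ (Icc 1 H).filter (fun h => p ∣ n + h),
      ((p : ℂ) * (f (n + h) : ℂ)) * ZMod.stdAddChar ((h : ZMod Q) * x) := by
    funext x
    unfold V
    rw [Finset.mul_sum]
    exact Finset.sum_congr rfl fun h _ => by ring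
  rw [hV, A2.ortho]
  · unfold T
    push_cast
    rw [Finset.mul_sum]
    refine Finset.sum_nbij' (fun h i => (n + h i) / p) (fun j i => p * j i - n) ?_ ?_ ?_ ?_ ?_
    · intro h hh
      simp only [Finset.mem_filter, Fintype.mem_piFinset, Finset.mem_Icc, Finset.mem_Ioc] at hh ⊢
      have h1 : ∀ i, p * ((n + h i) / p) = n + h i := fun i => Nat.mul_div_cancel' (hh.1 i).2
      refine ⟨fun i => ⟨?_, ?_⟩, ?_⟩
      · rw [Nat.div_lt_iff_lt_mul hp, mul_comm, h1]
        have := (hh.1 i).1; omega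
      · exact Nat.div_le_div_right (by have := (hh.1 i).1; omega)
      · have hp' : (p : ℤ) ≠ 0 := by exact_mod_cast hp.ne'
        apply mul_left_cancel₀ hp'
        rw [Finset.mul_sum, ← hh.2]
        have h2 : ∀ i, (p : ℤ) * (c i * (((n + h i) / p : ℕ) : ℤ)) = c i * n + c i * (h i : ℤ) := by
          intro i
          have := h1 i
          have h3 : (p : ℤ) * (((n + h i) / p : ℕ) : ℤ) = n + h i := by exact_mod_cast this
          rw [mul_left_comm, h3]; ring
        simp only [h2, Finset.sum_add_distrib]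
        rw [← Finset.sum_mul, hc]; ring
    · intro j hj
      simp only [Finset.mem_filter, Fintype.mem_piFinset, Finset.mem_Icc, Finset.mem_Ioc] at hj ⊢
      have h1 : ∀ i, n < p * j i := fun i => by
        have := (hj.1 i).1
        rw [Nat.div_lt_iff_lt_mul hp, mul_comm] at this
        exact this
      have h2 : ∀ i, p * j i ≤ n + H := fun i => by
        have := (hj.1 i).2
        rw [Nat.le_div_iff_mul_le hp, mul_comm] at this
        exact this
      refine ⟨fun i => ⟨⟨?_, ?_⟩, ?_⟩, ?_⟩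
      · have := h1 i; omega
      · have := h2 i; omega
      · have := h1 i
        rw [show n + (p * j i - n) = p * j i by omega]
        exact dvd_mul_right _ _
      · have h3 : ∀ i, ((p * j i - n : ℕ) : ℤ) = p * (j i : ℤ) - n := fun i => by
          have := h1 i
          push_cast [Nat.cast_sub (show n ≤ p * j i by omega)]
          ring
        simp only [h3, mul_sub, Finset.sum_sub_distrib]
        rw [← Finset.sum_mul, hc, ← hj.2, Finset.mul_sum]
        simp only [zero_mul, sub_zero]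
        exact Finset.sum_congr rfl fun i _ => by ring
    · intro h hh
      simp only [Finset.mem_filter, Fintype.mem_piFinset] at hh
      funext i
      simp only
      rw [Nat.mul_div_cancel' (hh.1 i).2]
      omega
    · intro j hj
      simp only [Finset.mem_filter, Fintype.mem_piFinset, Finset.mem_Ioc] at hj
      funext i
      have := (hj.1 i).1
      rw [Nat.div_lt_iff_lt_mul hp, mul_comm] at this
      simp only
      rw [show n + (p * j i - n) = p * j i by omega, Nat.mul_div_cancel_left _ hp]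
    · intro h hh
      simp only [Finset.mem_filter, Fintype.mem_piFinset, Finset.mem_Icc] at hh
      have h1 : ∀ i, p * ((n + h i) / p) = n + h i := fun i => Nat.mul_div_cancel' (hh.1 i).2
      simp only [h1]
      rw [Finset.prod_mul_distrib, Finset.prod_const, card_univ, Fintype.card_fin]
  · intro h hh
    simp only [Finset.mem_filter, Finset.mem_Icc] at hh
    have h1 : |∑ i, c i * (h i : ℤ)| ≤ (∑ i, ((c i).natAbs : ℤ)) * H := by
      rw [Finset.sum_mul]
      refine (Finset.abs_sum_le_sum_abs _ _).trans (Finset.sum_le_sum fun i _ => ?_)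
      rw [abs_mul, Int.natCast_natAbs, abs_of_nonneg (by positivity : (0 : ℤ) ≤ (h i : ℤ))]
      refine mul_le_mul_of_nonneg_left ?_ (abs_nonneg _)
      exact_mod_cast (hh i).1.2
    have h2 : |(p : ℤ) * k| = p * (k.natAbs : ℤ) := by
      rw [abs_mul, Int.natCast_natAbs, abs_of_nonneg (by positivity : (0 : ℤ) ≤ (p : ℤ))]
    have h3 : (p : ℤ) * ((∑ i, ((c i).natAbs : ℤ)) * (H + 1) + k.natAbs) < Q := by
      exact_mod_cast hQ
    have h4 : (0 : ℤ) ≤ ∑ i, ((c i).natAbs : ℤ) := Finset.sum_nonneg fun i _ => by positivity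
    have h5 : (1 : ℤ) ≤ p := by exact_mod_cast hp
    have h6 := abs_sub (∑ i, c i * (h i : ℤ)) ((p : ℤ) * k)
    have h7 : (∑ i, ((c i).natAbs : ℤ)) * H ≤ p * ((∑ i, ((c i).natAbs : ℤ)) * (H + 1)) := by
      nlinarith [mul_nonneg h4 (by positivity : (0 : ℤ) ≤ (H : ℤ))]
    calc |∑ i, c i * (h i : ℤ) - p * k| ≤ |∑ i, c i * (h i : ℤ)| + |(p : ℤ) * k| := h6
      _ ≤ p * ((∑ i, ((c i).natAbs : ℤ)) * (H + 1)) + p * (k.natAbs : ℤ) := by
          rw [h2]; linarith
      _ < Q := by linarith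

end A2m

/-- Row A2m. -/
theorem rowA2m : A2m_stmt := by
  classical
  intro s hs
  have hs4 : (3 : ℝ) ≤ s := by exact_mod_cast hs
  refine ⟨5 * s * 2 ^ (s - 2) + s, ?_, ?_⟩
  · have h2 : (0 : ℝ) ≤ 5 * s * 2 ^ (s - 2) := by positivity
    linarith
  intro c k f p n H Q _ hc hf hfp hp hpQ hcop hpH hQ
  have hp0 : 0 < p := hp.pos
  have hQ2 : Q ≠ 1 := fun h => by
    rw [h] at hpQ
    exact hp.one_lt.ne' (Nat.dvd_one.1 hpQ)
  have hc0 : ∀ i, c i ≠ 0 := fun i h => by
    have := hcop i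
    rw [h] at this
    simp only [Int.natAbs_zero, Nat.coprime_zero_left] at this
    exact hQ2 this
  have hM1 : 1 ≤ H / p := (Nat.one_le_div_iff hp0).2 hpH
  have hH0 : 0 < H := lt_of_lt_of_le hp0 hpH
  have h1 : p * (H / p) ≤ H := Nat.mul_div_le H p
  have h2 : H < p * (H / p + 1) := Nat.lt_mul_div_succ H hp0
  have hmf : ∀ n, |(fun j => -f j) n| ≤ 1 := fun n => by simpa using hf n
  have hpf : ∀ n, |(fun j => f (p * j)) n| ≤ 1 := fun n => hf _
  -- the interval
  obtain ⟨M', hM', hM'1, hM'2⟩ : ∃ M', (n + H) / p = n / p + M' ∧ H / p ≤ M' ∧ M' ≤ H / p + 1 := by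
    rw [Nat.add_div hp0]
    split_ifs
    · exact ⟨H / p + 1, by omega, by omega, le_rfl⟩
    · exact ⟨H / p, by omega, le_rfl, by omega⟩
  set M : ℝ := ((H / p : ℕ) : ℝ) with hM
  have hMr1 : 1 ≤ M := by rw [hM]; exact_mod_cast hM1
  have hpr : (1 : ℝ) ≤ p := by exact_mod_cast hp0
  have hpr0 : (0 : ℝ) < p := by linarith
  have hHr : (0 : ℝ) < H := by exact_mod_cast hH0
  have h1r : (p : ℝ) * M ≤ H := by rw [hM]; exact_mod_cast h1
  have h2r : (H : ℝ) ≤ p * (M + 1) := by rw [hM]; exact_mod_cast h2.le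
  have hB : (#(Ioc (n / p) (n / p + M')) : ℝ) ≤ M + 1 := by
    rw [Nat.card_Ioc, Nat.add_sub_cancel_left, hM]
    exact_mod_cast hM'2
  have hD : (#((Ioc (n / p) (n / p + M')).filter (p ∣ ·)) : ℝ) ≤ (M + 1) / p + 1 := by
    have h3 := A2m.card_mult p (n / p) M' hp0
    have h4 : ((M' / p + 1 : ℕ) : ℝ) ≤ (M + 1) / p + 1 := by
      push_cast
      have h5 : ((M' / p : ℕ) : ℝ) ≤ (M' : ℝ) / p := Nat.cast_div_le
      have h6 : (M' : ℝ) / p ≤ (M + 1) / p := by
        gcongr
        rw [hM]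
        exact_mod_cast hM'2
      linarith
    exact le_trans (by exact_mod_cast h3) h4
  have hT1 : |A2.T (fun j => f (p * j)) c k (Ioc (n / p) (n / p + M')) -
      A2.T (fun j => - f j) c k (Ioc (n / p) (n / p + M'))| ≤
      2 * s * ((M + 1) / p + 1) * (M + 1) ^ (s - 2) := by
    refine (A2m.T_diff hs hpf hmf c k hc0 _ p (fun j hj => hfp j hj)).trans ?_
    gcongr
  have hT2 : |A2.T (fun j => - f j) c k (Ioc (n / p) (n / p + M')) -
      A2.T (fun j => - f j) c k (Ioc (n / p) (n / p + H / p))| ≤ s * (M + 1) ^ (s - 2) := by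
    rcases (show M' = H / p ∨ M' = H / p + 1 by omega) with h3 | h3
    · rw [h3, sub_self, abs_zero]; positivity
    · rw [h3]
      have h4 : Ioc (n / p) (n / p + (H / p + 1)) =
          insert (n / p + H / p + 1) (Ioc (n / p) (n / p + H / p)) := by
        ext x
        simp only [Finset.mem_insert, Finset.mem_Ioc]
        omega
      rw [h4]
      have h5 := A2.T_insert hs hmf c k hc0 (Ioc (n / p) (n / p + H / p)) (n / p + H / p + 1)
      rwa [Nat.card_Ioc, Nat.add_sub_cancel_left] at h5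
  have hT0 : |A2.T (fun j => - f j) c k (Ioc (n / p) (n / p + H / p))| ≤ M ^ (s - 1) := by
    have h5 := A2.abs_T_le hs hmf c k hc0 (Ioc (n / p) (n / p + H / p))
    rwa [Nat.card_Ioc, Nat.add_sub_cancel_left] at h5
  have hTT : |A2.T (fun j => f (p * j)) c k (Ioc (n / p) (n / p + M')) -
      A2.T (fun j => - f j) c k (Ioc (n / p) (n / p + H / p))| ≤
      (2 * s * ((M + 1) / p + 1) + s) * (M + 1) ^ (s - 2) := by
    have h5 := abs_sub_le (A2.T (fun j => f (p * j)) c k (Ioc (n / p) (n / p + M')))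
      (A2.T (fun j => - f j) c k (Ioc (n / p) (n / p + M')))
      (A2.T (fun j => - f j) c k (Ioc (n / p) (n / p + H / p)))
    rw [add_mul]
    linarith
  have hest := A2m.est hs (p := p) (H := H) (M := M) hpr hMr1 (by positivity) h1r h2r hTT hT0
  -- the constant
  have hcon : ((2 * s * ((M + 1) / p + 1) + s) * 2 ^ (s - 2) + s) * ((p : ℝ) / H) ≤
      (5 * s * 2 ^ (s - 2) + s) * (p / H + 1 / p) := by
    have h3 : (M + 1) / p * ((p : ℝ) / H) ≤ 2 / p := by
      have e1 : (M + 1) / p * ((p : ℝ) / H) = (M + 1) / H := by field_simp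
      rw [e1, div_le_div_iff₀ hHr hpr0]
      nlinarith
    have h4 : 0 ≤ (s : ℝ) * 2 ^ (s - 2) := by positivity
    have h5 : 0 ≤ (p : ℝ) / H := by positivity
    have h6 : 0 ≤ 1 / (p : ℝ) := by positivity
    have e2 : ((2 * s * ((M + 1) / p + 1) + s) * 2 ^ (s - 2) + s) * ((p : ℝ) / H) =
        2 * (s * 2 ^ (s - 2)) * ((M + 1) / p * ((p : ℝ) / H)) +
        3 * (s * 2 ^ (s - 2)) * (p / H) + s * (p / H) := by ring
    rw [e2]
    have h7 : 2 * ((s : ℝ) * 2 ^ (s - 2)) * ((M + 1) / p * ((p : ℝ) / H)) ≤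
        2 * (s * 2 ^ (s - 2)) * (2 / p) := mul_le_mul_of_nonneg_left h3 (by positivity)
    have e3 : (2 : ℝ) / p = 2 * (1 / p) := by ring
    rw [e3] at h7
    nlinarith [mul_nonneg h4 h5, mul_nonneg h4 h6, mul_nonneg (by linarith : (0 : ℝ) ≤ s) h6]
  have hJ : A2.T (fun j => - f j) c k (Ioc (n / p) (n / p + H / p)) =
      (-1) ^ s * A2.T f c k (Ioc (n / p) (n / p + H / p)) := by
    unfold A2.T
    rw [Finset.mul_sum]
    refine Finset.sum_congr rfl fun j _ => ?_
    rw [Finset.prod_neg, card_univ, Fintype.card_fin]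
  rw [A2m.F_V f c k p n H Q hc hp0 hQ, A2.J_eq f c k (n / p) (H / p) hc, hM']
  have e : (p : ℂ) ^ s * ((A2.T (fun j => f (p * j)) c k (Ioc (n / p) (n / p + M')) : ℝ) : ℂ) /
      (p * (H : ℂ) ^ (s - 1)) - (-1) ^ s *
        ((A2.T f c k (Ioc (n / p) (n / p + H / p)) / ((H / p : ℕ) : ℝ) ^ (s - 1) : ℝ) : ℂ) =
      (((p / H : ℝ) ^ (s - 1) * A2.T (fun j => f (p * j)) c k (Ioc (n / p) (n / p + M')) -
        A2.T (fun j => - f j) c k (Ioc (n / p) (n / p + H / p)) / M ^ (s - 1) : ℝ) : ℂ) := by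
    have hpc : (p : ℂ) ≠ 0 := Nat.cast_ne_zero.2 hp0.ne'
    have hHc : (H : ℂ) ≠ 0 := Nat.cast_ne_zero.2 hH0.ne'
    have e2 : (p : ℂ) ^ s = p * p ^ (s - 1) := by
      rw [← pow_succ']
      congr 1
      omega
    rw [e2, hJ, hM]
    push_cast
    rw [div_pow]
    field_simp
  rw [e, Complex.norm_real, Real.norm_eq_abs]
  exact hest.trans hcon

end Pool.Agent.C4
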