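import Pool.Agent.Lib.C4.Defs

/-!
# Row A3: the energy of the windows divided by `p`
-/

set_option autoImplicit false
open Finset

namespace Pool.Agent.C4

namespace A3

theorem V_neg (Q : ℕ) [NeZero Q] (f : ℕ → ℝ) (p n H : ℕ) (t : ZMod Q) :
    V Q f p n H (-t) = (starRingEnd ℂ) (V Q f p n H t) := by
  unfold V
  rw [RingHom.map_mul, map_natCast, map_sum]
  congr 1
  refine Finset.sum_congr rfl fun h _ => ?_
  rw [RingHom.map_mul, Complex.conj_ofReal, mul_neg, AddChar.map_neg_eq_conj]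

theorem F_c0 (Q : ℕ) [NeZero Q] (g : ZMod Q → ℂ) (hg : ∀ t, g (-t) = (starRingEnd ℂ) (g t)) :
    F Q c0 0 g = (((∑ t : ZMod Q, ‖g t‖ ^ 4) / Q : ℝ) : ℂ) := by
  unfold F
  push_cast
  congr 1
  refine Finset.sum_congr rfl fun t _ => ?_
  have h1 : ∏ i, g ((c0 i : ZMod Q) * t) = g t * g t * g (-t) * g (-t) := by
    simp [Fin.prod_univ_four, c0]
  rw [h1, hg]
  have h2 : g t * (starRingEnd ℂ) (g t) = ((‖g t‖ : ℂ)) ^ 2 := by
    rw [Complex.mul_conj, Complex.normSq_eq_norm_sq]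
    push_cast
    ring
  have h3 : g t * g t * (starRingEnd ℂ) (g t) * (starRingEnd ℂ) (g t) =
      (g t * (starRingEnd ℂ) (g t)) ^ 2 := by ring
  rw [h3, h2]
  simp
  ring

end A3

/-- Row A3. -/
theorem rowA3 (hA2 : A2_stmt) : A3_stmt := by
  obtain ⟨K, hK, h⟩ := hA2 4 (by norm_num)
  refine ⟨K, hK, fun f p n H Q _ hf hfp hp hpQ hpH hQ => ?_⟩
  have h1 := h c0 0 f p n H Q (by simp [Fin.sum_univ_four, c0]) hf hfp hp hpQ
    (by intro i; fin_cases i <;> simp [c0]) hpH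
    (by simpa [Fin.sum_univ_four, c0] using hQ)
  have h2 : F Q c0 ((p : ℤ) * 0) (V Q f p n H) / (p * (H : ℂ) ^ (4 - 1)) -
      (-1) ^ 4 * (J f c0 0 (n / p) (H / p) : ℂ) =
      ((eV Q f p n H - J f c0 0 (n / p) (H / p) : ℝ) : ℂ) := by
    rw [mul_zero, A3.F_c0 Q _ (A3.V_neg Q f p n H)]
    unfold eV
    push_cast
    rw [div_div]
    norm_num
  rw [h2, Complex.norm_real, Real.norm_eq_abs] at h1
  exact h1

end Pool.Agent.C4
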