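import Pool.Agent.Lib.C4.Defs2
import Pool.Agent.Lib.C4.A3

/-!
# Row A3m: the energy of the windows divided by `p`, for functions like the Moebius function
-/

set_option autoImplicit false
open Finset

namespace Pool.Agent.C4


/-- Row A3m. -/
theorem rowA3m (hA2m : A2m_stmt) : A3m_stmt := by
  obtain ⟨K, hK, h⟩ := hA2m 4 (by norm_num)
  refine ⟨K, hK, fun f p n H Q _ hf hfp hp hpQ hpH hQ => ?_⟩
  have h1 := h c0 0 f p n H Q (by simp [Fin.sum_univ_four, c0]) hf hfp hp hpQ
    (by intro i; fin_cases i <;> simp [c0]) hpH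
    (by simpa [Fin.sum_univ_four, c0] using hQ)
  have h2 : F Q c0 ((p : ℤ) * 0) (V Q f p n H) / (p * (H : ℂ) ^ (4 - 1)) -
      (-1) ^ 4 * (J f c0 0 (n / p) (H / p) : ℂ) =
      ((eV Q f p n H - J f c0 0 (n / p) (H / p) : ℝ) : ℂ) := by
    rw [mul_zero, A3.F_c0 Q _ (A3.V_neg Q f p n H)]
    unfold eV
    push_cast
    rw [div_div]
    norm_num
  rw [h2, Complex.norm_real, Real.norm_eq_abs] at h1
  exact h1

end Pool.Agent.C4
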