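import Pool.Agent.Lib.C4.Defs

/-! # Row B1: Parseval on the grid -/

set_option autoImplicit false
open Finset

namespace Pool.Agent.C4

open scoped ComplexConjugate

/-- Parseval on the grid for sums over a set of integers below `Q`. -/
theorem parseval (Q : ℕ) [NeZero Q] (H : ℕ) (hH : H < Q) (A : Finset ℕ) (hA : A ⊆ Icc 1 H)
    (a : ℕ → ℂ) :
    ∑ t : ZMod Q, ‖∑ h ∈ A, a h * ZMod.stdAddChar ((h : ZMod Q) * t)‖ ^ 2 =
      Q * ∑ h ∈ A, ‖a h‖ ^ 2 := by
  have key : (((∑ t : ZMod Q, ‖∑ h ∈ A, a h * ZMod.stdAddChar ((h : ZMod Q) * t)‖ ^ 2 : ℝ)) : ℂ) =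
      ((Q * ∑ h ∈ A, ‖a h‖ ^ 2 : ℝ) : ℂ) := by
    push_cast
    have h1 : ∀ t : ZMod Q, (‖∑ h ∈ A, a h * ZMod.stdAddChar ((h : ZMod Q) * t)‖ : ℂ) ^ 2 =
        ∑ h ∈ A, ∑ h' ∈ A, a h * conj (a h') *
          ZMod.stdAddChar (t * ((h : ZMod Q) - (h' : ZMod Q))) := by
      intro t
      rw [← Complex.mul_conj', map_sum, Finset.sum_mul_sum]
      refine Finset.sum_congr rfl fun h _ => Finset.sum_congr rfl fun h' _ => ?_
      have h2 : conj (a h' * ZMod.stdAddChar ((h' : ZMod Q) * t)) =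
          conj (a h') * ZMod.stdAddChar (-((h' : ZMod Q) * t)) := by
        rw [AddChar.map_neg_eq_conj]
        exact map_mul (starRingEnd ℂ) _ _
      have : t * ((h : ZMod Q) - (h' : ZMod Q)) = (h : ZMod Q) * t + -((h' : ZMod Q) * t) := by ring
      rw [h2, this, AddChar.map_add_eq_mul]
      ring
    simp_rw [h1]
    rw [Finset.sum_comm]
    rw [Finset.mul_sum]
    refine Finset.sum_congr rfl fun h hh => ?_
    rw [Finset.sum_comm]
    rw [Finset.sum_eq_single_of_mem h hh]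
    · simp only [sub_self, mul_zero, AddChar.map_zero_eq_one, mul_one, Finset.sum_const,
        Finset.card_univ, ZMod.card, nsmul_eq_mul]
      rw [Complex.mul_conj']
    · intro h' hh' hne
      rw [← Finset.mul_sum, AddChar.sum_mulShift _ (ZMod.isPrimitive_stdAddChar Q), if_neg,
        Nat.cast_zero, mul_zero]
      · rw [sub_eq_zero, ZMod.natCast_eq_natCast_iff', Nat.mod_eq_of_lt, Nat.mod_eq_of_lt]
        · exact fun h => hne h.symm
        · exact lt_of_le_of_lt (Finset.mem_Icc.1 (hA hh')).2 hH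
        · exact lt_of_le_of_lt (Finset.mem_Icc.1 (hA hh)).2 hH
  exact_mod_cast key

/-- The number of multiples of `p` in a window. -/
theorem card_mult (p n H : ℕ) (hp : 1 ≤ p) (hpH : p ≤ H) :
    p * #((Icc 1 H).filter (fun h => p ∣ n + h)) ≤ 2 * H := by
  have h1 : #((Icc 1 H).filter (fun h => p ∣ n + h)) ≤ #(Ioc (n / p) ((n + H) / p)) := by
    apply Finset.card_le_card_of_injOn (fun h => (n + h) / p)
    · intro h hh
      simp only [Finset.coe_filter, Finset.mem_Icc, Set.mem_ofPred_eq] at hh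
      simp only [Finset.coe_Ioc, Set.mem_Ioc]
      constructor
      · obtain ⟨k, hk⟩ := hh.2
        rw [hk, Nat.mul_div_cancel_left k hp]
        rw [Nat.div_lt_iff_lt_mul hp]
        rw [mul_comm k p, ← hk]
        omega
      · exact Nat.div_le_div_right (by omega)
    · intro h hh h' hh' heq
      simp only [Finset.coe_filter, Finset.mem_Icc, Set.mem_ofPred_eq] at hh hh'
      obtain ⟨k, hk⟩ := hh.2
      obtain ⟨k', hk'⟩ := hh'.2
      simp only [hk, hk', Nat.mul_div_cancel_left _ hp] at heq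
      subst heq
      omega
  rw [Nat.card_Ioc] at h1
  have h2 : p * ((n + H) / p) ≤ n + H := Nat.mul_div_le _ _
  have h3 : n < p * (n / p) + p := by
    have := Nat.div_add_mod n p
    have := Nat.mod_lt n hp
    omega
  calc p * #((Icc 1 H).filter (fun h => p ∣ n + h)) ≤ p * ((n + H) / p - n / p) :=
        Nat.mul_le_mul_left p h1
    _ = p * ((n + H) / p) - p * (n / p) := Nat.mul_sub p _ _
    _ ≤ 2 * H := by omega

theorem norm_term_le {Q : ℕ} [NeZero Q] {f : ℕ → ℝ} (hf : ∀ n, |f n| ≤ 1) (m : ℕ) (x : ZMod Q) :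
    ‖(f m : ℂ) * ZMod.stdAddChar x‖ ≤ 1 := by
  rw [norm_mul, AddChar.norm_apply, mul_one, Complex.norm_real, Real.norm_eq_abs]
  exact hf m

theorem norm_sq_le {f : ℕ → ℝ} (hf : ∀ n, |f n| ≤ 1) (m : ℕ) : ‖(f m : ℂ)‖ ^ 2 ≤ 1 := by
  rw [Complex.norm_real, Real.norm_eq_abs]
  exact pow_le_one₀ (abs_nonneg _) (hf m)

theorem rowB1 : B1_stmt := by
  intro f n H Q _ hf hH hHQ
  have hS2 : ∑ t : ZMod Q, ‖S Q f n H t‖ ^ 2 ≤ Q * H := by
    have := parseval Q H hHQ (Icc 1 H) (subset_refl _) (fun h => (f (n + h) : ℂ))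
    simp only [S]
    rw [this]
    apply mul_le_mul_of_nonneg_left _ (Nat.cast_nonneg Q)
    calc ∑ h ∈ Icc 1 H, ‖(f (n + h) : ℂ)‖ ^ 2 ≤ ∑ h ∈ Icc 1 H, (1 : ℝ) :=
          Finset.sum_le_sum fun h _ => norm_sq_le hf _
      _ = H := by simp
  have hH0 : (0 : ℝ) < H := by exact_mod_cast hH
  refine ⟨hS2, ?_, ?_, ?_⟩
  · intro η hη
    classical
    have h1 : (#(Lg Q f η n H) : ℝ) * (η ^ 2 * H) * H ≤ Q * H := by
      refine le_trans ?_ hS2
      calc (#(Lg Q f η n H) : ℝ) * (η ^ 2 * H) * H = ∑ t ∈ Lg Q f η n H, (η * H) ^ 2 := by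
            rw [Finset.sum_const, nsmul_eq_mul]; ring
        _ ≤ ∑ t ∈ Lg Q f η n H, ‖S Q f n H t‖ ^ 2 := by
            apply Finset.sum_le_sum
            intro t ht
            simp only [Lg, Finset.mem_filter, Finset.mem_univ, true_and] at ht
            exact pow_le_pow_left₀ (by positivity) ht 2
        _ ≤ ∑ t : ZMod Q, ‖S Q f n H t‖ ^ 2 :=
            Finset.sum_le_univ_sum_of_nonneg fun t => by positivity
    exact le_of_mul_le_mul_right h1 hH0
  · intro t
    simp only [S]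
    refine le_trans (norm_sum_le _ _) ?_
    calc ∑ h ∈ Icc 1 H, ‖(f (n + h) : ℂ) * ZMod.stdAddChar ((h : ZMod Q) * t)‖
        ≤ ∑ h ∈ Icc 1 H, (1 : ℝ) := Finset.sum_le_sum fun h _ => norm_term_le hf _ _
      _ = H := by simp
  · intro p hp hpH
    have hc : (p : ℝ) * #((Icc 1 H).filter (fun h => p ∣ n + h)) ≤ 2 * H := by
      exact_mod_cast card_mult p n H hp hpH
    constructor
    · have := parseval Q H hHQ ((Icc 1 H).filter (fun h => p ∣ n + h)) (Finset.filter_subset _ _)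
        (fun h => (f (n + h) : ℂ))
      simp only [V, norm_mul, mul_pow, Complex.norm_natCast]
      rw [← Finset.mul_sum, this]
      have h2 : ∑ h ∈ (Icc 1 H).filter (fun h => p ∣ n + h), ‖(f (n + h) : ℂ)‖ ^ 2 ≤
          #((Icc 1 H).filter (fun h => p ∣ n + h)) := by
        calc _ ≤ ∑ h ∈ (Icc 1 H).filter (fun h => p ∣ n + h), (1 : ℝ) :=
              Finset.sum_le_sum fun h _ => norm_sq_le hf _
          _ = _ := by simp
      calc (p : ℝ) ^ 2 * ((Q : ℝ) *
            ∑ h ∈ (Icc 1 H).filter (fun h => p ∣ n + h), ‖(f (n + h) : ℂ)‖ ^ 2)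
          ≤ (p : ℝ) ^ 2 * ((Q : ℝ) * #((Icc 1 H).filter (fun h => p ∣ n + h))) := by gcongr
        _ = (Q : ℝ) * p * ((p : ℝ) * #((Icc 1 H).filter (fun h => p ∣ n + h))) := by ring
        _ ≤ (Q : ℝ) * p * (2 * H) := by gcongr
        _ = 2 * Q * (p * H) := by ring
    · intro t
      simp only [V, norm_mul, Complex.norm_natCast]
      refine le_trans ?_ hc
      apply mul_le_mul_of_nonneg_left _ (Nat.cast_nonneg p)
      refine le_trans (norm_sum_le _ _) ?_
      calc _ ≤ ∑ h ∈ (Icc 1 H).filter (fun h => p ∣ n + h), (1 : ℝ) :=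
            Finset.sum_le_sum fun h _ => norm_term_le hf _ _
        _ = _ := by simp

end Pool.Agent.C4
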