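import Mathlib
import Pool.Agent.Lib.WC86.Stat

/-!
# Linear equations and the logarithmic Chowla conjecture (MP_663568_nt): definitions and row statements

Theorem Q. Let `s ≥ 4`, `c₁, …, c_s ≠ 0` integers with sum zero and `k ≠ 0`. The correlations
`λ(n + h₁) ⋯ λ(n + h_s)`, on average over the solutions `h ∈ {1, …, H}^s` of
`c₁ h₁ + … + c_s h_s = k` and on logarithmic average over `n`, tend to zero on logarithmic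
average over `H`. The paper proof is the note h86_chowla4v2.md.
-/

set_option autoImplicit false
open Finset

namespace Pool.Agent.C4

open Pool.Agent.Lib.MP_663568_nt Pool.Agent.Lib.MP_663568_nt.Katai Pool.Agent.Lib.MP_663568_nt.H6

/-- The Liouville function. -/
noncomputable def lam (n : ℕ) : ℝ := (-1 : ℝ) ^ (ArithmeticFunction.cardFactors n)

/-- The Liouville function with complex values. -/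
noncomputable def lamC (n : ℕ) : ℂ := (lam n : ℂ)

/-- The solutions `h ∈ {1, …, H}^s` of the equation `c · h = k`. -/
noncomputable def Sol {s : ℕ} (c : Fin s → ℤ) (k : ℤ) (H : ℕ) : Finset (Fin s → ℕ) :=
  (Fintype.piFinset fun _ : Fin s => Icc 1 H).filter fun h => ∑ i, c i * (h i : ℤ) = k

/-- The correlations at `n` on average over the solutions of the equation. -/
noncomputable def J {s : ℕ} (f : ℕ → ℝ) (c : Fin s → ℤ) (k : ℤ) (n H : ℕ) : ℝ :=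
  (∑ h ∈ Sol c k H, ∏ i, f (n + h i)) / (H : ℝ) ^ (s - 1)

/-- The logarithmic average. -/
noncomputable def LA (N : ℕ) (g : ℕ → ℝ) : ℝ :=
  (∑ n ∈ Icc 1 N, (1 / (n : ℝ)) * g n) / Real.log N

/-- The sum of the reciprocals. -/
noncomputable def LL (P : Finset ℕ) : ℝ := ∑ p ∈ P, 1 / (p : ℝ)

/-- The coefficients of the additive energy. -/
def c0 : Fin 4 → ℤ := ![1, 1, -1, -1]

section Grid

variable (Q : ℕ) [NeZero Q]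

/-- The exponential sum of the window on the grid of `Q` points. -/
noncomputable def S (f : ℕ → ℝ) (n H : ℕ) (t : ZMod Q) : ℂ :=
  ∑ h ∈ Icc 1 H, (f (n + h) : ℂ) * ZMod.stdAddChar ((h : ZMod Q) * t)

/-- `p` times the part of the exponential sum with `n + h` divisible by `p`. -/
noncomputable def V (f : ℕ → ℝ) (p n H : ℕ) (t : ZMod Q) : ℂ :=
  (p : ℂ) * ∑ h ∈ (Icc 1 H).filter (fun h => p ∣ n + h),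
    (f (n + h) : ℂ) * ZMod.stdAddChar ((h : ZMod Q) * t)

/-- The Fourier coefficient at `k` of `∏ g (c_i t)`. -/
noncomputable def F {s : ℕ} (c : Fin s → ℤ) (k : ℤ) (g : ZMod Q → ℂ) : ℂ :=
  (∑ t : ZMod Q, ZMod.stdAddChar (-(k : ZMod Q) * t) * ∏ i, g ((c i : ZMod Q) * t)) / Q

/-- The elements `u` with `p u = 0`. -/
noncomputable def Tor (p : ℕ) : Finset (ZMod Q) :=
  open Classical in univ.filter fun u => (p : ZMod Q) * u = 0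

/-- The large values of the exponential sum. -/
noncomputable def Lg (f : ℕ → ℝ) (η : ℝ) (n H : ℕ) : Finset (ZMod Q) :=
  open Classical in univ.filter fun t => η * H ≤ ‖S Q f n H t‖

/-- The points whose fibre has no large value. -/
noncomputable def Far (f : ℕ → ℝ) (η : ℝ) (p n H : ℕ) : Finset (ZMod Q) :=
  open Classical in univ.filter fun t => ∀ u ∈ Tor Q p, t + u ∉ Lg Q f η n H

/-- The energy of the window. -/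
noncomputable def eS (f : ℕ → ℝ) (n H : ℕ) : ℝ :=
  (∑ t : ZMod Q, ‖S Q f n H t‖ ^ 4) / (Q * (H : ℝ) ^ 3)

/-- The energy of `V`. -/
noncomputable def eV (f : ℕ → ℝ) (p n H : ℕ) : ℝ :=
  (∑ t : ZMod Q, ‖V Q f p n H t‖ ^ 4) / (Q * (p * (H : ℝ) ^ 3))

/-- The energy of `V` far from the large values. -/
noncomputable def Out (f : ℕ → ℝ) (η : ℝ) (p n H : ℕ) : ℝ :=
  (∑ t ∈ Far Q f η p n H, ‖V Q f p n H t‖ ^ 4) / (Q * (p * (H : ℝ) ^ 3))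

end Grid

/-- The primes in use: all between `P₀` and `P₁`, and `H` large. -/
def Ok (P : Finset ℕ) (P₀ P₁ H : ℕ) : Prop :=
  1 ≤ P₀ ∧ (∀ p ∈ P, p.Prime ∧ P₀ ≤ p ∧ p ≤ P₁) ∧ (1 + 2 * P.card) * P₁ ≤ H ∧ P₁ ^ 2 ≤ H

/-- The error term. -/
noncomputable def Err (P : Finset ℕ) (P₀ : ℕ) (η : ℝ) : ℝ :=
  η * LL P + √(LL P) / η ^ 2 + 1 / (η ^ 4 * P₀)

/-! ### The rows -/

/-- Row A1: the Fourier coefficient counts the solutions. -/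
def A1_stmt : Prop := ∀ (s : ℕ) (c : Fin s → ℤ) (k : ℤ) (f : ℕ → ℝ) (n H Q : ℕ) [NeZero Q],
  (∑ i, (c i).natAbs) * H + k.natAbs < Q →
  F Q c k (S Q f n H) = ((∑ h ∈ Sol c k H, ∏ i, f (n + h i) : ℝ) : ℂ)

/-- Row A0: bounds for `J`. -/
def A0_stmt : Prop := ∀ f : ℕ → ℝ, (∀ n, |f n| ≤ 1) →
  (∀ (s : ℕ) (c : Fin s → ℤ) (k : ℤ) (n H : ℕ), 1 ≤ s → (∀ i, c i ≠ 0) → |J f c k n H| ≤ 1) ∧
  (∀ (s : ℕ) (c : Fin s → ℤ) (k : ℤ) (n : ℕ), 1 ≤ s → J f c k n 0 = 0) ∧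
  (∀ n H Q : ℕ, ∀ [NeZero Q], 4 * H < Q → J f c0 0 n H = eS Q f n H) ∧
  (∀ n H, 0 ≤ J f c0 0 n H)

/-- Row A2: the windows divided by `p`. -/
def A2_stmt : Prop := ∀ s : ℕ, 3 ≤ s → ∃ K : ℝ, 1 ≤ K ∧ ∀ (c : Fin s → ℤ) (k : ℤ) (f : ℕ → ℝ)
  (p n H Q : ℕ) [NeZero Q], ∑ i, c i = 0 → (∀ n, |f n| ≤ 1) →
  (∀ j, 1 ≤ j → f (p * j) = - f j) → p.Prime → p ∣ Q → (∀ i, (c i).natAbs.Coprime Q) → p ≤ H →
  p * ((∑ i, (c i).natAbs) * (H + 1) + k.natAbs) < Q →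
  ‖F Q c (p * k) (V Q f p n H) / (p * (H : ℂ) ^ (s - 1)) -
    (-1) ^ s * (J f c k (n / p) (H / p) : ℂ)‖ ≤ K * p / H

/-- Row A3: the energy of the windows divided by `p`. -/
def A3_stmt : Prop := ∃ K : ℝ, 1 ≤ K ∧ ∀ (f : ℕ → ℝ) (p n H Q : ℕ) [NeZero Q],
  (∀ n, |f n| ≤ 1) → (∀ j, 1 ≤ j → f (p * j) = - f j) → p.Prime → p ∣ Q → p ≤ H →
  p * (4 * (H + 1)) < Q →
  |eV Q f p n H - J f c0 0 (n / p) (H / p)| ≤ K * p / H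

/-- Row B1: Parseval. -/
def B1_stmt : Prop := ∀ (f : ℕ → ℝ) (n H Q : ℕ) [NeZero Q], (∀ n, |f n| ≤ 1) → 1 ≤ H → H < Q →
  (∑ t : ZMod Q, ‖S Q f n H t‖ ^ 2 ≤ Q * H) ∧
  (∀ η : ℝ, 0 < η → (#(Lg Q f η n H) : ℝ) * (η ^ 2 * H) ≤ Q) ∧
  (∀ t, ‖S Q f n H t‖ ≤ H) ∧
  (∀ p : ℕ, 1 ≤ p → p ≤ H → (∑ t : ZMod Q, ‖V Q f p n H t‖ ^ 2 ≤ 2 * Q * (p * H)) ∧
    ∀ t, ‖V Q f p n H t‖ ≤ 2 * H)

/-- Row B2: the large sieve for the translates by the fractions with denominators in `P`. -/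
def B2_stmt : Prop := ∀ (P : Finset ℕ) (P₀ P₁ : ℕ) (f : ℕ → ℝ) (n H Q : ℕ) [NeZero Q],
  Ok P P₀ P₁ H → (∀ n, |f n| ≤ 1) → (∀ p ∈ P, p ∣ Q) → ∀ η : ℝ, 0 < η → ∀ y : ZMod Q,
  ∑ p ∈ P, (#((Tor Q p).filter fun u => u ≠ 0 ∧ y + u ∈ Lg Q f η n H) : ℝ) ≤ 17 / η ^ 2

/-- Row B3: the dual Turan-Kubilius inequality. -/
def B3_stmt : Prop := ∀ (P : Finset ℕ) (P₀ P₁ : ℕ) (f : ℕ → ℝ) (n H Q : ℕ) [NeZero Q],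
  Ok P P₀ P₁ H → (∀ n, |f n| ≤ 1) → ∀ t : ZMod Q,
  ∑ p ∈ P, (1 / (p : ℝ)) * ‖V Q f p n H t - S Q f n H t‖ ≤ √(2 * LL P) * H

/-- Row B4: the torsion points. -/
def B4_stmt : Prop := ∀ (p Q : ℕ) [NeZero Q], p.Prime → p ∣ Q →
  #(Tor Q p) = p ∧
  (∀ (f : ℕ → ℝ) (n H : ℕ) (t : ZMod Q), ∀ u ∈ Tor Q p,
    V Q f p n H (t + u) = ZMod.stdAddChar (-((n : ZMod Q) * u)) * V Q f p n H t) ∧
  (∀ a : ℤ, a.natAbs.Coprime Q → ∀ u, (a : ZMod Q) * u ∈ Tor Q p ↔ u ∈ Tor Q p) ∧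
  (∀ a : ℤ, a.natAbs.Coprime Q → Function.Bijective fun t : ZMod Q => (a : ZMod Q) * t)

/-- Row M1: the energy of `V` far from the large values. -/
def M1_stmt : Prop := ∃ K : ℝ, 1 ≤ K ∧ ∀ (P : Finset ℕ) (P₀ P₁ : ℕ) (f : ℕ → ℝ) (n H Q : ℕ)
  [NeZero Q], Ok P P₀ P₁ H → (∀ n, |f n| ≤ 1) → (∀ p ∈ P, p ∣ Q) → H < Q →
  ∀ η : ℝ, 0 < η → η ≤ 1 →
  ∑ p ∈ P, (1 / (p : ℝ)) * Out Q f η p n H ≤
    ∑ p ∈ P, (1 / (p : ℝ)) * (eV Q f p n H - eS Q f n H) + K * Err P P₀ η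

/-- Row M2: comparison of the Fourier coefficients. -/
def M2_stmt : Prop := ∀ s : ℕ, 3 ≤ s → ∃ K : ℝ, 1 ≤ K ∧ ∀ (P : Finset ℕ) (P₀ P₁ : ℕ)
  (f : ℕ → ℝ) (n H Q : ℕ) [NeZero Q], Ok P P₀ P₁ H → (∀ n, |f n| ≤ 1) → (∀ p ∈ P, p ∣ Q) →
  H < Q → ∀ (c : Fin s → ℤ) (k : ℤ), ∑ i, c i = 0 → (∀ i, (c i).natAbs.Coprime Q) →
  ∀ η θ : ℝ, 0 < η → η ≤ 1 → 0 < θ → θ ≤ 1 →
  ∑ p ∈ P, (1 / (p : ℝ)) * ‖F Q c (p * k) (V Q f p n H) / (p * (H : ℂ) ^ (s - 1)) -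
      F Q c (p * k) (S Q f n H) / (H : ℂ) ^ (s - 1)‖ ≤
    K * (1 / θ ^ 3 * ∑ p ∈ P, (1 / (p : ℝ)) * Out Q f η p n H + θ * LL P + Err P P₀ η)

/-- Row D: logarithmic averages and division by `p`. -/
def D_stmt : Prop :=
  (∀ (N : ℕ) (g : ℕ → ℝ) (B : ℝ), (∀ n, |g n| ≤ B) → |LA N g| ≤ 3 * B) ∧
  ∃ K : ℝ, 1 ≤ K ∧ ∀ (N p : ℕ) (g : ℕ → ℝ) (B : ℝ), (∀ n, |g n| ≤ B) → 1 ≤ p → 2 ≤ N →
    |LA N (fun n => g (n / p)) - LA N g| ≤ K * B * (1 + Real.log p) / Real.log N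

/-- Row W0: the Liouville function is a sum of Moebius functions. -/
def W0_stmt : Prop := ∀ m : ℕ, 1 ≤ m → ∀ D : ℕ, m ≤ D →
  lamC m = ∑ d ∈ Icc 1 D, if d ^ 2 ∣ m then WC86.mu (m / d ^ 2) else 0

/-- Row W1: the frequencies in a set. -/
def W1_stmt : Prop := ∀ δ : ℝ, 0 < δ → ∃ D C : ℕ, ∀ R : ℝ, 1 ≤ R → ∃ H₀ : ℕ, ∀ H N : ℕ,
  H₀ ≤ H → H ^ C ≤ N → ∀ A : Set ℝ,
  ∑ n ∈ Icc 1 N, (1 / (n : ℝ)) * GS WC86.lin lamC A H n ≤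
    (∑ d ∈ Icc 1 D, (1 / (d : ℝ) ^ 2) *
      √(WC86.outer {x | ∃ a ∈ A, x = (d : ℝ) ^ 2 * a} R) + δ) * H * Real.log N

/-- Row W2: the measure of a level set. -/
def W2_stmt : Prop := ∀ (P : Finset ℕ) (k m : ℤ) (κ : ℝ), (∀ p ∈ P, 1 ≤ p) → k ≠ 0 → m ≠ 0 →
  0 < κ → ∃ R : ℝ, 1 ≤ R ∧ ∀ w : ℕ → ℂ, (∀ p, ‖w p‖ ≤ 1 / (p : ℝ)) →
  WC86.outer {x | ∃ y : ℝ, κ ≤ ‖∑ p ∈ P, w p * ee ((p : ℝ) * k * y)‖ ∧ x = (m : ℝ) * y} R ≤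
    4 * |(m : ℝ)| / κ ^ 2 * ∑ p ∈ P, 1 / (p : ℝ) ^ 2

/-- Row W3: the Fourier coefficients at the multiples `p k` are small on average. -/
def W3_stmt : Prop := ∀ (s : ℕ) (c : Fin s → ℤ) (k : ℤ) (δ : ℝ), 4 ≤ s → (∀ i, c i ≠ 0) →
  k ≠ 0 → 0 < δ → ∃ P₀ C : ℕ, ∀ P : Finset ℕ, (∀ p ∈ P, P₀ ≤ p) → 1 ≤ LL P →
  ∃ H₀ : ℕ, ∀ H N : ℕ, H₀ ≤ H → H ^ C ≤ N →
  ∑ p ∈ P, (1 / (p : ℝ)) * |LA N fun n => J lam c (p * k) n H| ≤ δ * LL P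

/-- Row P: finite sets of primes with a large sum of reciprocals. -/
def P_stmt : Prop := ∀ (P₀ : ℕ) (L : ℝ), ∃ P : Finset ℕ, (∀ p ∈ P, p.Prime ∧ P₀ ≤ p) ∧ L ≤ LL P

/-- Row E: the inequality for one `H`. -/
def E_stmt : Prop := ∀ (s : ℕ) (c : Fin s → ℤ) (k : ℤ) (δ : ℝ), 4 ≤ s → (∀ i, c i ≠ 0) →
  ∑ i, c i = 0 → k ≠ 0 → 0 < δ →
  ∃ K : ℝ, 1 ≤ K ∧ ∃ P : Finset ℕ, P.Nonempty ∧ (∀ p ∈ P, 2 ≤ p) ∧ ∃ C H₀ : ℕ, ∀ H N : ℕ,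
    H₀ ≤ H → H ^ C ≤ N →
    ∑ p ∈ P, (1 / (p : ℝ)) * |LA N fun n => J lam c k n (H / p)| ≤
      δ * LL P + K * ∑ p ∈ P, (1 / (p : ℝ)) *
        ((LA N fun n => J lam c0 0 n (H / p)) - LA N fun n => J lam c0 0 n H)

/-- Row G: the sum over `H`. -/
def G_stmt : Prop := ∀ R e : ℕ → ℕ → ℝ, (∀ N H, 0 ≤ R N H ∧ R N H ≤ 3) →
  (∀ N H, 0 ≤ e N H ∧ e N H ≤ 3) → (∀ N, e N 0 = 0) →
  (∀ δ : ℝ, 0 < δ → ∃ K : ℝ, 1 ≤ K ∧ ∃ P : Finset ℕ, P.Nonempty ∧ (∀ p ∈ P, 2 ≤ p) ∧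
    ∃ C H₀ : ℕ, ∀ H N : ℕ, H₀ ≤ H → H ^ C ≤ N →
    ∑ p ∈ P, (1 / (p : ℝ)) * R N (H / p) ≤
      δ * LL P + K * ∑ p ∈ P, (1 / (p : ℝ)) * (e N (H / p) - e N H)) →
  ∀ ε : ℝ, 0 < ε → ∃ C X₀ : ℕ, ∀ X N : ℕ, X₀ ≤ X → X ^ C ≤ N →
    ∑ H ∈ Icc 1 X, R N H / H ≤ ε * Real.log X

end Pool.Agent.C4
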