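import Mathlib
import Pool.Agent.Lib.C4.Defs
import Pool.Agent.Lib.ES.LS

/-! C4, row B2: the large sieve for the translates by the fractions with denominators in `P`. -/

set_option autoImplicit false
open Finset

namespace Pool.Agent.C4

/-- the nonzero torsion points are the multiples of `Q / p` -/
theorem tor_eq (p Q : ℕ) [NeZero Q] (hp : p.Prime) (hpQ : p ∣ Q) (u : ZMod Q)
    (hu : u ∈ Tor Q p) (hu0 : u ≠ 0) :
    ∃ j ∈ (range p).filter (fun j => Nat.Coprime j p), ((j * (Q / p) : ℕ) : ZMod Q) = u := by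
  classical
  have hQ : 0 < Q := Nat.pos_of_ne_zero (NeZero.ne Q)
  have h1 : (p : ZMod Q) * u = 0 := by
    unfold Tor at hu
    simpa using hu
  obtain ⟨m, hm⟩ := hpQ
  have hm0 : 0 < m := by
    rcases Nat.eq_zero_or_pos m with h | h
    · subst h; omega
    · exact h
  have hQp : Q / p = m := by
    rw [hm, Nat.mul_div_cancel_left _ hp.pos]
  have h2 : ((p * u.val : ℕ) : ZMod Q) = 0 := by
    push_cast
    rw [ZMod.natCast_zmod_val]
    exact h1
  rw [ZMod.natCast_eq_zero_iff] at h2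
  have h3 : m ∣ u.val := by
    have h4 : p * m ∣ p * u.val := by rw [← hm]; exact h2
    exact Nat.dvd_of_mul_dvd_mul_left hp.pos h4
  obtain ⟨j, hj⟩ := h3
  have hlt : u.val < Q := ZMod.val_lt u
  have hjp : j < p := by
    have h5 : m * j < m * p := by
      rw [← hj, Nat.mul_comm m p, ← hm]; exact hlt
    exact Nat.lt_of_mul_lt_mul_left h5
  have hj0 : j ≠ 0 := by
    intro h
    apply hu0
    rw [h, Nat.mul_zero] at hj
    rwa [ZMod.val_eq_zero] at hj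
  refine ⟨j, ?_, ?_⟩
  · rw [mem_filter, mem_range]
    exact ⟨hjp, (Nat.Coprime.symm ((Nat.Prime.coprime_iff_not_dvd hp).2
      (Nat.not_dvd_of_pos_of_lt (Nat.pos_of_ne_zero hj0) hjp)))⟩
  · rw [hQp, Nat.mul_comm, ← hj, ZMod.natCast_zmod_val]

/-- the character at a multiple of `Q / p` -/
theorem char_tor (p Q : ℕ) [NeZero Q] (hp : p.Prime) (hpQ : p ∣ Q) (h j : ℕ) :
    (ZMod.stdAddChar ((h : ZMod Q) * ((j * (Q / p) : ℕ) : ZMod Q)) : ℂ) =
      ES.e ((h : ℝ) * j / p) := by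
  obtain ⟨m, hm⟩ := hpQ
  have hQp : Q / p = m := by
    rw [hm, Nat.mul_div_cancel_left _ hp.pos]
  have hm0 : (m : ℂ) ≠ 0 := by
    intro h
    apply NeZero.ne Q
    have : m = 0 := by exact_mod_cast h
    rw [hm, this, Nat.mul_zero]
  have hp1 : (p : ℂ) ≠ 0 := by exact_mod_cast hp.ne_zero
  rw [hQp]
  have h1 : ((h : ZMod Q) * ((j * m : ℕ) : ZMod Q)) = (((h * (j * m) : ℕ) : ℤ) : ZMod Q) := by
    push_cast
    ring
  rw [h1, ZMod.stdAddChar_coe]
  unfold ES.e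
  congr 1
  have hQc : (Q : ℂ) = p * m := by rw [hm]; push_cast; ring
  rw [hQc]
  push_cast
  field_simp

/-- the window at a translate by a torsion point -/
theorem S_tor (f : ℕ → ℝ) (n H p Q : ℕ) [NeZero Q] (hp : p.Prime) (hpQ : p ∣ Q) (y : ZMod Q)
    (j : ℕ) :
    ‖S Q f n H (y + ((j * (Q / p) : ℕ) : ZMod Q))‖ =
      ‖∑ i ∈ range H, ((f (n + (i + 1)) : ℂ) *
        ZMod.stdAddChar (((i + 1 : ℕ) : ZMod Q) * y)) * ES.e ((i : ℝ) * j / p)‖ := by
  have h1 : S Q f n H (y + ((j * (Q / p) : ℕ) : ZMod Q)) = ES.e ((j : ℝ) / p) *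
      ∑ i ∈ range H, ((f (n + (i + 1)) : ℂ) *
        ZMod.stdAddChar (((i + 1 : ℕ) : ZMod Q) * y)) * ES.e ((i : ℝ) * j / p) := by
    unfold S
    have h2 : Icc 1 H = Ico 1 (H + 1) := by
      ext z
      rw [mem_Icc, mem_Ico]
      omega
    rw [h2, sum_Ico_eq_sum_range, Nat.add_sub_cancel, mul_sum]
    refine sum_congr rfl fun i _ => ?_
    rw [mul_add, AddChar.map_add_eq_mul, char_tor p Q hp hpQ, Nat.add_comm 1 i]
    have h3 : ((i + 1 : ℕ) : ℝ) * j / p = (j : ℝ) / p + (i : ℝ) * j / p := by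
      push_cast
      ring
    rw [h3, ES.e_add]
    ring
  rw [h1, norm_mul, ES.norm_e, one_mul]

/-- **Row B2.** -/
theorem rowB2 : B2_stmt := by
  classical
  intro P P₀ P₁ f n H Q _ hOk hf hdvd η hη y
  obtain ⟨hP0, hP, hH1, hH2⟩ := hOk
  rcases P.eq_empty_or_nonempty with hPe | ⟨p0, hp0⟩
  · subst hPe
    rw [sum_empty]
    positivity
  have hP1 : 1 ≤ P₁ := le_trans hP0 (le_trans (hP p0 hp0).2.1 (hP p0 hp0).2.2)
  have hHpos : 1 ≤ H := le_trans (Nat.one_le_pow 2 P₁ hP1) hH2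
  have hHr : (1 : ℝ) ≤ H := by exact_mod_cast hHpos
  set b : ℕ → ℂ := fun i => (f (n + (i + 1)) : ℂ) *
    ZMod.stdAddChar (((i + 1 : ℕ) : ZMod Q) * y) with hb
  have hbn : ∀ i, ‖b i‖ ^ 2 ≤ 1 := by
    intro i
    have h1 : ‖b i‖ ≤ 1 := by
      simp only [hb]
      rw [norm_mul, AddChar.norm_apply, mul_one, Complex.norm_real, Real.norm_eq_abs]
      exact hf _
    nlinarith [norm_nonneg (b i)]
  have hbs : ∑ i ∈ range H, ‖b i‖ ^ 2 ≤ H := by
    calc ∑ i ∈ range H, ‖b i‖ ^ 2 ≤ ∑ i ∈ range H, (1 : ℝ) := sum_le_sum fun i _ => hbn i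
      _ = H := by simp
  set G : ℕ → ℝ := fun q => ∑ h ∈ (range q).filter (fun h => Nat.Coprime h q),
      ‖∑ i ∈ range H, b i * ES.e ((i : ℝ) * h / q)‖ ^ 2 with hG
  have hG0 : ∀ q, 0 ≤ G q := fun q => sum_nonneg fun _ _ => by positivity
  have hsieve : ∑ q ∈ Icc 1 P₁, G q ≤ (16 * H + (P₁ : ℝ) ^ 2) * H := by
    refine le_trans (ES.large_sieve H P₁ hP1 b) ?_
    exact mul_le_mul_of_nonneg_left hbs (by positivity)
  have hsub : ∑ p ∈ P, G p ≤ ∑ q ∈ Icc 1 P₁, G q := by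
    refine sum_le_sum_of_subset_of_nonneg ?_ fun q _ _ => hG0 q
    intro p hp
    rw [mem_Icc]
    exact ⟨(hP p hp).1.one_le, (hP p hp).2.2⟩
  have hone : ∀ p ∈ P, (#((Tor Q p).filter fun u => u ≠ 0 ∧ y + u ∈ Lg Q f η n H) : ℝ) *
      (η * H) ^ 2 ≤ G p := by
    intro p hp
    have hpp := (hP p hp).1
    have hpQ := hdvd p hp
    set J : Finset ℕ := ((range p).filter (fun h => Nat.Coprime h p)).filter
      (fun j => y + ((j * (Q / p) : ℕ) : ZMod Q) ∈ Lg Q f η n H) with hJ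
    have h1 : ((Tor Q p).filter fun u => u ≠ 0 ∧ y + u ∈ Lg Q f η n H) ⊆
        J.image (fun j => ((j * (Q / p) : ℕ) : ZMod Q)) := by
      intro u hu
      rw [mem_filter] at hu
      obtain ⟨hu1, hu2, hu3⟩ := hu
      obtain ⟨j, hj, hju⟩ := tor_eq p Q hpp hpQ u hu1 hu2
      rw [mem_image]
      refine ⟨j, ?_, hju⟩
      rw [hJ, mem_filter]
      refine ⟨hj, ?_⟩
      rw [hju]
      exact hu3
    have h2 : #((Tor Q p).filter fun u => u ≠ 0 ∧ y + u ∈ Lg Q f η n H) ≤ #J :=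
      le_trans (card_le_card h1) card_image_le
    have h2r : (#((Tor Q p).filter fun u => u ≠ 0 ∧ y + u ∈ Lg Q f η n H) : ℝ) ≤ #J := by
      exact_mod_cast h2
    have h3 : (#J : ℝ) * (η * H) ^ 2 ≤ G p := by
      calc (#J : ℝ) * (η * H) ^ 2 = ∑ j ∈ J, (η * H) ^ 2 := by rw [sum_const, nsmul_eq_mul]
        _ ≤ ∑ j ∈ J, ‖∑ i ∈ range H, b i * ES.e ((i : ℝ) * j / p)‖ ^ 2 := by
            refine sum_le_sum fun j hj => ?_
            rw [hJ, mem_filter] at hj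
            have h4 := hj.2
            have h5 : η * H ≤ ‖S Q f n H (y + ((j * (Q / p) : ℕ) : ZMod Q))‖ := by
              unfold Lg at h4
              simpa using h4
            rw [S_tor f n H p Q hpp hpQ y j] at h5
            exact pow_le_pow_left₀ (by positivity) h5 2
        _ ≤ G p := by
            refine sum_le_sum_of_subset_of_nonneg (filter_subset _ _) fun _ _ _ => by positivity
    exact le_trans (mul_le_mul_of_nonneg_right h2r (by positivity)) h3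
  have hP1H : (P₁ : ℝ) ^ 2 ≤ H := by exact_mod_cast hH2
  have htot : (∑ p ∈ P, (#((Tor Q p).filter fun u => u ≠ 0 ∧ y + u ∈ Lg Q f η n H) : ℝ)) *
      (η * H) ^ 2 ≤ 17 * (H : ℝ) ^ 2 := by
    rw [sum_mul]
    calc ∑ p ∈ P, (#((Tor Q p).filter fun u => u ≠ 0 ∧ y + u ∈ Lg Q f η n H) : ℝ) *
        (η * H) ^ 2 ≤ ∑ p ∈ P, G p := sum_le_sum hone
      _ ≤ (16 * H + (P₁ : ℝ) ^ 2) * H := le_trans hsub hsieve
      _ ≤ (16 * H + H) * H := by
          refine mul_le_mul_of_nonneg_right ?_ (by positivity)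
          linarith
      _ = 17 * (H : ℝ) ^ 2 := by ring
  rw [le_div_iff₀ (by positivity)]
  have hH2pos : (0 : ℝ) < (H : ℝ) ^ 2 := by positivity
  have h6 : ((∑ p ∈ P, (#((Tor Q p).filter fun u => u ≠ 0 ∧ y + u ∈ Lg Q f η n H) : ℝ)) *
      η ^ 2) * (H : ℝ) ^ 2 ≤ 17 * (H : ℝ) ^ 2 := by
    calc _ = (∑ p ∈ P, (#((Tor Q p).filter fun u => u ≠ 0 ∧ y + u ∈ Lg Q f η n H) : ℝ)) *
        (η * H) ^ 2 := by ring
      _ ≤ _ := htot
  exact le_of_mul_le_mul_right h6 hH2pos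

end Pool.Agent.C4
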