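import Pool.Agent.Lib.C4.Defs
import Pool.Agent.Lib.MP_663568_nul.TKD

/-!
# Row B3: the dual Turan-Kubilius inequality on the grid.  helper15
-/

set_option autoImplicit false
open Finset

namespace Pool.Agent.C4

open Pool.Agent.Lib.MP_663568_nt Pool.Agent.Lib.MP_663568_nt.Katai Pool.Agent.Lib.MP_663568_nt.H6

theorem rowB3 : B3_stmt := by
  intro P P₀ P₁ f n H Q _ hok hf t
  obtain ⟨-, hP, hH, -⟩ := hok
  set g : ℕ → ℂ := fun m => (f m : ℂ) * ZMod.stdAddChar (((m : ZMod Q) - (n : ZMod Q)) * t) with hg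
  have hg1 : ∀ m, ‖g m‖ ≤ 1 := by
    intro m
    rw [hg]
    simp only [norm_mul, AddChar.norm_apply, mul_one, Complex.norm_real, Real.norm_eq_abs]
    exact hf m
  have hgn : ∀ h : ℕ, g (n + h) = (f (n + h) : ℂ) * ZMod.stdAddChar ((h : ZMod Q) * t) := by
    intro h
    rw [hg]
    simp only
    congr 3
    push_cast
    ring
  have hS : ∑ m ∈ Ioc n (n + H), g m = S Q f n H t := by
    rw [← icc_ioc]
    exact sum_congr rfl fun h _ => hgn h
  have hV : ∀ p : ℕ, (p : ℂ) * ∑ m ∈ Ioc n (n + H), (if p ∣ m then g m else 0) =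
      V Q f p n H t := by
    intro p
    rw [← icc_ioc (fun m => if p ∣ m then g m else 0), ← sum_filter]
    unfold V
    congr 1
    exact sum_congr rfl fun h _ => hgn h
  have h1 := Nul.tk_dual P (fun p hp => (hP p hp).1) n H (P₁ : ℝ)
    (fun p hp => by exact_mod_cast (hP p hp).2.2) (by exact_mod_cast hH) g hg1
  simp only [hV, hS] at h1
  have h2 : (∑ p ∈ P, (1 / (p : ℝ)) * ‖V Q f p n H t - S Q f n H t‖) ^ 2 ≤
      (∑ p ∈ P, 1 / (p : ℝ)) *
        ∑ p ∈ P, (1 / (p : ℝ)) * ‖V Q f p n H t - S Q f n H t‖ ^ 2 := by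
    refine sum_sq_le_sum_mul_sum_of_sq_eq_mul P (fun p _ => by positivity)
      (fun p _ => by positivity) fun p _ => ?_
    ring
  have hL : 0 ≤ LL P := sum_nonneg fun p _ => by positivity
  have h3 : (∑ p ∈ P, (1 / (p : ℝ)) * ‖V Q f p n H t - S Q f n H t‖) ^ 2 ≤
      (√(2 * LL P) * H) ^ 2 := by
    rw [mul_pow, Real.sq_sqrt (by positivity)]
    calc _ ≤ _ := h2
      _ ≤ LL P * (2 * (H : ℝ) ^ 2) := mul_le_mul_of_nonneg_left h1 hL
      _ = _ := by ring
  exact le_of_sq_le_sq h3 (by positivity)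

end Pool.Agent.C4
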