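import Pool.Agent.Lib.C4.Defs

/-!
# Row B4: the torsion points.  helper15
-/

set_option autoImplicit false
open Finset

namespace Pool.Agent.C4

open Pool.Agent.Lib.MP_663568_nt Pool.Agent.Lib.MP_663568_nt.Katai Pool.Agent.Lib.MP_663568_nt.H6

theorem B4_unit {Q : ℕ} {a : ℤ} (ha : a.natAbs.Coprime Q) : IsUnit (a : ZMod Q) := by
  rw [ZMod.coe_int_isUnit_iff_isCoprime, isCoprime_comm, Int.isCoprime_iff_gcd_eq_one,
    Int.gcd_eq_natAbs_gcd_natAbs]
  simpa using ha

theorem B4_mem {Q : ℕ} [NeZero Q] {p : ℕ} {u : ZMod Q} : u ∈ Tor Q p ↔ (p : ZMod Q) * u = 0 := by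
  unfold Tor
  rw [mem_filter]
  exact and_iff_right (mem_univ u)

theorem rowB4 : B4_stmt := by
  intro p Q _ hp hpQ
  refine ⟨?_, ?_, ?_, ?_⟩
  · have h1 := IsAddCyclic.card_nsmulAddMonoidHom_ker (ZMod Q) p
    rw [Nat.card_zmod, Nat.gcd_eq_right hpQ] at h1
    refine Eq.trans ?_ h1
    refine (Nat.subtype_card (Tor Q p) fun u => ?_).symm
    rw [B4_mem, AddMonoidHom.mem_ker, ← nsmul_eq_mul]
    rfl
  · intro f n H t u hu
    rw [B4_mem] at hu
    unfold V
    rw [mul_left_comm]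
    congr 1
    rw [mul_sum]
    refine sum_congr rfl fun h hh => ?_
    rw [mem_filter] at hh
    obtain ⟨j, hj⟩ := hh.2
    have h1 : (h : ZMod Q) * u = -((n : ZMod Q) * u) := by
      have h2 : ((n + h : ℕ) : ZMod Q) * u = 0 := by
        rw [hj]
        push_cast
        rw [mul_comm (p : ZMod Q), mul_assoc, hu, mul_zero]
      push_cast at h2
      rw [add_mul] at h2
      exact eq_neg_of_add_eq_zero_right h2
    rw [mul_add, AddChar.map_add_eq_mul, h1]
    ring
  · intro a ha u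
    rw [B4_mem, B4_mem, mul_left_comm]
    exact (B4_unit ha).mul_right_eq_zero
  · intro a ha
    exact (Finite.injective_iff_bijective).1 fun x y h => (B4_unit ha).mul_left_cancel h

end Pool.Agent.C4
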