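import Pool.Agent.Lib.C4.FinalX
import Pool.Agent.Lib.WC86.Fin

/-! C4: the supremum over the circle in plain terms. helper86. -/

set_option autoImplicit false
open Finset

namespace Pool.Agent.C4

open Pool.Agent.Lib.MP_663568_nt Pool.Agent.Lib.MP_663568_nt.Katai Pool.Agent.Lib.MP_663568_nt.H6

lemma circ_eq (N H : ℕ) :
    ∑ n ∈ Icc 1 N, (1 / (n : ℝ)) * GS WC86.lin WC86.mu Set.univ H n =
    ∑ n ∈ Icc 1 N, (1 / (n : ℝ)) * ⨆ y : ℝ,
      ‖∑ h ∈ Icc 1 H, Complex.exp (2 * Real.pi * Complex.I * (((h + n : ℕ) : ℝ) * y : ℝ)) *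
        ((ArithmeticFunction.moebius (n + h) : ℤ) : ℂ)‖ := by
  rw [← WC86.Avg_eq]
  unfold WC86.Avg
  refine sum_congr rfl fun n _ => ?_
  congr 1
  exact Equiv.iSup_comp (Equiv.Set.univ ℝ) (g := fun y : ℝ =>
    ‖∑ h ∈ Icc 1 H, Complex.exp (2 * Real.pi * Complex.I * (((h + n : ℕ) : ℝ) * y : ℝ)) *
        ((ArithmeticFunction.moebius (n + h) : ℤ) : ℂ)‖)

end Pool.Agent.C4
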