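import Pool.Agent.Lib.C4.Defs

/-!
# Row D: logarithmic averages and division by `p` (helper54)
-/

set_option autoImplicit false
open Finset

namespace Pool.Agent.C4

namespace DRow

theorem harm_le (N : ℕ) : ∑ n ∈ Icc 1 N, 1 / (n : ℝ) ≤ 1 + Real.log N := by
  have h1 := harmonic_le_one_add_log N
  rw [harmonic_eq_sum_Icc] at h1
  push_cast at h1
  simpa [one_div] using h1

/-- the weight of the block of `m` -/
noncomputable def w (N p m : ℕ) : ℝ := ∑ n ∈ (Icc 1 N).filter (fun n => n / p = m), 1 / (n : ℝ)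

theorem w_zero_le {N p : ℕ} (hp : 1 ≤ p) : w N p 0 ≤ 1 + Real.log p := by
  refine le_trans ?_ (harm_le p)
  refine sum_le_sum_of_subset_of_nonneg ?_ fun n _ _ => by positivity
  intro n hn
  rw [mem_filter, mem_Icc] at hn
  rw [mem_Icc]
  have h1 : n < p := by
    rcases Nat.div_eq_zero_iff.1 hn.2 with h | h
    · omega
    · exact h
  exact ⟨hn.1.1, h1.le⟩

theorem w_le {N p m : ℕ} (hp : 1 ≤ p) (hm : 1 ≤ m) : w N p m ≤ 1 / (m : ℝ) := by
  have hp0 : (0 : ℝ) < p := by exact_mod_cast hp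
  have hm0 : (0 : ℝ) < m := by exact_mod_cast hm
  have h1 : (Icc 1 N).filter (fun n => n / p = m) ⊆ Ico (p * m) (p * m + p) := by
    intro n hn
    rw [mem_filter] at hn
    rw [mem_Ico]
    have h2 := Nat.div_mul_le_self n p
    have h3 := Nat.lt_mul_div_succ n (show 0 < p by omega)
    rw [hn.2] at h2 h3
    constructor
    · rw [mul_comm]
      exact h2
    · rw [mul_add, mul_one] at h3
      exact h3
  have h2 : ((Icc 1 N).filter (fun n => n / p = m)).card ≤ p := by
    have := card_le_card h1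
    rwa [Nat.card_Ico, Nat.add_sub_cancel_left] at this
  unfold w
  calc ∑ n ∈ (Icc 1 N).filter (fun n => n / p = m), 1 / (n : ℝ)
      ≤ ∑ _n ∈ (Icc 1 N).filter (fun n => n / p = m), 1 / ((p : ℝ) * m) := by
        refine sum_le_sum fun n hn => ?_
        have h3 := mem_Ico.1 (h1 hn)
        refine one_div_le_one_div_of_le (by positivity) ?_
        exact_mod_cast h3.1
    _ = ((Icc 1 N).filter (fun n => n / p = m)).card * (1 / ((p : ℝ) * m)) := by
        rw [sum_const, nsmul_eq_mul]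
    _ ≤ p * (1 / ((p : ℝ) * m)) := by
        refine mul_le_mul_of_nonneg_right ?_ (by positivity)
        exact_mod_cast h2
    _ = 1 / (m : ℝ) := by field_simp

theorem sum_div (N p : ℕ) (g : ℕ → ℝ) : ∑ n ∈ Icc 1 N, (1 / (n : ℝ)) * g (n / p) =
    ∑ m ∈ range (N + 1), w N p m * g m := by
  rw [← sum_fiberwise_of_maps_to (s := Icc 1 N) (t := range (N + 1)) (g := fun n => n / p)
    (fun n hn => by
      rw [mem_Icc] at hn
      rw [mem_range]
      have := Nat.div_le_self n p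
      omega)]
  refine sum_congr rfl fun m _ => ?_
  rw [w, sum_mul]
  refine sum_congr rfl fun n hn => ?_
  rw [(mem_filter.1 hn).2]

theorem range_eq (N : ℕ) (h : ℕ → ℝ) : ∑ m ∈ range (N + 1), h m = h 0 + ∑ m ∈ Icc 1 N, h m := by
  rw [range_eq_Ico, sum_eq_sum_Ico_succ_bot (by omega)]
  congr 1

theorem main {N p : ℕ} {g : ℕ → ℝ} {B : ℝ} (hg : ∀ n, |g n| ≤ B) (hp : 1 ≤ p) :
    |∑ n ∈ Icc 1 N, (1 / (n : ℝ)) * g (n / p) - ∑ n ∈ Icc 1 N, (1 / (n : ℝ)) * g n| ≤
      2 * B * (1 + Real.log p) := by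
  have hB : 0 ≤ B := (abs_nonneg _).trans (hg 0)
  have h0 := sum_div N p (fun _ => 1)
  simp only [mul_one] at h0
  rw [range_eq] at h0
  rw [sum_div, range_eq]
  have h1 : w N p 0 * g 0 + ∑ m ∈ Icc 1 N, w N p m * g m - ∑ n ∈ Icc 1 N, (1 / (n : ℝ)) * g n =
      w N p 0 * g 0 - ∑ m ∈ Icc 1 N, (1 / (m : ℝ) - w N p m) * g m := by
    simp only [sub_mul, sum_sub_distrib]
    ring
  rw [h1]
  have hw0 : 0 ≤ w N p 0 := sum_nonneg fun n _ => by positivity
  have h2 : |w N p 0 * g 0| ≤ w N p 0 * B := by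
    rw [abs_mul, abs_of_nonneg hw0]
    exact mul_le_mul_of_nonneg_left (hg 0) hw0
  have h3 : |∑ m ∈ Icc 1 N, (1 / (m : ℝ) - w N p m) * g m| ≤ w N p 0 * B := by
    refine (abs_sum_le_sum_abs _ _).trans ?_
    have h4 : ∑ m ∈ Icc 1 N, |(1 / (m : ℝ) - w N p m) * g m| ≤
        ∑ m ∈ Icc 1 N, (1 / (m : ℝ) - w N p m) * B := by
      refine sum_le_sum fun m hm => ?_
      have h5 := w_le (N := N) hp (mem_Icc.1 hm).1
      rw [abs_mul, abs_of_nonneg (sub_nonneg.2 h5)]
      exact mul_le_mul_of_nonneg_left (hg m) (sub_nonneg.2 h5)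
    refine h4.trans (le_of_eq ?_)
    rw [← sum_mul, sum_sub_distrib, h0]
    ring
  have h4 := w_zero_le (N := N) hp
  calc |w N p 0 * g 0 - ∑ m ∈ Icc 1 N, (1 / (m : ℝ) - w N p m) * g m|
      ≤ |w N p 0 * g 0| + |∑ m ∈ Icc 1 N, (1 / (m : ℝ) - w N p m) * g m| := abs_sub _ _
    _ ≤ w N p 0 * B + w N p 0 * B := add_le_add h2 h3
    _ = 2 * B * w N p 0 := by ring
    _ ≤ _ := mul_le_mul_of_nonneg_left h4 (by positivity)

end DRow

open DRow in
theorem rowD : D_stmt := by
  refine ⟨fun N g B hg => ?_, 2, by norm_num, fun N p g B hg hp hN => ?_⟩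
  · have hB : 0 ≤ B := (abs_nonneg _).trans (hg 0)
    unfold LA
    rcases Nat.lt_or_ge N 2 with hN | hN
    · have h1 : Real.log (N : ℝ) = 0 := by
        interval_cases N <;> simp
      rw [h1, div_zero, abs_zero]
      positivity
    · have hN0 : (2 : ℝ) ≤ N := by exact_mod_cast hN
      have hl : 1 / 2 ≤ Real.log N := by
        have h1 := Real.log_le_log (by norm_num) hN0
        have h2 := Real.log_two_gt_d9
        linarith
      rw [abs_div, abs_of_pos (show 0 < Real.log N by linarith), div_le_iff₀ (by linarith)]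
      refine (abs_sum_le_sum_abs _ _).trans ?_
      have h1 : ∑ n ∈ Icc 1 N, |1 / (n : ℝ) * g n| ≤ ∑ n ∈ Icc 1 N, 1 / (n : ℝ) * B := by
        refine sum_le_sum fun n _ => ?_
        rw [abs_mul, abs_of_nonneg (show (0 : ℝ) ≤ 1 / (n : ℝ) by positivity)]
        exact mul_le_mul_of_nonneg_left (hg n) (by positivity)
      refine h1.trans ?_
      rw [← sum_mul]
      have h2 := mul_le_mul_of_nonneg_right (harm_le N) hB
      refine h2.trans ?_
      nlinarith
  · have hN0 : (2 : ℝ) ≤ N := by exact_mod_cast hN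
    have hl : 0 < Real.log N := Real.log_pos (by linarith)
    unfold LA
    rw [← sub_div, abs_div, abs_of_pos hl]
    exact div_le_div_of_nonneg_right (main hg hp) hl.le

end Pool.Agent.C4
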