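import Pool.Agent.Lib.C4.Defs

/-!
# Linear equations and the logarithmic Chowla conjecture for the Moebius function (MP_663568_nt)

Row statements for functions `f` with `f (p j) = - f j` for `p` not dividing `j`, in the range
`N ≥ H`, and for products of powers `μ^{j_i}`, `j_i ∈ {1, 2}`.
-/

set_option autoImplicit false
open Finset

namespace Pool.Agent.C4

open Pool.Agent.Lib.MP_663568_nt Pool.Agent.Lib.MP_663568_nt.Katai Pool.Agent.Lib.MP_663568_nt.H6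

/-- The Moebius function. -/
noncomputable def muR (n : ℕ) : ℝ := ((ArithmeticFunction.moebius n : ℤ) : ℝ)

/-- Change of sign under multiplication by primes. -/
def MulP (f : ℕ → ℝ) : Prop := ∀ p j : ℕ, p.Prime → ¬ p ∣ j → f (p * j) = - f j

/-- Row A2m: the windows divided by `p`. -/
def A2m_stmt : Prop := ∀ s : ℕ, 3 ≤ s → ∃ K : ℝ, 1 ≤ K ∧ ∀ (c : Fin s → ℤ) (k : ℤ) (f : ℕ → ℝ)
  (p n H Q : ℕ) [NeZero Q], ∑ i, c i = 0 → (∀ n, |f n| ≤ 1) →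
  (∀ j, ¬ p ∣ j → f (p * j) = - f j) → p.Prime → p ∣ Q → (∀ i, (c i).natAbs.Coprime Q) → p ≤ H →
  p * ((∑ i, (c i).natAbs) * (H + 1) + k.natAbs) < Q →
  ‖F Q c (p * k) (V Q f p n H) / (p * (H : ℂ) ^ (s - 1)) -
    (-1) ^ s * (J f c k (n / p) (H / p) : ℂ)‖ ≤ K * (p / H + 1 / p)

/-- Row A3m: the energy of the windows divided by `p`. -/
def A3m_stmt : Prop := ∃ K : ℝ, 1 ≤ K ∧ ∀ (f : ℕ → ℝ) (p n H Q : ℕ) [NeZero Q],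
  (∀ n, |f n| ≤ 1) → (∀ j, ¬ p ∣ j → f (p * j) = - f j) → p.Prime → p ∣ Q → p ≤ H →
  p * (4 * (H + 1)) < Q →
  |eV Q f p n H - J f c0 0 (n / p) (H / p)| ≤ K * (p / H + 1 / p)

/-- The input: the frequencies in an arbitrary set. -/
def W1F (f : ℕ → ℝ) : Prop := ∀ δ R : ℝ, 0 < δ → 1 ≤ R → ∃ H₀ : ℕ, ∀ H N : ℕ,
  H₀ ≤ H → H ≤ N → ∀ A : Set ℝ,
  ∑ n ∈ Icc 1 N, (1 / (n : ℝ)) * GS WC86.lin (fun n => (f n : ℂ)) A H n ≤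
    (√(WC86.outer A R) + δ) * H * Real.log N

/-- Row W1mu. -/
def W1mu_stmt : Prop := W1F muR

/-- The Fourier coefficients at the multiples `p k` are small on average. -/
def W3F (f : ℕ → ℝ) : Prop := ∀ (s : ℕ) (c : Fin s → ℤ) (k : ℤ) (δ : ℝ), 3 ≤ s →
  (∀ i, c i ≠ 0) → k ≠ 0 → 0 < δ → ∃ P₀ : ℕ, ∀ P : Finset ℕ, (∀ p ∈ P, P₀ ≤ p) → 1 ≤ LL P →
  ∃ H₀ : ℕ, ∀ H N : ℕ, H₀ ≤ H → H ≤ N →
  ∑ p ∈ P, (1 / (p : ℝ)) * |LA N fun n => J f c (p * k) n H| ≤ δ * LL P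

/-- Row W3F. -/
def W3F_stmt : Prop := ∀ f : ℕ → ℝ, (∀ n, |f n| ≤ 1) → W1F f → W3F f

/-- Row EF: the inequality for one `H`. -/
def EF (f : ℕ → ℝ) : Prop := ∀ (s : ℕ) (c : Fin s → ℤ) (k : ℤ) (δ : ℝ), 3 ≤ s →
  (∀ i, c i ≠ 0) → ∑ i, c i = 0 → k ≠ 0 → 0 < δ →
  ∃ K : ℝ, 1 ≤ K ∧ ∃ P : Finset ℕ, P.Nonempty ∧ (∀ p ∈ P, 2 ≤ p) ∧ ∃ H₀ : ℕ, ∀ H N : ℕ,
    H₀ ≤ H → H ≤ N →
    ∑ p ∈ P, (1 / (p : ℝ)) * |LA N fun n => J f c k n (H / p)| ≤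
      δ * LL P + K * ∑ p ∈ P, (1 / (p : ℝ)) *
        ((LA N fun n => J f c0 0 n (H / p)) - LA N fun n => J f c0 0 n H)

/-- Row EF. -/
def EF_stmt : Prop := ∀ f : ℕ → ℝ, (∀ n, |f n| ≤ 1) → MulP f → W3F f → EF f

/-- Row G1: the sum over `H`, for `N ≥ X`. -/
def G1_stmt : Prop := ∀ R e : ℕ → ℕ → ℝ, (∀ N H, 0 ≤ R N H ∧ R N H ≤ 3) →
  (∀ N H, 0 ≤ e N H ∧ e N H ≤ 3) → (∀ N, e N 0 = 0) →
  (∀ δ : ℝ, 0 < δ → ∃ K : ℝ, 1 ≤ K ∧ ∃ P : Finset ℕ, P.Nonempty ∧ (∀ p ∈ P, 2 ≤ p) ∧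
    ∃ H₀ : ℕ, ∀ H N : ℕ, H₀ ≤ H → H ≤ N →
    ∑ p ∈ P, (1 / (p : ℝ)) * R N (H / p) ≤
      δ * LL P + K * ∑ p ∈ P, (1 / (p : ℝ)) * (e N (H / p) - e N H)) →
  ∀ ε : ℝ, 0 < ε → ∃ X₀ : ℕ, ∀ X N : ℕ, X₀ ≤ X → X ≤ N →
    ∑ H ∈ Icc 1 X, R N H / H ≤ ε * Real.log X

/-! ### Powers of the Moebius function -/

/-- The correlations of `f_1, …, f_s` at `n` on average over the solutions of the equation. -/
noncomputable def JJ {s : ℕ} (f : Fin s → ℕ → ℝ) (c : Fin s → ℤ) (k : ℤ) (n H : ℕ) : ℝ :=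
  (∑ h ∈ Sol c k H, ∏ i, f i (n + h i)) / (H : ℝ) ^ (s - 1)

/-- Row X1: one of the functions is the indicator of a residue class, one is `μ`. -/
def X1_stmt : Prop := ∀ (s : ℕ) (c : Fin s → ℤ) (k : ℤ) (i l : Fin s) (q : ℕ) (ε : ℝ),
  3 ≤ s → (∀ i, c i ≠ 0) → i ≠ l → 1 ≤ q → 0 < ε → ∃ H₀ : ℕ, ∀ H N : ℕ, H₀ ≤ H → H ≤ N →
  ∀ f : Fin s → ℕ → ℝ, (∀ i n, |f i n| ≤ 1) → f l = muR →
    f i = (fun n => if q ∣ n then 1 else 0) →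
    |LA N fun n => JJ f c k n H| ≤ ε

/-- Row X2: one of the functions is `μ²`, one is `μ`. -/
def X2_stmt : Prop := ∀ (s : ℕ) (c : Fin s → ℤ) (k : ℤ) (i l : Fin s) (ε : ℝ),
  3 ≤ s → (∀ i, c i ≠ 0) → i ≠ l → 0 < ε → ∃ H₀ : ℕ, ∀ H N : ℕ, H₀ ≤ H → H ≤ N →
  ∀ f : Fin s → ℕ → ℝ, (∀ i n, |f i n| ≤ 1) → f l = muR → f i = (fun n => muR n ^ 2) →
    |LA N fun n => JJ f c k n H| ≤ ε

end Pool.Agent.C4
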