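import Pool.Agent.Lib.C4.Defs2

/-!
# The link with the circle (MP_663568_nt, `G = ℝ`, `f = e(x)`): row statements
-/

set_option autoImplicit false
open Finset

namespace Pool.Agent.C4

open Pool.Agent.Lib.MP_663568_nt Pool.Agent.Lib.MP_663568_nt.Katai Pool.Agent.Lib.MP_663568_nt.H6

/-- Row Y1: a large exponential sum gives a large energy. -/
def Y1_stmt : Prop := ∃ C : ℝ, 1 ≤ C ∧ ∀ n H : ℕ, 1 ≤ H →
  (GS WC86.lin WC86.mu Set.univ H n / H) ^ 5 ≤ C * J muR c0 0 n H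

/-- Row Y2: the correlations are bounded by the largest exponential sum. -/
def Y2_stmt : Prop := ∀ (s : ℕ) (c : Fin s → ℤ) (k : ℤ) (f : Fin s → ℕ → ℝ) (l : Fin s)
  (n H : ℕ), 3 ≤ s → (∀ i, c i ≠ 0) → (∀ i n, |f i n| ≤ 1) → f l = muR → 1 ≤ H →
  |JJ f c k n H| ≤ GS WC86.lin WC86.mu Set.univ H n / H

/-- The exponents. -/
def Exps {s : ℕ} (j : Fin s → ℕ) : Prop := (∀ i, j i = 1 ∨ j i = 2) ∧ ∃ i, j i = 1

/-- The average over the solutions, `n` and `H` is small. -/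
def Small {s : ℕ} (c : Fin s → ℤ) (k : ℤ) (j : Fin s → ℕ) : Prop :=
  ∀ ε : ℝ, 0 < ε → ∃ X₀ : ℕ, ∀ X N : ℕ, X₀ ≤ X → X ≤ N →
    ∑ H ∈ Icc 1 X, (1 / (H : ℝ)) * |∑ n ∈ Icc 1 N, (1 / (n : ℝ)) *
      ((∑ h ∈ Sol c k H, ∏ i, muR (n + h i) ^ j i) / (H : ℝ) ^ (s - 1))| ≤
    ε * Real.log X * Real.log N

/-- `Q1` for `G = ℝ` and `f = e(x)` on average over `H`. -/
def Circle : Prop :=
  ∀ ε : ℝ, 0 < ε → ∃ X₀ : ℕ, ∀ X N : ℕ, X₀ ≤ X → X ≤ N →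
    ∑ H ∈ Icc 1 X, (1 / (H : ℝ)) * ((∑ n ∈ Icc 1 N, (1 / (n : ℝ)) *
      GS WC86.lin WC86.mu Set.univ H n) / H) ≤ ε * Real.log X * Real.log N

/-- The final theorem. -/
def Q_stmt : Prop :=
  (∀ (s : ℕ) (c : Fin s → ℤ) (k : ℤ) (j : Fin s → ℕ), 4 ≤ s → (∀ i, c i ≠ 0) →
    ∑ i, c i = 0 → Exps j → (k ≠ 0 ∨ ∃ i, j i = 2) → Small c k j) ∧
  List.TFAE [Circle, Small c0 0 (fun _ => 1),
    ∀ (s : ℕ) (c : Fin s → ℤ) (k : ℤ) (j : Fin s → ℕ), 4 ≤ s → (∀ i, c i ≠ 0) →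
      Exps j → Small c k j]

end Pool.Agent.C4
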