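import Pool.Agent.Lib.C4.Defs3

/-!
# Windows of scales (MP_663568_nt): row statements
-/

set_option autoImplicit false
open Finset

namespace Pool.Agent.C4

open Pool.Agent.Lib.MP_663568_nt Pool.Agent.Lib.MP_663568_nt.Katai Pool.Agent.Lib.MP_663568_nt.H6

/-- Row G2: the sum over `H` in a window `[Y, W Y]` of scales. -/
def G2_stmt : Prop := ∀ R e : ℕ → ℕ → ℝ, (∀ N H, 0 ≤ R N H ∧ R N H ≤ 3) →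
  (∀ N H, 0 ≤ e N H ∧ e N H ≤ 3) → (∀ N, e N 0 = 0) →
  (∀ δ : ℝ, 0 < δ → ∃ K : ℝ, 1 ≤ K ∧ ∃ P : Finset ℕ, P.Nonempty ∧ (∀ p ∈ P, 2 ≤ p) ∧
    ∃ H₀ : ℕ, ∀ H N : ℕ, H₀ ≤ H → H ≤ N →
    ∑ p ∈ P, (1 / (p : ℝ)) * R N (H / p) ≤
      δ * LL P + K * ∑ p ∈ P, (1 / (p : ℝ)) * (e N (H / p) - e N H)) →
  ∀ ε : ℝ, 0 < ε → ∃ H₀ : ℕ, ∀ W Y N : ℕ, H₀ ≤ W → H₀ ≤ Y → W * Y ≤ N →
    ∑ H ∈ Icc Y (W * Y), R N H / H ≤ ε * Real.log W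

/-- The average over the solutions, `n` and the `H` in a window of scales is small. -/
def SmallW {s : ℕ} (c : Fin s → ℤ) (k : ℤ) (j : Fin s → ℕ) : Prop :=
  ∀ ε : ℝ, 0 < ε → ∃ H₀ : ℕ, ∀ W Y N : ℕ, H₀ ≤ W → H₀ ≤ Y → W * Y ≤ N →
    ∑ H ∈ Icc Y (W * Y), (1 / (H : ℝ)) * |∑ n ∈ Icc 1 N, (1 / (n : ℝ)) *
      ((∑ h ∈ Sol c k H, ∏ i, muR (n + h i) ^ j i) / (H : ℝ) ^ (s - 1))| ≤
    ε * Real.log W * Real.log N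

/-- The average over the solutions and `n` is small for every large `H`. -/
def Point {s : ℕ} (c : Fin s → ℤ) (k : ℤ) (j : Fin s → ℕ) : Prop :=
  ∀ ε : ℝ, 0 < ε → ∃ H₀ : ℕ, ∀ H N : ℕ, H₀ ≤ H → H ≤ N →
    |∑ n ∈ Icc 1 N, (1 / (n : ℝ)) *
      ((∑ h ∈ Sol c k H, ∏ i, muR (n + h i) ^ j i) / (H : ℝ) ^ (s - 1))| ≤ ε * Real.log N

/-- `Q1` for `G = ℝ` and `f = e(x)`. -/
def Q1C : Prop :=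
  ∀ ε : ℝ, 0 < ε → ∃ H₀ : ℕ, ∀ H N : ℕ, H₀ ≤ H → H ≤ N →
    ∑ n ∈ Icc 1 N, (1 / (n : ℝ)) * GS WC86.lin WC86.mu Set.univ H n ≤ ε * H * Real.log N

/-- Row Z: smallness for one bounded `L` (which may depend on `N`) is enough. -/
def Z_stmt : Prop :=
  (∀ ε : ℝ, 0 < ε → ∃ L₂ : ℕ, ∀ N : ℕ, L₂ ≤ N → ∃ L : ℕ, 1 ≤ L ∧ L ≤ L₂ ∧
    ∑ n ∈ Icc 1 N, (1 / (n : ℝ)) * GS WC86.lin WC86.mu Set.univ L n ≤ ε * L * Real.log N) → Q1C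

/-- The final theorem. -/
def QW_stmt : Prop :=
  (∀ (s : ℕ) (c : Fin s → ℤ) (k : ℤ) (j : Fin s → ℕ), 3 ≤ s → (∀ i, c i ≠ 0) →
    ∑ i, c i = 0 → (∀ i, j i = 1) → k ≠ 0 → SmallW c k j) ∧
  (∀ (s : ℕ) (c : Fin s → ℤ) (k : ℤ) (j : Fin s → ℕ), 3 ≤ s → (∀ i, c i ≠ 0) →
    Exps j → (∃ i, j i = 2) → Point c k j) ∧
  List.TFAE [Q1C, SmallW c0 0 (fun _ => 1),
    ∀ (s : ℕ) (c : Fin s → ℤ) (k : ℤ) (j : Fin s → ℕ), 3 ≤ s → (∀ i, c i ≠ 0) →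
      Exps j → Point c k j]

end Pool.Agent.C4
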