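import Pool.Agent.Lib.C4.Defs4

/-!
# Equations which are not invariant under translation (MP_663568_nt): row statements
-/

set_option autoImplicit false
open Finset

namespace Pool.Agent.C4

open Pool.Agent.Lib.MP_663568_nt Pool.Agent.Lib.MP_663568_nt.Katai Pool.Agent.Lib.MP_663568_nt.H6

/-- Row X3: equations with `∑ c_i ≠ 0`, one of the functions is `μ`. -/
def X3_stmt : Prop := ∀ (s : ℕ) (c : Fin s → ℤ) (k : ℤ) (l : Fin s) (ε : ℝ),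
  3 ≤ s → (∀ i, c i ≠ 0) → ∑ i, c i ≠ 0 → 0 < ε → ∃ H₀ : ℕ, ∀ H N : ℕ, H₀ ≤ H → H ≤ N →
  ∀ f : Fin s → ℕ → ℝ, (∀ i n, |f i n| ≤ 1) → f l = muR →
    |LA N fun n => JJ f c k n H| ≤ ε

/-- The final theorem. -/
def QX_stmt : Prop :=
  (∀ (s : ℕ) (c : Fin s → ℤ) (k : ℤ) (j : Fin s → ℕ), 3 ≤ s → (∀ i, c i ≠ 0) →
    ∑ i, c i = 0 → (∀ i, j i = 1) → k ≠ 0 → SmallW c k j) ∧
  (∀ (s : ℕ) (c : Fin s → ℤ) (k : ℤ) (j : Fin s → ℕ), 3 ≤ s → (∀ i, c i ≠ 0) →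
    Exps j → (∑ i, c i ≠ 0 ∨ ∃ i, j i = 2) → Point c k j) ∧
  List.TFAE [Q1C, SmallW c0 0 (fun _ => 1),
    ∀ (s : ℕ) (c : Fin s → ℤ) (k : ℤ) (j : Fin s → ℕ), 3 ≤ s → (∀ i, c i ≠ 0) →
      Exps j → Point c k j]

end Pool.Agent.C4
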