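import Pool.Agent.Lib.C4.E
import Pool.Agent.Lib.C4.Defs2

/-! C4, row EF: the inequality for one `H`, general functions. helper86. -/

set_option autoImplicit false
open Finset

namespace Pool.Agent.C4

namespace E

/-- the inequality for one `n` -/
lemma pointF (hA0 : A0_stmt) (hA1 : A1_stmt) (s : ℕ) (hs : 3 ≤ s) (Ka : ℝ)
    (hKa : ∀ (c : Fin s → ℤ) (k : ℤ) (f : ℕ → ℝ)
      (p n H Q : ℕ) [NeZero Q], ∑ i, c i = 0 → (∀ n, |f n| ≤ 1) →
      (∀ j, ¬ p ∣ j → f (p * j) = - f j) → p.Prime → p ∣ Q → (∀ i, (c i).natAbs.Coprime Q) → p ≤ H →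
      p * ((∑ i, (c i).natAbs) * (H + 1) + k.natAbs) < Q →
      ‖F Q c (p * k) (V Q f p n H) / (p * (H : ℂ) ^ (s - 1)) -
        (-1) ^ s * (J f c k (n / p) (H / p) : ℂ)‖ ≤ Ka * (p / H + 1 / p)) (K3 : ℝ)
    (hK3 : ∀ (f : ℕ → ℝ) (p n H Q : ℕ) [NeZero Q],
      (∀ n, |f n| ≤ 1) → (∀ j, ¬ p ∣ j → f (p * j) = - f j) → p.Prime → p ∣ Q → p ≤ H →
      p * (4 * (H + 1)) < Q →
      |eV Q f p n H - J f c0 0 (n / p) (H / p)| ≤ K3 * (p / H + 1 / p)) (K1 : ℝ)
    (hK1 : ∀ (P : Finset ℕ) (P₀ P₁ : ℕ) (f : ℕ → ℝ) (n H Q : ℕ)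
      [NeZero Q], Ok P P₀ P₁ H → (∀ n, |f n| ≤ 1) → (∀ p ∈ P, p ∣ Q) → H < Q →
      ∀ η : ℝ, 0 < η → η ≤ 1 →
      ∑ p ∈ P, (1 / (p : ℝ)) * Out Q f η p n H ≤
        ∑ p ∈ P, (1 / (p : ℝ)) * (eV Q f p n H - eS Q f n H) + K1 * Err P P₀ η) (K2 : ℝ)
    (hK2p : 1 ≤ K2)
    (hK2 : ∀ (P : Finset ℕ) (P₀ P₁ : ℕ)
      (f : ℕ → ℝ) (n H Q : ℕ) [NeZero Q], Ok P P₀ P₁ H → (∀ n, |f n| ≤ 1) → (∀ p ∈ P, p ∣ Q) →
      H < Q → ∀ (c : Fin s → ℤ) (k : ℤ), ∑ i, c i = 0 → (∀ i, (c i).natAbs.Coprime Q) →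
      ∀ η θ : ℝ, 0 < η → η ≤ 1 → 0 < θ → θ ≤ 1 →
      ∑ p ∈ P, (1 / (p : ℝ)) * ‖F Q c (p * k) (V Q f p n H) / (p * (H : ℂ) ^ (s - 1)) -
          F Q c (p * k) (S Q f n H) / (H : ℂ) ^ (s - 1)‖ ≤
        K2 * (1 / θ ^ 3 * ∑ p ∈ P, (1 / (p : ℝ)) * Out Q f η p n H + θ * LL P + Err P P₀ η))
    (c : Fin s → ℤ) (hc : ∀ i, c i ≠ 0) (hc0 : ∑ i, c i = 0) (k : ℤ) (f : ℕ → ℝ)
    (hf : ∀ n, |f n| ≤ 1) (hfm : MulP f) (hKa0 : 0 ≤ Ka) (hK30 : 0 ≤ K3)
    (P : Finset ℕ) (P₀ P₁ H : ℕ) (hOk : Ok P P₀ P₁ H) (hcP : ∀ p ∈ P, ∀ i, (c i).natAbs < p)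
    (hPne : P.Nonempty)
    (η θ : ℝ) (hη : 0 < η) (hη1 : η ≤ 1) (hθ : 0 < θ) (hθ1 : θ ≤ 1) (n : ℕ) :
    ∑ p ∈ P, (1 / (p : ℝ)) * |(-1) ^ s * J f c k (n / p) (H / p) - J f c (p * k) n H| ≤
      K2 / θ ^ 3 * ∑ p ∈ P, (1 / (p : ℝ)) * (J f c0 0 (n / p) (H / p) - J f c0 0 n H) +
      (K2 * (1 / θ ^ 3 * (K3 * (#P / H + LL P / P₀) + K1 * Err P P₀ η) + θ * LL P +
        Err P P₀ η) + Ka * (#P / H + LL P / P₀)) := by
  obtain ⟨hP₀, hP, hH1, hH2⟩ := hOk
  have hOk : Ok P P₀ P₁ H := ⟨hP₀, hP, hH1, hH2⟩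
  have hP₁ : 1 ≤ P₁ := by
    obtain ⟨p, hp⟩ := hPne
    exact (hP p hp).1.one_le.trans (hP p hp).2.2
  have hP₁H : P₁ ≤ H := by nlinarith
  have hHpos : 1 ≤ H := hP₁.trans hP₁H
  have hHR : (0 : ℝ) < H := by exact_mod_cast hHpos
  obtain ⟨Q, hQ, hPQ, hcop⟩ := grid c hc P (fun p hp => ⟨(hP p hp).1, hcP p hp⟩)
    (P₁ * ((∑ i, (c i).natAbs) * (H + 1) + k.natAbs) + P₁ * (4 * (H + 1)) + 4 * H)
  haveI : NeZero Q := ⟨by omega⟩
  have hHQ : H < Q := by omega
  have h4HQ : 4 * H < Q := by omega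
  have q1 : ∀ p ∈ P, p * ((∑ i, (c i).natAbs) * (H + 1) + k.natAbs) < Q := fun p hp => by
    have h1 := Nat.mul_le_mul_right ((∑ i, (c i).natAbs) * (H + 1) + k.natAbs) (hP p hp).2.2
    omega
  have q2 : ∀ p ∈ P, p * (4 * (H + 1)) < Q := fun p hp => by
    have h1 := Nat.mul_le_mul_right (4 * (H + 1)) (hP p hp).2.2
    omega
  have q3 : ∀ p ∈ P, (∑ i, (c i).natAbs) * H + ((p * k : ℤ)).natAbs < Q := fun p hp => by
    have h1 := q1 p hp
    have h2 : ((p * k : ℤ)).natAbs = p * k.natAbs := by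
      rw [Int.natAbs_mul, Int.natAbs_natCast]
    have h3 := (hP p hp).1.one_le
    rw [h2]
    have h4 : (∑ i, (c i).natAbs) * H ≤ p * ((∑ i, (c i).natAbs) * (H + 1)) := by
      calc (∑ i, (c i).natAbs) * H ≤ (∑ i, (c i).natAbs) * (H + 1) :=
            Nat.mul_le_mul_left _ (by omega)
        _ ≤ _ := Nat.le_mul_of_pos_left _ h3
    rw [mul_add] at h1
    omega
  have m2 := hK2 P P₀ P₁ f n H Q hOk hf hPQ hHQ c k hc0 hcop η θ hη hη1 hθ hθ1
  have m1 := hK1 P P₀ P₁ f n H Q hOk hf hPQ hHQ η hη hη1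
  have hS : ∀ p ∈ P, F Q c (p * k) (S Q f n H) / (H : ℂ) ^ (s - 1) =
      ((J f c (p * k) n H : ℝ) : ℂ) := by
    intro p hp
    rw [hA1 s c (p * k) f n H Q (q3 p hp)]
    unfold J
    push_cast
    rfl
  have hpt : ∀ p ∈ P, |(-1) ^ s * J f c k (n / p) (H / p) - J f c (p * k) n H| ≤
      Ka * (p / H + 1 / p) + ‖F Q c (p * k) (V Q f p n H) / (p * (H : ℂ) ^ (s - 1)) -
          F Q c (p * k) (S Q f n H) / (H : ℂ) ^ (s - 1)‖ := by
    intro p hp
    have hpH : p ≤ H := (hP p hp).2.2.trans hP₁H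
    have h1 := hKa c k f p n H Q hc0 hf (fun j => hfm p j (hP p hp).1) (hP p hp).1 (hPQ p hp) hcop hpH
      (q1 p hp)
    rw [hS p hp]
    set W := F Q c (p * k) (V Q f p n H) / (p * (H : ℂ) ^ (s - 1)) with hW
    have h2 : ((((-1) ^ s * J f c k (n / p) (H / p) - J f c (p * k) n H : ℝ)) : ℂ) =
        ((-1) ^ s * (J f c k (n / p) (H / p) : ℂ) - W) + (W - ((J f c (p * k) n H : ℝ) : ℂ)) := by
      push_cast
      ring
    rw [← Real.norm_eq_abs, ← Complex.norm_real, h2]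
    refine (norm_add_le _ _).trans (add_le_add ?_ le_rfl)
    rw [norm_sub_rev]
    exact h1
  have heV : ∀ p ∈ P, eV Q f p n H - eS Q f n H ≤
      (J f c0 0 (n / p) (H / p) - J f c0 0 n H) + K3 * (p / H + 1 / p) := by
    intro p hp
    have hpH : p ≤ H := (hP p hp).2.2.trans hP₁H
    have h1 := hK3 f p n H Q hf (fun j => hfm p j (hP p hp).1) (hP p hp).1 (hPQ p hp) hpH (q2 p hp)
    have h2 := (hA0 f hf).2.2.1 n H Q h4HQ
    have h3 := (abs_le.1 h1).2
    rw [h2]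
    linarith
  have hp0 : ∀ p ∈ P, (0 : ℝ) < p := fun p hp => by exact_mod_cast (hP p hp).1.pos
  have hP₀R : (0 : ℝ) < P₀ := by exact_mod_cast hP₀
  have hcard : ∀ K : ℝ, 0 ≤ K → ∑ p ∈ P, (1 / (p : ℝ)) * (K * (p / H + 1 / p)) ≤
      K * (#P / H + LL P / P₀) := by
    intro K hK
    have h1 : ∀ p ∈ P, (1 / (p : ℝ)) * (K * (p / H + 1 / p)) ≤
        K / H + K / P₀ * (1 / (p : ℝ)) := by
      intro p hp
      have h2 := hp0 p hp
      have h3 : (1 / (p : ℝ)) * (K * (p / H + 1 / p)) = K / H + K * (1 / (p : ℝ)) * (1 / (p : ℝ)) := by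
        field_simp
      have h4 : (1 / (p : ℝ)) ≤ 1 / P₀ :=
        one_div_le_one_div_of_le hP₀R (by exact_mod_cast (hP p hp).2.1)
      have h5 : K * (1 / (p : ℝ)) * (1 / (p : ℝ)) ≤ K * (1 / P₀) * (1 / (p : ℝ)) := by gcongr
      rw [h3]
      have h6 : K * (1 / (P₀ : ℝ)) = K / P₀ := by ring
      rw [h6] at h5
      linarith
    calc ∑ p ∈ P, (1 / (p : ℝ)) * (K * (p / H + 1 / p))
        ≤ ∑ p ∈ P, (K / H + K / P₀ * (1 / (p : ℝ))) := sum_le_sum h1
      _ = _ := by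
          rw [sum_add_distrib, sum_const, nsmul_eq_mul, ← mul_sum]
          unfold LL
          ring
  have e1 : ∑ p ∈ P, (1 / (p : ℝ)) * (eV Q f p n H - eS Q f n H) ≤
      ∑ p ∈ P, (1 / (p : ℝ)) * (J f c0 0 (n / p) (H / p) - J f c0 0 n H) +
        K3 * (#P / H + LL P / P₀) := by
    refine le_trans ?_ (add_le_add le_rfl (hcard K3 hK30))
    rw [← sum_add_distrib]
    refine sum_le_sum fun p hp => ?_
    rw [← mul_add]
    exact mul_le_mul_of_nonneg_left (heV p hp) (by positivity)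
  have hθ3 : 0 < θ ^ 3 := by positivity
  calc ∑ p ∈ P, (1 / (p : ℝ)) * |(-1) ^ s * J f c k (n / p) (H / p) - J f c (p * k) n H|
      ≤ ∑ p ∈ P, (1 / (p : ℝ)) * (Ka * (p / H + 1 / p) +
        ‖F Q c (p * k) (V Q f p n H) / (p * (H : ℂ) ^ (s - 1)) -
          F Q c (p * k) (S Q f n H) / (H : ℂ) ^ (s - 1)‖) :=
        sum_le_sum fun p hp => mul_le_mul_of_nonneg_left (hpt p hp) (by positivity)
    _ = ∑ p ∈ P, (1 / (p : ℝ)) * (Ka * (p / H + 1 / p)) + ∑ p ∈ P, (1 / (p : ℝ)) *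
        ‖F Q c (p * k) (V Q f p n H) / (p * (H : ℂ) ^ (s - 1)) -
          F Q c (p * k) (S Q f n H) / (H : ℂ) ^ (s - 1)‖ := by
        rw [← sum_add_distrib]
        exact sum_congr rfl fun p _ => mul_add _ _ _
    _ ≤ Ka * (#P / H + LL P / P₀) + K2 * (1 / θ ^ 3 * ∑ p ∈ P, (1 / (p : ℝ)) * Out Q f η p n H +
        θ * LL P + Err P P₀ η) := add_le_add (hcard Ka hKa0) m2
    _ ≤ Ka * (#P / H + LL P / P₀) + K2 * (1 / θ ^ 3 * ((∑ p ∈ P, (1 / (p : ℝ)) *
        (J f c0 0 (n / p) (H / p) - J f c0 0 n H) + K3 * (#P / H + LL P / P₀)) +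
        K1 * Err P P₀ η) + θ * LL P + Err P P₀ η) := by
        have h5 := m1.trans (add_le_add e1 le_rfl)
        gcongr
    _ = _ := by ring

end E

open E in
theorem rowEF (hA0 : A0_stmt) (hA1 : A1_stmt) (hA2 : A2m_stmt) (hA3 : A3m_stmt) (hM1 : M1_stmt)
    (hM2 : M2_stmt) (hD : D_stmt) (hP : P_stmt) : EF_stmt := by
  intro f hf hfm hW3 s c k δ hs hc hc0 hk hδ
  obtain ⟨Ka, hKa1, hKa⟩ := hA2 s hs
  obtain ⟨K3, hK31, hK3⟩ := hA3
  obtain ⟨K1, hK11, hK1⟩ := hM1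
  obtain ⟨K2, hK21, hK2⟩ := hM2 s hs
  obtain ⟨hD1, Kd, hKd1, hD2⟩ := hD
  obtain ⟨P₂, hW⟩ := hW3 s c k (δ / 2) hs hc hk (by positivity)
  -- the parameters
  set θ : ℝ := min 1 (δ / (100 * K2)) with hθ
  have hθ0 : 0 < θ := lt_min one_pos (by positivity)
  have hθ1 : θ ≤ 1 := min_le_left _ _
  have hθ2 : K2 * θ ≤ δ / 100 := by
    have h1 : θ ≤ δ / (100 * K2) := min_le_right _ _
    have h2 : K2 * θ ≤ K2 * (δ / (100 * K2)) := mul_le_mul_of_nonneg_left h1 (by linarith)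
    have h3 : K2 * (δ / (100 * K2)) = δ / 100 := by field_simp
    linarith
  set B : ℝ := K2 * (1 / θ ^ 3 * K1) + K2 with hB
  have hB1 : 1 ≤ B := by
    have : 0 ≤ K2 * (1 / θ ^ 3 * K1) := by positivity
    linarith
  set η : ℝ := min 1 (δ / (100 * B)) with hη
  have hη0 : 0 < η := lt_min one_pos (by positivity)
  have hη1 : η ≤ 1 := min_le_left _ _
  have hη2 : B * η ≤ δ / 100 := by
    have h1 : η ≤ δ / (100 * B) := min_le_right _ _
    have h2 : B * η ≤ B * (δ / (100 * B)) := mul_le_mul_of_nonneg_left h1 (by linarith)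
    have h3 : B * (δ / (100 * B)) = δ / 100 := by field_simp
    linarith
  set U0 : ℝ := K2 * (1 / θ ^ 3 * K3) + Ka with hU0
  have hU00 : 0 ≤ U0 := by positivity
  set P₀ : ℕ := max (max (max P₂ 2) ⌈100 * U0 / δ⌉₊)
    (max (⌈100 * B / (δ * η ^ 4)⌉₊) (1 + ∑ i, (c i).natAbs)) with hP₀
  have hP₂ : P₂ ≤ P₀ := (le_max_left _ _).trans ((le_max_left _ _).trans (le_max_left _ _))
  have h2P : 2 ≤ P₀ := (le_max_right _ _).trans ((le_max_left _ _).trans (le_max_left _ _))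
  have hP₀U : 100 * U0 / δ ≤ P₀ := by
    refine (Nat.le_ceil _).trans ?_
    exact_mod_cast (le_max_right _ _).trans (le_max_left _ _)
  have hP₀B : 100 * B / (δ * η ^ 4) ≤ P₀ := by
    refine (Nat.le_ceil _).trans ?_
    exact_mod_cast (le_max_left _ _).trans (le_max_right _ _)
  have hP₀c : 1 + ∑ i, (c i).natAbs ≤ P₀ := (le_max_right _ _).trans (le_max_right _ _)
  obtain ⟨P, hPp, hPL⟩ := hP P₀ (max 1 ((100 * B / (δ * η ^ 2)) ^ 2))
  have hL1 : 1 ≤ LL P := (le_max_left _ _).trans hPL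
  have hL0 : 0 < LL P := by linarith
  have hL2 : (100 * B / (δ * η ^ 2)) ^ 2 ≤ LL P := (le_max_right _ _).trans hPL
  have hPne : P.Nonempty := by
    rw [nonempty_iff_ne_empty]
    rintro rfl
    simp [LL] at hL1
    linarith
  obtain ⟨Hw, hHw⟩ := hW P (fun p hp => hP₂.trans (hPp p hp).2) hL1
  set P₁ : ℕ := P.sup id with hP₁
  have hPP₁ : ∀ p ∈ P, p ≤ P₁ := fun p hp => le_sup (f := id) hp
  -- the error terms
  have hErr : B * Err P P₀ η ≤ 3 * (δ / 100 * LL P) := by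
    unfold Err
    have hP₀R : (0 : ℝ) < P₀ := by exact_mod_cast (by omega : 0 < P₀)
    have t1 : B * (η * LL P) ≤ δ / 100 * LL P := by
      rw [← mul_assoc]
      exact mul_le_mul_of_nonneg_right hη2 hL0.le
    have t2 : B * (√(LL P) / η ^ 2) ≤ δ / 100 * LL P := by
      have h1 : 100 * B / (δ * η ^ 2) ≤ √(LL P) := Real.le_sqrt_of_sq_le hL2
      have h2 : LL P = √(LL P) * √(LL P) := (Real.mul_self_sqrt hL0.le).symm
      have h3 : 100 * B ≤ √(LL P) * (δ * η ^ 2) := by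
        rwa [div_le_iff₀ (by positivity)] at h1
      have h4 : B * (√(LL P) / η ^ 2) = (100 * B) * √(LL P) / (100 * η ^ 2) := by field_simp
      have h5 : δ / 100 * LL P = (√(LL P) * (δ * η ^ 2)) * √(LL P) / (100 * η ^ 2) := by
        rw [h2]
        rw [Real.sqrt_mul_self (Real.sqrt_nonneg _)]
        field_simp
      rw [h4, h5]
      gcongr
    have t3 : B * (1 / (η ^ 4 * P₀)) ≤ δ / 100 * LL P := by
      have h1 : 100 * B ≤ P₀ * (δ * η ^ 4) := by
        rwa [div_le_iff₀ (by positivity)] at hP₀B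
      have h2 : B * (1 / (η ^ 4 * P₀)) ≤ δ / 100 := by
        rw [mul_one_div, div_le_div_iff₀ (by positivity) (by norm_num)]
        nlinarith
      have h3 : δ / 100 ≤ δ / 100 * LL P := le_mul_of_one_le_right (by positivity) hL1
      linarith
    calc B * (η * LL P + √(LL P) / η ^ 2 + 1 / (η ^ 4 * P₀)) =
        B * (η * LL P) + B * (√(LL P) / η ^ 2) + B * (1 / (η ^ 4 * P₀)) := by ring
      _ ≤ δ / 100 * LL P + δ / 100 * LL P + δ / 100 * LL P := add_le_add (add_le_add t1 t2) t3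
      _ = _ := by ring
  -- the thresholds for `H`
  set U : ℝ := U0 * #P with hU
  set D' : ℝ := ∑ p ∈ P, (1 / (p : ℝ)) * (Kd * (1 + Real.log p)) with hD'
  have hD'0 : 0 ≤ D' := sum_nonneg fun p hp => by
    have h1 : 0 ≤ Real.log p := Real.log_natCast_nonneg p
    positivity
  set Z : ℝ := (1 + K2 / θ ^ 3) * D' with hZ
  have hZ0 : 0 ≤ Z := by positivity
  obtain ⟨H₁, hH₁⟩ := exists_nat_ge (U / (δ / 100 * LL P))
  obtain ⟨H₂, hH₂⟩ := exists_nat_ge (Real.exp (Z / (δ / 100 * LL P)))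
  refine ⟨K2 / θ ^ 3, ?_, P, hPne, fun p hp => h2P.trans (hPp p hp).2,
    max (max Hw (max H₁ H₂)) (max ((1 + 2 * #P) * P₁) (P₁ ^ 2) + 2), ?_⟩
  · rw [le_div_iff₀ (by positivity), one_mul]
    exact (pow_le_one₀ hθ0.le hθ1).trans hK21
  intro H N hH hHN
  have g1 : Hw ≤ H := (le_max_left _ _).trans ((le_max_left _ _).trans hH)
  have g2 : H₁ ≤ H := (le_max_left _ _).trans ((le_max_right _ _).trans ((le_max_left _ _).trans hH))
  have g3 : H₂ ≤ H := (le_max_right _ _).trans ((le_max_right _ _).trans ((le_max_left _ _).trans hH))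
  have g4 : max ((1 + 2 * #P) * P₁) (P₁ ^ 2) + 2 ≤ H := (le_max_right _ _).trans hH
  have g5 : (1 + 2 * #P) * P₁ ≤ H := (le_max_left _ _).trans ((Nat.le_add_right _ 2).trans g4)
  have g6 : P₁ ^ 2 ≤ H := (le_max_right _ _).trans ((Nat.le_add_right _ 2).trans g4)
  have hH2 : 2 ≤ H := by omega
  have hHR : (0 : ℝ) < H := by exact_mod_cast (by omega : 0 < H)
  have hN2 : 2 ≤ N := hH2.trans hHN
  have hlogN : 0 < Real.log N := Real.log_pos (by exact_mod_cast (by omega : 1 < N))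
  have hOk : Ok P P₀ P₁ H := ⟨by omega, fun p hp => ⟨(hPp p hp).1, (hPp p hp).2, hPP₁ p hp⟩, g5, g6⟩
  have hcP : ∀ p ∈ P, ∀ i, (c i).natAbs < p := by
    intro p hp i
    have h1 : (c i).natAbs ≤ ∑ i, (c i).natAbs :=
      single_le_sum (f := fun i => (c i).natAbs) (fun i _ => Nat.zero_le _) (mem_univ i)
    have h2 := (hPp p hp).2
    omega
  -- the pointwise inequality
  set E0 : ℝ := K2 * (1 / θ ^ 3 * (K3 * (#P / H + LL P / P₀) + K1 * Err P P₀ η) + θ * LL P +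
        Err P P₀ η) + Ka * (#P / H + LL P / P₀) with hE0
  have hP₀R : (0 : ℝ) < P₀ := by exact_mod_cast (by omega : 0 < P₀)
  have hErr0 : 0 ≤ Err P P₀ η := by unfold Err; positivity
  have hE00 : 0 ≤ E0 := by positivity
  have hE0le : E0 ≤ 6 * (δ / 100 * LL P) := by
    have h1 : E0 = U / H + U0 / P₀ * LL P + B * Err P P₀ η + K2 * θ * LL P := by
      rw [hE0, hU, hB, hU0]
      ring
    have h0 : U0 / P₀ * LL P ≤ δ / 100 * LL P := by
      refine mul_le_mul_of_nonneg_right ?_ hL0.le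
      rw [div_le_iff₀ hδ] at hP₀U
      rw [div_le_div_iff₀ hP₀R (by norm_num)]
      linarith
    have h2 : U / H ≤ δ / 100 * LL P := by
      have h3 : U / (δ / 100 * LL P) ≤ H := hH₁.trans (by exact_mod_cast g2)
      rw [div_le_iff₀ (by positivity)] at h3
      rw [div_le_iff₀ hHR]
      linarith
    have h3 : K2 * θ * LL P ≤ δ / 100 * LL P := mul_le_mul_of_nonneg_right hθ2 hL0.le
    linarith
  have hpt : ∀ n, ∑ p ∈ P, (1 / (p : ℝ)) * |(-1) ^ s * J f c k (n / p) (H / p) -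
      J f c (p * k) n H| ≤
      K2 / θ ^ 3 * ∑ p ∈ P, (1 / (p : ℝ)) * (J f c0 0 (n / p) (H / p) - J f c0 0 n H) + E0 :=
    fun n => pointF hA0 hA1 s hs Ka hKa K3 hK3 K1 hK1 K2 hK21 hK2 c hc hc0 k f hf hfm
      (by linarith) (by linarith) P P₀ P₁ H hOk hcP hPne η θ hη0 hη1 hθ0 hθ1 n
  -- logarithmic averages
  have i1 : ∑ p ∈ P, (1 / (p : ℝ)) * LA N (fun n => |(-1) ^ s * J f c k (n / p) (H / p) -
      J f c (p * k) n H|) ≤ K2 / θ ^ 3 * ∑ p ∈ P, (1 / (p : ℝ)) *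
        ((LA N fun n => J f c0 0 (n / p) (H / p)) - LA N fun n => J f c0 0 n H) + 3 * E0 := by
    rw [← LA_sum N P (fun p => 1 / (p : ℝ)) fun p n => |(-1) ^ s * J f c k (n / p) (H / p) -
      J f c (p * k) n H|]
    refine (LA_mono N hpt).trans ?_
    rw [LA_add]
    refine add_le_add (le_of_eq ?_) ?_
    · rw [LA_mul, LA_sum N P (fun p => 1 / (p : ℝ)) fun p n =>
        J f c0 0 (n / p) (H / p) - J f c0 0 n H]
      congr 1
      refine sum_congr rfl fun p _ => ?_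
      rw [LA_sub]
    · have h1 := hD1 N (fun _ => E0) E0 (fun n => by rw [abs_of_nonneg hE00])
      exact (abs_le.1 h1).2
  have hA := hA0 f hf
  have i2 : ∀ p ∈ P, |LA N fun n => J f c k n (H / p)| ≤
      |LA N fun n => J f c (p * k) n H| +
      LA N (fun n => |(-1) ^ s * J f c k (n / p) (H / p) - J f c (p * k) n H|) +
      Kd * (1 + Real.log p) / Real.log N := by
    intro p hp
    have h1 := hD2 N p (fun n => J f c k n (H / p)) 1
      (fun n => hA.1 s c k n (H / p) (by omega) hc) (hPp p hp).1.one_le hN2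
    have h2 : |LA N fun n => J f c k (n / p) (H / p)| ≤
        |LA N fun n => J f c (p * k) n H| +
        LA N (fun n => |(-1) ^ s * J f c k (n / p) (H / p) - J f c (p * k) n H|) := by
      have h3 : |LA N fun n => J f c k (n / p) (H / p)| =
          |LA N fun n => (-1) ^ s * J f c k (n / p) (H / p)| := by
        rw [LA_mul, abs_mul, abs_pow, abs_neg, abs_one, one_pow, one_mul]
      rw [h3]
      have h4 : (LA N fun n => (-1) ^ s * J f c k (n / p) (H / p)) =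
          (LA N fun n => J f c (p * k) n H) +
          LA N (fun n => (-1) ^ s * J f c k (n / p) (H / p) - J f c (p * k) n H) := by
        rw [← LA_add]
        congr 1
        funext n
        ring
      rw [h4]
      exact (abs_add_le _ _).trans (add_le_add le_rfl (LA_abs N _))
    have h5 : |LA N fun n => J f c k n (H / p)| ≤ |LA N fun n => J f c k (n / p) (H / p)| +
        |(LA N fun n => J f c k (n / p) (H / p)) - LA N fun n => J f c k n (H / p)| := by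
      have h6 : (LA N fun n => J f c k n (H / p)) = (LA N fun n => J f c k (n / p) (H / p)) -
        ((LA N fun n => J f c k (n / p) (H / p)) - LA N fun n => J f c k n (H / p)) := by ring
      calc |LA N fun n => J f c k n (H / p)| = |(LA N fun n => J f c k (n / p) (H / p)) -
        ((LA N fun n => J f c k (n / p) (H / p)) - LA N fun n => J f c k n (H / p))| := by
            rw [← h6]
        _ ≤ _ := abs_sub _ _
    rw [mul_one] at h1
    linarith
  have i3 : ∀ p ∈ P, (LA N fun n => J f c0 0 (n / p) (H / p)) ≤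
      (LA N fun n => J f c0 0 n (H / p)) + Kd * (1 + Real.log p) / Real.log N := by
    intro p hp
    have h1 := hD2 N p (fun n => J f c0 0 n (H / p)) 1
      (fun n => hA.1 4 c0 0 n (H / p) (by omega) (by
        intro i
        fin_cases i <;> simp [c0])) (hPp p hp).1.one_le hN2
    rw [mul_one] at h1
    have h2 := (abs_le.1 h1).2
    linarith
  have hDsum : ∑ p ∈ P, (1 / (p : ℝ)) * (Kd * (1 + Real.log p) / Real.log N) =
      D' / Real.log N := by
    rw [hD', sum_div]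
    exact sum_congr rfl fun p _ => by ring
  have hw := hHw H N g1 hHN
  have hK2θ : 0 ≤ K2 / θ ^ 3 := by positivity
  have hZlog : Z / Real.log N ≤ δ / 100 * LL P := by
    have h1 : Real.exp (Z / (δ / 100 * LL P)) ≤ N :=
      hH₂.trans (by exact_mod_cast g3.trans hHN)
    have h2 : Z / (δ / 100 * LL P) ≤ Real.log N := by
      rw [← Real.log_exp (Z / (δ / 100 * LL P))]
      exact Real.log_le_log (Real.exp_pos _) h1
    rw [div_le_iff₀ (by positivity)] at h2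
    rw [div_le_iff₀ hlogN]
    linarith
  calc ∑ p ∈ P, (1 / (p : ℝ)) * |LA N fun n => J f c k n (H / p)|
      ≤ ∑ p ∈ P, (1 / (p : ℝ)) * (|LA N fun n => J f c (p * k) n H| +
      LA N (fun n => |(-1) ^ s * J f c k (n / p) (H / p) - J f c (p * k) n H|) +
      Kd * (1 + Real.log p) / Real.log N) :=
        sum_le_sum fun p hp => mul_le_mul_of_nonneg_left (i2 p hp) (by positivity)
    _ = ∑ p ∈ P, (1 / (p : ℝ)) * |LA N fun n => J f c (p * k) n H| +
        ∑ p ∈ P, (1 / (p : ℝ)) * LA N (fun n => |(-1) ^ s * J f c k (n / p) (H / p) -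
          J f c (p * k) n H|) + D' / Real.log N := by
        rw [← hDsum, ← sum_add_distrib, ← sum_add_distrib]
        exact sum_congr rfl fun p _ => by ring
    _ ≤ δ / 2 * LL P + (K2 / θ ^ 3 * ∑ p ∈ P, (1 / (p : ℝ)) *
        ((LA N fun n => J f c0 0 (n / p) (H / p)) - LA N fun n => J f c0 0 n H) + 3 * E0) +
        D' / Real.log N := add_le_add (add_le_add hw i1) le_rfl
    _ ≤ δ / 2 * LL P + (K2 / θ ^ 3 * (∑ p ∈ P, (1 / (p : ℝ)) *
        ((LA N fun n => J f c0 0 n (H / p)) - LA N fun n => J f c0 0 n H) + D' / Real.log N) +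
          3 * E0) + D' / Real.log N := by
        have h1 : ∑ p ∈ P, (1 / (p : ℝ)) *
            ((LA N fun n => J f c0 0 (n / p) (H / p)) - LA N fun n => J f c0 0 n H) ≤
            ∑ p ∈ P, (1 / (p : ℝ)) *
            ((LA N fun n => J f c0 0 n (H / p)) - LA N fun n => J f c0 0 n H) +
            D' / Real.log N := by
          rw [← hDsum, ← sum_add_distrib]
          refine sum_le_sum fun p hp => ?_
          rw [← mul_add]
          refine mul_le_mul_of_nonneg_left ?_ (by positivity)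
          have := i3 p hp
          linarith
        have h2 := mul_le_mul_of_nonneg_left h1 hK2θ
        linarith
    _ = K2 / θ ^ 3 * ∑ p ∈ P, (1 / (p : ℝ)) *
        ((LA N fun n => J f c0 0 n (H / p)) - LA N fun n => J f c0 0 n H) +
        (δ / 2 * LL P + 3 * E0 + Z / Real.log N) := by
        rw [hZ]
        ring
    _ ≤ _ := by
        have h3 : 0 ≤ δ * LL P := by positivity
        have h4 : δ / 2 * LL P + 3 * E0 + Z / Real.log N ≤ δ * LL P := by
          have h5 : δ / 100 * LL P = (δ * LL P) / 100 := by ring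
          rw [h5] at hE0le hZlog
          have h6 : δ / 2 * LL P = (δ * LL P) / 2 := by ring
          rw [h6]
          linarith
        linarith

end Pool.Agent.C4
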