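import Pool.Agent.Lib.C4.E
import Pool.Agent.Lib.C4.Defs3
import Pool.Agent.Lib.MP_663568_h6.UpQ

/-! C4, the final theorem from the rows. helper86. -/

set_option autoImplicit false
open Finset

namespace Pool.Agent.C4

open Pool.Agent.Lib.MP_663568_nt Pool.Agent.Lib.MP_663568_nt.Katai Pool.Agent.Lib.MP_663568_nt.H6

namespace Fi

lemma muR_abs (n : ℕ) : |muR n| ≤ 1 := by
  unfold muR
  exact_mod_cast ArithmeticFunction.abs_moebius_le_one

lemma muR_mulP : MulP muR := by
  intro p j hp hj
  unfold muR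
  have h1 : ArithmeticFunction.moebius (p * j) =
      ArithmeticFunction.moebius p * ArithmeticFunction.moebius j :=
    ArithmeticFunction.isMultiplicative_moebius.map_mul_of_coprime
      ((Nat.Prime.coprime_iff_not_dvd hp).2 hj)
  rw [h1, ArithmeticFunction.moebius_apply_prime hp]
  push_cast
  ring

lemma harm (X : ℕ) : ∑ H ∈ Icc 1 X, (1 / (H : ℝ)) ≤ 1 + Real.log X := by
  have h1 := harmonic_le_one_add_log X
  have h2 : ((harmonic X : ℚ) : ℝ) = ∑ H ∈ Icc 1 X, (1 / (H : ℝ)) := by
    rw [harmonic_eq_sum_Icc]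
    push_cast
    exact sum_congr rfl fun _ _ => by rw [one_div]
  rw [← h2]
  exact h1

/-- smallness for all large `H` gives smallness on average -/
lemma avg (R : ℕ → ℕ → ℝ) (hR : ∀ N H, R N H ≤ 3)
    (h : ∀ ε : ℝ, 0 < ε → ∃ H₀ : ℕ, ∀ H N : ℕ, H₀ ≤ H → H ≤ N → R N H ≤ ε) (ε : ℝ) (hε : 0 < ε) :
    ∃ X₀ : ℕ, ∀ X N : ℕ, X₀ ≤ X → X ≤ N → ∑ H ∈ Icc 1 X, R N H / H ≤ ε * Real.log X := by
  obtain ⟨H₀, hH₀⟩ := h (ε / 2) (by positivity)
  obtain ⟨X₁, hX₁⟩ := exists_nat_ge (Real.exp ((3 * (1 + Real.log H₀) + ε / 2) / (ε / 2)))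
  refine ⟨max X₁ 1, fun X N hX hXN => ?_⟩
  have hX1 : 1 ≤ X := (le_max_right _ _).trans hX
  have hlog : (3 * (1 + Real.log H₀) + ε / 2) / (ε / 2) ≤ Real.log X := by
    rw [← Real.log_exp ((3 * (1 + Real.log H₀) + ε / 2) / (ε / 2))]
    exact Real.log_le_log (Real.exp_pos _) (hX₁.trans (by exact_mod_cast (le_max_left _ _).trans hX))
  rw [div_le_iff₀ (by positivity)] at hlog
  calc ∑ H ∈ Icc 1 X, R N H / H
      ≤ ∑ H ∈ Icc 1 X, ((if H ≤ H₀ then 3 * (1 / (H : ℝ)) else 0) + ε / 2 * (1 / (H : ℝ))) := by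
        refine sum_le_sum fun H hH => ?_
        rw [mem_Icc] at hH
        have hH0 : (0 : ℝ) < H := by exact_mod_cast (by omega : 0 < H)
        split_ifs with h1
        · have h2 : R N H / H ≤ 3 / H := div_le_div_of_nonneg_right (hR N H) hH0.le
          have h3 : (0 : ℝ) ≤ ε / 2 * (1 / (H : ℝ)) := by positivity
          have h4 : (3 : ℝ) / H = 3 * (1 / (H : ℝ)) := by ring
          linarith
        · have h2 : R N H / H ≤ (ε / 2) / H :=
            div_le_div_of_nonneg_right (hH₀ H N (by omega) (hH.2.trans hXN)) hH0.le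
          have h4 : (ε / 2) / (H : ℝ) = ε / 2 * (1 / (H : ℝ)) := by ring
          linarith
    _ = ∑ H ∈ Icc 1 X, (if H ≤ H₀ then 3 * (1 / (H : ℝ)) else 0) +
        ε / 2 * ∑ H ∈ Icc 1 X, (1 / (H : ℝ)) := by rw [sum_add_distrib, mul_sum]
    _ ≤ 3 * (1 + Real.log H₀) + ε / 2 * (1 + Real.log X) := by
        refine add_le_add ?_ (mul_le_mul_of_nonneg_left (harm X) (by positivity))
        rw [← sum_filter]
        calc ∑ H ∈ (Icc 1 X).filter (fun H => H ≤ H₀), 3 * (1 / (H : ℝ))
            ≤ ∑ H ∈ Icc 1 H₀, 3 * (1 / (H : ℝ)) := by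
              refine sum_le_sum_of_subset_of_nonneg ?_ fun _ _ _ => by positivity
              intro H hH
              rw [mem_filter, mem_Icc] at hH
              rw [mem_Icc]
              exact ⟨hH.1.1, hH.2⟩
          _ = 3 * ∑ H ∈ Icc 1 H₀, (1 / (H : ℝ)) := by rw [mul_sum]
          _ ≤ _ := mul_le_mul_of_nonneg_left (harm H₀) (by norm_num)
    _ ≤ ε * Real.log X := by linarith

/-- from logarithmic averages to sums -/
lemma to_small {s : ℕ} (c : Fin s → ℤ) (k : ℤ) (j : Fin s → ℕ)
    (h : ∀ ε : ℝ, 0 < ε → ∃ X₀ : ℕ, ∀ X N : ℕ, X₀ ≤ X → X ≤ N →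
      ∑ H ∈ Icc 1 X, |LA N fun n => JJ (fun i n => muR n ^ j i) c k n H| / H ≤ ε * Real.log X) :
    Small c k j := by
  intro ε hε
  obtain ⟨X₀, hX₀⟩ := h ε hε
  refine ⟨max X₀ 2, fun X N hX hXN => ?_⟩
  have h1 := hX₀ X N ((le_max_left _ _).trans hX) hXN
  have hN : 1 < N := by have := (le_max_right _ _).trans hX; omega
  have hlog : 0 < Real.log N := Real.log_pos (by exact_mod_cast hN)
  have e1 : ∀ H ∈ Icc 1 X, (1 / (H : ℝ)) * |∑ n ∈ Icc 1 N, (1 / (n : ℝ)) *
      ((∑ h ∈ Sol c k H, ∏ i, muR (n + h i) ^ j i) / (H : ℝ) ^ (s - 1))| =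
      |LA N fun n => JJ (fun i n => muR n ^ j i) c k n H| / H * Real.log N := by
    intro H _
    have e2 : ∀ Z : ℝ, (1 / (H : ℝ)) * Z = Z / Real.log N / H * Real.log N := fun Z => by
      field_simp
    unfold LA JJ
    rw [abs_div, abs_of_pos hlog]
    exact e2 _
  rw [sum_congr rfl e1, ← sum_mul]
  exact mul_le_mul_of_nonneg_right h1 hlog.le

end Fi

open Fi in
theorem Q_of (hA0 : A0_stmt) (hD : D_stmt) (hEF : EF_stmt) (hW : W3F muR) (hG : G1_stmt)
    (hX2 : X2_stmt) (hY1 : Y1_stmt) (hY2 : Y2_stmt) : Q_stmt := by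
  have hA := hA0 muR muR_abs
  have hfj : ∀ {s : ℕ} (j : Fin s → ℕ) (i : Fin s) (n : ℕ), |(fun i n => muR n ^ j i) i n| ≤ 1 := by
    intro s j i n
    simp only [abs_pow]
    exact pow_le_one₀ (abs_nonneg _) (muR_abs n)
  have hGS : ∀ n H : ℕ, 1 ≤ H → GS WC86.lin WC86.mu Set.univ H n / H ≤ 1 := by
    intro n H hH
    have hHR : (0 : ℝ) < H := by exact_mod_cast hH
    rw [div_le_one hHR]
    refine GS_le _ _ (fun y n => ?_) (fun n => ?_) _ _ _
    · unfold WC86.lin
      exact (norm_ee _).le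
    · unfold WC86.mu
      rw [Complex.norm_intCast]
      exact_mod_cast ArithmeticFunction.abs_moebius_le_one
  have hone : ∀ {s : ℕ} (j : Fin s → ℕ) (l : Fin s), j l = 1 →
      (fun i n => muR n ^ j i) l = muR := by
    intro s j l hl
    funext n
    simp [hl]
  refine ⟨?_, ?_⟩
  · intro s c k j hs hc hsum hj hkj
    refine to_small c k j ?_
    by_cases h2 : ∃ i, j i = 2
    · obtain ⟨i, hi⟩ := h2
      obtain ⟨hj12, l, hl⟩ := hj
      have hil : i ≠ l := by rintro rfl; omega
      refine avg (fun N H => |LA N fun n => JJ (fun i n => muR n ^ j i) c k n H|) ?_ ?_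
      · intro N H
        rcases Nat.eq_zero_or_pos H with rfl | hH
        · have h3 : (fun n => JJ (fun i n => muR n ^ j i) c k n 0) = fun _ => 0 := by
            funext n
            unfold JJ
            rw [Nat.cast_zero, zero_pow (by omega), div_zero]
          rw [h3]
          have h4 := hD.1 N (fun _ => 0) 0 (fun n => by simp)
          linarith
        · have h4 := hD.1 N (fun n => JJ (fun i n => muR n ^ j i) c k n H) 1 (fun n =>
            (hY2 s c k _ l n H (by omega) hc (hfj j) (hone j l hl) hH).trans (hGS n H hH))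
          linarith
      · intro ε hε
        obtain ⟨H₀, hH₀⟩ := hX2 s c k i l ε (by omega) hc hil hε
        refine ⟨H₀, fun H N hH hHN => hH₀ H N hH hHN _ (hfj j) (hone j l hl) ?_⟩
        funext n
        simp [hi]
    · have hk : k ≠ 0 := hkj.resolve_right h2
      have hj1 : ∀ i, j i = 1 := fun i => (hj.1 i).resolve_right fun h => h2 ⟨i, h⟩
      have e1 : ∀ n H, JJ (fun i n => muR n ^ j i) c k n H = J muR c k n H := by
        intro n H
        unfold JJ J
        simp only [hj1, pow_one]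
      simp only [e1]
      have hE := hEF muR muR_abs muR_mulP hW
      refine hG (fun N H => |LA N fun n => J muR c k n H|) (fun N H => LA N fun n => J muR c0 0 n H)
        ?_ ?_ ?_ ?_
      · intro N H
        refine ⟨abs_nonneg _, ?_⟩
        have h4 := hD.1 N (fun n => J muR c k n H) 1 (fun n => hA.1 s c k n H (by omega) hc)
        linarith
      · intro N H
        have hc0 : ∀ i, c0 i ≠ 0 := by
          intro i
          fin_cases i <;> simp [c0]
        have h4 := hD.1 N (fun n => J muR c0 0 n H) 1 (fun n => hA.1 4 c0 0 n H (by omega) hc0)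
        refine ⟨?_, ?_⟩
        · unfold LA
          exact div_nonneg (sum_nonneg fun n _ => mul_nonneg (by positivity) (hA.2.2.2 n H))
            (Real.log_natCast_nonneg N)
        · have := (abs_le.1 h4).2
          linarith
      · intro N
        have h3 : (fun n => J muR c0 0 n 0) = fun _ => 0 := by
          funext n
          exact hA.2.1 4 c0 0 n (by omega)
        rw [h3]
        have h4 := hD.1 N (fun _ => 0) 0 (fun n => by simp)
        rw [mul_zero] at h4
        exact abs_nonpos_iff.1 h4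
      · intro δ hδ
        exact hE s c k δ (by omega) hc hsum hk hδ
  · tfae_have 1 → 3 := by
      intro hC s c k j hs hc hj ε hε
      obtain ⟨X₀, hX₀⟩ := hC ε hε
      obtain ⟨hj12, l, hl⟩ := hj
      refine ⟨X₀, fun X N hX hXN => (sum_le_sum fun H hH => ?_).trans (hX₀ X N hX hXN)⟩
      rw [mem_Icc] at hH
      refine mul_le_mul_of_nonneg_left ?_ (by positivity)
      rw [sum_div]
      refine (abs_sum_le_sum_abs _ _).trans (sum_le_sum fun n _ => ?_)
      have h1 := hY2 s c k (fun i n => muR n ^ j i) l n H (by omega) hc (hfj j) (hone j l hl) hH.1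
      rw [abs_mul, abs_of_nonneg (by positivity : (0 : ℝ) ≤ 1 / (n : ℝ)), mul_div_assoc]
      exact mul_le_mul_of_nonneg_left h1 (by positivity)
    tfae_have 3 → 2 := by
      intro h
      refine h 4 c0 0 (fun _ => 1) le_rfl ?_ ⟨fun _ => Or.inl rfl, 0, rfl⟩
      intro i
      fin_cases i <;> simp [c0]
    tfae_have 2 → 1 := by
      intro h ε hε
      obtain ⟨C, hC1, hC⟩ := hY1
      set τ : ℝ := min 1 (ε / 24) with hτ
      have hτ0 : 0 < τ := lt_min one_pos (by positivity)
      have hτ2 : τ ≤ ε / 24 := min_le_right _ _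
      obtain ⟨X₀, hX₀⟩ := h (ε * τ ^ 4 / (2 * C)) (by positivity)
      refine ⟨max X₀ 3, fun X N hX hXN => ?_⟩
      have h1 := hX₀ X N ((le_max_left _ _).trans hX) hXN
      have hX3 : 3 ≤ X := (le_max_right _ _).trans hX
      have hN3 : 3 ≤ N := hX3.trans hXN
      have hlogX : 1 ≤ Real.log X := by
        have h2 : Real.exp 1 ≤ X := by
          have h3 : (3 : ℝ) ≤ X := by exact_mod_cast hX3
          linarith [Real.exp_one_lt_d9]
        rw [← Real.log_exp 1]
        exact Real.log_le_log (Real.exp_pos _) h2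
      have hlogN : 1 ≤ Real.log N := by
        have h2 : Real.exp 1 ≤ N := by
          have h3 : (3 : ℝ) ≤ N := by exact_mod_cast hN3
          linarith [Real.exp_one_lt_d9]
        rw [← Real.log_exp 1]
        exact Real.log_le_log (Real.exp_pos _) h2
      have hpt : ∀ n H : ℕ, 1 ≤ H → GS WC86.lin WC86.mu Set.univ H n / H ≤
          τ + C / τ ^ 4 * J muR c0 0 n H := by
        intro n H hH
        set x := GS WC86.lin WC86.mu Set.univ H n / H with hx
        have hx0 : 0 ≤ x := div_nonneg (GS_nonneg _ _ _ _ _) (Nat.cast_nonneg _)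
        have h2 := hC n H hH
        rcases le_or_gt x τ with h3 | h3
        · have h4 := hA.2.2.2 n H
          have h5 : 0 ≤ C / τ ^ 4 * J muR c0 0 n H := by positivity
          linarith
        · have h4 : τ ^ 4 ≤ x ^ 4 := pow_le_pow_left₀ hτ0.le h3.le 4
          have h5 : x * τ ^ 4 ≤ C * J muR c0 0 n H := by
            calc x * τ ^ 4 ≤ x * x ^ 4 := mul_le_mul_of_nonneg_left h4 hx0
              _ = x ^ 5 := by ring
              _ ≤ _ := h2
          have h6 : x ≤ C / τ ^ 4 * J muR c0 0 n H := by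
            rw [div_mul_eq_mul_div, le_div_iff₀ (by positivity)]
            exact h5
          linarith
      have hH : ∀ H ∈ Icc 1 X, (1 / (H : ℝ)) * ((∑ n ∈ Icc 1 N, (1 / (n : ℝ)) *
          GS WC86.lin WC86.mu Set.univ H n) / H) ≤
          τ * (2 * Real.log N) * (1 / (H : ℝ)) + C / τ ^ 4 * ((1 / (H : ℝ)) *
          |∑ n ∈ Icc 1 N, (1 / (n : ℝ)) *
          ((∑ h ∈ Sol c0 0 H, ∏ i, muR (n + h i) ^ (fun _ => 1 : Fin 4 → ℕ) i) /
            (H : ℝ) ^ (4 - 1))|) := by
        intro H hH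
        rw [mem_Icc] at hH
        have h2 : (∑ n ∈ Icc 1 N, (1 / (n : ℝ)) * GS WC86.lin WC86.mu Set.univ H n) / H ≤
            τ * (2 * Real.log N) + C / τ ^ 4 * ∑ n ∈ Icc 1 N, (1 / (n : ℝ)) * J muR c0 0 n H := by
          rw [sum_div]
          calc ∑ n ∈ Icc 1 N, (1 / (n : ℝ)) * GS WC86.lin WC86.mu Set.univ H n / H
              ≤ ∑ n ∈ Icc 1 N, (τ * (1 / (n : ℝ)) + C / τ ^ 4 * ((1 / (n : ℝ)) *
                J muR c0 0 n H)) := by
                refine sum_le_sum fun n _ => ?_
                have h3 := mul_le_mul_of_nonneg_left (hpt n H hH.1)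
                  (by positivity : (0 : ℝ) ≤ 1 / (n : ℝ))
                rw [mul_div_assoc]
                linarith
            _ = τ * ∑ n ∈ Icc 1 N, (1 / (n : ℝ)) +
                C / τ ^ 4 * ∑ n ∈ Icc 1 N, (1 / (n : ℝ)) * J muR c0 0 n H := by
                rw [sum_add_distrib, mul_sum, mul_sum]
            _ ≤ _ := by
                refine add_le_add (mul_le_mul_of_nonneg_left ?_ hτ0.le) le_rfl
                have := harm N
                linarith
        have h4 : ∑ n ∈ Icc 1 N, (1 / (n : ℝ)) * J muR c0 0 n H ≤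
            |∑ n ∈ Icc 1 N, (1 / (n : ℝ)) *
          ((∑ h ∈ Sol c0 0 H, ∏ i, muR (n + h i) ^ (fun _ => 1 : Fin 4 → ℕ) i) /
            (H : ℝ) ^ (4 - 1))| := by
          refine le_trans (le_of_eq ?_) (le_abs_self _)
          refine sum_congr rfl fun n _ => ?_
          unfold J
          simp only [pow_one]
        have h5 : (0 : ℝ) ≤ 1 / (H : ℝ) := by positivity
        calc (1 / (H : ℝ)) * ((∑ n ∈ Icc 1 N, (1 / (n : ℝ)) *
              GS WC86.lin WC86.mu Set.univ H n) / H)
            ≤ (1 / (H : ℝ)) * (τ * (2 * Real.log N) + C / τ ^ 4 *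
              ∑ n ∈ Icc 1 N, (1 / (n : ℝ)) * J muR c0 0 n H) := mul_le_mul_of_nonneg_left h2 h5
          _ ≤ (1 / (H : ℝ)) * (τ * (2 * Real.log N) + C / τ ^ 4 *
              |∑ n ∈ Icc 1 N, (1 / (n : ℝ)) *
          ((∑ h ∈ Sol c0 0 H, ∏ i, muR (n + h i) ^ (fun _ => 1 : Fin 4 → ℕ) i) /
            (H : ℝ) ^ (4 - 1))|) := by
              refine mul_le_mul_of_nonneg_left (add_le_add le_rfl ?_) h5
              exact mul_le_mul_of_nonneg_left h4 (by positivity)
          _ = _ := by ring
      refine (sum_le_sum hH).trans ?_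
      rw [sum_add_distrib, ← mul_sum, ← mul_sum]
      have h6 := mul_le_mul_of_nonneg_left h1 (by positivity : (0 : ℝ) ≤ C / τ ^ 4)
      have h7 : C / τ ^ 4 * (ε * τ ^ 4 / (2 * C) * Real.log X * Real.log N) =
          ε / 2 * (Real.log X * Real.log N) := by
        field_simp
      rw [h7] at h6
      have h8 : τ * (2 * Real.log N) * ∑ H ∈ Icc 1 X, (1 / (H : ℝ)) ≤
          ε / 2 * (Real.log X * Real.log N) := by
        have h9 : ∑ H ∈ Icc 1 X, (1 / (H : ℝ)) ≤ 2 * Real.log X := by
          have := harm X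
          linarith
        calc τ * (2 * Real.log N) * ∑ H ∈ Icc 1 X, (1 / (H : ℝ))
            ≤ ε / 24 * (2 * Real.log N) * (2 * Real.log X) := by
              refine mul_le_mul (mul_le_mul_of_nonneg_right hτ2 (by positivity)) h9 ?_ (by positivity)
              exact sum_nonneg fun _ _ => by positivity
          _ ≤ _ := by
              have : 0 ≤ ε * (Real.log X * Real.log N) := by positivity
              nlinarith
      calc _ ≤ ε / 2 * (Real.log X * Real.log N) + ε / 2 * (Real.log X * Real.log N) :=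
            add_le_add h8 h6
        _ = _ := by ring
    tfae_finish

end Pool.Agent.C4
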