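import Pool.Agent.Lib.C4.Final
import Pool.Agent.Lib.C4.Defs4

/-! C4, the final theorem with windows of scales. helper86. -/

set_option autoImplicit false
open Finset

namespace Pool.Agent.C4

open Pool.Agent.Lib.MP_663568_nt Pool.Agent.Lib.MP_663568_nt.Katai Pool.Agent.Lib.MP_663568_nt.H6

namespace Fi

lemma harm_up (a : ℕ) (ha : 1 ≤ a) (b : ℕ) (hab : a ≤ b) :
    ∑ H ∈ Icc a b, (1 / (H : ℝ)) ≤ 1 / a + Real.log (b / a) := by
  have haR : (0 : ℝ) < a := by exact_mod_cast ha
  induction b, hab using Nat.le_induction with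
  | base => simp [div_self haR.ne']
  | succ b hb ih =>
    have hbR : (0 : ℝ) < b := by exact_mod_cast (by omega : 0 < b)
    rw [sum_Icc_succ_top (by omega)]
    have h1 : Real.log ((b + 1 : ℕ) / a) = Real.log (b / a) + Real.log (((b : ℝ) + 1) / b) := by
      rw [← Real.log_mul (by positivity) (by positivity)]
      congr 1
      push_cast
      field_simp
    have h2 := Real.one_sub_inv_le_log_of_pos (show (0 : ℝ) < ((b : ℝ) + 1) / b by positivity)
    have h3 : 1 - (((b : ℝ) + 1) / b)⁻¹ = 1 / ((b + 1 : ℕ) : ℝ) := by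
      push_cast
      field_simp
      ring
    rw [h1]
    rw [h3] at h2
    linarith

lemma harm_low (a : ℕ) (ha : 1 ≤ a) (b : ℕ) (hab : a ≤ b) :
    Real.log (b / a) ≤ ∑ H ∈ Icc a b, (1 / (H : ℝ)) := by
  have haR : (0 : ℝ) < a := by exact_mod_cast ha
  suffices h : Real.log (((b : ℝ) + 1) / a) ≤ ∑ H ∈ Icc a b, (1 / (H : ℝ)) by
    refine le_trans (Real.log_le_log ?_ ?_) h
    · have : (0 : ℝ) < b := by exact_mod_cast (by omega : 0 < b)
      positivity
    · gcongr
      linarith
  have hstep : ∀ m : ℕ, 1 ≤ m → Real.log (((m : ℝ) + 1) / m) ≤ 1 / (m : ℝ) := by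
    intro m hm
    have hmR : (0 : ℝ) < m := by exact_mod_cast hm
    have h1 := Real.log_le_sub_one_of_pos (show (0 : ℝ) < ((m : ℝ) + 1) / m by positivity)
    have h2 : ((m : ℝ) + 1) / m - 1 = 1 / m := by field_simp; ring
    rw [h2] at h1
    exact h1
  induction b, hab using Nat.le_induction with
  | base =>
    rw [Icc_self, sum_singleton]
    exact hstep a ha
  | succ b hb ih =>
    have hbR : (0 : ℝ) < b := by exact_mod_cast (by omega : 0 < b)
    rw [sum_Icc_succ_top (by omega)]
    have h1 : Real.log ((((b + 1 : ℕ) : ℝ) + 1) / a) = Real.log (((b : ℝ) + 1) / a) +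
        Real.log ((((b + 1 : ℕ) : ℝ) + 1) / ((b + 1 : ℕ) : ℝ)) := by
      rw [← Real.log_mul (by positivity) (by positivity)]
      congr 1
      push_cast
      field_simp
    rw [h1]
    exact add_le_add ih (hstep (b + 1) (by omega))

lemma log_quot (W Y : ℕ) (hY : 1 ≤ Y) : Real.log (((W * Y : ℕ) : ℝ) / Y) = Real.log W := by
  have hYR : (0 : ℝ) < Y := by exact_mod_cast hY
  congr 1
  push_cast
  field_simp

/-- from logarithmic averages to sums -/
lemma to_smallW {s : ℕ} (c : Fin s → ℤ) (k : ℤ) (j : Fin s → ℕ)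
    (h : ∀ ε : ℝ, 0 < ε → ∃ H₀ : ℕ, ∀ W Y N : ℕ, H₀ ≤ W → H₀ ≤ Y → W * Y ≤ N →
      ∑ H ∈ Icc Y (W * Y), |LA N fun n => JJ (fun i n => muR n ^ j i) c k n H| / H ≤
        ε * Real.log W) :
    SmallW c k j := by
  intro ε hε
  obtain ⟨H₀, hH₀⟩ := h ε hε
  refine ⟨max H₀ 2, fun W Y N hW hY hN => ?_⟩
  have h1 := hH₀ W Y N ((le_max_left _ _).trans hW) ((le_max_left _ _).trans hY) hN
  have hW2 : 2 ≤ W := (le_max_right _ _).trans hW
  have hY2 : 2 ≤ Y := (le_max_right _ _).trans hY
  have hN1 : 1 < N := by nlinarith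
  have hlog : 0 < Real.log N := Real.log_pos (by exact_mod_cast hN1)
  have e1 : ∀ H ∈ Icc Y (W * Y), (1 / (H : ℝ)) * |∑ n ∈ Icc 1 N, (1 / (n : ℝ)) *
      ((∑ h ∈ Sol c k H, ∏ i, muR (n + h i) ^ j i) / (H : ℝ) ^ (s - 1))| =
      |LA N fun n => JJ (fun i n => muR n ^ j i) c k n H| / H * Real.log N := by
    intro H _
    have e2 : ∀ Z : ℝ, (1 / (H : ℝ)) * Z = Z / Real.log N / H * Real.log N := fun Z => by
      field_simp
    unfold LA JJ
    rw [abs_div, abs_of_pos hlog]
    exact e2 _
  rw [sum_congr rfl e1, ← sum_mul]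
  exact mul_le_mul_of_nonneg_right h1 hlog.le

end Fi

open Fi in
theorem QW_of (hA0 : A0_stmt) (hD : D_stmt) (hEF : EF_stmt) (hW : W3F muR) (hG : G2_stmt)
    (hX2 : X2_stmt) (hY1 : Y1_stmt) (hY2 : Y2_stmt) (hZ : Z_stmt) : QW_stmt := by
  have hA := hA0 muR muR_abs
  have hfj : ∀ {s : ℕ} (j : Fin s → ℕ) (i : Fin s) (n : ℕ), |(fun i n => muR n ^ j i) i n| ≤ 1 := by
    intro s j i n
    simp only [abs_pow]
    exact pow_le_one₀ (abs_nonneg _) (muR_abs n)
  have hone : ∀ {s : ℕ} (j : Fin s → ℕ) (l : Fin s), j l = 1 →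
      (fun i n => muR n ^ j i) l = muR := by
    intro s j l hl
    funext n
    simp [hl]
  refine ⟨?_, ?_, ?_⟩
  · intro s c k j hs hc hsum hj1 hk
    refine to_smallW c k j ?_
    have e1 : ∀ n H, JJ (fun i n => muR n ^ j i) c k n H = J muR c k n H := by
      intro n H
      unfold JJ J
      simp only [hj1, pow_one]
    simp only [e1]
    have hE := hEF muR muR_abs muR_mulP hW
    refine hG (fun N H => |LA N fun n => J muR c k n H|) (fun N H => LA N fun n => J muR c0 0 n H)
      ?_ ?_ ?_ ?_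
    · intro N H
      refine ⟨abs_nonneg _, ?_⟩
      have h4 := hD.1 N (fun n => J muR c k n H) 1 (fun n => hA.1 s c k n H (by omega) hc)
      linarith
    · intro N H
      have hc0 : ∀ i, c0 i ≠ 0 := by
        intro i
        fin_cases i <;> simp [c0]
      have h4 := hD.1 N (fun n => J muR c0 0 n H) 1 (fun n => hA.1 4 c0 0 n H (by omega) hc0)
      refine ⟨?_, ?_⟩
      · unfold LA
        exact div_nonneg (sum_nonneg fun n _ => mul_nonneg (by positivity) (hA.2.2.2 n H))
          (Real.log_natCast_nonneg N)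
      · have := (abs_le.1 h4).2
        linarith
    · intro N
      have h3 : (fun n => J muR c0 0 n 0) = fun _ => 0 := by
        funext n
        exact hA.2.1 4 c0 0 n (by omega)
      rw [h3]
      have h4 := hD.1 N (fun _ => 0) 0 (fun n => by simp)
      rw [mul_zero] at h4
      exact abs_nonpos_iff.1 h4
    · intro δ hδ
      exact hE s c k δ hs hc hsum hk hδ
  · intro s c k j hs hc hj hi ε hε
    obtain ⟨i, hi⟩ := hi
    obtain ⟨hj12, l, hl⟩ := hj
    have hil : i ≠ l := by rintro rfl; omega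
    obtain ⟨H₀, hH₀⟩ := hX2 s c k i l ε hs hc hil hε
    refine ⟨max H₀ 2, fun H N hH hHN => ?_⟩
    have h1 := hH₀ H N ((le_max_left _ _).trans hH) hHN _ (hfj j) (hone j l hl) (by
      funext n
      simp [hi])
    have hN1 : 1 < N := by
      have := (le_max_right _ _).trans hH
      omega
    have hlog : 0 < Real.log N := Real.log_pos (by exact_mod_cast hN1)
    unfold LA JJ at h1
    rw [abs_div, abs_of_pos hlog, div_le_iff₀ hlog] at h1
    exact h1
  · tfae_have 1 → 3 := by
      intro hC s c k j hs hc hj ε hε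
      obtain ⟨H₀, hH₀⟩ := hC ε hε
      obtain ⟨hj12, l, hl⟩ := hj
      refine ⟨max H₀ 1, fun H N hH hHN => ?_⟩
      have hH1 : 1 ≤ H := (le_max_right _ _).trans hH
      have hHR : (0 : ℝ) < H := by exact_mod_cast hH1
      have h0 := hH₀ H N ((le_max_left _ _).trans hH) hHN
      calc |∑ n ∈ Icc 1 N, (1 / (n : ℝ)) *
            ((∑ h ∈ Sol c k H, ∏ i, muR (n + h i) ^ j i) / (H : ℝ) ^ (s - 1))|
          ≤ ∑ n ∈ Icc 1 N, (1 / (n : ℝ)) * (GS WC86.lin WC86.mu Set.univ H n / H) := by
            refine (abs_sum_le_sum_abs _ _).trans (sum_le_sum fun n _ => ?_)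
            have h1 := hY2 s c k (fun i n => muR n ^ j i) l n H hs hc (hfj j) (hone j l hl) hH1
            rw [abs_mul, abs_of_nonneg (by positivity : (0 : ℝ) ≤ 1 / (n : ℝ))]
            exact mul_le_mul_of_nonneg_left h1 (by positivity)
        _ = (∑ n ∈ Icc 1 N, (1 / (n : ℝ)) * GS WC86.lin WC86.mu Set.univ H n) / H := by
            rw [sum_div]
            exact sum_congr rfl fun n _ => (mul_div_assoc _ _ _).symm
        _ ≤ ε * Real.log N := by
            rw [div_le_iff₀ hHR]
            linarith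
    tfae_have 3 → 2 := by
      intro h ε hε
      obtain ⟨H₀, hH₀⟩ := h 4 c0 0 (fun _ => 1) (by norm_num) (by
        intro i
        fin_cases i <;> simp [c0]) ⟨fun _ => Or.inl rfl, 0, rfl⟩ (ε / 2) (by positivity)
      refine ⟨max H₀ 3, fun W Y N hW hY hN => ?_⟩
      have hW3 : 3 ≤ W := (le_max_right _ _).trans hW
      have hY3 : 3 ≤ Y := (le_max_right _ _).trans hY
      have hlogW : 1 ≤ Real.log W := by
        have h2 : Real.exp 1 ≤ W := by
          have h3 : (3 : ℝ) ≤ W := by exact_mod_cast hW3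
          linarith [Real.exp_one_lt_d9]
        rw [← Real.log_exp 1]
        exact Real.log_le_log (Real.exp_pos _) h2
      have hlogN : 0 ≤ Real.log N := Real.log_natCast_nonneg N
      have hYW : Y ≤ W * Y := Nat.le_mul_of_pos_left Y (by omega)
      have h5 : ∑ H ∈ Icc Y (W * Y), (1 / (H : ℝ)) ≤ 2 * Real.log W := by
        have h6 := harm_up Y (by omega) (W * Y) hYW
        rw [log_quot W Y (by omega)] at h6
        have h7 : (1 : ℝ) / Y ≤ 1 := by
          rw [div_le_one (by exact_mod_cast (by omega : 0 < Y))]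
          exact_mod_cast (by omega : 1 ≤ Y)
        linarith
      calc _ ≤ ∑ H ∈ Icc Y (W * Y), (1 / (H : ℝ)) * (ε / 2 * Real.log N) := by
            refine sum_le_sum fun H hH => ?_
            rw [mem_Icc] at hH
            refine mul_le_mul_of_nonneg_left ?_ (by positivity)
            exact hH₀ H N (((le_max_left _ _).trans hY).trans hH.1) (hH.2.trans hN)
        _ = (∑ H ∈ Icc Y (W * Y), (1 / (H : ℝ))) * (ε / 2 * Real.log N) := by rw [sum_mul]
        _ ≤ 2 * Real.log W * (ε / 2 * Real.log N) :=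
            mul_le_mul_of_nonneg_right h5 (by positivity)
        _ = _ := by ring
    tfae_have 2 → 1 := by
      intro h
      refine hZ fun ε hε => ?_
      obtain ⟨C, hC1, hC⟩ := hY1
      set τ : ℝ := min 1 (ε / 8) with hτ
      have hτ0 : 0 < τ := lt_min one_pos (by positivity)
      have hτ2 : τ ≤ ε / 8 := min_le_right _ _
      obtain ⟨H₀, hH₀⟩ := h (ε * τ ^ 4 / (2 * C)) (by positivity)
      set W : ℕ := max H₀ 3 with hWdef
      have hW3 : 3 ≤ W := le_max_right _ _
      refine ⟨W * W, fun N hN => ?_⟩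
      have h1 := hH₀ W W N (le_max_left _ _) (le_max_left _ _) hN
      have hN3 : 3 ≤ N := by nlinarith
      have hlogW : 0 < Real.log W := Real.log_pos (by exact_mod_cast (by omega : 1 < W))
      have hlogN : 1 ≤ Real.log N := by
        have h2 : Real.exp 1 ≤ N := by
          have h3 : (3 : ℝ) ≤ N := by exact_mod_cast hN3
          linarith [Real.exp_one_lt_d9]
        rw [← Real.log_exp 1]
        exact Real.log_le_log (Real.exp_pos _) h2
      -- a scale with small energy
      have hex : ∃ L ∈ Icc W (W * W), |∑ n ∈ Icc 1 N, (1 / (n : ℝ)) *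
          ((∑ h ∈ Sol c0 0 L, ∏ i, muR (n + h i) ^ (fun _ => 1 : Fin 4 → ℕ) i) /
            (L : ℝ) ^ (4 - 1))| ≤ ε * τ ^ 4 / (2 * C) * Real.log N := by
        by_contra hcon
        push Not at hcon
        have hWW : W ≤ W * W := Nat.le_mul_of_pos_left W (by omega)
        have h2 : (∑ H ∈ Icc W (W * W), (1 / (H : ℝ))) * (ε * τ ^ 4 / (2 * C) * Real.log N) <
            ∑ H ∈ Icc W (W * W), (1 / (H : ℝ)) * |∑ n ∈ Icc 1 N, (1 / (n : ℝ)) *
          ((∑ h ∈ Sol c0 0 H, ∏ i, muR (n + h i) ^ (fun _ => 1 : Fin 4 → ℕ) i) /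
            (H : ℝ) ^ (4 - 1))| := by
          rw [sum_mul]
          refine sum_lt_sum_of_nonempty (nonempty_Icc.2 hWW) fun H hH => ?_
          have hH0 : (0 : ℝ) < H := by
            rw [mem_Icc] at hH
            exact_mod_cast (by omega : 0 < H)
          exact mul_lt_mul_of_pos_left (hcon H hH) (by positivity)
        have h3 := harm_low W (by omega) (W * W) hWW
        rw [log_quot W W (by omega)] at h3
        have h4 : Real.log W * (ε * τ ^ 4 / (2 * C) * Real.log N) ≤
            (∑ H ∈ Icc W (W * W), (1 / (H : ℝ))) * (ε * τ ^ 4 / (2 * C) * Real.log N) :=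
          mul_le_mul_of_nonneg_right h3 (by positivity)
        have h5 : ε * τ ^ 4 / (2 * C) * Real.log W * Real.log N =
            Real.log W * (ε * τ ^ 4 / (2 * C) * Real.log N) := by ring
        linarith
      obtain ⟨L, hL, hL2⟩ := hex
      rw [mem_Icc] at hL
      have hL1 : 1 ≤ L := by omega
      have hLR : (0 : ℝ) < L := by exact_mod_cast hL1
      refine ⟨L, hL1, hL.2, ?_⟩
      have hpt : ∀ n : ℕ, GS WC86.lin WC86.mu Set.univ L n / L ≤
          τ + C / τ ^ 4 * J muR c0 0 n L := by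
        intro n
        set x := GS WC86.lin WC86.mu Set.univ L n / L with hx
        have hx0 : 0 ≤ x := div_nonneg (GS_nonneg _ _ _ _ _) (Nat.cast_nonneg _)
        have h2 := hC n L hL1
        rcases le_or_gt x τ with h3 | h3
        · have h4 := hA.2.2.2 n L
          have h5 : 0 ≤ C / τ ^ 4 * J muR c0 0 n L := by positivity
          linarith
        · have h4 : τ ^ 4 ≤ x ^ 4 := pow_le_pow_left₀ hτ0.le h3.le 4
          have h5 : x * τ ^ 4 ≤ C * J muR c0 0 n L := by
            calc x * τ ^ 4 ≤ x * x ^ 4 := mul_le_mul_of_nonneg_left h4 hx0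
              _ = x ^ 5 := by ring
              _ ≤ _ := h2
          have h6 : x ≤ C / τ ^ 4 * J muR c0 0 n L := by
            rw [div_mul_eq_mul_div, le_div_iff₀ (by positivity)]
            exact h5
          linarith
      have h4 : ∑ n ∈ Icc 1 N, (1 / (n : ℝ)) * J muR c0 0 n L ≤
          ε * τ ^ 4 / (2 * C) * Real.log N := by
        refine le_trans (le_of_eq ?_) ((le_abs_self _).trans hL2)
        refine sum_congr rfl fun n _ => ?_
        unfold J
        simp only [pow_one]
      calc ∑ n ∈ Icc 1 N, (1 / (n : ℝ)) * GS WC86.lin WC86.mu Set.univ L n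
          ≤ ∑ n ∈ Icc 1 N, L * (τ * (1 / (n : ℝ)) + C / τ ^ 4 * ((1 / (n : ℝ)) *
            J muR c0 0 n L)) := by
            refine sum_le_sum fun n _ => ?_
            have h3 := hpt n
            rw [div_le_iff₀ hLR] at h3
            have h5 := mul_le_mul_of_nonneg_left h3 (by positivity : (0 : ℝ) ≤ 1 / (n : ℝ))
            linarith
        _ = L * (τ * ∑ n ∈ Icc 1 N, (1 / (n : ℝ)) +
            C / τ ^ 4 * ∑ n ∈ Icc 1 N, (1 / (n : ℝ)) * J muR c0 0 n L) := by
            rw [← mul_sum, sum_add_distrib, mul_sum, mul_sum]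
        _ ≤ L * (ε / 8 * (2 * Real.log N) + C / τ ^ 4 * (ε * τ ^ 4 / (2 * C) * Real.log N)) := by
            refine mul_le_mul_of_nonneg_left (add_le_add ?_ ?_) hLR.le
            · refine mul_le_mul hτ2 ?_ (sum_nonneg fun _ _ => by positivity) (by positivity)
              have := harm N
              linarith
            · exact mul_le_mul_of_nonneg_left h4 (by positivity)
        _ ≤ _ := by
            have h7 : C / τ ^ 4 * (ε * τ ^ 4 / (2 * C) * Real.log N) = ε / 2 * Real.log N := by
              field_simp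
            rw [h7]
            have h8 : 0 ≤ (L : ℝ) * (ε * Real.log N) := by positivity
            nlinarith
    tfae_finish

end Pool.Agent.C4
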