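import Pool.Agent.Lib.C4.FinalW
import Pool.Agent.Lib.C4.Defs5

/-! C4, the final theorem for all equations. helper86. -/

set_option autoImplicit false
open Finset

namespace Pool.Agent.C4

open Pool.Agent.Lib.MP_663568_nt Pool.Agent.Lib.MP_663568_nt.Katai Pool.Agent.Lib.MP_663568_nt.H6

open Fi in
theorem QX_of (hQW : QW_stmt) (hX3 : X3_stmt) : QX_stmt := by
  refine ⟨hQW.1, ?_, hQW.2.2⟩
  intro s c k j hs hc hj h
  by_cases h2 : ∃ i, j i = 2
  · exact hQW.2.1 s c k j hs hc hj h2
  · have hsum : ∑ i, c i ≠ 0 := h.resolve_right h2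
    intro ε hε
    obtain ⟨hj12, l, hl⟩ := hj
    obtain ⟨H₀, hH₀⟩ := hX3 s c k l ε hs hc hsum hε
    refine ⟨max H₀ 2, fun H N hH hHN => ?_⟩
    have h1 := hH₀ H N ((le_max_left _ _).trans hH) hHN (fun i n => muR n ^ j i)
      (fun i n => by
        simp only [abs_pow]
        exact pow_le_one₀ (abs_nonneg _) (muR_abs n)) (by
      funext n
      simp [hl])
    have hN1 : 1 < N := by
      have := (le_max_right _ _).trans hH
      omega
    have hlog : 0 < Real.log N := Real.log_pos (by exact_mod_cast hN1)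
    unfold LA JJ at h1
    rw [abs_div, abs_of_pos hlog, div_le_iff₀ hlog] at h1
    exact h1

end Pool.Agent.C4
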