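import Mathlib
import Pool.Agent.Lib.C4.Defs

/-!
# Row G of THEOREM Q (MP_663568_nt): the sum over `H`

The inequality of row E for each `H` is summed over `H` with weight `1 / H`; the energies
telescope.
-/

set_option autoImplicit false
open Finset

namespace Pool.Agent.C4

namespace RowG

lemma div_block {p m H : ℕ} (hH : H ∈ Ico (p * m) (p * (m + 1))) : H / p = m := by
  rw [mem_Ico] at hH
  apply Nat.div_eq_of_lt_le
  · rw [Nat.mul_comm]; exact hH.1
  · rw [Nat.mul_comm]; exact hH.2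

/-- A block `[p m, p m + p)`, bounded below. -/
lemma block_lower (p m : ℕ) (hp : 1 ≤ p) (hm : 1 ≤ m) (g : ℕ → ℝ) (hg : 0 ≤ g m) :
    g m / ((m : ℝ) + 1) ≤ ∑ H ∈ Ico (p * m) (p * (m + 1)), g (H / p) / (H : ℝ) := by
  have hcard : #(Ico (p * m) (p * (m + 1))) = p := by
    rw [Nat.card_Ico, Nat.mul_add]; omega
  have hp' : (0 : ℝ) < p := by exact_mod_cast hp
  have key : ∑ _H ∈ Ico (p * m) (p * (m + 1)), g m / ((p : ℝ) * ((m : ℝ) + 1)) ≤
      ∑ H ∈ Ico (p * m) (p * (m + 1)), g (H / p) / (H : ℝ) := by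
    apply sum_le_sum
    intro H hH
    rw [div_block hH]
    rw [mem_Ico] at hH
    have h1 : 1 ≤ p * m := Nat.mul_pos hp hm
    apply div_le_div_of_nonneg_left hg
    · exact_mod_cast (by omega : 0 < H)
    · have : (H : ℝ) ≤ ((p * (m + 1) : ℕ) : ℝ) := by exact_mod_cast hH.2.le
      push_cast at this
      exact this
  rw [sum_const, hcard, nsmul_eq_mul] at key
  refine le_trans (le_of_eq ?_) key
  field_simp

/-- A block `[p m, p m + p)`, bounded above. -/
lemma block_upper (p m : ℕ) (hp : 1 ≤ p) (hm : 1 ≤ m) (g : ℕ → ℝ) (hg : 0 ≤ g m) :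
    ∑ H ∈ Ico (p * m) (p * (m + 1)), g (H / p) / (H : ℝ) ≤ g m / (m : ℝ) := by
  have hcard : #(Ico (p * m) (p * (m + 1))) = p := by
    rw [Nat.card_Ico, Nat.mul_add]; omega
  have hp' : (0 : ℝ) < p := by exact_mod_cast hp
  have hm' : (0 : ℝ) < m := by exact_mod_cast hm
  have key : ∑ H ∈ Ico (p * m) (p * (m + 1)), g (H / p) / (H : ℝ) ≤
      ∑ _H ∈ Ico (p * m) (p * (m + 1)), g m / ((p : ℝ) * (m : ℝ)) := by
    apply sum_le_sum
    intro H hH
    rw [div_block hH]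
    rw [mem_Ico] at hH
    apply div_le_div_of_nonneg_left hg
    · positivity
    · have : ((p * m : ℕ) : ℝ) ≤ (H : ℝ) := by exact_mod_cast hH.1
      push_cast at this
      exact this
  rw [sum_const, hcard, nsmul_eq_mul] at key
  refine le_trans key (le_of_eq ?_)
  field_simp

lemma blocks_lower (p a : ℕ) (hp : 1 ≤ p) (ha : 1 ≤ a) (g : ℕ → ℝ) (hg : ∀ m, 0 ≤ g m) (b : ℕ)
    (hab : a ≤ b) :
    ∑ m ∈ Ico a b, g m / ((m : ℝ) + 1) ≤ ∑ H ∈ Ico (p * a) (p * b), g (H / p) / (H : ℝ) := by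
  induction b, hab using Nat.le_induction with
  | base => simp
  | succ b hb ih =>
    rw [sum_Ico_succ_top hb,
      ← sum_Ico_consecutive (fun H : ℕ => g (H / p) / (H : ℝ)) (Nat.mul_le_mul_left p hb)
        (Nat.mul_le_mul_left p (Nat.le_succ b))]
    exact add_le_add ih (block_lower p b hp (by omega) g (hg b))

lemma blocks_upper (p : ℕ) (hp : 1 ≤ p) (g : ℕ → ℝ) (hg : ∀ m, 0 ≤ g m) (hg0 : g 0 = 0)
    (b : ℕ) :
    ∑ H ∈ range (p * b), g (H / p) / (H : ℝ) ≤ ∑ m ∈ range b, g m / (m : ℝ) := by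
  induction b with
  | zero => simp
  | succ b ih =>
    rw [sum_range_succ, range_eq_Ico,
      ← sum_Ico_consecutive (fun H : ℕ => g (H / p) / (H : ℝ)) (Nat.zero_le (p * b))
        (Nat.mul_le_mul_left p (Nat.le_succ b)), ← range_eq_Ico]
    refine add_le_add ih ?_
    rcases Nat.eq_zero_or_pos b with rfl | hb
    · refine le_trans (le_of_eq (sum_eq_zero ?_)) (by simp)
      intro H hH
      rw [div_block hH, hg0, zero_div]
    · exact block_upper p b hp hb g (hg b)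

lemma harm_le (n : ℕ) (a : ℕ) : ∑ H ∈ Ico a (n + 1), 1 / (H : ℝ) ≤ 1 + Real.log n := by
  have h := harmonic_le_one_add_log n
  rw [harmonic_eq_sum_Icc] at h
  push_cast at h
  refine le_trans ?_ h
  have h1 : ∑ H ∈ Ico a (n + 1), 1 / (H : ℝ) ≤ ∑ H ∈ range (n + 1), 1 / (H : ℝ) := by
    apply sum_le_sum_of_subset_of_nonneg
    · intro x hx
      rw [mem_Ico] at hx
      exact mem_range.2 hx.2
    · intro x _ _
      positivity
  refine le_trans h1 (le_of_eq ?_)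
  rw [sum_range_succ', Nat.cast_zero, div_zero, add_zero, range_eq_Ico,
    sum_Ico_add' (fun H : ℕ => 1 / (H : ℝ)) 0 n 1]
  apply sum_congr
  · ext x; simp only [mem_Ico, mem_Icc]; omega
  · intro x _
    rw [one_div]

lemma telesc (a b : ℕ) (ha : 1 ≤ a) (hab : a ≤ b) :
    ∑ m ∈ Ico a b, (1 / (m : ℝ) - 1 / ((m : ℝ) + 1)) ≤ 1 := by
  have key : ∑ m ∈ Ico a b, (1 / (m : ℝ) - 1 / ((m : ℝ) + 1)) = 1 / (a : ℝ) - 1 / (b : ℝ) := by
    induction b, hab using Nat.le_induction with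
    | base => simp
    | succ b hb ih =>
      rw [sum_Ico_succ_top hb, ih]
      push_cast
      ring
  rw [key]
  have h1 : 1 / (a : ℝ) ≤ 1 := by
    rw [div_le_one (by exact_mod_cast ha)]
    exact_mod_cast ha
  have h2 : 0 ≤ 1 / (b : ℝ) := by positivity
  linarith

/-- The sum of a function with values in `[0, 3]` over a short initial segment. -/
lemma small (a : ℕ) (g : ℕ → ℝ) (hg : ∀ m, 0 ≤ g m ∧ g m ≤ 3) :
    ∑ m ∈ range a, g m / (m : ℝ) ≤ 3 * a := by
  have : ∑ m ∈ range a, g m / (m : ℝ) ≤ ∑ _m ∈ range a, (3 : ℝ) := by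
    apply sum_le_sum
    intro m _
    rcases Nat.eq_zero_or_pos m with rfl | hm
    · simp
    · have hm' : (1 : ℝ) ≤ m := by exact_mod_cast hm
      refine le_trans (div_le_self (hg m).1 hm') (hg m).2
  rw [sum_const, card_range, nsmul_eq_mul] at this
  linarith

/-- The lower bound for the sum over `H` of the left sides. -/
lemma left_side (p P₁ H₀ X : ℕ) (hp : 1 ≤ p) (hpP : p ≤ P₁) (hH : P₁ * H₀ ≤ P₁ * (X + 1))
    (h1 : 1 ≤ H₀) (r : ℕ → ℝ) (hr : ∀ m, 0 ≤ r m ∧ r m ≤ 3) :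
    ∑ H ∈ Icc 1 X, r H / (H : ℝ) - 3 * H₀ - 3 ≤
      ∑ H ∈ Ico H₀ (P₁ * (X + 1)), r (H / p) / (H : ℝ) := by
  have hHX : H₀ ≤ X + 1 := Nat.le_of_mul_le_mul_left hH (by omega)
  have s1 : ∑ H ∈ Ico (p * H₀) (p * (X + 1)), r (H / p) / (H : ℝ) ≤
      ∑ H ∈ Ico H₀ (P₁ * (X + 1)), r (H / p) / (H : ℝ) := by
    apply sum_le_sum_of_subset_of_nonneg
    · apply Ico_subset_Ico
      · exact Nat.le_mul_of_pos_left _ hp
      · exact Nat.mul_le_mul_right _ hpP
    · intro H _ _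
      exact div_nonneg (hr _).1 (Nat.cast_nonneg _)
  have s2 := blocks_lower p H₀ hp h1 r (fun m => (hr m).1) (X + 1) hHX
  have s3 : ∑ m ∈ Ico H₀ (X + 1), r m / (m : ℝ) ≤
      ∑ m ∈ Ico H₀ (X + 1), r m / ((m : ℝ) + 1) + 3 := by
    have h3 := telesc H₀ (X + 1) h1 hHX
    have h4 : ∑ m ∈ Ico H₀ (X + 1), r m / (m : ℝ) ≤ ∑ m ∈ Ico H₀ (X + 1),
        (r m / ((m : ℝ) + 1) + 3 * (1 / (m : ℝ) - 1 / ((m : ℝ) + 1))) := by
      apply sum_le_sum
      intro m hm
      rw [mem_Ico] at hm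
      have hm' : (0 : ℝ) < m := by exact_mod_cast (by omega : 0 < m)
      have h5 : 0 ≤ 1 / (m : ℝ) - 1 / ((m : ℝ) + 1) := by
        rw [sub_nonneg]
        apply one_div_le_one_div_of_le hm'
        linarith
      have h6 := mul_le_mul_of_nonneg_right (hr m).2 h5
      have h7 : r m / (m : ℝ) = r m / ((m : ℝ) + 1) +
          r m * (1 / (m : ℝ) - 1 / ((m : ℝ) + 1)) := by ring
      rw [h7]
      linarith
    rw [sum_add_distrib, ← mul_sum] at h4
    linarith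
  have s4 : ∑ H ∈ Icc 1 X, r H / (H : ℝ) ≤
      ∑ m ∈ range H₀, r m / (m : ℝ) + ∑ m ∈ Ico H₀ (X + 1), r m / (m : ℝ) := by
    rw [range_eq_Ico, sum_Ico_consecutive _ (Nat.zero_le _) hHX]
    apply sum_le_sum_of_subset_of_nonneg
    · intro x hx
      rw [mem_Icc] at hx
      rw [mem_Ico]
      omega
    · intro H _ _
      exact div_nonneg (hr _).1 (Nat.cast_nonneg _)
  have s5 := small H₀ r hr
  linarith

/-- The energies telescope. -/
lemma right_side (p H₀ Y : ℕ) (hp : 1 ≤ p) (hHY : H₀ ≤ Y) (e : ℕ → ℝ)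
    (he : ∀ m, 0 ≤ e m ∧ e m ≤ 3) (he0 : e 0 = 0) :
    ∑ H ∈ Ico H₀ Y, (e (H / p) - e H) / (H : ℝ) ≤ 3 * H₀ := by
  have s1 : ∑ H ∈ Ico H₀ Y, e (H / p) / (H : ℝ) ≤
      ∑ H ∈ range (p * Y), e (H / p) / (H : ℝ) := by
    apply sum_le_sum_of_subset_of_nonneg
    · intro x hx
      rw [mem_Ico] at hx
      rw [mem_range]
      have : Y ≤ p * Y := Nat.le_mul_of_pos_left _ hp
      omega
    · intro H _ _
      exact div_nonneg (he _).1 (Nat.cast_nonneg _)
  have s2 := blocks_upper p hp e (fun m => (he m).1) he0 Y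
  have s3 : ∑ m ∈ range Y, e m / (m : ℝ) =
      ∑ m ∈ range H₀, e m / (m : ℝ) + ∑ m ∈ Ico H₀ Y, e m / (m : ℝ) := by
    rw [range_eq_Ico, range_eq_Ico, sum_Ico_consecutive _ (Nat.zero_le _) hHY]
  have s4 := small H₀ e he
  have s5 : ∑ H ∈ Ico H₀ Y, (e (H / p) - e H) / (H : ℝ) =
      ∑ H ∈ Ico H₀ Y, e (H / p) / (H : ℝ) - ∑ H ∈ Ico H₀ Y, e H / (H : ℝ) := by
    rw [← sum_sub_distrib]
    exact sum_congr rfl fun H _ => by ring
  rw [s5]
  linarith

end RowG

open RowG in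
/-- Row G of THEOREM Q. -/
theorem rowG : G_stmt := by
  intro R e hR he he0 hyp ε hε
  obtain ⟨K, hK, P, hPne, hP2, C, H₀, hmain⟩ := hyp (ε / 4) (by positivity)
  -- the constants
  set L : ℝ := LL P with hL
  have hLpos : 0 < L := by
    rw [hL, LL]
    apply sum_pos _ hPne
    intro p hp
    have : 0 < p := by have := hP2 p hp; omega
    positivity
  obtain ⟨P₁, hP₁⟩ : ∃ P₁ : ℕ, ∀ p ∈ P, p ≤ P₁ := ⟨P.sup id, fun p hp => le_sup (f := id) hp⟩
  have hP₁pos : 1 ≤ P₁ := by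
    obtain ⟨p, hp⟩ := hPne
    have h1 := hP2 p hp
    have h2 := hP₁ p hp
    omega
  set A : ℕ := max H₀ 1 with hA
  have hA1 : 1 ≤ A := le_max_right _ _
  have hA0 : H₀ ≤ A := le_max_left _ _
  -- the threshold
  set B : ℝ := ε / 4 + 3 * K * A + 3 * A + 3 with hB
  obtain ⟨X₁, hX₁⟩ : ∃ X₁ : ℕ, ∀ X : ℕ, X₁ ≤ X → B ≤ ε / 2 * Real.log X := by
    have ht : Filter.Tendsto (fun X : ℕ => ε / 2 * Real.log X) Filter.atTop Filter.atTop := by
      apply Filter.Tendsto.const_mul_atTop (by positivity)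
      exact Real.tendsto_log_atTop.comp tendsto_natCast_atTop_atTop
    have := (Filter.tendsto_atTop.1 ht) B
    rw [Filter.eventually_atTop] at this
    exact this
  refine ⟨2 * C, max X₁ (max A (2 * P₁)), ?_⟩
  intro X N hX hN
  have hXX₁ : X₁ ≤ X := le_trans (le_max_left _ _) hX
  have hXA : A ≤ X := le_trans (le_trans (le_max_left _ _) (le_max_right _ _)) hX
  have hXP : 2 * P₁ ≤ X := le_trans (le_trans (le_max_right _ _) (le_max_right _ _)) hX
  have hX1 : 1 ≤ X := by omega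
  -- the range
  set Y : ℕ := P₁ * (X + 1) with hY
  have hYX : Y ≤ X ^ 2 := by
    rw [hY, pow_two]
    calc P₁ * (X + 1) ≤ P₁ * (2 * X) := Nat.mul_le_mul_left _ (by omega)
      _ = (2 * P₁) * X := by ring
      _ ≤ X * X := Nat.mul_le_mul_right _ hXP
  have hAY : A ≤ Y := by
    rw [hY]
    calc A ≤ 1 * (X + 1) := by omega
      _ ≤ P₁ * (X + 1) := Nat.mul_le_mul_right _ hP₁pos
  have hYpos : 1 ≤ Y := by omega
  -- the sum of the inequalities
  have hsum : ∑ H ∈ Ico A Y, (1 / (H : ℝ)) * ∑ p ∈ P, (1 / (p : ℝ)) * R N (H / p) ≤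
      ∑ H ∈ Ico A Y, (1 / (H : ℝ)) * (ε / 4 * L +
        K * ∑ p ∈ P, (1 / (p : ℝ)) * (e N (H / p) - e N H)) := by
    apply sum_le_sum
    intro H hH
    rw [mem_Ico] at hH
    apply mul_le_mul_of_nonneg_left _ (by positivity)
    apply hmain H N (by omega)
    calc H ^ C ≤ (X ^ 2) ^ C := Nat.pow_le_pow_left (by omega) C
      _ = X ^ (2 * C) := by rw [← pow_mul]
      _ ≤ N := hN
  -- the left side
  have hleft : L * (∑ H ∈ Icc 1 X, R N H / (H : ℝ) - 3 * A - 3) ≤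
      ∑ H ∈ Ico A Y, (1 / (H : ℝ)) * ∑ p ∈ P, (1 / (p : ℝ)) * R N (H / p) := by
    have h1 : ∑ H ∈ Ico A Y, (1 / (H : ℝ)) * ∑ p ∈ P, (1 / (p : ℝ)) * R N (H / p) =
        ∑ p ∈ P, (1 / (p : ℝ)) * ∑ H ∈ Ico A Y, R N (H / p) / (H : ℝ) := by
      simp_rw [mul_sum]
      rw [sum_comm]
      exact sum_congr rfl fun p _ => sum_congr rfl fun H _ => by ring
    rw [h1, hL, LL, sum_mul]
    apply sum_le_sum
    intro p hp
    apply mul_le_mul_of_nonneg_left _ (by positivity)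
    have hp2 := hP2 p hp
    exact left_side p P₁ A X (by omega) (hP₁ p hp) (Nat.mul_le_mul_left _ (by omega)) hA1
      (R N) (hR N)
  -- the right side
  have hright : ∑ H ∈ Ico A Y, (1 / (H : ℝ)) * (ε / 4 * L +
        K * ∑ p ∈ P, (1 / (p : ℝ)) * (e N (H / p) - e N H)) ≤
      ε / 4 * L * (1 + 2 * Real.log X) + K * (L * (3 * A)) := by
    have h1 : ∑ H ∈ Ico A Y, (1 / (H : ℝ)) * (ε / 4 * L +
        K * ∑ p ∈ P, (1 / (p : ℝ)) * (e N (H / p) - e N H)) =
        ε / 4 * L * ∑ H ∈ Ico A Y, 1 / (H : ℝ) +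
          K * ∑ p ∈ P, (1 / (p : ℝ)) * ∑ H ∈ Ico A Y, (e N (H / p) - e N H) / (H : ℝ) := by
      simp_rw [mul_add, sum_add_distrib, mul_sum]
      congr 1
      · exact sum_congr rfl fun H _ => by ring
      · rw [sum_comm]
        exact sum_congr rfl fun p _ => sum_congr rfl fun H _ => by ring
    rw [h1]
    apply add_le_add
    · apply mul_le_mul_of_nonneg_left _ (by positivity)
      have h2 : Ico A Y = Ico A ((Y - 1) + 1) := by congr 1; omega
      rw [h2]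
      refine le_trans (harm_le (Y - 1) A) ?_
      have h3 : Real.log ((Y - 1 : ℕ) : ℝ) ≤ Real.log ((X : ℝ) ^ 2) := by
        rcases Nat.eq_zero_or_pos (Y - 1) with h0 | h0
        · rw [h0, Nat.cast_zero, Real.log_zero]
          apply Real.log_nonneg
          have : (1 : ℝ) ≤ X := by exact_mod_cast hX1
          nlinarith
        · apply Real.log_le_log (by exact_mod_cast h0)
          exact_mod_cast (by omega : Y - 1 ≤ X ^ 2)
      rw [Real.log_pow] at h3
      push_cast at h3 ⊢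
      linarith
    · apply mul_le_mul_of_nonneg_left _ (by linarith)
      rw [hL, LL, sum_mul]
      apply sum_le_sum
      intro p hp
      apply mul_le_mul_of_nonneg_left _ (by positivity)
      have hp2 := hP2 p hp
      exact right_side p A Y (by omega) hAY (e N) (he N) (he0 N)
  -- the conclusion
  have h1 : L * (∑ H ∈ Icc 1 X, R N H / (H : ℝ) - 3 * A - 3) ≤
      L * (ε / 4 * (1 + 2 * Real.log X) + 3 * K * A) := by
    calc L * (∑ H ∈ Icc 1 X, R N H / (H : ℝ) - 3 * A - 3) ≤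
        ε / 4 * L * (1 + 2 * Real.log X) + K * (L * (3 * A)) :=
          le_trans hleft (le_trans hsum hright)
      _ = L * (ε / 4 * (1 + 2 * Real.log X) + 3 * K * A) := by ring
  have h2 := le_of_mul_le_mul_left h1 hLpos
  have h3 := hX₁ X hXX₁
  rw [hB] at h3
  linarith

end Pool.Agent.C4
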