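import Mathlib
import Pool.Agent.Lib.C4.Defs2
import Pool.Agent.Lib.C4.G

/-!
# Row G1 (MP_663568_nt): the sum over `H`, in the range `N ≥ X`
-/

set_option autoImplicit false
open Finset

namespace Pool.Agent.C4

namespace RowG1

/-- The end of the range. -/
lemma tail_le (P₁ X : ℕ) (hP : 1 ≤ P₁) (hX : P₁ ≤ X) (r : ℕ → ℝ) (hr : ∀ m, 0 ≤ r m ∧ r m ≤ 3) :
    ∑ H ∈ Icc 1 X, r H / (H : ℝ) ≤ ∑ H ∈ Icc 1 (X / P₁ - 1), r H / (H : ℝ) + 12 * P₁ := by
  set Z : ℕ := X / P₁ with hZ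
  have hZ1 : 1 ≤ Z := (Nat.one_le_div_iff (by omega)).2 hX
  have hZX : Z ≤ X := Nat.div_le_self _ _
  have hlt : X < P₁ * (Z + 1) := by
    rw [hZ]; exact Nat.lt_mul_div_succ X (by omega)
  have h2 : X + 1 ≤ 2 * P₁ * Z := by
    calc X + 1 ≤ P₁ * (Z + 1) := hlt
      _ ≤ P₁ * (2 * Z) := Nat.mul_le_mul_left _ (by omega)
      _ = 2 * P₁ * Z := by ring
  have hsplit : ∑ H ∈ Icc 1 X, r H / (H : ℝ) =
      ∑ H ∈ Icc 1 (Z - 1), r H / (H : ℝ) + ∑ H ∈ Icc Z X, r H / (H : ℝ) := by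
    have h3 : Icc 1 X = Icc 1 (Z - 1) ∪ Icc Z X := by
      ext x; simp only [mem_union, mem_Icc]; omega
    rw [h3, sum_union]
    rw [disjoint_left]
    intro x hx hx'
    rw [mem_Icc] at hx hx'
    omega
  rw [hsplit]
  have hZr : (0 : ℝ) < Z := by exact_mod_cast hZ1
  have h4 : ∑ H ∈ Icc Z X, r H / (H : ℝ) ≤ ∑ _H ∈ Icc Z X, 3 / (Z : ℝ) := by
    apply sum_le_sum
    intro H hH
    rw [mem_Icc] at hH
    have h5 : (Z : ℝ) ≤ H := by exact_mod_cast hH.1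
    exact div_le_div₀ (by norm_num) (hr H).2 hZr h5
  have h6 : ∑ _H ∈ Icc Z X, 3 / (Z : ℝ) ≤ 12 * P₁ := by
    rw [sum_const, Nat.card_Icc, nsmul_eq_mul]
    have h7 : ((X + 1 - Z : ℕ) : ℝ) ≤ 2 * P₁ * Z := by
      exact_mod_cast le_trans (Nat.sub_le _ _) h2
    calc ((X + 1 - Z : ℕ) : ℝ) * (3 / (Z : ℝ)) ≤ (2 * P₁ * Z) * (3 / (Z : ℝ)) :=
          mul_le_mul_of_nonneg_right h7 (by positivity)
      _ = 6 * P₁ := by field_simp; ring
      _ ≤ 12 * P₁ := by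
          have : (0 : ℝ) ≤ P₁ := Nat.cast_nonneg _
          linarith
  linarith

end RowG1

open RowG RowG1 in
/-- Row G1 of THEOREM Q. -/
theorem rowG1 : G1_stmt := by
  intro R e hR he he0 hyp ε hε
  obtain ⟨K, hK, P, hPne, hP2, H₀, hmain⟩ := hyp (ε / 4) (by positivity)
  set L : ℝ := LL P with hL
  have hLpos : 0 < L := by
    rw [hL, LL]
    apply sum_pos _ hPne
    intro p hp
    have : 0 < p := by have := hP2 p hp; omega
    positivity
  obtain ⟨P₁, hP₁⟩ : ∃ P₁ : ℕ, ∀ p ∈ P, p ≤ P₁ := ⟨P.sup id, fun p hp => le_sup (f := id) hp⟩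
  have hP₁pos : 1 ≤ P₁ := by
    obtain ⟨p, hp⟩ := hPne
    have h1 := hP2 p hp
    have h2 := hP₁ p hp
    omega
  set A : ℕ := max H₀ 1 with hA
  have hA1 : 1 ≤ A := le_max_right _ _
  have hA0 : H₀ ≤ A := le_max_left _ _
  set B : ℝ := ε / 4 + 3 * K * A + 3 * A + 3 + 12 * P₁ with hB
  obtain ⟨X₁, hX₁⟩ : ∃ X₁ : ℕ, ∀ X : ℕ, X₁ ≤ X → B ≤ ε / 2 * Real.log X := by
    have ht : Filter.Tendsto (fun X : ℕ => ε / 2 * Real.log X) Filter.atTop Filter.atTop := by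
      apply Filter.Tendsto.const_mul_atTop (by positivity)
      exact Real.tendsto_log_atTop.comp tendsto_natCast_atTop_atTop
    have := (Filter.tendsto_atTop.1 ht) B
    rw [Filter.eventually_atTop] at this
    exact this
  refine ⟨max X₁ (P₁ * A), ?_⟩
  intro X N hX hN
  have hXX₁ : X₁ ≤ X := le_trans (le_max_left _ _) hX
  have hXA : P₁ * A ≤ X := le_trans (le_max_right _ _) hX
  have hXP : P₁ ≤ X := le_trans (Nat.le_mul_of_pos_right _ hA1) hXA
  have hX1 : 1 ≤ X := by omega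
  -- the range
  set Z : ℕ := X / P₁ - 1 with hZ
  have hq : A ≤ X / P₁ := by
    rw [Nat.le_div_iff_mul_le (by omega)]
    rw [Nat.mul_comm]; exact hXA
  have hZq : Z + 1 = X / P₁ := by omega
  have hAZ : A ≤ Z + 1 := by omega
  set Y : ℕ := P₁ * (Z + 1) with hY
  have hYX : Y ≤ X := by
    rw [hY, hZq]; exact Nat.mul_div_le X P₁
  have hAY : A ≤ Y := by
    rw [hY]
    calc A ≤ 1 * (Z + 1) := by omega
      _ ≤ P₁ * (Z + 1) := Nat.mul_le_mul_right _ hP₁pos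
  have hYpos : 1 ≤ Y := by omega
  have hsum : ∑ H ∈ Ico A Y, (1 / (H : ℝ)) * ∑ p ∈ P, (1 / (p : ℝ)) * R N (H / p) ≤
      ∑ H ∈ Ico A Y, (1 / (H : ℝ)) * (ε / 4 * L +
        K * ∑ p ∈ P, (1 / (p : ℝ)) * (e N (H / p) - e N H)) := by
    apply sum_le_sum
    intro H hH
    rw [mem_Ico] at hH
    apply mul_le_mul_of_nonneg_left _ (by positivity)
    exact hmain H N (by omega) (by omega)
  have hleft : L * (∑ H ∈ Icc 1 Z, R N H / (H : ℝ) - 3 * A - 3) ≤
      ∑ H ∈ Ico A Y, (1 / (H : ℝ)) * ∑ p ∈ P, (1 / (p : ℝ)) * R N (H / p) := by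
    have h1 : ∑ H ∈ Ico A Y, (1 / (H : ℝ)) * ∑ p ∈ P, (1 / (p : ℝ)) * R N (H / p) =
        ∑ p ∈ P, (1 / (p : ℝ)) * ∑ H ∈ Ico A Y, R N (H / p) / (H : ℝ) := by
      simp_rw [mul_sum]
      rw [sum_comm]
      exact sum_congr rfl fun p _ => sum_congr rfl fun H _ => by ring
    rw [h1, hL, LL, sum_mul]
    apply sum_le_sum
    intro p hp
    apply mul_le_mul_of_nonneg_left _ (by positivity)
    have hp2 := hP2 p hp
    exact left_side p P₁ A Z (by omega) (hP₁ p hp) (Nat.mul_le_mul_left _ (by omega)) hA1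
      (R N) (hR N)
  have hright : ∑ H ∈ Ico A Y, (1 / (H : ℝ)) * (ε / 4 * L +
        K * ∑ p ∈ P, (1 / (p : ℝ)) * (e N (H / p) - e N H)) ≤
      ε / 4 * L * (1 + 2 * Real.log X) + K * (L * (3 * A)) := by
    have h1 : ∑ H ∈ Ico A Y, (1 / (H : ℝ)) * (ε / 4 * L +
        K * ∑ p ∈ P, (1 / (p : ℝ)) * (e N (H / p) - e N H)) =
        ε / 4 * L * ∑ H ∈ Ico A Y, 1 / (H : ℝ) +
          K * ∑ p ∈ P, (1 / (p : ℝ)) * ∑ H ∈ Ico A Y, (e N (H / p) - e N H) / (H : ℝ) := by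
      simp_rw [mul_add, sum_add_distrib, mul_sum]
      congr 1
      · exact sum_congr rfl fun H _ => by ring
      · rw [sum_comm]
        exact sum_congr rfl fun p _ => sum_congr rfl fun H _ => by ring
    rw [h1]
    apply add_le_add
    · apply mul_le_mul_of_nonneg_left _ (by positivity)
      have h2 : Ico A Y = Ico A ((Y - 1) + 1) := by congr 1; omega
      rw [h2]
      refine le_trans (harm_le (Y - 1) A) ?_
      have h3 : Real.log ((Y - 1 : ℕ) : ℝ) ≤ Real.log ((X : ℝ) ^ 2) := by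
        have hX1' : (1 : ℝ) ≤ X := by exact_mod_cast hX1
        rcases Nat.eq_zero_or_pos (Y - 1) with h0 | h0
        · rw [h0, Nat.cast_zero, Real.log_zero]
          apply Real.log_nonneg
          nlinarith
        · apply Real.log_le_log (by exact_mod_cast h0)
          have h4 : ((Y - 1 : ℕ) : ℝ) ≤ X := by exact_mod_cast (by omega : Y - 1 ≤ X)
          nlinarith
      rw [Real.log_pow] at h3
      push_cast at h3 ⊢
      linarith
    · apply mul_le_mul_of_nonneg_left _ (by linarith)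
      rw [hL, LL, sum_mul]
      apply sum_le_sum
      intro p hp
      apply mul_le_mul_of_nonneg_left _ (by positivity)
      have hp2 := hP2 p hp
      exact right_side p A Y (by omega) hAY (e N) (he N) (he0 N)
  have h1 : L * (∑ H ∈ Icc 1 Z, R N H / (H : ℝ) - 3 * A - 3) ≤
      L * (ε / 4 * (1 + 2 * Real.log X) + 3 * K * A) := by
    calc L * (∑ H ∈ Icc 1 Z, R N H / (H : ℝ) - 3 * A - 3) ≤
        ε / 4 * L * (1 + 2 * Real.log X) + K * (L * (3 * A)) :=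
          le_trans hleft (le_trans hsum hright)
      _ = L * (ε / 4 * (1 + 2 * Real.log X) + 3 * K * A) := by ring
  have h2 := le_of_mul_le_mul_left h1 hLpos
  have h3 := hX₁ X hXX₁
  have h4 := tail_le P₁ X hP₁pos hXP (R N) (hR N)
  rw [← hZ] at h4
  rw [hB] at h3
  linarith

end Pool.Agent.C4
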