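import Mathlib
import Pool.Agent.Lib.C4.Defs4
import Pool.Agent.Lib.C4.G

/-!
# Row G2 (MP_663568_nt): the sum over `H` in a window of scales
-/

set_option autoImplicit false
open Finset

namespace Pool.Agent.C4

namespace RowG2

open RowG

lemma left_window (p P₁ Y Z : ℕ) (hp : 1 ≤ p) (hpP : p ≤ P₁) (hY : 1 ≤ Y) (hYZ : Y ≤ Z + 1)
    (r : ℕ → ℝ) (hr : ∀ m, 0 ≤ r m ∧ r m ≤ 3) :
    ∑ H ∈ Icc Y Z, r H / (H : ℝ) - 3 ≤ ∑ H ∈ Ico Y (P₁ * (Z + 1)), r (H / p) / (H : ℝ) := by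
  have s1 : ∑ H ∈ Ico (p * Y) (p * (Z + 1)), r (H / p) / (H : ℝ) ≤
      ∑ H ∈ Ico Y (P₁ * (Z + 1)), r (H / p) / (H : ℝ) := by
    apply sum_le_sum_of_subset_of_nonneg
    · apply Ico_subset_Ico
      · exact Nat.le_mul_of_pos_left _ hp
      · exact Nat.mul_le_mul_right _ hpP
    · intro H _ _
      exact div_nonneg (hr _).1 (Nat.cast_nonneg _)
  have s2 := blocks_lower p Y hp hY r (fun m => (hr m).1) (Z + 1) hYZ
  have s3 : ∑ m ∈ Ico Y (Z + 1), r m / (m : ℝ) ≤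
      ∑ m ∈ Ico Y (Z + 1), r m / ((m : ℝ) + 1) + 3 := by
    have h3 := telesc Y (Z + 1) hY hYZ
    have h4 : ∑ m ∈ Ico Y (Z + 1), r m / (m : ℝ) ≤ ∑ m ∈ Ico Y (Z + 1),
        (r m / ((m : ℝ) + 1) + 3 * (1 / (m : ℝ) - 1 / ((m : ℝ) + 1))) := by
      apply sum_le_sum
      intro m hm
      rw [mem_Ico] at hm
      have hm' : (0 : ℝ) < m := by exact_mod_cast (by omega : 0 < m)
      have h5 : 0 ≤ 1 / (m : ℝ) - 1 / ((m : ℝ) + 1) := by
        rw [sub_nonneg]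
        apply one_div_le_one_div_of_le hm'
        linarith
      have h6 := mul_le_mul_of_nonneg_right (hr m).2 h5
      have h7 : r m / (m : ℝ) = r m / ((m : ℝ) + 1) +
          r m * (1 / (m : ℝ) - 1 / ((m : ℝ) + 1)) := by ring
      rw [h7]
      linarith
    rw [sum_add_distrib, ← mul_sum] at h4
    linarith
  have s4 : ∑ H ∈ Icc Y Z, r H / (H : ℝ) = ∑ m ∈ Ico Y (Z + 1), r m / (m : ℝ) := by
    apply sum_congr _ fun _ _ => rfl
    ext x; simp only [mem_Icc, mem_Ico]; omega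
  linarith

lemma blocks_upper2 (p : ℕ) (hp : 1 ≤ p) (g : ℕ → ℝ) (hg : ∀ m, 0 ≤ g m) (hg0 : g 0 = 0)
    (a b : ℕ) (hab : a ≤ b) :
    ∑ H ∈ Ico (p * a) (p * b), g (H / p) / (H : ℝ) ≤ ∑ m ∈ Ico a b, g m / (m : ℝ) := by
  induction b, hab using Nat.le_induction with
  | base => simp
  | succ b hb ih =>
    rw [sum_Ico_succ_top hb,
      ← sum_Ico_consecutive (fun H : ℕ => g (H / p) / (H : ℝ)) (Nat.mul_le_mul_left p hb)
        (Nat.mul_le_mul_left p (Nat.le_succ b))]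
    refine add_le_add ih ?_
    rcases Nat.eq_zero_or_pos b with rfl | hb
    · refine le_trans (le_of_eq (sum_eq_zero ?_)) (by simp)
      intro H hH
      rw [div_block hH, hg0, zero_div]
    · exact block_upper p b hp hb g (hg b)

/-- The energies telescope. -/
lemma right_window (p Y Y₂ : ℕ) (hp : 1 ≤ p) (hY : 1 ≤ Y) (hYY : Y ≤ Y₂) (e : ℕ → ℝ)
    (he : ∀ m, 0 ≤ e m ∧ e m ≤ 3) (he0 : e 0 = 0) :
    ∑ H ∈ Ico Y Y₂, (e (H / p) - e H) / (H : ℝ) ≤ 6 * p := by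
  have hdiv : Y / p ≤ Y := Nat.div_le_self _ _
  have s1 : ∑ H ∈ Ico Y Y₂, e (H / p) / (H : ℝ) ≤
      ∑ H ∈ Ico (p * (Y / p)) (p * Y₂), e (H / p) / (H : ℝ) := by
    apply sum_le_sum_of_subset_of_nonneg
    · apply Ico_subset_Ico
      · exact Nat.mul_div_le Y p
      · exact Nat.le_mul_of_pos_left _ hp
    · intro H _ _
      exact div_nonneg (he _).1 (Nat.cast_nonneg _)
  have s2 := blocks_upper2 p hp e (fun m => (he m).1) he0 (Y / p) Y₂ (by omega)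
  have s3 : ∑ m ∈ Ico (Y / p) Y₂, e m / (m : ℝ) =
      ∑ m ∈ Ico (Y / p) Y, e m / (m : ℝ) + ∑ m ∈ Ico Y Y₂, e m / (m : ℝ) :=
    (sum_Ico_consecutive _ hdiv hYY).symm
  have hYr : (0 : ℝ) < Y := by exact_mod_cast hY
  have hpr : (0 : ℝ) < p := by exact_mod_cast hp
  have s4 : ∑ m ∈ Ico (Y / p) Y, e m / (m : ℝ) ≤ 6 * p := by
    have h1 : ∑ m ∈ Ico (Y / p) Y, e m / (m : ℝ) ≤ ∑ _m ∈ Ico (Y / p) Y, (6 * p / Y : ℝ) := by
      apply sum_le_sum
      intro m hm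
      rw [mem_Ico] at hm
      rcases Nat.eq_zero_or_pos m with rfl | hm0
      · rw [he0, zero_div]; positivity
      · have h2 : Y < 2 * p * m := by
          calc Y < p * (Y / p + 1) := Nat.lt_mul_div_succ Y (by omega)
            _ ≤ p * (2 * m) := Nat.mul_le_mul_left _ (by omega)
            _ = 2 * p * m := by ring
        have h3 : (Y : ℝ) ≤ 2 * p * m := by exact_mod_cast h2.le
        have hm' : (0 : ℝ) < m := by exact_mod_cast hm0
        rw [div_le_div_iff₀ hm' hYr]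
        have h4 := (he m).2
        have h5 := (he m).1
        nlinarith
    rw [sum_const, Nat.card_Ico, nsmul_eq_mul] at h1
    have h2 : ((Y - Y / p : ℕ) : ℝ) ≤ Y := by exact_mod_cast Nat.sub_le _ _
    have h3 : ((Y - Y / p : ℕ) : ℝ) * (6 * p / Y : ℝ) ≤ Y * (6 * p / Y : ℝ) :=
      mul_le_mul_of_nonneg_right h2 (by positivity)
    have h4 : (Y : ℝ) * (6 * p / Y : ℝ) = 6 * p := by field_simp
    linarith
  have s5 : ∑ H ∈ Ico Y Y₂, (e (H / p) - e H) / (H : ℝ) =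
      ∑ H ∈ Ico Y Y₂, e (H / p) / (H : ℝ) - ∑ H ∈ Ico Y Y₂, e H / (H : ℝ) := by
    rw [← sum_sub_distrib]
    exact sum_congr rfl fun H _ => by ring
  rw [s5]
  linarith

lemma harm_window0 (a b : ℕ) (ha : 1 ≤ a) (hab : a ≤ b) :
    ∑ H ∈ Ico a (b + 1), 1 / (H : ℝ) ≤ 1 + (Real.log b - Real.log a) := by
  induction b, hab using Nat.le_induction with
  | base =>
    rw [Nat.Ico_succ_singleton, sum_singleton, sub_self, add_zero,
      div_le_one (by exact_mod_cast ha)]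
    exact_mod_cast ha
  | succ b hb ih =>
    rw [sum_Ico_succ_top (by omega)]
    have hb0 : (0 : ℝ) < b := by exact_mod_cast (by omega : 0 < b)
    have h1 : Real.log ((b : ℝ) / (b + 1)) ≤ (b : ℝ) / (b + 1) - 1 :=
      Real.log_le_sub_one_of_pos (by positivity)
    rw [Real.log_div hb0.ne' (by positivity)] at h1
    have h2 : (b : ℝ) / (b + 1) - 1 = -(1 / ((b : ℝ) + 1)) := by
      field_simp; ring
    push_cast
    rw [h2] at h1
    linarith

lemma harm_window (Y Y₂ W : ℕ) (hY : 1 ≤ Y) (hW : 1 ≤ W) (h2 : Y₂ ≤ W * Y) :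
    ∑ H ∈ Ico Y Y₂, 1 / (H : ℝ) ≤ 1 + Real.log W := by
  have hlog : 0 ≤ Real.log W := Real.log_nonneg (by exact_mod_cast hW)
  rcases Nat.lt_or_ge Y Y₂ with h | h
  · obtain ⟨b, rfl⟩ : ∃ b, Y₂ = b + 1 := ⟨Y₂ - 1, by omega⟩
    refine le_trans (harm_window0 Y b hY (by omega)) ?_
    have hYr : (0 : ℝ) < Y := by exact_mod_cast hY
    have hWr : (0 : ℝ) < W := by exact_mod_cast hW
    have h3 : Real.log b ≤ Real.log W + Real.log Y := by
      rw [← Real.log_mul hWr.ne' hYr.ne']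
      apply Real.log_le_log
      · exact_mod_cast (by omega : 0 < b)
      · exact_mod_cast (by omega : b ≤ W * Y)
    linarith
  · rw [Ico_eq_empty_of_le h, sum_empty]
    linarith

/-- The end of the range. -/
lemma tail_window (P₁ X : ℕ) (hP : 1 ≤ P₁) (hX : P₁ ≤ X) (r : ℕ → ℝ)
    (hr : ∀ m, 0 ≤ r m ∧ r m ≤ 3) :
    ∑ H ∈ Icc (X / P₁) X, r H / (H : ℝ) ≤ 6 * P₁ := by
  set Z : ℕ := X / P₁ with hZ
  have hZ1 : 1 ≤ Z := (Nat.one_le_div_iff (by omega)).2 hX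
  have hlt : X < P₁ * (Z + 1) := by
    rw [hZ]; exact Nat.lt_mul_div_succ X (by omega)
  have h2 : X + 1 ≤ 2 * P₁ * Z := by
    calc X + 1 ≤ P₁ * (Z + 1) := hlt
      _ ≤ P₁ * (2 * Z) := Nat.mul_le_mul_left _ (by omega)
      _ = 2 * P₁ * Z := by ring
  have hZr : (0 : ℝ) < Z := by exact_mod_cast hZ1
  have h4 : ∑ H ∈ Icc Z X, r H / (H : ℝ) ≤ ∑ _H ∈ Icc Z X, 3 / (Z : ℝ) := by
    apply sum_le_sum
    intro H hH
    rw [mem_Icc] at hH
    have h5 : (Z : ℝ) ≤ H := by exact_mod_cast hH.1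
    exact div_le_div₀ (by norm_num) (hr H).2 hZr h5
  refine le_trans h4 ?_
  rw [sum_const, Nat.card_Icc, nsmul_eq_mul]
  have h7 : ((X + 1 - Z : ℕ) : ℝ) ≤ 2 * P₁ * Z := by
    exact_mod_cast le_trans (Nat.sub_le _ _) h2
  calc ((X + 1 - Z : ℕ) : ℝ) * (3 / (Z : ℝ)) ≤ (2 * P₁ * Z) * (3 / (Z : ℝ)) :=
        mul_le_mul_of_nonneg_right h7 (by positivity)
    _ = 6 * P₁ := by field_simp; ring

end RowG2

open RowG RowG2 in
/-- Row G2: the sum over `H` in a window. -/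
theorem rowG2 : G2_stmt := by
  intro R e hR he he0 hyp ε hε
  obtain ⟨K, hK, P, hPne, hP2, H₀, hmain⟩ := hyp (ε / 4) (by positivity)
  set L : ℝ := LL P with hL
  have hLpos : 0 < L := by
    rw [hL, LL]
    apply sum_pos _ hPne
    intro p hp
    have : 0 < p := by have := hP2 p hp; omega
    positivity
  obtain ⟨P₁, hP₁⟩ : ∃ P₁ : ℕ, ∀ p ∈ P, p ≤ P₁ := ⟨P.sup id, fun p hp => le_sup (f := id) hp⟩
  have hP₁pos : 1 ≤ P₁ := by
    obtain ⟨p, hp⟩ := hPne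
    have h1 := hP2 p hp
    have h2 := hP₁ p hp
    omega
  set B : ℝ := ε / 4 + 6 * K * P₁ + 3 + 6 * P₁ with hB
  obtain ⟨X₁, hX₁⟩ : ∃ X₁ : ℕ, ∀ X : ℕ, X₁ ≤ X → B ≤ ε / 2 * Real.log X := by
    have ht : Filter.Tendsto (fun X : ℕ => ε / 2 * Real.log X) Filter.atTop Filter.atTop := by
      apply Filter.Tendsto.const_mul_atTop (by positivity)
      exact Real.tendsto_log_atTop.comp tendsto_natCast_atTop_atTop
    have := (Filter.tendsto_atTop.1 ht) B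
    rw [Filter.eventually_atTop] at this
    exact this
  refine ⟨max (max X₁ P₁) (max H₀ 1), ?_⟩
  intro W Y N hW hY hN
  have hWX : X₁ ≤ W := le_trans (le_trans (le_max_left _ _) (le_max_left _ _)) hW
  have hWP : P₁ ≤ W := le_trans (le_trans (le_max_right _ _) (le_max_left _ _)) hW
  have hYH : H₀ ≤ Y := le_trans (le_trans (le_max_left _ _) (le_max_right _ _)) hY
  have hY1 : 1 ≤ Y := le_trans (le_trans (le_max_right _ _) (le_max_right _ _)) hY
  have hW1 : 1 ≤ W := by omega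
  -- the range
  set X : ℕ := W * Y with hX
  have hXP : P₁ ≤ X := le_trans hWP (Nat.le_mul_of_pos_right _ hY1)
  have hq : Y ≤ X / P₁ := by
    rw [Nat.le_div_iff_mul_le (by omega), Nat.mul_comm]
    exact Nat.mul_le_mul_right _ hWP
  set Z : ℕ := X / P₁ - 1 with hZ
  have hZq : Z + 1 = X / P₁ := by omega
  have hYZ : Y ≤ Z + 1 := by omega
  set Y₂ : ℕ := P₁ * (Z + 1) with hY₂
  have hYX : Y₂ ≤ X := by
    rw [hY₂, hZq]; exact Nat.mul_div_le X P₁
  have hYY₂ : Y ≤ Y₂ := le_trans hYZ (Nat.le_mul_of_pos_left _ hP₁pos)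
  have hsum : ∑ H ∈ Ico Y Y₂, (1 / (H : ℝ)) * ∑ p ∈ P, (1 / (p : ℝ)) * R N (H / p) ≤
      ∑ H ∈ Ico Y Y₂, (1 / (H : ℝ)) * (ε / 4 * L +
        K * ∑ p ∈ P, (1 / (p : ℝ)) * (e N (H / p) - e N H)) := by
    apply sum_le_sum
    intro H hH
    rw [mem_Ico] at hH
    apply mul_le_mul_of_nonneg_left _ (by positivity)
    exact hmain H N (by omega) (by omega)
  have hleft : L * (∑ H ∈ Icc Y Z, R N H / (H : ℝ) - 3) ≤
      ∑ H ∈ Ico Y Y₂, (1 / (H : ℝ)) * ∑ p ∈ P, (1 / (p : ℝ)) * R N (H / p) := by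
    have h1 : ∑ H ∈ Ico Y Y₂, (1 / (H : ℝ)) * ∑ p ∈ P, (1 / (p : ℝ)) * R N (H / p) =
        ∑ p ∈ P, (1 / (p : ℝ)) * ∑ H ∈ Ico Y Y₂, R N (H / p) / (H : ℝ) := by
      simp_rw [mul_sum]
      rw [sum_comm]
      exact sum_congr rfl fun p _ => sum_congr rfl fun H _ => by ring
    rw [h1, hL, LL, sum_mul]
    apply sum_le_sum
    intro p hp
    apply mul_le_mul_of_nonneg_left _ (by positivity)
    have hp2 := hP2 p hp
    exact left_window p P₁ Y Z (by omega) (hP₁ p hp) hY1 hYZ (R N) (hR N)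
  have hright : ∑ H ∈ Ico Y Y₂, (1 / (H : ℝ)) * (ε / 4 * L +
        K * ∑ p ∈ P, (1 / (p : ℝ)) * (e N (H / p) - e N H)) ≤
      ε / 4 * L * (1 + Real.log W) + K * (L * (6 * P₁)) := by
    have h1 : ∑ H ∈ Ico Y Y₂, (1 / (H : ℝ)) * (ε / 4 * L +
        K * ∑ p ∈ P, (1 / (p : ℝ)) * (e N (H / p) - e N H)) =
        ε / 4 * L * ∑ H ∈ Ico Y Y₂, 1 / (H : ℝ) +
          K * ∑ p ∈ P, (1 / (p : ℝ)) * ∑ H ∈ Ico Y Y₂, (e N (H / p) - e N H) / (H : ℝ) := by
      simp_rw [mul_add, sum_add_distrib, mul_sum]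
      congr 1
      · exact sum_congr rfl fun H _ => by ring
      · rw [sum_comm]
        exact sum_congr rfl fun p _ => sum_congr rfl fun H _ => by ring
    rw [h1]
    apply add_le_add
    · apply mul_le_mul_of_nonneg_left _ (by positivity)
      exact harm_window Y Y₂ W hY1 hW1 hYX
    · apply mul_le_mul_of_nonneg_left _ (by linarith)
      rw [hL, LL, sum_mul]
      apply sum_le_sum
      intro p hp
      apply mul_le_mul_of_nonneg_left _ (by positivity)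
      have hp2 := hP2 p hp
      refine le_trans (right_window p Y Y₂ (by omega) hY1 hYY₂ (e N) (he N) (he0 N)) ?_
      have : (p : ℝ) ≤ P₁ := by exact_mod_cast hP₁ p hp
      linarith
  have h1 : L * (∑ H ∈ Icc Y Z, R N H / (H : ℝ) - 3) ≤
      L * (ε / 4 * (1 + Real.log W) + 6 * K * P₁) := by
    calc L * (∑ H ∈ Icc Y Z, R N H / (H : ℝ) - 3) ≤
        ε / 4 * L * (1 + Real.log W) + K * (L * (6 * P₁)) :=
          le_trans hleft (le_trans hsum hright)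
      _ = L * (ε / 4 * (1 + Real.log W) + 6 * K * P₁) := by ring
  have h2 := le_of_mul_le_mul_left h1 hLpos
  have h3 := hX₁ W hWX
  have h4 := tail_window P₁ X hP₁pos hXP (R N) (hR N)
  rw [hB] at h3
  have hlog : 0 ≤ Real.log W := Real.log_nonneg (by exact_mod_cast hW1)
  have hsplit : ∑ H ∈ Icc Y X, R N H / (H : ℝ) =
      ∑ H ∈ Icc Y Z, R N H / (H : ℝ) + ∑ H ∈ Icc (X / P₁) X, R N H / (H : ℝ) := by
    have h5 : Icc Y X = Icc Y Z ∪ Icc (X / P₁) X := by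
      have h6 : X / P₁ ≤ X := Nat.div_le_self _ _
      ext x; simp only [mem_union, mem_Icc]; omega
    rw [h5, sum_union]
    rw [disjoint_left]
    intro x hx hx'
    rw [mem_Icc] at hx hx'
    omega
  rw [hsplit]
  have h6 : 0 ≤ ε * Real.log W := by positivity
  linarith

end Pool.Agent.C4
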