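import Pool.Agent.Lib.C4.Defs

/-! # Row M1: the energy of `V` far from the large values -/

set_option autoImplicit false
open Finset

namespace Pool.Agent.C4

theorem mem_Tor {Q : ℕ} [NeZero Q] {p : ℕ} {u : ZMod Q} : u ∈ Tor Q p ↔ (p : ZMod Q) * u = 0 := by
  simp [Tor]

/-- Double counting over the fibres of the multiplication by `p`. -/
theorem far_ineq (Q : ℕ) [NeZero Q] (p : ℕ) (hcard : #(Tor Q p) = p) (G F : Finset (ZMod Q))
    (Ψ : ZMod Q → ℝ) (hΨ0 : ∀ t, 0 ≤ Ψ t) (hΨ : ∀ t, ∀ u ∈ Tor Q p, Ψ (t + u) = Ψ t)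
    (hF : ∀ t ∈ F, ∀ u ∈ Tor Q p, t + u ∉ G) :
    (p : ℝ) * ∑ t ∈ G, Ψ t * (1 - (#((Tor Q p).filter fun u => u ≠ 0 ∧ t + u ∈ G) : ℝ)) ≤
      ∑ t ∈ Fᶜ, Ψ t := by
  classical
  set m : ZMod Q → ℝ := fun t => (#((Tor Q p).filter fun u => t + u ∈ G) : ℝ) with hm
  have hmG : ∀ t ∈ G, m t = 1 + (#((Tor Q p).filter fun u => u ≠ 0 ∧ t + u ∈ G) : ℝ) := by
    intro t ht
    have h1 : (Tor Q p).filter (fun u => t + u ∈ G) =
        insert 0 ((Tor Q p).filter fun u => u ≠ 0 ∧ t + u ∈ G) := by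
      ext u
      simp only [Finset.mem_filter, Finset.mem_insert, mem_Tor]
      by_cases hu : u = 0
      · subst hu
        simp [ht]
      · simp [hu]
    simp only [hm]
    rw [h1, Finset.card_insert_of_notMem (by simp)]
    push_cast
    ring
  have hminv : ∀ t, ∀ u ∈ Tor Q p, m (t + u) = m t := by
    intro t u hu
    simp only [hm]
    congr 1
    apply Finset.card_bij (fun v _ => u + v)
    · intro v hv
      simp only [Finset.mem_filter, mem_Tor] at hv ⊢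
      rw [mem_Tor] at hu
      refine ⟨by rw [mul_add, hu, hv.1, add_zero], ?_⟩
      rw [← add_assoc]
      exact hv.2
    · intro v _ v' _ h
      exact add_left_cancel h
    · intro w hw
      simp only [Finset.mem_filter, mem_Tor] at hw
      rw [mem_Tor] at hu
      refine ⟨w - u, ?_, by ring⟩
      simp only [Finset.mem_filter, mem_Tor]
      refine ⟨by rw [mul_sub, hu, hw.1, sub_zero], ?_⟩
      have : t + u + (w - u) = t + w := by ring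
      rw [this]
      exact hw.2
  have h2 : (p : ℝ) * ∑ t ∈ G, Ψ t * (1 - (#((Tor Q p).filter fun u => u ≠ 0 ∧ t + u ∈ G) : ℝ)) =
      ∑ t : ZMod Q, Ψ t * (2 - m t) * m t := by
    have h3 : ∑ t ∈ G, Ψ t * (1 - (#((Tor Q p).filter fun u => u ≠ 0 ∧ t + u ∈ G) : ℝ)) =
        ∑ t : ZMod Q, if t ∈ G then Ψ t * (2 - m t) else 0 := by
      rw [← Finset.sum_filter]
      simp only [Finset.filter_mem_eq_inter, Finset.univ_inter]
      refine Finset.sum_congr rfl fun t ht => ?_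
      rw [hmG t ht]
      ring
    have h4 : ∀ u ∈ Tor Q p, (∑ t : ZMod Q, if t ∈ G then Ψ t * (2 - m t) else 0) =
        ∑ t : ZMod Q, if t + u ∈ G then Ψ t * (2 - m t) else 0 := by
      intro u hu
      rw [← Equiv.sum_comp (Equiv.addRight u)
        (fun t => if t ∈ G then Ψ t * (2 - m t) else 0)]
      refine Finset.sum_congr rfl fun t _ => ?_
      simp only [Equiv.coe_addRight, hΨ t u hu, hminv t u hu]
    rw [h3]
    calc (p : ℝ) * (∑ t : ZMod Q, if t ∈ G then Ψ t * (2 - m t) else 0)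
        = ∑ u ∈ Tor Q p, ∑ t : ZMod Q, if t ∈ G then Ψ t * (2 - m t) else 0 := by
          rw [Finset.sum_const, hcard, nsmul_eq_mul]
      _ = ∑ u ∈ Tor Q p, ∑ t : ZMod Q, if t + u ∈ G then Ψ t * (2 - m t) else 0 :=
          Finset.sum_congr rfl h4
      _ = ∑ t : ZMod Q, ∑ u ∈ Tor Q p, if t + u ∈ G then Ψ t * (2 - m t) else 0 :=
          Finset.sum_comm
      _ = ∑ t : ZMod Q, Ψ t * (2 - m t) * m t := by
          refine Finset.sum_congr rfl fun t _ => ?_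
          rw [← Finset.sum_filter, Finset.sum_const, nsmul_eq_mul, mul_comm]
  rw [h2, ← Finset.sum_add_sum_compl F]
  have h5 : ∑ t ∈ F, Ψ t * (2 - m t) * m t = 0 := by
    apply Finset.sum_eq_zero
    intro t ht
    have : m t = 0 := by
      simp only [hm, Nat.cast_eq_zero, Finset.card_eq_zero, Finset.filter_eq_empty_iff]
      exact fun u hu => hF t ht u hu
    rw [this, mul_zero]
  rw [h5, zero_add]
  apply Finset.sum_le_sum
  intro t _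
  nlinarith [hΨ0 t, mul_nonneg (hΨ0 t) (sq_nonneg (m t - 1))]

/-- The tangent of the fourth power. -/
theorem pow_four_tangent (a b c : ℝ) (hb : 0 ≤ b) (hc : b - c ≤ a) :
    b ^ 4 - 4 * b ^ 3 * c ≤ a ^ 4 := by
  have h1 : b ^ 4 + 4 * b ^ 3 * (a - b) ≤ a ^ 4 := by
    have : a ^ 4 - (b ^ 4 + 4 * b ^ 3 * (a - b)) = (a - b) ^ 2 * ((a + b) ^ 2 + 2 * b ^ 2) := by
      ring
    have h2 : 0 ≤ (a - b) ^ 2 * ((a + b) ^ 2 + 2 * b ^ 2) := by positivity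
    linarith
  have h3 : 4 * b ^ 3 * (-c) ≤ 4 * b ^ 3 * (a - b) :=
    mul_le_mul_of_nonneg_left (by linarith) (by positivity)
  linarith

/-- The inequality for one prime. -/
theorem out_one (hB1 : B1_stmt) (hB4 : B4_stmt) (f : ℕ → ℝ) (p n H Q : ℕ) [NeZero Q]
    (hf : ∀ n, |f n| ≤ 1) (hp : p.Prime) (hpQ : p ∣ Q) (hpH : p ≤ H) (hHQ : H < Q)
    (η : ℝ) (hη : 0 < η) :
    eS Q f n H - η ^ 2 - 4 / Q * (∑ t ∈ Lg Q f η n H, ‖V Q f p n H t - S Q f n H t‖) -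
      16 * H / Q * (∑ t ∈ Lg Q f η n H,
        (#((Tor Q p).filter fun u => u ≠ 0 ∧ t + u ∈ Lg Q f η n H) : ℝ)) ≤
      eV Q f p n H - Out Q f η p n H := by
  classical
  have hH : 1 ≤ H := le_trans hp.one_lt.le hpH
  have hH0 : (0 : ℝ) < H := by exact_mod_cast hH
  have hp0 : (0 : ℝ) < p := by exact_mod_cast hp.pos
  have hQ0 : (0 : ℝ) < Q := by exact_mod_cast Nat.pos_of_ne_zero (NeZero.ne Q)
  obtain ⟨hS2, -, hSle, hV⟩ := hB1 f n H Q hf hH hHQ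
  have hVle := (hV p hp.one_lt.le hpH).2
  obtain ⟨hcard, hVt, -, -⟩ := hB4 p Q hp hpQ
  have hinv : ∀ t, ∀ u ∈ Tor Q p, ‖V Q f p n H (t + u)‖ ^ 4 = ‖V Q f p n H t‖ ^ 4 := by
    intro t u hu
    rw [hVt f n H t u hu, norm_mul, AddChar.norm_apply, one_mul]
  have h1 := far_ineq Q p hcard (Lg Q f η n H) (Far Q f η p n H) (fun t => ‖V Q f p n H t‖ ^ 4)
    (fun t => by positivity) hinv (by
      intro t ht
      simp only [Far, Finset.mem_filter, Finset.mem_univ, true_and] at ht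
      exact ht)
  -- lower bound on the large values
  have h2 : ∑ t ∈ Lg Q f η n H, ‖S Q f n H t‖ ^ 4 -
      4 * (H : ℝ) ^ 3 * (∑ t ∈ Lg Q f η n H, ‖V Q f p n H t - S Q f n H t‖) -
      16 * (H : ℝ) ^ 4 * (∑ t ∈ Lg Q f η n H,
        (#((Tor Q p).filter fun u => u ≠ 0 ∧ t + u ∈ Lg Q f η n H) : ℝ)) ≤
      ∑ t ∈ Lg Q f η n H, ‖V Q f p n H t‖ ^ 4 *
        (1 - (#((Tor Q p).filter fun u => u ≠ 0 ∧ t + u ∈ Lg Q f η n H) : ℝ)) := by
    rw [Finset.mul_sum, Finset.mul_sum, ← Finset.sum_sub_distrib, ← Finset.sum_sub_distrib]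
    apply Finset.sum_le_sum
    intro t _
    set N : ℝ := (#((Tor Q p).filter fun u => u ≠ 0 ∧ t + u ∈ Lg Q f η n H) : ℝ) with hN
    have hN0 : 0 ≤ N := by positivity
    have h3 : ‖S Q f n H t‖ - ‖V Q f p n H t - S Q f n H t‖ ≤ ‖V Q f p n H t‖ := by
      have := norm_sub_norm_le (S Q f n H t) (V Q f p n H t)
      rw [norm_sub_rev] at this
      linarith
    have h4 := pow_four_tangent ‖V Q f p n H t‖ ‖S Q f n H t‖ ‖V Q f p n H t - S Q f n H t‖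
      (norm_nonneg _) h3
    have h5 : ‖V Q f p n H t‖ ^ 4 ≤ 16 * (H : ℝ) ^ 4 := by
      calc ‖V Q f p n H t‖ ^ 4 ≤ (2 * (H : ℝ)) ^ 4 :=
            pow_le_pow_left₀ (norm_nonneg _) (hVle t) 4
        _ = 16 * (H : ℝ) ^ 4 := by ring
    have h6 : ‖V Q f p n H t‖ ^ 4 * N ≤ 16 * (H : ℝ) ^ 4 * N :=
      mul_le_mul_of_nonneg_right h5 hN0
    have h7 : 4 * ‖S Q f n H t‖ ^ 3 * ‖V Q f p n H t - S Q f n H t‖ ≤
        4 * (H : ℝ) ^ 3 * ‖V Q f p n H t - S Q f n H t‖ := by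
      have := pow_le_pow_left₀ (norm_nonneg _) (hSle t) 3
      exact mul_le_mul_of_nonneg_right (by linarith) (norm_nonneg _)
    nlinarith
  -- small values
  have h8 : ∑ t : ZMod Q, ‖S Q f n H t‖ ^ 4 - η ^ 2 * (Q * (H : ℝ) ^ 3) ≤
      ∑ t ∈ Lg Q f η n H, ‖S Q f n H t‖ ^ 4 := by
    rw [← Finset.sum_add_sum_compl (Lg Q f η n H)]
    have h9 : ∑ t ∈ (Lg Q f η n H)ᶜ, ‖S Q f n H t‖ ^ 4 ≤ η ^ 2 * (Q * (H : ℝ) ^ 3) := by
      calc ∑ t ∈ (Lg Q f η n H)ᶜ, ‖S Q f n H t‖ ^ 4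
          ≤ ∑ t ∈ (Lg Q f η n H)ᶜ, (η * H) ^ 2 * ‖S Q f n H t‖ ^ 2 := by
            apply Finset.sum_le_sum
            intro t ht
            simp only [Lg, Finset.mem_compl, Finset.mem_filter, Finset.mem_univ, true_and,
              not_le] at ht
            have h10 : ‖S Q f n H t‖ ^ 2 ≤ (η * H) ^ 2 :=
              pow_le_pow_left₀ (norm_nonneg _) ht.le 2
            calc ‖S Q f n H t‖ ^ 4 = ‖S Q f n H t‖ ^ 2 * ‖S Q f n H t‖ ^ 2 := by ring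
              _ ≤ (η * H) ^ 2 * ‖S Q f n H t‖ ^ 2 :=
                mul_le_mul_of_nonneg_right h10 (by positivity)
        _ = (η * H) ^ 2 * ∑ t ∈ (Lg Q f η n H)ᶜ, ‖S Q f n H t‖ ^ 2 := by rw [Finset.mul_sum]
        _ ≤ (η * H) ^ 2 * (Q * H) := by
            apply mul_le_mul_of_nonneg_left _ (by positivity)
            exact le_trans (Finset.sum_le_univ_sum_of_nonneg fun t => by positivity) hS2
        _ = η ^ 2 * (Q * (H : ℝ) ^ 3) := by ring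
    linarith
  have h11 : ∑ t ∈ (Far Q f η p n H)ᶜ, ‖V Q f p n H t‖ ^ 4 =
      ∑ t : ZMod Q, ‖V Q f p n H t‖ ^ 4 - ∑ t ∈ Far Q f η p n H, ‖V Q f p n H t‖ ^ 4 := by
    rw [← Finset.sum_add_sum_compl (Far Q f η p n H)]
    ring
  have h12 : eV Q f p n H - Out Q f η p n H =
      (∑ t ∈ (Far Q f η p n H)ᶜ, ‖V Q f p n H t‖ ^ 4) / (Q * (p * (H : ℝ) ^ 3)) := by
    rw [h11, eV, Out]
    ring
  rw [h12, le_div_iff₀ (by positivity)]
  refine le_trans ?_ h1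
  have h13 := le_trans (sub_le_sub_right (sub_le_sub_right h8 _) _) h2
  have h14 := mul_le_mul_of_nonneg_left h13 hp0.le
  refine le_trans (le_of_eq ?_) h14
  rw [eS]
  field_simp

theorem rowM1 (hB1 : B1_stmt) (hB2 : B2_stmt) (hB3 : B3_stmt) (hB4 : B4_stmt) : M1_stmt := by
  refine ⟨272, by norm_num, ?_⟩
  intro P P₀ P₁ f n H Q _ hOk hf hPQ hHQ η hη hη1
  classical
  have hP₀ : (1 : ℝ) ≤ P₀ := by exact_mod_cast hOk.1
  have hLL : 0 ≤ LL P := Finset.sum_nonneg fun p _ => by positivity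
  rcases P.eq_empty_or_nonempty with rfl | hne
  · simp only [Finset.sum_empty, zero_add, Err]
    positivity
  have hQ0 : (0 : ℝ) < Q := by exact_mod_cast Nat.pos_of_ne_zero (NeZero.ne Q)
  have hpH : ∀ p ∈ P, p ≤ H := by
    intro p hp
    refine le_trans (hOk.2.1 p hp).2.2 (le_trans ?_ hOk.2.2.1)
    nlinarith
  obtain ⟨p₁, hp₁⟩ := hne
  have hH : 1 ≤ H := le_trans (hOk.2.1 p₁ hp₁).1.one_lt.le (hpH p₁ hp₁)
  have hH0 : (0 : ℝ) < H := by exact_mod_cast hH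
  obtain ⟨-, hG, -, -⟩ := hB1 f n H Q hf hH hHQ
  have hG := hG η hη
  have h1 : ∀ p ∈ P, (1 / (p : ℝ)) * Out Q f η p n H ≤
      (1 / (p : ℝ)) * (eV Q f p n H - eS Q f n H) + η ^ 2 * (1 / (p : ℝ)) +
      4 / Q * (∑ t ∈ Lg Q f η n H, (1 / (p : ℝ)) * ‖V Q f p n H t - S Q f n H t‖) +
      16 * H / Q * (∑ t ∈ Lg Q f η n H,
        (1 / (P₀ : ℝ)) * (#((Tor Q p).filter fun u => u ≠ 0 ∧ t + u ∈ Lg Q f η n H) : ℝ)) := by
    intro p hp
    obtain ⟨hpp, hpP₀, -⟩ := hOk.2.1 p hp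
    have hp0 : (0 : ℝ) < p := by exact_mod_cast hpp.pos
    have hpP : (P₀ : ℝ) ≤ p := by exact_mod_cast hpP₀
    have h2 := out_one hB1 hB4 f p n H Q hf hpp (hPQ p hp) (hpH p hp) hHQ η hη
    have h3 := mul_le_mul_of_nonneg_left h2 (by positivity : 0 ≤ 1 / (p : ℝ))
    rw [← Finset.mul_sum, ← Finset.mul_sum]
    have hB0 : 0 ≤ ∑ t ∈ Lg Q f η n H,
        (#((Tor Q p).filter fun u => u ≠ 0 ∧ t + u ∈ Lg Q f η n H) : ℝ) :=
      Finset.sum_nonneg fun t _ => Nat.cast_nonneg _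
    revert h3 hB0
    generalize (∑ t ∈ Lg Q f η n H, ‖V Q f p n H t - S Q f n H t‖) = A
    generalize (∑ t ∈ Lg Q f η n H,
        (#((Tor Q p).filter fun u => u ≠ 0 ∧ t + u ∈ Lg Q f η n H) : ℝ)) = B
    intro h3 hB0
    have h4 : 1 / (p : ℝ) * (16 * H / Q * B) ≤ 16 * H / Q * (1 / (P₀ : ℝ) * B) := by
      have h5 : 1 / (p : ℝ) ≤ 1 / (P₀ : ℝ) := one_div_le_one_div_of_le (by linarith) hpP
      have h6 : 0 ≤ 16 * H / Q * B := by positivity
      calc 1 / (p : ℝ) * (16 * H / Q * B) ≤ 1 / (P₀ : ℝ) * (16 * H / Q * B) :=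
            mul_le_mul_of_nonneg_right h5 h6
        _ = _ := by ring
    linarith
  have h2 := Finset.sum_le_sum h1
  rw [Finset.sum_add_distrib, Finset.sum_add_distrib, Finset.sum_add_distrib, ← Finset.mul_sum,
    ← Finset.mul_sum, ← Finset.mul_sum] at h2
  have h2' : ∑ p ∈ P, ∑ t ∈ Lg Q f η n H, (1 / (P₀ : ℝ)) *
        (#((Tor Q p).filter fun u => u ≠ 0 ∧ t + u ∈ Lg Q f η n H) : ℝ) =
      (1 / (P₀ : ℝ)) * ∑ p ∈ P, ∑ t ∈ Lg Q f η n H,
        (#((Tor Q p).filter fun u => u ≠ 0 ∧ t + u ∈ Lg Q f η n H) : ℝ) := by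
    rw [Finset.mul_sum]
    refine Finset.sum_congr rfl fun p _ => ?_
    rw [Finset.mul_sum]
  rw [h2'] at h2
  have h3 : ∑ p ∈ P, ∑ t ∈ Lg Q f η n H, (1 / (p : ℝ)) * ‖V Q f p n H t - S Q f n H t‖ ≤
      #(Lg Q f η n H) * (√(2 * LL P) * H) := by
    rw [Finset.sum_comm]
    calc _ ≤ ∑ t ∈ Lg Q f η n H, √(2 * LL P) * H :=
          Finset.sum_le_sum fun t _ => hB3 P P₀ P₁ f n H Q hOk hf t
      _ = _ := by rw [Finset.sum_const, nsmul_eq_mul]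
  have h4 : ∑ p ∈ P, ∑ t ∈ Lg Q f η n H,
      (#((Tor Q p).filter fun u => u ≠ 0 ∧ t + u ∈ Lg Q f η n H) : ℝ) ≤
      #(Lg Q f η n H) * (17 / η ^ 2) := by
    rw [Finset.sum_comm]
    calc _ ≤ ∑ t ∈ Lg Q f η n H, 17 / η ^ 2 :=
          Finset.sum_le_sum fun t _ => hB2 P P₀ P₁ f n H Q hOk hf hPQ η hη t
      _ = _ := by rw [Finset.sum_const, nsmul_eq_mul]
  have hGH : (#(Lg Q f η n H) : ℝ) * H / Q ≤ 1 / η ^ 2 := by
    rw [div_le_div_iff₀ hQ0 (by positivity)]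
    linarith
  have h5 : 4 / (Q : ℝ) * (∑ p ∈ P, ∑ t ∈ Lg Q f η n H,
      (1 / (p : ℝ)) * ‖V Q f p n H t - S Q f n H t‖) ≤ 8 * (√(LL P) / η ^ 2) := by
    have h6 : √(2 * LL P) ≤ 2 * √(LL P) := by
      rw [Real.sqrt_mul (by norm_num)]
      have : √(2 : ℝ) ≤ 2 := by
        rw [Real.sqrt_le_left (by norm_num)]; norm_num
      exact mul_le_mul_of_nonneg_right this (Real.sqrt_nonneg _)
    calc _ ≤ 4 / (Q : ℝ) * (#(Lg Q f η n H) * (√(2 * LL P) * H)) :=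
          mul_le_mul_of_nonneg_left h3 (by positivity)
      _ = 4 * √(2 * LL P) * (#(Lg Q f η n H) * H / Q) := by ring
      _ ≤ 4 * √(2 * LL P) * (1 / η ^ 2) := mul_le_mul_of_nonneg_left hGH (by positivity)
      _ ≤ 4 * (2 * √(LL P)) * (1 / η ^ 2) := by gcongr
      _ = _ := by ring
  have h7 : 16 * (H : ℝ) / Q * ((1 / (P₀ : ℝ)) * ∑ p ∈ P, ∑ t ∈ Lg Q f η n H,
      (#((Tor Q p).filter fun u => u ≠ 0 ∧ t + u ∈ Lg Q f η n H) : ℝ)) ≤
      272 * (1 / (η ^ 4 * P₀)) := by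
    calc _ ≤ 16 * (H : ℝ) / Q * ((1 / (P₀ : ℝ)) * (#(Lg Q f η n H) * (17 / η ^ 2))) := by gcongr
      _ = 272 * (1 / (P₀ : ℝ)) * (1 / η ^ 2) * (#(Lg Q f η n H) * H / Q) := by ring
      _ ≤ 272 * (1 / (P₀ : ℝ)) * (1 / η ^ 2) * (1 / η ^ 2) :=
          mul_le_mul_of_nonneg_left hGH (by positivity)
      _ = 272 * (1 / (η ^ 4 * P₀)) := by ring
  have h8 : η ^ 2 * LL P ≤ η * LL P := by
    apply mul_le_mul_of_nonneg_right _ hLL
    nlinarith
  have h9 : ∑ p ∈ P, 1 / (p : ℝ) = LL P := rfl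
  have h10 : 0 ≤ √(LL P) / η ^ 2 := by positivity
  have h11 : 0 ≤ η * LL P := by positivity
  rw [h9] at h2
  have h12 : 272 * Err P P₀ η = 272 * (η * LL P) + 272 * (√(LL P) / η ^ 2) +
      272 * (1 / (η ^ 4 * P₀)) := by
    simp only [Err]
    ring
  rw [h12]
  linarith

end Pool.Agent.C4
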