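import Pool.Agent.Lib.C4.Defs

/-! C4, row M2: comparison of the Fourier coefficients. helper86. -/

set_option autoImplicit false
open Finset

namespace Pool.Agent.C4

namespace M2

section core

variable {A : Type} [AddCommGroup A] [Fintype A] [DecidableEq A]

/-- a sum over a translate -/
lemma sum_shift (u : A) (g : A → ℂ) : ∑ t : A, g (t + u) = ∑ t : A, g t :=
  Equiv.sum_comp (Equiv.addRight u) g

lemma sum_shiftR (u : A) (g : A → ℝ) : ∑ t : A, g (t + u) = ∑ t : A, g t :=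
  Equiv.sum_comp (Equiv.addRight u) g

/-- the pointwise inequality -/
lemma pt {s : ℕ} (hs : 0 < s) (T : Finset A) (hT : ∀ u ∈ T, ∀ v ∈ T, v - u ∈ T)
    (X : Fin s → Finset A) (t : A) :
    |1 - ((#(T.filter fun u => ∀ i, t + u ∈ X i) : ℕ) : ℝ)| ≤
      ∑ i, (if ∀ u ∈ T, t + u ∉ X i then (1 : ℝ) else 0) +
      ∑ i, ∑ i', ∑ u ∈ T, (if t + u ∈ X i then
        ((#(T.filter fun v => v ≠ 0 ∧ t + u + v ∈ X i') : ℕ) : ℝ) else 0) := by
  set m := #(T.filter fun u => ∀ i, t + u ∈ X i) with hm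
  have h1 : ∀ i, 0 ≤ (if ∀ u ∈ T, t + u ∉ X i then (1 : ℝ) else 0) := fun i => by
    split_ifs <;> norm_num
  have h2 : ∀ i i' u, 0 ≤ (if t + u ∈ X i then
        ((#(T.filter fun v => v ≠ 0 ∧ t + u + v ∈ X i') : ℕ) : ℝ) else 0) := fun i i' u => by
    split_ifs <;> positivity
  have h10 : 0 ≤ ∑ i, (if ∀ u ∈ T, t + u ∉ X i then (1 : ℝ) else 0) := sum_nonneg fun i _ => h1 i
  have h20 : 0 ≤ ∑ i, ∑ i', ∑ u ∈ T, (if t + u ∈ X i then
        ((#(T.filter fun v => v ≠ 0 ∧ t + u + v ∈ X i') : ℕ) : ℝ) else 0) :=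
    sum_nonneg fun i _ => sum_nonneg fun i' _ => sum_nonneg fun u _ => h2 i i' u
  have h2s : ∀ i i' u, u ∈ T → (if t + u ∈ X i then
        ((#(T.filter fun v => v ≠ 0 ∧ t + u + v ∈ X i') : ℕ) : ℝ) else 0) ≤
        ∑ i, ∑ i', ∑ u ∈ T, (if t + u ∈ X i then
        ((#(T.filter fun v => v ≠ 0 ∧ t + u + v ∈ X i') : ℕ) : ℝ) else 0) := by
    intro i i' u hu
    refine (single_le_sum (f := fun u => if t + u ∈ X i then
        ((#(T.filter fun v => v ≠ 0 ∧ t + u + v ∈ X i') : ℕ) : ℝ) else 0)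
        (fun u _ => h2 i i' u) hu).trans ?_
    refine (single_le_sum (f := fun i' => ∑ u ∈ T, if t + u ∈ X i then
        ((#(T.filter fun v => v ≠ 0 ∧ t + u + v ∈ X i') : ℕ) : ℝ) else 0)
        (fun i' _ => sum_nonneg fun u _ => h2 i i' u) (mem_univ i')).trans ?_
    exact single_le_sum (f := fun i => ∑ i', ∑ u ∈ T, if t + u ∈ X i then
        ((#(T.filter fun v => v ≠ 0 ∧ t + u + v ∈ X i') : ℕ) : ℝ) else 0)
        (fun i _ => sum_nonneg fun i' _ => sum_nonneg fun u _ => h2 i i' u) (mem_univ i)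
  rcases Nat.eq_zero_or_pos m with h0 | hpos
  · rw [h0]
    rw [Nat.cast_zero, sub_zero, abs_one]
    by_cases hF : ∃ i, ∀ u ∈ T, t + u ∉ X i
    · obtain ⟨i, hi⟩ := hF
      have h3 : (1 : ℝ) ≤ ∑ i, (if ∀ u ∈ T, t + u ∉ X i then (1 : ℝ) else 0) := by
        refine le_trans ?_ (single_le_sum (f := fun i => if ∀ u ∈ T, t + u ∉ X i then (1 : ℝ) else 0)
          (fun i _ => h1 i) (mem_univ i))
        simp only [if_pos hi, le_refl]
      linarith
    · push Not at hF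
      obtain ⟨u0, hu0, hx0⟩ := hF ⟨0, hs⟩
      have h4 : ∃ i', t + u0 ∉ X i' := by
        by_contra hcon
        push Not at hcon
        have h5 : u0 ∈ T.filter fun u => ∀ i, t + u ∈ X i := by
          rw [mem_filter]; exact ⟨hu0, hcon⟩
        have h6 : 0 < m := by rw [hm]; exact card_pos.2 ⟨u0, h5⟩
        omega
      obtain ⟨i', hi'⟩ := h4
      obtain ⟨u1, hu1, hx1⟩ := hF i'
      have h7 : u1 - u0 ∈ T.filter fun v => v ≠ 0 ∧ t + u0 + v ∈ X i' := by
        rw [mem_filter]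
        refine ⟨hT u0 hu0 u1 hu1, ?_, ?_⟩
        · intro h8
          have h9 : u1 = u0 := sub_eq_zero.1 h8
          rw [h9] at hx1
          exact hi' hx1
        · have h8 : t + u0 + (u1 - u0) = t + u1 := by abel
          rw [h8]; exact hx1
      have h8 : (1 : ℝ) ≤ ((#(T.filter fun v => v ≠ 0 ∧ t + u0 + v ∈ X i') : ℕ) : ℝ) := by
        exact_mod_cast card_pos.2 ⟨_, h7⟩
      have h9 := h2s ⟨0, hs⟩ i' u0 hu0
      rw [if_pos hx0] at h9
      linarith
  · have hm1 : (1 : ℝ) ≤ m := by exact_mod_cast hpos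
    have e1 : |1 - (m : ℝ)| = m - 1 := by
      rw [abs_sub_comm, abs_of_nonneg (by linarith)]
    rw [e1]
    obtain ⟨u0, hu0⟩ := card_pos.1 hpos
    rw [mem_filter] at hu0
    have h3 : (m : ℝ) - 1 ≤ ((#(T.filter fun v => v ≠ 0 ∧ t + u0 + v ∈ X ⟨0, hs⟩) : ℕ) : ℝ) := by
      have h4 : m ≤ #(T.filter fun v => v ≠ 0 ∧ t + u0 + v ∈ X ⟨0, hs⟩) + 1 := by
        rw [hm]
        have h5 : ((T.filter fun u => ∀ i, t + u ∈ X i).image fun u => u - u0) ⊆
            insert 0 (T.filter fun v => v ≠ 0 ∧ t + u0 + v ∈ X ⟨0, hs⟩) := by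
          intro v hv
          rw [mem_image] at hv
          obtain ⟨u, hu, rfl⟩ := hv
          rw [mem_filter] at hu
          rw [mem_insert, mem_filter]
          by_cases h6 : u - u0 = 0
          · left; exact h6
          · right
            refine ⟨hT u0 hu0.1 u hu.1, h6, ?_⟩
            have h8 : t + u0 + (u - u0) = t + u := by abel
            rw [h8]; exact hu.2 _
        have h6 := card_le_card h5
        rw [card_image_of_injective _ (sub_left_injective)] at h6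
        exact h6.trans (card_insert_le _ _)
      have h5 : (m : ℝ) ≤ ((#(T.filter fun v => v ≠ 0 ∧ t + u0 + v ∈ X ⟨0, hs⟩) : ℕ) : ℝ) + 1 := by
        exact_mod_cast h4
      linarith
    have h4 := h2s ⟨0, hs⟩ ⟨0, hs⟩ u0 hu0.1
    rw [if_pos (hu0.2 _)] at h4
    linarith

/-- the comparison of the sum over everything with the sum over the common large values -/
lemma core {s : ℕ} (hs : 0 < s) (T : Finset A) (p : ℕ) (hp : 0 < p) (hTc : #T = p)
    (hT : ∀ u ∈ T, ∀ v ∈ T, v - u ∈ T)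
    (X : Fin s → Finset A) (Φ : A → ℂ) (hΦ : ∀ u ∈ T, ∀ t, Φ (t + u) = Φ t) (M : ℝ)
    (hM : ∀ t, ‖Φ t‖ ≤ M) :
    ‖(1 / (p : ℂ)) * ∑ t, Φ t - ∑ t ∈ univ.filter (fun t => ∀ i, t ∈ X i), Φ t‖ ≤
      (1 / (p : ℝ)) * ∑ i, ∑ t ∈ univ.filter (fun t => ∀ u ∈ T, t + u ∉ X i), ‖Φ t‖ +
      M * ∑ i, ∑ i', ∑ t ∈ X i, ((#(T.filter fun v => v ≠ 0 ∧ t + v ∈ X i') : ℕ) : ℝ) := by
  have hpR : (0 : ℝ) < p := by exact_mod_cast hp
  have hpC : (p : ℂ) ≠ 0 := by exact_mod_cast hp.ne'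
  -- averaging over `T`
  have e1 : (p : ℂ) * ∑ t ∈ univ.filter (fun t => ∀ i, t ∈ X i), Φ t =
      ∑ t, ((#(T.filter fun u => ∀ i, t + u ∈ X i) : ℕ) : ℂ) * Φ t := by
    have h1 : ∀ u ∈ T, ∑ t ∈ univ.filter (fun t => ∀ i, t ∈ X i), Φ t =
        ∑ t, (if ∀ i, t + u ∈ X i then (1 : ℂ) else 0) * Φ t := by
      intro u hu
      rw [sum_filter, ← sum_shift u]
      refine sum_congr rfl fun t _ => ?_
      rw [hΦ u hu, ite_mul, one_mul, zero_mul]
    calc (p : ℂ) * ∑ t ∈ univ.filter (fun t => ∀ i, t ∈ X i), Φ t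
        = ∑ u ∈ T, ∑ t ∈ univ.filter (fun t => ∀ i, t ∈ X i), Φ t := by
          rw [sum_const, hTc, nsmul_eq_mul]
      _ = ∑ u ∈ T, ∑ t, (if ∀ i, t + u ∈ X i then (1 : ℂ) else 0) * Φ t := sum_congr rfl h1
      _ = ∑ t, ∑ u ∈ T, (if ∀ i, t + u ∈ X i then (1 : ℂ) else 0) * Φ t := sum_comm
      _ = _ := by
          refine sum_congr rfl fun t _ => ?_
          rw [← sum_mul, ← sum_filter, sum_const, nsmul_eq_mul, mul_one]
  have e2 : (1 / (p : ℂ)) * ∑ t, Φ t - ∑ t ∈ univ.filter (fun t => ∀ i, t ∈ X i), Φ t =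
      (1 / (p : ℂ)) * ∑ t, (1 - ((#(T.filter fun u => ∀ i, t + u ∈ X i) : ℕ) : ℂ)) * Φ t := by
    have h3 : ∑ t ∈ univ.filter (fun t => ∀ i, t ∈ X i), Φ t = (1 / (p : ℂ)) *
        ∑ t, ((#(T.filter fun u => ∀ i, t + u ∈ X i) : ℕ) : ℂ) * Φ t := by
      rw [← e1, ← mul_assoc, one_div, inv_mul_cancel₀ hpC, one_mul]
    rw [h3, ← mul_sub, ← sum_sub_distrib]
    congr 1
    refine sum_congr rfl fun t _ => ?_
    ring
  rw [e2, norm_mul]
  have e3 : ‖(1 / (p : ℂ))‖ = 1 / (p : ℝ) := by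
    rw [norm_div, norm_one, Complex.norm_natCast]
  rw [e3]
  have h4 : ‖∑ t, (1 - ((#(T.filter fun u => ∀ i, t + u ∈ X i) : ℕ) : ℂ)) * Φ t‖ ≤
      ∑ i, ∑ t ∈ univ.filter (fun t => ∀ u ∈ T, t + u ∉ X i), ‖Φ t‖ +
      p * (M * ∑ i, ∑ i', ∑ t ∈ X i, ((#(T.filter fun v => v ≠ 0 ∧ t + v ∈ X i') : ℕ) : ℝ)) := by
    calc ‖∑ t, (1 - ((#(T.filter fun u => ∀ i, t + u ∈ X i) : ℕ) : ℂ)) * Φ t‖
        ≤ ∑ t, ‖(1 - ((#(T.filter fun u => ∀ i, t + u ∈ X i) : ℕ) : ℂ)) * Φ t‖ := norm_sum_le _ _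
      _ ≤ ∑ t, (∑ i, (if ∀ u ∈ T, t + u ∉ X i then (1 : ℝ) else 0) +
            ∑ i, ∑ i', ∑ u ∈ T, (if t + u ∈ X i then
            ((#(T.filter fun v => v ≠ 0 ∧ t + u + v ∈ X i') : ℕ) : ℝ) else 0)) * ‖Φ t‖ := by
          refine sum_le_sum fun t _ => ?_
          rw [norm_mul]
          refine mul_le_mul_of_nonneg_right ?_ (norm_nonneg _)
          have h5 := pt hs T hT X t
          have h6 : ‖(1 - ((#(T.filter fun u => ∀ i, t + u ∈ X i) : ℕ) : ℂ))‖ =
              |1 - ((#(T.filter fun u => ∀ i, t + u ∈ X i) : ℕ) : ℝ)| := by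
            rw [← Real.norm_eq_abs, ← Complex.norm_real]
            push_cast
            rfl
          rw [h6]
          exact h5
      _ = ∑ t, ∑ i, (if ∀ u ∈ T, t + u ∉ X i then (1 : ℝ) else 0) * ‖Φ t‖ +
          ∑ t, ∑ i, ∑ i', ∑ u ∈ T, (if t + u ∈ X i then
            ((#(T.filter fun v => v ≠ 0 ∧ t + u + v ∈ X i') : ℕ) : ℝ) else 0) * ‖Φ t‖ := by
          rw [← sum_add_distrib]
          refine sum_congr rfl fun t _ => ?_
          rw [add_mul, sum_mul, sum_mul]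
          congr 1
          refine sum_congr rfl fun i _ => ?_
          rw [sum_mul]
          refine sum_congr rfl fun i' _ => ?_
          rw [sum_mul]
      _ ≤ _ := by
          refine add_le_add ?_ ?_
          · rw [sum_comm]
            refine le_of_eq (sum_congr rfl fun i _ => ?_)
            rw [sum_filter]
            refine sum_congr rfl fun t _ => ?_
            rw [ite_mul, one_mul, zero_mul]
          · have h7 : ∀ i i', ∀ u ∈ T, ∑ t, (if t + u ∈ X i then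
                ((#(T.filter fun v => v ≠ 0 ∧ t + u + v ∈ X i') : ℕ) : ℝ) else 0) =
                ∑ t ∈ X i, ((#(T.filter fun v => v ≠ 0 ∧ t + v ∈ X i') : ℕ) : ℝ) := by
              intro i i' u _
              rw [sum_shiftR u (fun t => if t ∈ X i then
                ((#(T.filter fun v => v ≠ 0 ∧ t + v ∈ X i') : ℕ) : ℝ) else 0), ← sum_filter]
              congr 1
              ext t
              simp
            calc ∑ t, ∑ i, ∑ i', ∑ u ∈ T, (if t + u ∈ X i then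
                  ((#(T.filter fun v => v ≠ 0 ∧ t + u + v ∈ X i') : ℕ) : ℝ) else 0) * ‖Φ t‖
                ≤ ∑ t, ∑ i, ∑ i', ∑ u ∈ T, (if t + u ∈ X i then
                  ((#(T.filter fun v => v ≠ 0 ∧ t + u + v ∈ X i') : ℕ) : ℝ) else 0) * M := by
                  refine sum_le_sum fun t _ => sum_le_sum fun i _ => sum_le_sum fun i' _ =>
                    sum_le_sum fun u _ => mul_le_mul_of_nonneg_left (hM t) ?_
                  split_ifs <;> positivity
              _ = ∑ i, ∑ i', ∑ u ∈ T, (∑ t, (if t + u ∈ X i then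
                  ((#(T.filter fun v => v ≠ 0 ∧ t + u + v ∈ X i') : ℕ) : ℝ) else 0)) * M := by
                  rw [sum_comm]
                  refine sum_congr rfl fun i _ => ?_
                  rw [sum_comm]
                  refine sum_congr rfl fun i' _ => ?_
                  rw [sum_comm]
                  refine sum_congr rfl fun u _ => ?_
                  rw [sum_mul]
              _ = ∑ i, ∑ i', ∑ u ∈ T, (∑ t ∈ X i,
                  ((#(T.filter fun v => v ≠ 0 ∧ t + v ∈ X i') : ℕ) : ℝ)) * M := by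
                  refine sum_congr rfl fun i _ => sum_congr rfl fun i' _ =>
                    sum_congr rfl fun u hu => ?_
                  rw [h7 i i' u hu]
              _ = _ := by
                  simp_rw [sum_const, hTc, nsmul_eq_mul]
                  rw [mul_sum, mul_sum]
                  refine sum_congr rfl fun i _ => ?_
                  rw [mul_sum, mul_sum]
                  refine sum_congr rfl fun i' _ => ?_
                  ring
  calc 1 / (p : ℝ) * ‖∑ t, (1 - ((#(T.filter fun u => ∀ i, t + u ∈ X i) : ℕ) : ℂ)) * Φ t‖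
      ≤ 1 / (p : ℝ) * (∑ i, ∑ t ∈ univ.filter (fun t => ∀ u ∈ T, t + u ∉ X i), ‖Φ t‖ +
      p * (M * ∑ i, ∑ i', ∑ t ∈ X i, ((#(T.filter fun v => v ≠ 0 ∧ t + v ∈ X i') : ℕ) : ℝ))) :=
        mul_le_mul_of_nonneg_left h4 (by positivity)
    _ = _ := by
        rw [mul_add]
        congr 1
        rw [← mul_assoc, one_div, inv_mul_cancel₀ hpR.ne', one_mul]

end core

/-- products of numbers in `[0, 1]` -/
lemma prod_le_sum {s m : ℕ} (i : Fin s) (b : Fin s → ℝ) (h0 : ∀ l, 0 ≤ b l) (h1 : ∀ l, b l ≤ 1)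
    (hs : m + 1 ≤ s) (hm : 1 ≤ m) :
    ∏ l ∈ univ.erase i, b l ≤ ∑ l ∈ univ.erase i, b l ^ m := by
  have hne : (univ.erase i : Finset (Fin s)).Nonempty := by
    rw [← card_pos, card_erase_of_mem (mem_univ i), card_univ, Fintype.card_fin]
    omega
  obtain ⟨j, hj, hj'⟩ := exists_max_image (univ.erase i) b hne
  calc ∏ l ∈ univ.erase i, b l ≤ ∏ _l ∈ univ.erase i, b j :=
        prod_le_prod (fun l _ => h0 l) fun l hl => hj' l hl
    _ = b j ^ (s - 1) := by
        rw [prod_const, card_erase_of_mem (mem_univ i), card_univ, Fintype.card_fin]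
    _ ≤ b j ^ m := pow_le_pow_of_le_one (h0 j) (h1 j) (by omega)
    _ ≤ _ := single_le_sum (f := fun l => b l ^ m) (fun l _ => pow_nonneg (h0 l) m) hj

/-- Young's inequality -/
lemma young (x y θ : ℝ) (hx : 0 ≤ x) (hy : 0 ≤ y) (hy1 : y ≤ 1) (hθ : 0 < θ) :
    x * y ^ 2 ≤ 1 / θ ^ 3 * x ^ 4 + θ * y ^ 2 := by
  have hy2 : y ^ 2 ≤ 1 := pow_le_one₀ hy hy1
  have hy0 : 0 ≤ y ^ 2 := by positivity
  rcases le_or_gt x θ with h | h
  · have h1 : x * y ^ 2 ≤ θ * y ^ 2 := mul_le_mul_of_nonneg_right h hy0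
    have h2 : 0 ≤ 1 / θ ^ 3 * x ^ 4 := by positivity
    linarith
  · have h1 : 1 ≤ x / θ := by rw [le_div_iff₀ hθ]; linarith
    have h2 : 1 ≤ (x / θ) ^ 3 := one_le_pow₀ h1
    have h3 : x * y ^ 2 ≤ x * (x / θ) ^ 3 := mul_le_mul_of_nonneg_left (hy2.trans h2) hx
    have h4 : x * (x / θ) ^ 3 = 1 / θ ^ 3 * x ^ 4 := by field_simp
    have h5 : 0 ≤ θ * y ^ 2 := by positivity
    linarith

/-- differences of products -/
lemma prod_sub {ι : Type} [DecidableEq ι] (T : Finset ι) (a b : ι → ℂ) (M : ℝ) (hM : 0 ≤ M)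
    (ha : ∀ i, ‖a i‖ ≤ M) (hb : ∀ i, ‖b i‖ ≤ M) :
    ‖∏ i ∈ T, a i - ∏ i ∈ T, b i‖ ≤ M ^ (#T - 1) * ∑ i ∈ T, ‖a i - b i‖ := by
  induction T using Finset.induction_on with
  | empty => simp
  | insert j T hj ih =>
    rw [prod_insert hj, prod_insert hj, sum_insert hj, card_insert_of_notMem hj]
    have e1 : a j * ∏ i ∈ T, a i - b j * ∏ i ∈ T, b i =
        (a j - b j) * ∏ i ∈ T, a i + b j * (∏ i ∈ T, a i - ∏ i ∈ T, b i) := by ring
    rw [e1]
    have h1 : ‖∏ i ∈ T, a i‖ ≤ M ^ #T := by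
      rw [norm_prod]
      exact (prod_le_prod (fun i _ => norm_nonneg _) fun i _ => ha i).trans (by rw [prod_const])
    have h2 : ‖b j * (∏ i ∈ T, a i - ∏ i ∈ T, b i)‖ ≤ M ^ #T * ∑ i ∈ T, ‖a i - b i‖ := by
      rcases T.eq_empty_or_nonempty with rfl | hne
      · simp
      · have h3 : M * M ^ (#T - 1) = M ^ #T := by
          rw [← pow_succ']
          congr 1
          have := card_pos.2 hne
          omega
        rw [norm_mul]
        calc ‖b j‖ * ‖∏ i ∈ T, a i - ∏ i ∈ T, b i‖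
            ≤ M * (M ^ (#T - 1) * ∑ i ∈ T, ‖a i - b i‖) :=
              mul_le_mul (hb j) ih (norm_nonneg _) hM
          _ = _ := by rw [← mul_assoc, h3]
    calc ‖(a j - b j) * ∏ i ∈ T, a i + b j * (∏ i ∈ T, a i - ∏ i ∈ T, b i)‖
        ≤ ‖a j - b j‖ * ‖∏ i ∈ T, a i‖ + M ^ #T * ∑ i ∈ T, ‖a i - b i‖ := by
          refine (norm_add_le _ _).trans (add_le_add ?_ h2)
          rw [norm_mul]
      _ ≤ ‖a j - b j‖ * M ^ #T + M ^ #T * ∑ i ∈ T, ‖a i - b i‖ := by
          gcongr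
      _ = _ := by
          rw [Nat.add_sub_cancel]
          ring

/-- the far part: products of the values of `V` where `c_i t` is far from the large values -/
lemma far {s : ℕ} (hs : 3 ≤ s) {A : Type} [Fintype A] [DecidableEq A] (i : Fin s)
    (σ : Fin s → A → A) (hσ : ∀ l, Function.Bijective (σ l)) (v : A → ℝ) (h0 : ∀ t, 0 ≤ v t)
    (B : ℝ) (hB : 0 < B) (hv : ∀ t, v t ≤ B) (D : Finset A) (θ : ℝ) (hθ : 0 < θ) :
    ∑ t ∈ univ.filter (fun t => σ i t ∈ D), ∏ l, v (σ l t) ≤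
      B ^ s * (s * (1 / θ ^ 3) * ((∑ t ∈ D, v t ^ 4) / B ^ 4) +
        θ * s * ((∑ t, v t ^ 2) / B ^ 2)) := by
  have hs0 : (0 : ℝ) ≤ s := Nat.cast_nonneg s
  have h1 : ∀ t, ∏ l, v (σ l t) ≤
      B ^ s * (s * (1 / θ ^ 3) * (v (σ i t) / B) ^ 4 + θ * ∑ l, (v (σ l t) / B) ^ 2) := by
    intro t
    have h2 : ∏ l ∈ univ.erase i, (v (σ l t) / B) ≤ ∑ l ∈ univ.erase i, (v (σ l t) / B) ^ 2 :=
      prod_le_sum i (fun l => v (σ l t) / B) (fun l => div_nonneg (h0 _) hB.le)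
        (fun l => (div_le_one hB).2 (hv _)) (by omega) (by norm_num)
    have h3 : ∏ l, v (σ l t) = B ^ s * ((v (σ i t) / B) * ∏ l ∈ univ.erase i, (v (σ l t) / B)) := by
      rw [mul_prod_erase univ (fun l => v (σ l t) / B) (mem_univ i), prod_div_distrib, prod_const,
        card_univ, Fintype.card_fin]
      field_simp
    have h4 : (v (σ i t) / B) * ∏ l ∈ univ.erase i, (v (σ l t) / B) ≤
        s * (1 / θ ^ 3) * (v (σ i t) / B) ^ 4 + θ * ∑ l, (v (σ l t) / B) ^ 2 := by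
      calc (v (σ i t) / B) * ∏ l ∈ univ.erase i, (v (σ l t) / B)
          ≤ (v (σ i t) / B) * ∑ l ∈ univ.erase i, (v (σ l t) / B) ^ 2 :=
            mul_le_mul_of_nonneg_left h2 (div_nonneg (h0 _) hB.le)
        _ = ∑ l ∈ univ.erase i, (v (σ i t) / B) * (v (σ l t) / B) ^ 2 := by rw [mul_sum]
        _ ≤ ∑ l ∈ univ.erase i, (1 / θ ^ 3 * (v (σ i t) / B) ^ 4 + θ * (v (σ l t) / B) ^ 2) :=
            sum_le_sum fun l _ => young _ _ θ (div_nonneg (h0 _) hB.le)
              (div_nonneg (h0 _) hB.le) ((div_le_one hB).2 (hv _)) hθ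
        _ ≤ ∑ l, (1 / θ ^ 3 * (v (σ i t) / B) ^ 4 + θ * (v (σ l t) / B) ^ 2) :=
            sum_le_sum_of_subset_of_nonneg (erase_subset _ _) fun l _ _ => by positivity
        _ = _ := by
            rw [sum_add_distrib, sum_const, card_univ, Fintype.card_fin, nsmul_eq_mul, mul_sum]
            ring
    rw [h3]
    exact mul_le_mul_of_nonneg_left h4 (by positivity)
  have h8 : ∑ t ∈ univ.filter (fun t => σ i t ∈ D), (v (σ i t) / B) ^ 4 =
      (∑ t ∈ D, v t ^ 4) / B ^ 4 := by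
    rw [sum_div]
    refine sum_bij (fun t _ => σ i t) (fun t ht => (mem_filter.1 ht).2)
      (fun a _ b _ hab => (hσ i).1 hab) (fun b hb => ?_) fun _ _ => by rw [div_pow]
    obtain ⟨a, ha⟩ := (hσ i).2 b
    exact ⟨a, by rw [mem_filter, ha]; exact ⟨mem_univ _, hb⟩, ha⟩
  have h9 : ∀ l, ∑ t, (v (σ l t) / B) ^ 2 = (∑ t, v t ^ 2) / B ^ 2 := fun l =>
    (Equiv.sum_comp (Equiv.ofBijective (σ l) (hσ l)) fun t => (v t / B) ^ 2).trans (by
      rw [sum_div]
      exact sum_congr rfl fun t _ => by rw [div_pow])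
  calc ∑ t ∈ univ.filter (fun t => σ i t ∈ D), ∏ l, v (σ l t)
      ≤ ∑ t ∈ univ.filter (fun t => σ i t ∈ D),
        B ^ s * (s * (1 / θ ^ 3) * (v (σ i t) / B) ^ 4 + θ * ∑ l, (v (σ l t) / B) ^ 2) :=
        sum_le_sum fun t _ => h1 t
    _ = B ^ s * (s * (1 / θ ^ 3) * ∑ t ∈ univ.filter (fun t => σ i t ∈ D), (v (σ i t) / B) ^ 4 +
        θ * ∑ t ∈ univ.filter (fun t => σ i t ∈ D), ∑ l, (v (σ l t) / B) ^ 2) := by
        rw [← mul_sum, sum_add_distrib, ← mul_sum, ← mul_sum]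
    _ ≤ B ^ s * (s * (1 / θ ^ 3) * ((∑ t ∈ D, v t ^ 4) / B ^ 4) +
        θ * (s * ((∑ t, v t ^ 2) / B ^ 2))) := by
        rw [h8]
        have h10 : ∑ t ∈ univ.filter (fun t => σ i t ∈ D), ∑ l, (v (σ l t) / B) ^ 2 ≤
            s * ((∑ t, v t ^ 2) / B ^ 2) := by
          calc ∑ t ∈ univ.filter (fun t => σ i t ∈ D), ∑ l, (v (σ l t) / B) ^ 2
              ≤ ∑ t, ∑ l, (v (σ l t) / B) ^ 2 :=
                sum_le_sum_of_subset_of_nonneg (filter_subset _ _) fun t _ _ =>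
                  sum_nonneg fun l _ => pow_nonneg (div_nonneg (h0 _) hB.le) 2
            _ = ∑ l, ∑ t, (v (σ l t) / B) ^ 2 := sum_comm
            _ = _ := by
                rw [sum_congr rfl fun l _ => h9 l, sum_const, card_univ, Fintype.card_fin,
                  nsmul_eq_mul]
        gcongr
    _ = _ := by ring

/-- the part of `S` outside of the common large values -/
lemma off {s : ℕ} (hs : 3 ≤ s) {A : Type} [Fintype A] [DecidableEq A]
    (σ : Fin s → A → A) (hσ : ∀ l, Function.Bijective (σ l)) (v : A → ℝ) (h0 : ∀ t, 0 ≤ v t)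
    (B : ℝ) (hB : 0 < B) (hv : ∀ t, v t ≤ B) (G : Finset A) (η : ℝ) (hη : 0 < η)
    (hG : ∀ t, t ∉ G → v t ≤ η * B) :
    ∑ t ∈ univ.filter (fun t => ¬ ∀ i, σ i t ∈ G), ∏ l, v (σ l t) ≤
      s ^ 2 * η * B ^ (s - 2) * ∑ t, v t ^ 2 := by
  have h9 : ∀ l, ∑ t, v (σ l t) ^ 2 = ∑ t, v t ^ 2 := fun l =>
    Equiv.sum_comp (Equiv.ofBijective (σ l) (hσ l)) fun t => v t ^ 2
  have h1 : ∀ i t, σ i t ∉ G → ∏ l, v (σ l t) ≤ η * B ^ (s - 2) * ∑ l, v (σ l t) ^ 2 := by
    intro i t hi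
    have h2 : ∏ l ∈ univ.erase i, (v (σ l t) / B) ≤ ∑ l ∈ univ.erase i, (v (σ l t) / B) ^ 2 :=
      prod_le_sum i (fun l => v (σ l t) / B) (fun l => div_nonneg (h0 _) hB.le)
        (fun l => (div_le_one hB).2 (hv _)) (by omega) (by norm_num)
    have h3 : ∏ l, v (σ l t) = B ^ s * ((v (σ i t) / B) * ∏ l ∈ univ.erase i, (v (σ l t) / B)) := by
      rw [mul_prod_erase univ (fun l => v (σ l t) / B) (mem_univ i), prod_div_distrib, prod_const,
        card_univ, Fintype.card_fin]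
      field_simp
    have h4 : v (σ i t) / B ≤ η := by
      rw [div_le_iff₀ hB]
      exact hG _ hi
    have h5 : B ^ s = B ^ (s - 2) * B ^ 2 := by
      rw [← pow_add]
      congr 1
      omega
    rw [h3]
    calc B ^ s * ((v (σ i t) / B) * ∏ l ∈ univ.erase i, (v (σ l t) / B))
        ≤ B ^ s * (η * ∑ l, (v (σ l t) / B) ^ 2) := by
          refine mul_le_mul_of_nonneg_left ?_ (by positivity)
          refine mul_le_mul h4 (h2.trans ?_) (prod_nonneg fun l _ => div_nonneg (h0 _) hB.le) hη.le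
          exact sum_le_sum_of_subset_of_nonneg (erase_subset _ _) fun l _ _ => by positivity
      _ = _ := by
          rw [h5]
          have h6 : B ^ 2 * ∑ l, (v (σ l t) / B) ^ 2 = ∑ l, v (σ l t) ^ 2 := by
            rw [mul_sum]
            exact sum_congr rfl fun l _ => by field_simp
          rw [← h6]
          ring
  calc ∑ t ∈ univ.filter (fun t => ¬ ∀ i, σ i t ∈ G), ∏ l, v (σ l t)
      ≤ ∑ i, ∑ t ∈ univ.filter (fun t => σ i t ∉ G), ∏ l, v (σ l t) := by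
        simp_rw [sum_filter]
        rw [sum_comm]
        refine sum_le_sum fun t _ => ?_
        have hp : 0 ≤ ∏ l, v (σ l t) := prod_nonneg fun l _ => h0 _
        have hq : ∀ i ∈ univ, 0 ≤ (if σ i t ∉ G then ∏ l, v (σ l t) else 0) := fun i _ => by
          split_ifs
          · exact le_rfl
          · exact hp
        by_cases h8 : ∀ i, σ i t ∈ G
        · rw [if_neg (not_not.2 h8)]
          exact sum_nonneg hq
        · rw [if_pos h8]
          push Not at h8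
          obtain ⟨i, hi⟩ := h8
          refine le_trans ?_ (single_le_sum hq (mem_univ i))
          rw [if_pos hi]
    _ ≤ ∑ _i : Fin s, η * B ^ (s - 2) * (s * ∑ t, v t ^ 2) := by
        refine sum_le_sum fun i _ => ?_
        calc ∑ t ∈ univ.filter (fun t => σ i t ∉ G), ∏ l, v (σ l t)
            ≤ ∑ t ∈ univ.filter (fun t => σ i t ∉ G), η * B ^ (s - 2) * ∑ l, v (σ l t) ^ 2 :=
              sum_le_sum fun t ht => h1 i t (mem_filter.1 ht).2
          _ ≤ ∑ t, η * B ^ (s - 2) * ∑ l, v (σ l t) ^ 2 :=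
              sum_le_sum_of_subset_of_nonneg (filter_subset _ _) fun t _ _ => by positivity
          _ = _ := by
              rw [← mul_sum, sum_comm, sum_congr rfl fun l _ => h9 l, sum_const, card_univ,
                Fintype.card_fin, nsmul_eq_mul]
    _ = _ := by
        rw [sum_const, card_univ, Fintype.card_fin, nsmul_eq_mul]
        ring

/-- additive characters of sums -/
lemma char_sum (Q : ℕ) [NeZero Q] {ι : Type} (T : Finset ι) (a : ι → ZMod Q) :
    (ZMod.stdAddChar (∑ i ∈ T, a i) : ℂ) = ∏ i ∈ T, ZMod.stdAddChar (a i) := by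
  classical
  induction T using Finset.induction_on with
  | empty => simp
  | insert j T hj ih => rw [sum_insert hj, prod_insert hj, AddChar.map_add_eq_mul, ih]

end M2

open M2 in
theorem rowM2 (hB1 : B1_stmt) (hB2 : B2_stmt) (hB3 : B3_stmt) (hB4 : B4_stmt) : M2_stmt := by
  classical
  intro s hs
  refine ⟨17 * 2 ^ s * s ^ 2, ?_, ?_⟩
  · have h1 : (1 : ℝ) ≤ 2 ^ s := one_le_pow₀ (by norm_num)
    have h2 : (1 : ℝ) ≤ (s : ℝ) ^ 2 := one_le_pow₀ (by exact_mod_cast (by omega : 1 ≤ s))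
    nlinarith
  intro P P₀ P₁ f n H Q _ hOk hf hPQ hHQ c k hc0 hcop η θ hη hη1 hθ hθ1
  have hs0 : (0 : ℝ) ≤ s := Nat.cast_nonneg s
  have hL0 : 0 ≤ LL P := sum_nonneg fun p _ => by positivity
  rcases P.eq_empty_or_nonempty with rfl | hPne
  · simp only [Err, LL, sum_empty, mul_zero, add_zero, Real.sqrt_zero, zero_div, zero_add]
    positivity
  obtain ⟨hP₀, hP, hH1, hH2⟩ := hOk
  have hOk : Ok P P₀ P₁ H := ⟨hP₀, hP, hH1, hH2⟩
  have hP₀R : (1 : ℝ) ≤ P₀ := by exact_mod_cast hP₀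
  have hP₁ : 1 ≤ P₁ := by
    obtain ⟨p, hp⟩ := hPne
    exact (hP p hp).1.one_le.trans (hP p hp).2.2
  have hP₁H : P₁ ≤ H := by nlinarith
  have hHpos : 1 ≤ H := hP₁.trans hP₁H
  have hHR : (0 : ℝ) < H := by exact_mod_cast hHpos
  have hQpos : 0 < Q := by omega
  have hQR : (0 : ℝ) < Q := by exact_mod_cast hQpos
  obtain ⟨b1, b2, b3, b4⟩ := hB1 f n H Q hf hHpos hHQ
  have b2 := b2 η hη
  set G := Lg Q f η n H with hG
  -- multiplication by the coefficients
  set σ : Fin s → ZMod Q → ZMod Q := fun i t => (c i : ZMod Q) * t with hσ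
  obtain ⟨p0, hp0⟩ := hPne
  have hbij : ∀ i, Function.Bijective (σ i) := fun i =>
    (hB4 p0 Q (hP p0 hp0).1 (hPQ p0 hp0)).2.2.2 (c i) (hcop i)
  set N : ℕ → ZMod Q → ℝ := fun p y => ((#((Tor Q p).filter fun u => u ≠ 0 ∧ y + u ∈ G) : ℕ) : ℝ)
    with hN
  have hN0 : ∀ p y, 0 ≤ N p y := fun p y => Nat.cast_nonneg _
  have b2s : ∀ y, ∑ p ∈ P, N p y ≤ 17 / η ^ 2 := fun y => hB2 P P₀ P₁ f n H Q hOk hf hPQ η hη y
  have b3s : ∀ t, ∑ p ∈ P, (1 / (p : ℝ)) * ‖V Q f p n H t - S Q f n H t‖ ≤ √(2 * LL P) * H :=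
    hB3 P P₀ P₁ f n H Q hOk hf
  set X : Fin s → Finset (ZMod Q) := fun i => univ.filter fun t => σ i t ∈ G with hX
  have hXcard : ∀ i, ∀ g : ZMod Q → ℝ, ∑ t ∈ X i, g (σ i t) = ∑ t ∈ G, g t := by
    intro i g
    refine sum_bij (fun t _ => σ i t) (fun t ht => (mem_filter.1 ht).2)
      (fun a _ b _ hab => (hbij i).1 hab) (fun b hb => ?_) fun _ _ => rfl
    obtain ⟨a, ha⟩ := (hbij i).2 b
    exact ⟨a, by rw [hX]; simp only [mem_filter, mem_univ, true_and]; rw [ha]; exact hb, ha⟩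
  have hXc : ∀ i, (#(X i) : ℝ) = #G := by
    intro i
    have := hXcard i (fun _ => 1)
    simpa using this
  -- the inequality for one prime
  have key : ∀ p ∈ P, ‖F Q c (p * k) (V Q f p n H) / (p * (H : ℂ) ^ (s - 1)) -
      F Q c (p * k) (S Q f n H) / (H : ℂ) ^ (s - 1)‖ ≤
      2 ^ s * s ^ 2 * (1 / θ ^ 3 * Out Q f η p n H + θ) +
      2 ^ s * H / Q * (∑ i, ∑ i', ∑ t ∈ X i, N p (σ i' t)) +
      2 ^ s * s / Q * (∑ t ∈ G, ‖V Q f p n H t - S Q f n H t‖) + s ^ 2 * η := by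
    intro p hp
    obtain ⟨hpp, hpP₀, hpP₁⟩ := hP p hp
    obtain ⟨tc, tV, tmem, -⟩ := hB4 p Q hpp (hPQ p hp)
    have hpH : p ≤ H := hpP₁.trans hP₁H
    have hpR : (0 : ℝ) < p := by exact_mod_cast hpp.pos
    have hpC : (p : ℂ) ≠ 0 := by exact_mod_cast hpp.pos.ne'
    have hHC : (H : ℂ) ≠ 0 := by exact_mod_cast (by omega : H ≠ 0)
    have hQC : (Q : ℂ) ≠ 0 := by exact_mod_cast (by omega : Q ≠ 0)
    obtain ⟨b4a, b4b⟩ := b4 p hpp.one_le hpH
    have hTT : ∀ u ∈ Tor Q p, ∀ v ∈ Tor Q p, v - u ∈ Tor Q p := by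
      intro u hu v hv
      unfold Tor at *
      rw [mem_filter] at *
      refine ⟨mem_univ _, ?_⟩
      rw [mul_sub, hu.2, hv.2, sub_zero]
    set Φ : ZMod Q → ℂ := fun t => ZMod.stdAddChar (-(((p * k : ℤ)) : ZMod Q) * t) *
      ∏ i, V Q f p n H ((c i : ZMod Q) * t) with hΦ
    set Ψ : ZMod Q → ℂ := fun t => ZMod.stdAddChar (-(((p * k : ℤ)) : ZMod Q) * t) *
      ∏ i, S Q f n H ((c i : ZMod Q) * t) with hΨ
    have hun : ∀ x : ZMod Q, ‖(ZMod.stdAddChar x : ℂ)‖ = 1 := fun x => by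
      rw [ZMod.stdAddChar_apply]
      exact Circle.norm_coe _
    have hΦinv : ∀ u ∈ Tor Q p, ∀ t, Φ (t + u) = Φ t := by
      intro u hu t
      have hu' : (p : ZMod Q) * u = 0 := by
        unfold Tor at hu
        rw [mem_filter] at hu
        exact hu.2
      have h1 : ∀ i, V Q f p n H ((c i : ZMod Q) * (t + u)) =
          ZMod.stdAddChar (-((n : ZMod Q) * ((c i : ZMod Q) * u))) *
            V Q f p n H ((c i : ZMod Q) * t) := by
        intro i
        rw [mul_add]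
        exact tV f n H _ _ ((tmem (c i) (hcop i) u).2 hu)
      rw [hΦ]
      dsimp only
      rw [prod_congr rfl fun i _ => h1 i, prod_mul_distrib]
      have h2 : ∏ i, (ZMod.stdAddChar (-((n : ZMod Q) * ((c i : ZMod Q) * u))) : ℂ) = 1 := by
        have h3 : ∏ i, (ZMod.stdAddChar (-((n : ZMod Q) * ((c i : ZMod Q) * u))) : ℂ) =
            ZMod.stdAddChar (∑ i, -((n : ZMod Q) * ((c i : ZMod Q) * u))) := by
          exact (char_sum Q univ _).symm
        rw [h3]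
        have h4 : ∑ i, -((n : ZMod Q) * ((c i : ZMod Q) * u)) = -((n : ZMod Q) * u) *
            ((∑ i, c i : ℤ) : ZMod Q) := by
          push_cast
          rw [mul_sum]
          exact sum_congr rfl fun i _ => by ring
        rw [h4, hc0]
        simp
      have h5 : (ZMod.stdAddChar (-(((p * k : ℤ)) : ZMod Q) * (t + u)) : ℂ) =
          ZMod.stdAddChar (-(((p * k : ℤ)) : ZMod Q) * t) := by
        have h6 : -(((p * k : ℤ)) : ZMod Q) * (t + u) = -(((p * k : ℤ)) : ZMod Q) * t := by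
          rw [mul_add]
          have h7 : -(((p * k : ℤ)) : ZMod Q) * u = 0 := by
            push_cast
            calc -((p : ZMod Q) * (k : ZMod Q)) * u = -(k : ZMod Q) * ((p : ZMod Q) * u) := by ring
              _ = 0 := by rw [hu', mul_zero]
          rw [h7, add_zero]
        rw [h6]
      rw [h2, h5, one_mul]
    have hΦM : ∀ t, ‖Φ t‖ ≤ (2 * (H : ℝ)) ^ s := by
      intro t
      rw [hΦ]
      dsimp only
      rw [norm_mul, hun, one_mul, norm_prod]
      calc ∏ i, ‖V Q f p n H ((c i : ZMod Q) * t)‖ ≤ ∏ _i : Fin s, (2 * (H : ℝ)) :=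
            prod_le_prod (fun i _ => norm_nonneg _) fun i _ => b4b _
        _ = _ := by rw [prod_const, card_univ, Fintype.card_fin]
    have hcore := core (by omega : 0 < s) (Tor Q p) p hpp.pos tc hTT X Φ hΦinv _ hΦM
    have hXX : univ.filter (fun t => ∀ i, t ∈ X i) = univ.filter (fun t => ∀ i, σ i t ∈ G) := by
      ext t
      simp [hX]
    rw [hXX] at hcore
    -- the far part
    have hfar : ∀ i, ∑ t ∈ univ.filter (fun t => ∀ u ∈ Tor Q p, t + u ∉ X i), ‖Φ t‖ ≤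
        (2 * (H : ℝ)) ^ s * (s * (1 / θ ^ 3) *
          ((Out Q f η p n H * (Q * (p * (H : ℝ) ^ 3))) / (2 * (H : ℝ)) ^ 4) +
          θ * s * ((2 * Q * (p * H)) / (2 * (H : ℝ)) ^ 2)) := by
      intro i
      have h1 : univ.filter (fun t => ∀ u ∈ Tor Q p, t + u ∉ X i) ⊆
          univ.filter (fun t => σ i t ∈ Far Q f η p n H) := by
        intro t ht
        rw [mem_filter] at ht ⊢
        refine ⟨mem_univ _, ?_⟩
        unfold Far
        rw [mem_filter]
        refine ⟨mem_univ _, fun u' hu' hmem => ?_⟩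
        obtain ⟨u, hu⟩ := (hbij i).2 u'
        have hu2 : u ∈ Tor Q p := (tmem (c i) (hcop i) u).1 (by
          have : (c i : ZMod Q) * u = u' := hu
          rw [this]; exact hu')
        refine ht.2 u hu2 ?_
        rw [hX]
        simp only [mem_filter, mem_univ, true_and]
        have h2 : σ i (t + u) = σ i t + u' := by
          rw [← hu]
          simp only [hσ]
          ring
        rw [h2]
        exact hmem
      have h3 : ∀ t, ‖Φ t‖ = ∏ l, ‖V Q f p n H (σ l t)‖ := by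
        intro t
        rw [hΦ]
        dsimp only
        rw [norm_mul, hun, one_mul, norm_prod]
      have h4 := far hs i σ hbij (fun t => ‖V Q f p n H t‖) (fun t => norm_nonneg _)
        (2 * (H : ℝ)) (by positivity) b4b (Far Q f η p n H) θ hθ
      have h5 : ∑ t ∈ Far Q f η p n H, ‖V Q f p n H t‖ ^ 4 =
          Out Q f η p n H * (Q * (p * (H : ℝ) ^ 3)) := by
        unfold Out
        field_simp
      calc ∑ t ∈ univ.filter (fun t => ∀ u ∈ Tor Q p, t + u ∉ X i), ‖Φ t‖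
          ≤ ∑ t ∈ univ.filter (fun t => σ i t ∈ Far Q f η p n H), ‖Φ t‖ :=
            sum_le_sum_of_subset_of_nonneg h1 fun _ _ _ => norm_nonneg _
        _ = ∑ t ∈ univ.filter (fun t => σ i t ∈ Far Q f η p n H),
            ∏ l, ‖V Q f p n H (σ l t)‖ := sum_congr rfl fun t _ => h3 t
        _ ≤ _ := h4
        _ ≤ _ := by
            rw [h5]
            gcongr
    -- the collisions
    have hcoll : ∀ i i' : Fin s, ∑ t ∈ X i, ((#((Tor Q p).filter fun v => v ≠ 0 ∧ t + v ∈ X i') : ℕ) :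
        ℝ) ≤ ∑ t ∈ X i, N p (σ i' t) := by
      intro i i'
      refine sum_le_sum fun t _ => ?_
      rw [hN]
      dsimp only
      have h1 : ((Tor Q p).filter fun v => v ≠ 0 ∧ t + v ∈ X i').image (σ i') ⊆
          (Tor Q p).filter fun u => u ≠ 0 ∧ σ i' t + u ∈ G := by
        intro w hw
        rw [mem_image] at hw
        obtain ⟨v, hv, rfl⟩ := hw
        rw [mem_filter] at hv ⊢
        refine ⟨(tmem (c i') (hcop i') v).2 hv.1, ?_, ?_⟩
        · intro h2
          apply hv.2.1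
          apply (hbij i').1
          rw [h2]
          simp [hσ]
        · have h3 := hv.2.2
          rw [hX] at h3
          simp only [mem_filter, mem_univ, true_and] at h3
          have h4 : σ i' (t + v) = σ i' t + σ i' v := by
            simp only [hσ]
            ring
          rw [← h4]
          exact h3
      have h2 := card_le_card h1
      rw [card_image_of_injective _ (hbij i').1] at h2
      exact_mod_cast h2
    -- the main part
    have hmain : ‖∑ t ∈ univ.filter (fun t => ∀ i, σ i t ∈ G), Φ t -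
        ∑ t ∈ univ.filter (fun t => ∀ i, σ i t ∈ G), Ψ t‖ ≤
        (2 * (H : ℝ)) ^ (s - 1) * (s * ∑ t ∈ G, ‖V Q f p n H t - S Q f n H t‖) := by
      rw [← sum_sub_distrib]
      calc ‖∑ t ∈ univ.filter (fun t => ∀ i, σ i t ∈ G), (Φ t - Ψ t)‖
          ≤ ∑ t ∈ univ.filter (fun t => ∀ i, σ i t ∈ G), ‖Φ t - Ψ t‖ := norm_sum_le _ _
        _ ≤ ∑ t ∈ univ.filter (fun t => ∀ i, σ i t ∈ G), (2 * (H : ℝ)) ^ (s - 1) *
            ∑ i, ‖V Q f p n H (σ i t) - S Q f n H (σ i t)‖ := by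
            refine sum_le_sum fun t _ => ?_
            have h1 : Φ t - Ψ t = ZMod.stdAddChar (-(((p * k : ℤ)) : ZMod Q) * t) *
                (∏ i, V Q f p n H ((c i : ZMod Q) * t) - ∏ i, S Q f n H ((c i : ZMod Q) * t)) := by
              rw [hΦ, hΨ]
              dsimp only
              ring
            rw [h1, norm_mul, hun, one_mul]
            have h2 := prod_sub (univ : Finset (Fin s))
              (fun i => V Q f p n H ((c i : ZMod Q) * t)) (fun i => S Q f n H ((c i : ZMod Q) * t))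
              (2 * (H : ℝ)) (by positivity) (fun i => b4b _) fun i => (b3 _).trans (by linarith)
            rw [card_univ, Fintype.card_fin] at h2
            exact h2
        _ = (2 * (H : ℝ)) ^ (s - 1) * ∑ i, ∑ t ∈ univ.filter (fun t => ∀ i, σ i t ∈ G),
            ‖V Q f p n H (σ i t) - S Q f n H (σ i t)‖ := by
            rw [← mul_sum, sum_comm]
        _ ≤ (2 * (H : ℝ)) ^ (s - 1) * ∑ _i : Fin s, ∑ t ∈ G,
            ‖V Q f p n H t - S Q f n H t‖ := by
            refine mul_le_mul_of_nonneg_left ?_ (by positivity)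
            refine sum_le_sum fun i _ => ?_
            rw [← hXcard i fun t => ‖V Q f p n H t - S Q f n H t‖]
            refine sum_le_sum_of_subset_of_nonneg ?_ fun _ _ _ => norm_nonneg _
            intro t ht
            rw [mem_filter] at ht
            rw [hX]
            simp only [mem_filter, mem_univ, true_and]
            exact ht.2 i
        _ = _ := by rw [sum_const, card_univ, Fintype.card_fin, nsmul_eq_mul]
    -- the part of `S` outside
    have hoff : ‖∑ t ∈ univ.filter (fun t => ∀ i, σ i t ∈ G), Ψ t - ∑ t, Ψ t‖ ≤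
        s ^ 2 * η * (H : ℝ) ^ (s - 2) * (Q * H) := by
      have h1 : ∑ t ∈ univ.filter (fun t => ∀ i, σ i t ∈ G), Ψ t - ∑ t, Ψ t =
          - ∑ t ∈ univ.filter (fun t => ¬ ∀ i, σ i t ∈ G), Ψ t := by
        rw [← sum_filter_add_sum_filter_not univ (fun t => ∀ i, σ i t ∈ G) Ψ]
        ring
      rw [h1, norm_neg]
      have h2 := off hs σ hbij (fun t => ‖S Q f n H t‖) (fun t => norm_nonneg _) (H : ℝ) hHR b3 G η
        hη (fun t ht => by
          rw [hG] at ht
          unfold Lg at ht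
          rw [mem_filter] at ht
          push Not at ht
          exact (ht (mem_univ _)).le)
      calc ‖∑ t ∈ univ.filter (fun t => ¬ ∀ i, σ i t ∈ G), Ψ t‖
          ≤ ∑ t ∈ univ.filter (fun t => ¬ ∀ i, σ i t ∈ G), ‖Ψ t‖ := norm_sum_le _ _
        _ = ∑ t ∈ univ.filter (fun t => ¬ ∀ i, σ i t ∈ G), ∏ l, ‖S Q f n H (σ l t)‖ := by
            refine sum_congr rfl fun t _ => ?_
            rw [hΨ]
            dsimp only
            rw [norm_mul, hun, one_mul, norm_prod]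
        _ ≤ _ := h2
        _ ≤ _ := mul_le_mul_of_nonneg_left b1 (by positivity)
    -- assembly
    have e1 : F Q c (p * k) (V Q f p n H) / (p * (H : ℂ) ^ (s - 1)) -
        F Q c (p * k) (S Q f n H) / (H : ℂ) ^ (s - 1) =
        (((1 / (p : ℂ)) * ∑ t, Φ t - ∑ t ∈ univ.filter (fun t => ∀ i, σ i t ∈ G), Φ t) +
        ((∑ t ∈ univ.filter (fun t => ∀ i, σ i t ∈ G), Φ t -
          ∑ t ∈ univ.filter (fun t => ∀ i, σ i t ∈ G), Ψ t) +
        (∑ t ∈ univ.filter (fun t => ∀ i, σ i t ∈ G), Ψ t - ∑ t, Ψ t))) /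
        (Q * (H : ℂ) ^ (s - 1)) := by
      unfold F
      rw [hΦ, hΨ]
      dsimp only
      field_simp
      ring
    have e2 : ‖(Q : ℂ) * (H : ℂ) ^ (s - 1)‖ = Q * (H : ℝ) ^ (s - 1) := by
      rw [norm_mul, norm_pow, Complex.norm_natCast, Complex.norm_natCast]
    rw [e1, norm_div, e2, div_le_iff₀ (by positivity)]
    have h10 : (1 / (p : ℝ)) * ∑ i, ∑ t ∈ univ.filter (fun t => ∀ u ∈ Tor Q p, t + u ∉ X i), ‖Φ t‖ ≤
        (1 / (p : ℝ)) * (s * ((2 * (H : ℝ)) ^ s * (s * (1 / θ ^ 3) *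
          ((Out Q f η p n H * (Q * (p * (H : ℝ) ^ 3))) / (2 * (H : ℝ)) ^ 4) +
          θ * s * ((2 * Q * (p * H)) / (2 * (H : ℝ)) ^ 2)))) := by
      refine mul_le_mul_of_nonneg_left ?_ (by positivity)
      refine (sum_le_sum fun i _ => hfar i).trans (le_of_eq ?_)
      rw [sum_const, card_univ, Fintype.card_fin, nsmul_eq_mul]
    have h11 : (2 * (H : ℝ)) ^ s * ∑ i, ∑ i', ∑ t ∈ X i,
        ((#((Tor Q p).filter fun v => v ≠ 0 ∧ t + v ∈ X i') : ℕ) : ℝ) ≤
        (2 * (H : ℝ)) ^ s * ∑ i, ∑ i', ∑ t ∈ X i, N p (σ i' t) := by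
      refine mul_le_mul_of_nonneg_left ?_ (by positivity)
      exact sum_le_sum fun i _ => sum_le_sum fun i' _ => hcoll i i'
    refine (norm_add_le _ _).trans ?_
    refine (add_le_add hcore ((norm_add_le _ _).trans (add_le_add hmain hoff))).trans ?_
    refine (add_le_add (add_le_add h10 h11) le_rfl).trans ?_
    obtain ⟨r, rfl⟩ : ∃ r, s = r + 3 := ⟨s - 3, by omega⟩
    have e3 : r + 3 - 1 = r + 2 := by omega
    have e4 : r + 3 - 2 = r + 1 := by omega
    rw [e3, e4]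
    set Z1 := ∑ i, ∑ i', ∑ t ∈ X i, N p (σ i' t) with hZ1
    set Z2 := ∑ t ∈ G, ‖V Q f p n H t - S Q f n H t‖ with hZ2
    set W := Out Q f η p n H with hW
    have hW0 : 0 ≤ W := by
      rw [hW]
      unfold Out
      exact div_nonneg (sum_nonneg fun _ _ => by positivity) (by positivity)
    have hZ20 : 0 ≤ Z2 := sum_nonneg fun _ _ => norm_nonneg _
    set σ4 : ℝ := ((r + 3 : ℕ) : ℝ) with hσ4
    have hσ0 : 0 ≤ σ4 := Nat.cast_nonneg _
    have g1 : (1 / (p : ℝ)) * (σ4 * ((2 * (H : ℝ)) ^ (r + 3) * (σ4 * (1 / θ ^ 3) *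
          ((W * (Q * (p * (H : ℝ) ^ 3))) / (2 * (H : ℝ)) ^ 4) +
          θ * σ4 * ((2 * Q * (p * H)) / (2 * (H : ℝ)) ^ 2)))) =
        2 ^ (r + 3) * σ4 ^ 2 * (1 / 16 * (1 / θ ^ 3 * W) + 1 / 2 * θ) *
          (Q * (H : ℝ) ^ (r + 2)) := by
      have : (p : ℝ) ≠ 0 := hpR.ne'
      rw [mul_pow, mul_pow, mul_pow]
      field_simp
      ring
    have g2 : 2 ^ (r + 3) * σ4 ^ 2 * (1 / 16 * (1 / θ ^ 3 * W) + 1 / 2 * θ) ≤
        2 ^ (r + 3) * σ4 ^ 2 * (1 / θ ^ 3 * W + θ) := by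
      have h2 : 0 ≤ 1 / θ ^ 3 * W := by positivity
      refine mul_le_mul_of_nonneg_left ?_ (by positivity)
      linarith
    rw [g1]
    have g3 : (2 * (H : ℝ)) ^ (r + 3) * Z1 = 2 ^ (r + 3) * H / Q * Z1 * (Q * (H : ℝ) ^ (r + 2)) := by
      rw [mul_pow]
      field_simp
      ring
    have g4 : (2 * (H : ℝ)) ^ (r + 2) * (σ4 * Z2) ≤
        2 ^ (r + 3) * σ4 / Q * Z2 * (Q * (H : ℝ) ^ (r + 2)) := by
      have h1 : 2 ^ (r + 3) * σ4 / Q * Z2 * (Q * (H : ℝ) ^ (r + 2)) =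
          2 * ((2 * (H : ℝ)) ^ (r + 2) * (σ4 * Z2)) := by
        rw [mul_pow]
        field_simp
        ring
      rw [h1]
      have h2 : 0 ≤ (2 * (H : ℝ)) ^ (r + 2) * (σ4 * Z2) := by positivity
      linarith
    have g5 : σ4 ^ 2 * η * (H : ℝ) ^ (r + 1) * (Q * H) = σ4 ^ 2 * η * (Q * (H : ℝ) ^ (r + 2)) := by
      ring
    have g6 : (0 : ℝ) ≤ Q * (H : ℝ) ^ (r + 2) := by positivity
    have g7 := mul_le_mul_of_nonneg_right g2 g6
    rw [g3, g5]
    calc _ ≤ 2 ^ (r + 3) * σ4 ^ 2 * (1 / θ ^ 3 * W + θ) * (Q * (H : ℝ) ^ (r + 2)) +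
          2 ^ (r + 3) * H / Q * Z1 * (Q * (H : ℝ) ^ (r + 2)) +
          (2 ^ (r + 3) * σ4 / Q * Z2 * (Q * (H : ℝ) ^ (r + 2)) +
          σ4 ^ 2 * η * (Q * (H : ℝ) ^ (r + 2))) := by
            refine add_le_add (add_le_add g7 le_rfl) (add_le_add g4 le_rfl)
      _ = _ := by ring
  -- the sum over the primes
  have hLsum : ∑ p ∈ P, (1 / (p : ℝ)) = LL P := rfl
  have hη4 : (0 : ℝ) < η ^ 4 := by positivity
  have s1 : ∑ p ∈ P, (1 / (p : ℝ)) * (∑ i, ∑ i', ∑ t ∈ X i, N p (σ i' t)) ≤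
      s ^ 2 * (#G : ℝ) * (17 / η ^ 2) / P₀ := by
    calc ∑ p ∈ P, (1 / (p : ℝ)) * (∑ i, ∑ i', ∑ t ∈ X i, N p (σ i' t))
        ≤ ∑ p ∈ P, (1 / (P₀ : ℝ)) * (∑ i, ∑ i', ∑ t ∈ X i, N p (σ i' t)) := by
          refine sum_le_sum fun p hp => mul_le_mul_of_nonneg_right ?_
            (sum_nonneg fun i _ => sum_nonneg fun i' _ => sum_nonneg fun t _ => hN0 _ _)
          exact one_div_le_one_div_of_le (by linarith) (by exact_mod_cast (hP p hp).2.1)
      _ = (1 / (P₀ : ℝ)) * ∑ i, ∑ i', ∑ t ∈ X i, ∑ p ∈ P, N p (σ i' t) := by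
          rw [← mul_sum, sum_comm]
          congr 1
          refine sum_congr rfl fun i _ => ?_
          rw [sum_comm]
          refine sum_congr rfl fun i' _ => ?_
          rw [sum_comm]
      _ ≤ (1 / (P₀ : ℝ)) * ∑ i, ∑ _i' : Fin s, ∑ _t ∈ X i, 17 / η ^ 2 := by
          refine mul_le_mul_of_nonneg_left ?_ (by positivity)
          exact sum_le_sum fun i _ => sum_le_sum fun i' _ => sum_le_sum fun t _ => b2s _
      _ = _ := by
          simp_rw [sum_const, nsmul_eq_mul, hXc, card_univ, Fintype.card_fin]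
          rw [sum_const, card_univ, Fintype.card_fin, nsmul_eq_mul]
          ring
  have s2 : ∑ p ∈ P, (1 / (p : ℝ)) * (∑ t ∈ G, ‖V Q f p n H t - S Q f n H t‖) ≤
      (#G : ℝ) * (√(2 * LL P) * H) := by
    calc ∑ p ∈ P, (1 / (p : ℝ)) * (∑ t ∈ G, ‖V Q f p n H t - S Q f n H t‖)
        = ∑ t ∈ G, ∑ p ∈ P, (1 / (p : ℝ)) * ‖V Q f p n H t - S Q f n H t‖ := by
          rw [sum_comm]
          exact sum_congr rfl fun p _ => by rw [mul_sum]
      _ ≤ ∑ _t ∈ G, √(2 * LL P) * H := sum_le_sum fun t _ => b3s t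
      _ = _ := by rw [sum_const, nsmul_eq_mul]
  have hGH : (#G : ℝ) * H / Q ≤ 1 / η ^ 2 := by
    rw [div_le_div_iff₀ hQR (by positivity)]
    nlinarith [b2]
  have hG0 : (0 : ℝ) ≤ #G := Nat.cast_nonneg _
  calc ∑ p ∈ P, (1 / (p : ℝ)) * ‖F Q c (p * k) (V Q f p n H) / (p * (H : ℂ) ^ (s - 1)) -
        F Q c (p * k) (S Q f n H) / (H : ℂ) ^ (s - 1)‖
      ≤ ∑ p ∈ P, (1 / (p : ℝ)) * (2 ^ s * s ^ 2 * (1 / θ ^ 3 * Out Q f η p n H + θ) +
      2 ^ s * H / Q * (∑ i, ∑ i', ∑ t ∈ X i, N p (σ i' t)) +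
      2 ^ s * s / Q * (∑ t ∈ G, ‖V Q f p n H t - S Q f n H t‖) + s ^ 2 * η) :=
        sum_le_sum fun p hp => mul_le_mul_of_nonneg_left (key p hp) (by positivity)
    _ = 2 ^ s * s ^ 2 * (1 / θ ^ 3 * ∑ p ∈ P, (1 / (p : ℝ)) * Out Q f η p n H + θ * LL P) +
        2 ^ s * H / Q * (∑ p ∈ P, (1 / (p : ℝ)) * (∑ i, ∑ i', ∑ t ∈ X i, N p (σ i' t))) +
        2 ^ s * s / Q * (∑ p ∈ P, (1 / (p : ℝ)) * (∑ t ∈ G, ‖V Q f p n H t - S Q f n H t‖)) +
        s ^ 2 * η * LL P := by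
        rw [← hLsum]
        simp only [mul_sum, ← sum_add_distrib]
        refine sum_congr rfl fun p _ => ?_
        simp only [← mul_sum]
        ring
    _ ≤ 2 ^ s * s ^ 2 * (1 / θ ^ 3 * ∑ p ∈ P, (1 / (p : ℝ)) * Out Q f η p n H + θ * LL P) +
        2 ^ s * H / Q * (s ^ 2 * (#G : ℝ) * (17 / η ^ 2) / P₀) +
        2 ^ s * s / Q * ((#G : ℝ) * (√(2 * LL P) * H)) +
        s ^ 2 * η * LL P := by
        gcongr
    _ ≤ _ := by
        have hOut : 0 ≤ ∑ p ∈ P, (1 / (p : ℝ)) * Out Q f η p n H :=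
          sum_nonneg fun p _ => mul_nonneg (by positivity) (by
            unfold Out
            exact div_nonneg (sum_nonneg fun _ _ => by positivity) (by positivity))
        have h2s : (1 : ℝ) ≤ 2 ^ s := one_le_pow₀ (by norm_num)
        have hs1 : (1 : ℝ) ≤ s := by exact_mod_cast (by omega : 1 ≤ s)
        have t1 : 2 ^ s * H / Q * (s ^ 2 * (#G : ℝ) * (17 / η ^ 2) / P₀) ≤
            17 * 2 ^ s * s ^ 2 * (1 / (η ^ 4 * P₀)) := by
          calc 2 ^ s * H / Q * (s ^ 2 * (#G : ℝ) * (17 / η ^ 2) / P₀)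
              = 2 ^ s * s ^ 2 * (17 / η ^ 2) / P₀ * ((#G : ℝ) * H / Q) := by ring
            _ ≤ 2 ^ s * s ^ 2 * (17 / η ^ 2) / P₀ * (1 / η ^ 2) :=
                mul_le_mul_of_nonneg_left hGH (by positivity)
            _ = _ := by field_simp
        have t2 : 2 ^ s * s / Q * ((#G : ℝ) * (√(2 * LL P) * H)) ≤
            17 * 2 ^ s * s ^ 2 * (√(LL P) / η ^ 2) := by
          have h1 : √(2 * LL P) ≤ 2 * √(LL P) := by
            rw [Real.sqrt_mul (by norm_num)]
            refine mul_le_mul_of_nonneg_right ?_ (Real.sqrt_nonneg _)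
            rw [Real.sqrt_le_left (by norm_num)]
            norm_num
          calc 2 ^ s * s / Q * ((#G : ℝ) * (√(2 * LL P) * H))
              = 2 ^ s * s * √(2 * LL P) * ((#G : ℝ) * H / Q) := by ring
            _ ≤ 2 ^ s * s * (2 * √(LL P)) * (1 / η ^ 2) := by
                refine mul_le_mul (mul_le_mul_of_nonneg_left h1 (by positivity)) hGH
                  (by positivity) (by positivity)
            _ = 2 ^ s * s * 2 * (√(LL P) / η ^ 2) := by ring
            _ ≤ _ := by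
                refine mul_le_mul_of_nonneg_right ?_ (by positivity)
                nlinarith [mul_nonneg (by positivity : (0 : ℝ) ≤ 2 ^ s) hs0]
        have t3 : s ^ 2 * η * LL P ≤ 17 * 2 ^ s * s ^ 2 * (η * LL P) := by
          have h1 : 0 ≤ (s : ℝ) ^ 2 * (η * LL P) := by positivity
          nlinarith
        have t4 : 2 ^ s * s ^ 2 * (1 / θ ^ 3 * ∑ p ∈ P, (1 / (p : ℝ)) * Out Q f η p n H + θ * LL P)
            ≤ 17 * 2 ^ s * s ^ 2 *
              (1 / θ ^ 3 * ∑ p ∈ P, (1 / (p : ℝ)) * Out Q f η p n H + θ * LL P) := by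
          have h1 : 0 ≤ 2 ^ s * (s : ℝ) ^ 2 *
              (1 / θ ^ 3 * ∑ p ∈ P, (1 / (p : ℝ)) * Out Q f η p n H + θ * LL P) := by positivity
          linarith
        unfold Err
        calc _ ≤ 17 * 2 ^ s * s ^ 2 *
              (1 / θ ^ 3 * ∑ p ∈ P, (1 / (p : ℝ)) * Out Q f η p n H + θ * LL P) +
              17 * 2 ^ s * s ^ 2 * (1 / (η ^ 4 * P₀)) +
              17 * 2 ^ s * s ^ 2 * (√(LL P) / η ^ 2) + 17 * 2 ^ s * s ^ 2 * (η * LL P) :=
              add_le_add (add_le_add (add_le_add t4 t1) t2) t3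
          _ = _ := by ring

end Pool.Agent.C4
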