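import Pool.Agent.Lib.C4.Defs

/-!
# Row P: finite sets of primes with a large sum of reciprocals (helper54)
-/

set_option autoImplicit false
open Finset

namespace Pool.Agent.C4

theorem rowP : P_stmt := by
  classical
  intro P₀ L
  by_contra hcon
  push Not at hcon
  refine not_summable_one_div_on_primes ?_
  set f : ℕ → ℝ := Set.indicator {p : ℕ | p.Prime} (fun n : ℕ => (1 : ℝ) / n) with hf
  have hf0 : ∀ n, 0 ≤ f n := fun n => Set.indicator_nonneg (fun _ _ => by positivity) n
  refine summable_of_sum_le (c := ∑ n ∈ range P₀, f n + L) hf0 fun u => ?_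
  have h1 := sum_filter_add_sum_filter_not u (fun n => n < P₀) f
  rw [← h1]
  refine add_le_add ?_ ?_
  · refine sum_le_sum_of_subset_of_nonneg ?_ fun n _ _ => hf0 n
    intro n hn
    exact mem_range.2 (mem_filter.1 hn).2
  · have h2 : ∑ n ∈ u.filter (fun n => ¬ n < P₀), f n =
        LL ((u.filter (fun n => ¬ n < P₀)).filter Nat.Prime) := by
      rw [LL, sum_filter Nat.Prime]
      refine sum_congr rfl fun n _ => ?_
      simp only [hf, Set.indicator_apply, Set.mem_ofPred_eq]
    rw [h2]
    refine (hcon _ fun p hp => ?_).le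
    rw [mem_filter, mem_filter] at hp
    exact ⟨hp.2, by omega⟩

end Pool.Agent.C4
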