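import Mathlib
import Pool.Agent.Lib.C4.Defs2
import Pool.Agent.Lib.WC86.Sqrt
import Pool.Agent.Lib.WC86.Short
import Pool.Agent.Lib.WC86.Major
import Pool.Agent.Lib.MP_663568_dch.Law

/-!
# Row W1mu: the frequencies in a set, for the Moebius function

helper71.
-/

set_option autoImplicit false
open Finset

namespace Pool.Agent.C4

open Pool.Agent.Lib.MP_663568_nt Pool.Agent.Lib.MP_663568_nt.Katai
  Pool.Agent.Lib.MP_663568_nt.H6 Pool.Agent.Lib.MP_663568_nt.Nul

theorem rowW1mu : W1mu_stmt := by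
  intro δ R hδ hR
  obtain ⟨H₁, hH₁⟩ := WC86.sqrtLaw Pool.Agent.Lib.MP_663568_dch.minorLaw
    (WC86.major WC86.muAP_top) δ R hδ hR
  refine ⟨H₁, fun H N hH hHN A => ?_⟩
  have e : (fun n => ((muR n : ℝ) : ℂ)) = WC86.mu := by
    funext n
    unfold muR WC86.mu
    push_cast
    rfl
  rw [e]
  have h1 : ∑ n ∈ Icc 1 N, (1 / (n : ℝ)) * GS WC86.lin WC86.mu A H n ≤
      ∑ n ∈ Icc 1 N, (1 / (n : ℝ)) * GS WC86.lin WC86.mu (WC86.InM A) H n := by
    refine sum_le_sum fun n _ => mul_le_mul_of_nonneg_left (WC86.GS_mono _ _ ?_ H n) (by positivity)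
    intro y hy
    exact ⟨0, by simpa using hy⟩
  refine h1.trans ((hH₁ H N hH hHN A).trans ?_)
  have hlN : 0 ≤ Real.log N := Real.log_natCast_nonneg N
  have h6 : √(6 * WC86.outer A R) / Real.pi ≤ √(WC86.outer A R) := by
    have h1 : √6 ≤ Real.pi := by
      rw [Real.sqrt_le_left (by positivity)]
      nlinarith [Real.pi_gt_three]
    rw [Real.sqrt_mul (by norm_num), div_le_iff₀ Real.pi_pos, mul_comm]
    exact mul_le_mul_of_nonneg_left h1 (Real.sqrt_nonneg _)
  gcongr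

end Pool.Agent.C4
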