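import Pool.Agent.Lib.C4.Defs

/-!
# Row W2: the measure of a level set of a trigonometric polynomial
-/

set_option autoImplicit false
open Finset MeasureTheory

namespace Pool.Agent.C4.W2

open Pool.Agent.Lib.MP_663568_nt.Katai

lemma norm_ee_sub_one (x : ℝ) : ‖ee x - 1‖ ≤ 2 * Real.pi * |x| := by
  have h : ee x = Complex.exp (Complex.I * ((2 * Real.pi * x : ℝ) : ℂ)) := by
    rw [ee]; congr 1; push_cast; ring
  rw [h]
  refine Real.norm_exp_I_mul_ofReal_sub_one_le.trans ?_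
  rw [Real.norm_eq_abs, abs_mul, abs_of_pos Real.two_pi_pos]

lemma continuous_ee : Continuous ee := by
  unfold ee; fun_prop

/-- the trigonometric polynomial. -/
noncomputable def K (P : Finset ℕ) (w : ℕ → ℂ) (k : ℤ) (x : ℝ) : ℂ :=
  ∑ p ∈ P, w p * ee ((p : ℝ) * k * x)

lemma continuous_K (P : Finset ℕ) (w : ℕ → ℂ) (k : ℤ) : Continuous (K P w k) := by
  unfold K
  refine continuous_finsetSum _ fun p _ => continuous_const.mul (continuous_ee.comp ?_)
  fun_prop

lemma K_add_int (P : Finset ℕ) (w : ℕ → ℂ) (k : ℤ) (x : ℝ) (q : ℤ) :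
    K P w k (x + q) = K P w k x := by
  unfold K
  refine sum_congr rfl fun p _ => ?_
  rw [show (p : ℝ) * k * (x + q) = (p : ℝ) * k * x + ((p * k * q : ℤ) : ℝ) by push_cast; ring,
    ee_add, ee_int, mul_one]

lemma K_lip (P : Finset ℕ) (w : ℕ → ℂ) (k : ℤ) (hP : ∀ p ∈ P, 1 ≤ p)
    (hw : ∀ p, ‖w p‖ ≤ 1 / (p : ℝ)) (x y : ℝ) :
    ‖K P w k x - K P w k y‖ ≤ 2 * Real.pi * |(k : ℝ)| * #P * |x - y| := by
  unfold K
  rw [← sum_sub_distrib]
  refine (norm_sum_le _ _).trans ?_
  have h : ∀ p ∈ P, ‖w p * ee ((p : ℝ) * k * x) - w p * ee ((p : ℝ) * k * y)‖ ≤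
      2 * Real.pi * |(k : ℝ)| * |x - y| := by
    intro p hp
    have hp0 : (0 : ℝ) < p := by exact_mod_cast hP p hp
    have h1 : w p * ee ((p : ℝ) * k * x) - w p * ee ((p : ℝ) * k * y) =
        w p * ee ((p : ℝ) * k * y) * (ee ((p : ℝ) * k * (x - y)) - 1) := by
      rw [show (p : ℝ) * k * x = (p : ℝ) * k * y + (p : ℝ) * k * (x - y) by ring, ee_add]
      ring
    rw [h1, norm_mul, norm_mul, norm_ee, mul_one]
    have h2 := norm_ee_sub_one ((p : ℝ) * k * (x - y))
    rw [abs_mul, abs_mul, abs_of_pos hp0] at h2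
    calc ‖w p‖ * ‖ee ((p : ℝ) * k * (x - y)) - 1‖
        ≤ 1 / (p : ℝ) * (2 * Real.pi * (p * |(k : ℝ)| * |x - y|)) :=
          mul_le_mul (hw p) h2 (norm_nonneg _) (by positivity)
      _ = 2 * Real.pi * |(k : ℝ)| * |x - y| := by field_simp
  refine (sum_le_sum h).trans (le_of_eq ?_)
  rw [sum_const, nsmul_eq_mul]; ring

lemma integral_ee (j : ℤ) : ∫ x in (0 : ℝ)..1, ee ((j : ℝ) * x) = if j = 0 then 1 else 0 := by
  by_cases hj : j = 0
  · subst hj
    have h0 : ee 0 = 1 := by simpa using ee_int 0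
    simp [h0]
  · rw [if_neg hj]
    have hc : (2 * Real.pi * Complex.I * j : ℂ) ≠ 0 := by
      have : (j : ℂ) ≠ 0 := by exact_mod_cast hj
      simp [Real.pi_ne_zero, this]
    have h := integral_exp_mul_complex (a := 0) (b := 1) hc
    have h1 : ∀ x : ℝ, ee ((j : ℝ) * x) = Complex.exp ((2 * Real.pi * Complex.I * j : ℂ) * x) := by
      intro x; rw [ee]; congr 1; push_cast; ring
    simp_rw [h1]
    rw [h]
    have h2 : Complex.exp ((2 * Real.pi * Complex.I * j : ℂ) * ((1 : ℝ) : ℂ)) = 1 := by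
      have := ee_int j
      rw [ee] at this
      rw [← this]; congr 1; push_cast; ring
    rw [h2]; simp

lemma parseval (P : Finset ℕ) (w : ℕ → ℂ) (k : ℤ) (hk : k ≠ 0) :
    ∫ x in (0 : ℝ)..1, ‖K P w k x‖ ^ 2 = ∑ p ∈ P, ‖w p‖ ^ 2 := by
  have h1 : ∀ x : ℝ, ((‖K P w k x‖ ^ 2 : ℝ) : ℂ) =
      ∑ p ∈ P, ∑ q ∈ P, w p * (starRingEnd ℂ) (w q) * ee ((((p : ℤ) - q) * k : ℤ) * x) := by
    intro x
    have : ((‖K P w k x‖ ^ 2 : ℝ) : ℂ) = K P w k x * (starRingEnd ℂ) (K P w k x) := by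
      rw [Complex.mul_conj, Complex.normSq_eq_norm_sq]
    rw [this, K, map_sum, sum_mul_sum]
    refine sum_congr rfl fun p _ => sum_congr rfl fun q _ => ?_
    rw [map_mul, conj_ee]
    rw [show ((((p : ℤ) - q) * k : ℤ) : ℝ) * x = (p : ℝ) * k * x + -((q : ℝ) * k * x) by
      push_cast; ring, ee_add]
    ring
  have h2 : ((∫ x in (0 : ℝ)..1, ‖K P w k x‖ ^ 2 : ℝ) : ℂ) = ((∑ p ∈ P, ‖w p‖ ^ 2 : ℝ) : ℂ) := by
    rw [← intervalIntegral.integral_ofReal]
    simp_rw [h1]
    rw [intervalIntegral.integral_finsetSum]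
    · rw [Complex.ofReal_sum]
      refine sum_congr rfl fun p hp => ?_
      rw [intervalIntegral.integral_finsetSum]
      · simp_rw [intervalIntegral.integral_const_mul, integral_ee]
        rw [sum_eq_single p]
        · rw [sub_self, zero_mul, if_pos rfl, mul_one, Complex.mul_conj,
            Complex.normSq_eq_norm_sq]
        · intro q _ hq
          rw [if_neg, mul_zero]
          refine mul_ne_zero ?_ hk
          intro h; apply hq; have : (p : ℤ) = q := by linarith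
          exact_mod_cast this.symm
        · intro h; exact absurd hp h
      · intro q _
        apply Continuous.intervalIntegrable
        exact continuous_const.mul (continuous_ee.comp (by fun_prop))
    · intro p _
      apply Continuous.intervalIntegrable
      refine continuous_finsetSum _ fun q _ => ?_
      exact continuous_const.mul (continuous_ee.comp (by fun_prop))
  exact_mod_cast h2

/-- the sum over the fibre. -/
noncomputable def G (P : Finset ℕ) (w : ℕ → ℂ) (k : ℤ) (M : ℕ) (y : ℝ) : ℝ :=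
  ∑ b ∈ range M, ‖K P w k ((y + b) / M)‖ ^ 2

lemma continuous_G (P : Finset ℕ) (w : ℕ → ℂ) (k : ℤ) (M : ℕ) : Continuous (G P w k M) := by
  unfold G
  refine continuous_finsetSum _ fun b _ => ?_
  exact ((continuous_K P w k).comp (by fun_prop)).norm.pow 2

lemma integral_G (P : Finset ℕ) (w : ℕ → ℂ) (k : ℤ) (hk : k ≠ 0) (M : ℕ) (hM : 1 ≤ M) :
    ∫ y in (0 : ℝ)..1, G P w k M y = M * ∑ p ∈ P, ‖w p‖ ^ 2 := by
  have hM0 : (M : ℝ) ≠ 0 := by positivity
  set f : ℝ → ℝ := fun u => ‖K P w k (u / M)‖ ^ 2 with hf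
  have hfc : Continuous f := ((continuous_K P w k).comp (by fun_prop)).norm.pow 2
  have h1 : ∫ y in (0 : ℝ)..1, G P w k M y = ∑ b ∈ range M, ∫ y in (0 : ℝ)..1, f (y + b) := by
    unfold G
    rw [intervalIntegral.integral_finsetSum]
    intro b _
    apply Continuous.intervalIntegrable
    exact ((continuous_K P w k).comp (by fun_prop)).norm.pow 2
  have h2 : ∀ b ∈ range M, ∫ y in (0 : ℝ)..1, f (y + b) = ∫ u in ((b : ℕ) : ℝ)..((b + 1 : ℕ) : ℝ),
      f u := by
    intro b _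
    rw [intervalIntegral.integral_comp_add_right]
    congr 1
    · ring
    · push_cast; ring
  rw [h1, sum_congr rfl h2]
  have h3 := intervalIntegral.sum_integral_adjacent_intervals (μ := volume) (f := f)
    (a := fun n : ℕ => (n : ℝ)) (n := M) (fun j _ => hfc.intervalIntegrable _ _)
  rw [h3]
  have h4 : ∫ u in ((0 : ℕ) : ℝ)..(M : ℝ), f u = M * ∫ x in (0 : ℝ)..1, ‖K P w k x‖ ^ 2 := by
    have := intervalIntegral.integral_comp_div (a := ((0 : ℕ) : ℝ)) (b := (M : ℝ))
      (fun x : ℝ => ‖K P w k x‖ ^ 2) hM0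
    rw [show (∫ u in ((0 : ℕ) : ℝ)..(M : ℝ), f u) =
      ∫ x in ((0 : ℕ) : ℝ)..(M : ℝ), ‖K P w k (x / M)‖ ^ 2 from rfl, this, smul_eq_mul,
      Nat.cast_zero, zero_div, div_self hM0]
  rw [h4, parseval P w k hk]

end W2

open W2 Pool.Agent.Lib.MP_663568_nt.Katai in
theorem rowW2 : W2_stmt := by
  intro P k m κ hP hk hm hκ
  have hR0 : 0 ≤ 4 * Real.pi * |(k : ℝ)| * #P / κ := by positivity
  refine ⟨1 + 4 * Real.pi * |(k : ℝ)| * #P / κ, by linarith, fun w hw => ?_⟩
  set R : ℝ := 1 + 4 * Real.pi * |(k : ℝ)| * #P / κ with hR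
  have hRpos : 0 < R := by linarith
  set M : ℕ := m.natAbs with hMdef
  have hM : 1 ≤ M := by rw [hMdef]; omega
  have hMr : (1 : ℝ) ≤ M := by exact_mod_cast hM
  set s : ℤ := m.sign with hs
  have hsm : s * M = m := by rw [hs, hMdef]; exact Int.sign_mul_natAbs m
  have hs2 : s * s = 1 := by
    rw [hs]
    rcases lt_or_gt_of_ne hm with h | h
    · rw [Int.sign_eq_neg_one_of_neg h]; norm_num
    · rw [Int.sign_eq_one_of_pos h]; norm_num
  have hs0 : s ≠ 0 := by intro h; rw [h] at hs2; norm_num at hs2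
  have hsr : (s : ℝ) * s = 1 := by exact_mod_cast hs2
  have hsmr : (s : ℝ) * M = m := by exact_mod_cast hsm
  have habs : |(m : ℝ)| = M := by
    rw [hMdef, Nat.cast_natAbs, Int.cast_abs]
  have hk' : k * s ≠ 0 := mul_ne_zero hk hs0
  have hks : |((k * s : ℤ) : ℝ)| = |(k : ℝ)| := by
    have : |(s : ℝ)| = 1 := by
      have h1 : |(s : ℝ)| * |(s : ℝ)| = 1 := by rw [← abs_mul, hsr, abs_one]
      nlinarith [abs_nonneg (s : ℝ)]
    push_cast; rw [abs_mul, this, mul_one]
  set c : ℝ := κ ^ 2 / 4 with hc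
  have hcpos : 0 < c := by positivity
  -- the set is inside the level set of the fibre sum
  have hsub : {y : ℝ | y ∈ Set.Icc (0 : ℝ) 1 ∧ ∃ α ∈ {x : ℝ | ∃ y : ℝ,
      κ ≤ ‖∑ p ∈ P, w p * ee ((p : ℝ) * k * y)‖ ∧ x = (m : ℝ) * y}, ∃ b : ℤ,
      |α - y - b| ≤ 1 / R} ⊆ {y | c ≤ G P w (k * s) M y} ∩ Set.Icc 0 1 := by
    rintro y ⟨hy, α, ⟨y0, hy0, rfl⟩, b, hb⟩
    refine ⟨?_, hy⟩
    set q : ℤ := b / M with hq
    set r : ℤ := b % M with hr
    have hMz : (M : ℤ) ≠ 0 := by positivity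
    have hr0 : 0 ≤ r := Int.emod_nonneg _ hMz
    have hr1 : r < M := Int.emod_lt_of_pos _ (by positivity)
    have hbr : (M : ℤ) * q + r = b := Int.mul_ediv_add_emod b M
    obtain ⟨r', hr'⟩ := Int.eq_ofNat_of_zero_le hr0
    have hr'M : r' < M := by
      have : (r' : ℤ) < M := by rw [← hr']; exact hr1
      exact_mod_cast this
    have hbr' : (M : ℝ) * q + r' = b := by
      have : (M : ℤ) * q + r' = b := by rw [← hbr, hr']
      exact_mod_cast this
    set z : ℝ := (y + r') / M with hz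
    set z0 : ℝ := s * y0 with hz0
    have hK0 : K P w (k * s) z0 = ∑ p ∈ P, w p * ee ((p : ℝ) * k * y0) := by
      unfold K
      refine sum_congr rfl fun p _ => ?_
      congr 2
      rw [hz0]; push_cast
      calc (p : ℝ) * (k * s) * (s * y0) = (p : ℝ) * k * (s * s) * y0 := by ring
        _ = _ := by rw [hsr]; ring
    have hdiff : |z0 - (z + q)| ≤ 1 / R := by
      have h1 : z0 - (z + q) = (m * y0 - y - b) / M := by
        have hM0 : (M : ℝ) ≠ 0 := by positivity
        rw [hz, hz0, ← hsmr, ← hbr']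
        field_simp
        ring
      rw [h1, abs_div, Nat.abs_cast]
      refine (div_le_self (abs_nonneg _) hMr).trans hb
    have hlip := K_lip P w (k * s) hP hw z0 (z + q)
    rw [K_add_int, hks] at hlip
    have h2 : 2 * Real.pi * |(k : ℝ)| * #P * |z0 - (z + q)| ≤ κ / 2 := by
      calc 2 * Real.pi * |(k : ℝ)| * #P * |z0 - (z + q)|
          ≤ 2 * Real.pi * |(k : ℝ)| * #P * (1 / R) :=
            mul_le_mul_of_nonneg_left hdiff (by positivity)
        _ ≤ κ / 2 := by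
            rw [mul_one_div, div_le_div_iff₀ hRpos (by norm_num)]
            have : κ * R = κ + 4 * Real.pi * |(k : ℝ)| * #P := by
              rw [hR]; field_simp
            rw [this]; linarith
    have h3 : κ / 2 ≤ ‖K P w (k * s) z‖ := by
      have h4 : ‖K P w (k * s) z0‖ ≤ ‖K P w (k * s) z0 - K P w (k * s) z‖ +
          ‖K P w (k * s) z‖ := by
        have := norm_add_le (K P w (k * s) z0 - K P w (k * s) z) (K P w (k * s) z)
        rwa [sub_add_cancel] at this
      rw [hK0] at h4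
      rw [hK0] at hlip
      linarith
    show c ≤ G P w (k * s) M y
    unfold G
    have h5 : c ≤ ‖K P w (k * s) ((y + r') / M)‖ ^ 2 := by
      have := pow_le_pow_left₀ (by positivity) h3 2
      calc c = (κ / 2) ^ 2 := by rw [hc]; ring
        _ ≤ _ := this
    exact h5.trans (single_le_sum (f := fun b : ℕ => ‖K P w (k * s) ((y + b) / M)‖ ^ 2)
      (fun _ _ => by positivity) (mem_range.2 hr'M))
  have hG := continuous_G P w (k * s) M
  -- Markov
  have hint : Integrable (G P w (k * s) M) (volume.restrict (Set.Icc (0 : ℝ) 1)) :=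
    hG.continuousOn.integrableOn_Icc
  have hmk := mul_meas_ge_le_integral_of_nonneg (μ := volume.restrict (Set.Icc (0 : ℝ) 1))
    (f := G P w (k * s) M) (Filter.Eventually.of_forall fun y =>
      sum_nonneg fun _ _ => by positivity) hint c
  have h6 : ∫ y, G P w (k * s) M y ∂(volume.restrict (Set.Icc (0 : ℝ) 1)) =
      M * ∑ p ∈ P, ‖w p‖ ^ 2 := by
    rw [integral_Icc_eq_integral_Ioc, ← intervalIntegral.integral_of_le (by norm_num)]
    exact integral_G P w (k * s) hk' M hM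
  rw [h6] at hmk
  have h7 : (WC86.outer {x | ∃ y : ℝ, κ ≤ ‖∑ p ∈ P, w p * ee ((p : ℝ) * k * y)‖ ∧
      x = (m : ℝ) * y} R) ≤ (volume.restrict (Set.Icc (0 : ℝ) 1)).real
        {y | c ≤ G P w (k * s) M y} := by
    unfold WC86.outer
    rw [measureReal_def, Measure.restrict_apply' measurableSet_Icc]
    refine ENNReal.toReal_mono ?_ (measure_mono hsub)
    exact ((measure_mono Set.inter_subset_right).trans_lt measure_Icc_lt_top).ne
  have h8 : ∑ p ∈ P, ‖w p‖ ^ 2 ≤ ∑ p ∈ P, 1 / (p : ℝ) ^ 2 := by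
    refine sum_le_sum fun p _ => ?_
    have := pow_le_pow_left₀ (norm_nonneg _) (hw p) 2
    rwa [one_div_pow] at this
  refine h7.trans ?_
  have h9 : (volume.restrict (Set.Icc (0 : ℝ) 1)).real {y | c ≤ G P w (k * s) M y} ≤
      (M * ∑ p ∈ P, ‖w p‖ ^ 2) / c := by
    rw [le_div_iff₀ hcpos, mul_comm]; exact hmk
  refine h9.trans ?_
  rw [habs, hc]
  calc (M * ∑ p ∈ P, ‖w p‖ ^ 2) / (κ ^ 2 / 4)
      = 4 * M / κ ^ 2 * ∑ p ∈ P, ‖w p‖ ^ 2 := by field_simp
    _ ≤ _ := mul_le_mul_of_nonneg_left h8 (by positivity)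

end Pool.Agent.C4
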