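import Mathlib
import Pool.Agent.Lib.C4.Defs2
import Pool.Agent.Lib.C4.A1
import Pool.Agent.Lib.C4.B1
import Pool.Agent.Lib.C4.D
import Pool.Agent.Lib.WC86.Major
import Pool.Agent.Lib.WC86.Short

/-!
# Row X1: one of the functions is the indicator of a residue class, one is `μ`

helper15.
-/

set_option autoImplicit false
open Finset

namespace Pool.Agent.C4

open Pool.Agent.Lib.MP_663568_nt Pool.Agent.Lib.MP_663568_nt.Katai
  Pool.Agent.Lib.MP_663568_nt.H6 Pool.Agent.Lib.MP_663568_nt.Nul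

namespace X1

/-- Orthogonality for different functions. -/
theorem ortho (s : ℕ) (c : Fin s → ℤ) (k : ℤ) (f : Fin s → ℕ → ℝ) (n H Q : ℕ) [NeZero Q]
    (hlt : (∑ i, (c i).natAbs) * H + k.natAbs < Q) :
    (∑ t : ZMod Q, ZMod.stdAddChar (-(k : ZMod Q) * t) *
      ∏ i, S Q (f i) n H ((c i : ZMod Q) * t)) / Q =
      ((∑ h ∈ Sol c k H, ∏ i, f i (n + h i) : ℝ) : ℂ) := by
  classical
  have hQ0 : (Q : ℂ) ≠ 0 := by exact_mod_cast NeZero.ne Q
  rw [div_eq_iff hQ0]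
  -- expand the product
  have h1 : ∀ t : ZMod Q, ∏ i, S Q (f i) n H ((c i : ZMod Q) * t) =
      ∑ h ∈ Fintype.piFinset (fun _ : Fin s => Icc 1 H),
        (∏ i, (f i (n + h i) : ℂ)) *
          ZMod.stdAddChar ((∑ i, (c i : ZMod Q) * (h i : ZMod Q)) * t) := by
    intro t
    unfold S
    rw [prod_univ_sum]
    refine sum_congr rfl fun h _ => ?_
    rw [prod_mul_distrib]
    congr 1
    rw [sum_mul, A1_map_sum]
    refine prod_congr rfl fun i _ => ?_
    congr 1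
    ring
  have h2 : ∀ t : ZMod Q, ZMod.stdAddChar (-(k : ZMod Q) * t) *
      ∏ i, S Q (f i) n H ((c i : ZMod Q) * t) =
      ∑ h ∈ Fintype.piFinset (fun _ : Fin s => Icc 1 H),
        (∏ i, (f i (n + h i) : ℂ)) *
          ZMod.stdAddChar (t * (((∑ i, c i * (h i : ℤ)) - k : ℤ) : ZMod Q)) := by
    intro t
    rw [h1, mul_sum]
    refine sum_congr rfl fun h _ => ?_
    rw [mul_left_comm, ← AddChar.map_add_eq_mul]
    congr 2
    push_cast
    ring
  rw [sum_congr rfl fun t _ => h2 t, sum_comm]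
  have h3 : ∀ h ∈ Fintype.piFinset (fun _ : Fin s => Icc 1 H),
      ∑ t : ZMod Q, (∏ i, (f i (n + h i) : ℂ)) *
          ZMod.stdAddChar (t * (((∑ i, c i * (h i : ℤ)) - k : ℤ) : ZMod Q)) =
      if ∑ i, c i * (h i : ℤ) = k then (∏ i, (f i (n + h i) : ℂ)) * Q else 0 := by
    intro h hh
    rw [Fintype.mem_piFinset] at hh
    rw [← mul_sum, AddChar.sum_mulShift _ (ZMod.isPrimitive_stdAddChar Q), ZMod.card]
    have h4 : ((((∑ i, c i * (h i : ℤ)) - k : ℤ) : ZMod Q) = 0) ↔ ∑ i, c i * (h i : ℤ) = k := by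
      rw [ZMod.intCast_zmod_eq_zero_iff_dvd]
      constructor
      · intro hd
        have h5 : |(∑ i, c i * (h i : ℤ)) - k| < Q := by
          have h6 : |∑ i, c i * (h i : ℤ)| ≤ ∑ i, |c i| * (H : ℤ) := by
            refine (abs_sum_le_sum_abs _ _).trans (sum_le_sum fun i _ => ?_)
            rw [abs_mul, abs_of_nonneg (show (0 : ℤ) ≤ (h i : ℤ) by positivity)]
            refine mul_le_mul_of_nonneg_left ?_ (abs_nonneg _)
            exact_mod_cast (mem_Icc.1 (hh i)).2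
          have h7 : ∑ i, |c i| * (H : ℤ) + |k| < Q := by
            have h8 : (((∑ i, (c i).natAbs) * H + k.natAbs : ℕ) : ℤ) < (Q : ℤ) := by
              exact_mod_cast hlt
            push_cast at h8
            rw [sum_mul] at h8
            exact h8
          have h8 := abs_sub (∑ i, c i * (h i : ℤ)) k
          linarith
        have := Int.eq_zero_of_abs_lt_dvd hd h5
        linarith
      · intro he
        rw [he, sub_self]
        exact dvd_zero _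
    by_cases h5 : ∑ i, c i * (h i : ℤ) = k
    · rw [if_pos (h4.2 h5), if_pos h5]
    · rw [if_neg (fun h6 => h5 (h4.1 h6)), if_neg h5]
      simp
  rw [sum_congr rfl h3, ← sum_filter]
  push_cast
  rw [sum_mul]
  rfl

lemma std_ee (Q : ℕ) [NeZero Q] (j : ℤ) (t : ZMod Q) :
    ZMod.stdAddChar ((j : ZMod Q) * t) = ee ((j : ℝ) * ((t.val : ℝ) / Q)) := by
  have e : (j : ZMod Q) * t = ((j * (t.val : ℤ) : ℤ) : ZMod Q) := by
    push_cast
    rw [ZMod.natCast_zmod_val]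
  rw [e, ZMod.stdAddChar_coe, ee]
  congr 1
  push_cast
  ring

lemma norm_S (f : ℕ → ℝ) (Q : ℕ) [NeZero Q] (n H : ℕ) (m : ℤ) (t : ZMod Q) :
    ‖S Q f n H ((m : ZMod Q) * t)‖ =
      ‖∑ h ∈ Icc 1 H, WC86.lin ((m : ℝ) * ((t.val : ℝ) / Q)) (n + h) * (f (n + h) : ℂ)‖ := by
  have e : ∑ h ∈ Icc 1 H, WC86.lin ((m : ℝ) * ((t.val : ℝ) / Q)) (n + h) * (f (n + h) : ℂ) =
      ee ((m : ℝ) * ((t.val : ℝ) / Q) * n) * S Q f n H ((m : ZMod Q) * t) := by
    unfold S
    rw [mul_sum]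
    refine sum_congr rfl fun h _ => ?_
    have e1 : ((h : ZMod Q)) * ((m : ZMod Q) * t) = (((h : ℤ) * m : ℤ) : ZMod Q) * t := by
      push_cast; ring
    rw [e1, std_ee]
    unfold WC86.lin
    have e2 : (m : ℝ) * ((t.val : ℝ) / Q) * ((n + h : ℕ) : ℝ) =
        (m : ℝ) * ((t.val : ℝ) / Q) * n + (((h : ℤ) * m : ℤ) : ℝ) * ((t.val : ℝ) / Q) := by
      push_cast; ring
    rw [e2, ee_add]
    ring
  rw [e, norm_mul, norm_ee, one_mul]

lemma av_two (f g : ℕ → ℝ) (hf : ∀ n, |f n| ≤ 1) (hg : ∀ n, |g n| ≤ 1) (Q : ℕ) [NeZero Q]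
    (hQ : Q.Prime) (n H : ℕ) (a b : ℤ)
    (ha : (a : ZMod Q) ≠ 0) (hb : (b : ZMod Q) ≠ 0) (hH : 1 ≤ H) (hHQ : H < Q) :
    ∑ t : ZMod Q, ‖S Q f n H ((a : ZMod Q) * t)‖ * ‖S Q g n H ((b : ZMod Q) * t)‖ ≤
      Q * H := by
  have : Fact Q.Prime := ⟨hQ⟩
  have h2 : ∀ (f : ℕ → ℝ) (a : ℤ), (∀ n, |f n| ≤ 1) → (a : ZMod Q) ≠ 0 →
      ∑ t : ZMod Q, ‖S Q f n H ((a : ZMod Q) * t)‖ ^ 2 ≤ Q * H := by
    intro f a hf ha
    have e : ∑ t : ZMod Q, ‖S Q f n H ((a : ZMod Q) * t)‖ ^ 2 =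
        ∑ t : ZMod Q, ‖S Q f n H t‖ ^ 2 :=
      Fintype.sum_equiv (Equiv.mulLeft₀ (a : ZMod Q) ha) _ _ fun t => rfl
    rw [e]
    exact (rowB1 f n H Q hf hH hHQ).1
  have h3 := h2 f a hf ha
  have h4 := h2 g b hg hb
  calc ∑ t : ZMod Q, ‖S Q f n H ((a : ZMod Q) * t)‖ * ‖S Q g n H ((b : ZMod Q) * t)‖
      ≤ ∑ t : ZMod Q, ((1 / 2) * ‖S Q f n H ((a : ZMod Q) * t)‖ ^ 2 +
          (1 / 2) * ‖S Q g n H ((b : ZMod Q) * t)‖ ^ 2) := by
        refine sum_le_sum fun t _ => ?_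
        nlinarith [sq_nonneg (‖S Q f n H ((a : ZMod Q) * t)‖ -
          ‖S Q g n H ((b : ZMod Q) * t)‖)]
    _ ≤ Q * H := by
        rw [sum_add_distrib, ← mul_sum, ← mul_sum]
        linarith

/-- Three factors of a product. -/
lemma prod_three {s : ℕ} (A : Fin s → ℝ) (B : ℝ) (hA : ∀ m, 0 ≤ A m) (hAB : ∀ m, A m ≤ B)
    (i l j : Fin s) (hil : i ≠ l) (hji : j ≠ i) (hjl : j ≠ l) :
    ∏ m, A m ≤ A i * A l * A j * B ^ (s - 3) := by
  classical
  have h1 : l ∈ univ.erase i := mem_erase.2 ⟨hil.symm, mem_univ _⟩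
  have h2 : j ∈ (univ.erase i).erase l := mem_erase.2 ⟨hjl, mem_erase.2 ⟨hji, mem_univ _⟩⟩
  rw [← mul_prod_erase univ A (mem_univ i), ← mul_prod_erase _ A h1, ← mul_prod_erase _ A h2]
  have h3 : ∏ m ∈ ((univ.erase i).erase l).erase j, A m ≤ B ^ (s - 3) := by
    refine (prod_le_prod (fun m _ => hA m) fun m _ => hAB m).trans (le_of_eq ?_)
    rw [prod_const, card_erase_of_mem h2, card_erase_of_mem h1, card_erase_of_mem (mem_univ i),
      card_univ, Fintype.card_fin]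
    congr 1
  calc A i * (A l * (A j * ∏ m ∈ ((univ.erase i).erase l).erase j, A m))
      = A i * A l * A j * ∏ m ∈ ((univ.erase i).erase l).erase j, A m := by ring
    _ ≤ _ := mul_le_mul_of_nonneg_left h3 (mul_nonneg (mul_nonneg (hA i) (hA l)) (hA j))

/-- The general bound. -/
theorem base (s : ℕ) (c : Fin s → ℤ) (k : ℤ) (f : Fin s → ℕ → ℝ) (i l : Fin s) (n H : ℕ)
    (hs : 3 ≤ s) (hc : ∀ i, c i ≠ 0) (hf : ∀ i n, |f i n| ≤ 1) (hil : i ≠ l) (hH : 1 ≤ H)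
    (α G : ℝ) (hα : 0 ≤ α) (hG : 0 ≤ G)
    (hcase : ∀ (Q : ℕ) [NeZero Q], ∀ t : ZMod Q,
      ‖S Q (f i) n H ((c i : ZMod Q) * t)‖ ≤ α ∨ ‖S Q (f l) n H ((c l : ZMod Q) * t)‖ ≤ G) :
    |JJ f c k n H| ≤ (α + G) / H := by
  classical
  obtain ⟨Q, hQM, hQ⟩ := Nat.exists_infinite_primes
    ((∑ i, (c i).natAbs) * H + k.natAbs + (∑ i, (c i).natAbs) + H + 1)
  have : Fact Q.Prime := ⟨hQ⟩
  have : NeZero Q := ⟨hQ.ne_zero⟩
  have hHQ : H < Q := by omega
  have hunit : ∀ i, ((c i : ℤ) : ZMod Q) ≠ 0 := by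
    intro i h
    rw [ZMod.intCast_zmod_eq_zero_iff_dvd] at h
    have h1 := Int.natAbs_dvd_natAbs.2 h
    rw [Int.natAbs_natCast] at h1
    have h2 := Nat.le_of_dvd (Int.natAbs_pos.2 (hc i)) h1
    have h3 : (c i).natAbs ≤ ∑ i, (c i).natAbs :=
      single_le_sum (f := fun i => (c i).natAbs) (fun _ _ => Nat.zero_le _) (mem_univ i)
    omega
  have hHr : (0 : ℝ) < H := by exact_mod_cast hH
  have hQr : (0 : ℝ) < Q := by exact_mod_cast hQ.pos
  obtain ⟨j, hji, hjl⟩ : ∃ j : Fin s, j ≠ i ∧ j ≠ l := by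
    by_contra hne
    push Not at hne
    have h1 : (univ : Finset (Fin s)) ⊆ {i, l} := by
      intro j _
      rw [mem_insert, mem_singleton]
      by_cases h : j = i
      · exact Or.inl h
      · exact Or.inr (hne j h)
    have h2 := card_le_card h1
    rw [card_univ, Fintype.card_fin] at h2
    have h3 := card_le_two (a := i) (b := l)
    omega
  obtain ⟨A, hAd⟩ : ∃ A : Fin s → ZMod Q → ℝ, A = fun m t =>
    ‖S Q (f m) n H ((c m : ZMod Q) * t)‖ := ⟨_, rfl⟩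
  have hA0 : ∀ m t, 0 ≤ A m t := fun m t => by rw [hAd]; exact norm_nonneg _
  have hAH : ∀ m t, A m t ≤ H := fun m t => by
    rw [hAd]; exact (rowB1 (f m) n H Q (hf m) hH hHQ).2.2.1 _
  have hAA : ∀ a b, ∑ t : ZMod Q, A a t * A b t ≤ Q * H := by
    intro a b
    rw [hAd]
    exact av_two (f a) (f b) (hf a) (hf b) Q hQ n H (c a) (c b) (hunit a) (hunit b) hH hHQ
  have hpt : ∀ t, ∏ m, A m t ≤ (α * (A l t * A j t) + G * (A i t * A j t)) * (H : ℝ) ^ (s - 3) := by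
    intro t
    refine (prod_three (fun m => A m t) H (fun m => hA0 m t) (fun m => hAH m t) i l j hil hji
      hjl).trans ?_
    refine mul_le_mul_of_nonneg_right ?_ (by positivity)
    have h1 := hA0 i t
    have h2 := hA0 l t
    have h3 := hA0 j t
    have h4 : 0 ≤ A l t * A j t := mul_nonneg h2 h3
    have h5 : 0 ≤ A i t * A j t := mul_nonneg h1 h3
    rcases hcase Q t with h | h
    · have h6 : A i t ≤ α := by rw [hAd]; exact h
      have h7 : A i t * (A l t * A j t) ≤ α * (A l t * A j t) := mul_le_mul_of_nonneg_right h6 h4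
      have h8 : 0 ≤ G * (A i t * A j t) := mul_nonneg hG h5
      linarith
    · have h6 : A l t ≤ G := by rw [hAd]; exact h
      have h7 : A l t * (A i t * A j t) ≤ G * (A i t * A j t) := mul_le_mul_of_nonneg_right h6 h5
      have h8 : 0 ≤ α * (A l t * A j t) := mul_nonneg hα h4
      linarith
  have hsum : ∑ t : ZMod Q, ∏ m, A m t ≤ (α + G) * (Q * H) * (H : ℝ) ^ (s - 3) := by
    refine (sum_le_sum fun t _ => hpt t).trans ?_
    rw [← sum_mul]
    refine mul_le_mul_of_nonneg_right ?_ (by positivity)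
    rw [sum_add_distrib, ← mul_sum, ← mul_sum]
    have h1 := mul_le_mul_of_nonneg_left (hAA l j) hα
    have h2 := mul_le_mul_of_nonneg_left (hAA i j) hG
    linarith
  have hid := ortho s c k f n H Q (by omega)
  have hnorm : |∑ h ∈ Sol c k H, ∏ i, f i (n + h i)| ≤ (∑ t : ZMod Q, ∏ m, A m t) / Q := by
    have e1 : |∑ h ∈ Sol c k H, ∏ i, f i (n + h i)| =
        ‖((∑ h ∈ Sol c k H, ∏ i, f i (n + h i) : ℝ) : ℂ)‖ := by
      rw [Complex.norm_real, Real.norm_eq_abs]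
    rw [e1, ← hid, norm_div, Complex.norm_natCast]
    refine div_le_div_of_nonneg_right ?_ hQr.le
    refine (norm_sum_le _ _).trans (sum_le_sum fun t _ => ?_)
    rw [norm_mul, AddChar.norm_apply, one_mul, norm_prod, hAd]
  obtain ⟨r, rfl⟩ : ∃ r, s = r + 3 := ⟨s - 3, by omega⟩
  have e1 : r + 3 - 3 = r := by omega
  have e2 : r + 3 - 1 = r + 2 := by omega
  unfold JJ
  rw [abs_div, abs_of_nonneg (by positivity : (0 : ℝ) ≤ (H : ℝ) ^ (r + 3 - 1)), e2,
    div_le_iff₀ (by positivity)]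
  refine hnorm.trans ?_
  rw [div_le_iff₀ hQr]
  refine hsum.trans (le_of_eq ?_)
  rw [e1]
  field_simp
  ring

/-- The window sum of the indicator of a residue class. -/
lemma ind_bound (q : ℕ) (hq : 1 ≤ q) (n H : ℕ) (y : ℝ) :
    ‖∑ h ∈ Icc 1 H, WC86.lin y (n + h) * (((if q ∣ n + h then 1 else 0 : ℝ)) : ℂ)‖ *
      (4 * nd ((q : ℝ) * y)) ≤ 2 := by
  have h1 : ∑ h ∈ Icc 1 H, WC86.lin y (n + h) * (((if q ∣ n + h then 1 else 0 : ℝ)) : ℂ) =
      ∑ m ∈ Ioc (n / q) ((n + H) / q), ee ((m : ℝ) * ((q : ℝ) * y)) := by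
    have h2 : ∑ h ∈ Icc 1 H, WC86.lin y (n + h) * (((if q ∣ n + h then 1 else 0 : ℝ)) : ℂ) =
        ∑ h ∈ (Icc 1 H).filter (fun h => q ∣ n + h), WC86.lin y (n + h) := by
      rw [sum_filter]
      refine sum_congr rfl fun h _ => ?_
      split_ifs <;> simp
    rw [h2]
    refine sum_nbij' (fun h => (n + h) / q) (fun m => q * m - n) ?_ ?_ ?_ ?_ ?_
    · intro h hh
      rw [mem_filter, mem_Icc] at hh
      obtain ⟨⟨ha, hb⟩, w, hw⟩ := hh
      rw [mem_Ioc, hw, Nat.mul_div_cancel_left w hq]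
      constructor
      · rw [Nat.div_lt_iff_lt_mul hq, mul_comm, ← hw]
        omega
      · rw [Nat.le_div_iff_mul_le hq, mul_comm, ← hw]
        omega
    · intro m hm
      rw [mem_Ioc] at hm
      have h3 : n < q * m := by
        have := (Nat.div_lt_iff_lt_mul hq).1 hm.1
        rwa [mul_comm] at this
      have h4 : q * m ≤ n + H := by
        have := (Nat.le_div_iff_mul_le hq).1 hm.2
        rwa [mul_comm] at this
      rw [mem_filter, mem_Icc]
      refine ⟨⟨by omega, by omega⟩, ?_⟩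
      have : n + (q * m - n) = q * m := by omega
      rw [this]
      exact Nat.dvd_mul_right q m
    · intro h hh
      rw [mem_filter, mem_Icc] at hh
      obtain ⟨⟨ha, hb⟩, w, hw⟩ := hh
      rw [hw, Nat.mul_div_cancel_left w hq]
      omega
    · intro m hm
      rw [mem_Ioc] at hm
      have h3 : n < q * m := by
        have := (Nat.div_lt_iff_lt_mul hq).1 hm.1
        rwa [mul_comm] at this
      have : n + (q * m - n) = q * m := by omega
      rw [this, Nat.mul_div_cancel_left m hq]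
    · intro h hh
      rw [mem_filter, mem_Icc] at hh
      obtain ⟨⟨ha, hb⟩, w, hw⟩ := hh
      rw [hw, Nat.mul_div_cancel_left w hq]
      unfold WC86.lin
      congr 1
      push_cast
      ring
  have h2 : ∑ m ∈ Ioc (n / q) ((n + H) / q), ee ((m : ℝ) * ((q : ℝ) * y)) =
      ee ((((n / q + 1 : ℕ) : ℝ)) * ((q : ℝ) * y)) *
        ∑ j ∈ range ((n + H) / q + 1 - (n / q + 1)), ee ((j : ℝ) * ((q : ℝ) * y)) := by
    have e : Ioc (n / q) ((n + H) / q) = Ico (n / q + 1) ((n + H) / q + 1) := by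
      ext x
      rw [mem_Ioc, mem_Ico]
      omega
    rw [e, sum_Ico_eq_sum_range, mul_sum]
    refine sum_congr rfl fun j _ => ?_
    rw [← ee_add]
    congr 1
    push_cast
    ring
  rw [h1, h2, norm_mul, norm_ee, one_mul]
  exact norm_geom_le _ _

lemma LA_le (N : ℕ) (g g' : ℕ → ℝ) (h : ∀ n, |g n| ≤ g' n) : |LA N g| ≤ LA N g' := by
  have hl : 0 ≤ Real.log N := Real.log_natCast_nonneg N
  unfold LA
  rw [abs_div, abs_of_nonneg hl]
  refine div_le_div_of_nonneg_right ?_ hl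
  refine (abs_sum_le_sum_abs _ _).trans (sum_le_sum fun n _ => ?_)
  rw [abs_mul, abs_of_nonneg (by positivity)]
  exact mul_le_mul_of_nonneg_left (h n) (by positivity)

lemma muR_coe (n : ℕ) : ((muR n : ℝ) : ℂ) = WC86.mu n := by
  unfold muR WC86.mu
  push_cast
  rfl

lemma abs_muR (n : ℕ) : |muR n| ≤ 1 := by
  unfold muR
  exact_mod_cast ArithmeticFunction.abs_moebius_le_one

/-- The sum of the window of `μ` at a frequency in a set. -/
lemma S_mu (A : Set ℝ) (Q : ℕ) [NeZero Q] (n H : ℕ) (m : ℤ) (t : ZMod Q)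
    (h : (m : ℝ) * ((t.val : ℝ) / Q) ∈ A) :
    ‖S Q muR n H ((m : ZMod Q) * t)‖ ≤ GS WC86.lin WC86.mu A H n := by
  rw [norm_S]
  have e : ∑ h ∈ Icc 1 H, WC86.lin ((m : ℝ) * ((t.val : ℝ) / Q)) (n + h) * (muR (n + h) : ℂ) =
      ∑ h ∈ Icc 1 H, WC86.lin ((m : ℝ) * ((t.val : ℝ) / Q)) (n + h) * WC86.mu (n + h) :=
    sum_congr rfl fun h _ => by rw [muR_coe]
  rw [e]
  exact ws_le_GS WC86.lin WC86.mu WC86.Maj2.norm_lin WC86.Maj2.norm_mu_le A H n _ h

/-- The bound at `n`. -/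
theorem point (s : ℕ) (c : Fin s → ℤ) (k : ℤ) (f : Fin s → ℕ → ℝ) (i l : Fin s) (q n H : ℕ)
    (R d : ℝ) (hs : 3 ≤ s) (hc : ∀ i, c i ≠ 0) (hf : ∀ i n, |f i n| ≤ 1) (hil : i ≠ l)
    (hq : 1 ≤ q) (hH : 1 ≤ H) (hR : 0 < R) (hd : |(c l : ℝ)| * R < d * H)
    (hl : f l = muR) (hi : f i = fun n => if q ∣ n then 1 else 0) :
    |JJ f c k n H| ≤
      1 / (2 * R) + GS WC86.lin WC86.mu (WC86.Maj ((q * (c i).natAbs : ℕ) : ℝ) d) H n / H := by
  have hHr : (0 : ℝ) < H := by exact_mod_cast hH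
  obtain ⟨G, hG⟩ : ∃ G, G = GS WC86.lin WC86.mu (WC86.Maj ((q * (c i).natAbs : ℕ) : ℝ) d) H n :=
    ⟨_, rfl⟩
  have hG0 : 0 ≤ G := by rw [hG]; exact GS_nonneg _ _ _ _ _
  have h1 := base s c k f i l n H hs hc hf hil hH (H / (2 * R)) G (by positivity) hG0 ?_
  · rw [← hG]
    refine h1.trans (le_of_eq ?_)
    field_simp
  intro Q _ t
  rcases le_or_gt (nd ((q : ℝ) * ((c i : ℝ) * ((t.val : ℝ) / Q)))) (R / H) with h | h
  · right
    rw [hl, hG]
    apply S_mu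
    obtain ⟨b, hb⟩ := nd_exists ((q : ℝ) * ((c i : ℝ) * ((t.val : ℝ) / Q)))
    rw [hb] at h
    have hci : 1 ≤ (c i).natAbs := Int.natAbs_pos.2 (hc i)
    have hcl : 0 < |(c l : ℝ)| := abs_pos.2 (by exact_mod_cast hc l)
    have hkey : |(q : ℝ) * (c i) * ((c l : ℝ) * ((t.val : ℝ) / Q)) - (c l * b : ℤ)| < d := by
      have e : (q : ℝ) * (c i) * ((c l : ℝ) * ((t.val : ℝ) / Q)) - (c l * b : ℤ) =
          (c l : ℝ) * ((q : ℝ) * ((c i : ℝ) * ((t.val : ℝ) / Q)) - b) := by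
        push_cast
        ring
      rw [e, abs_mul]
      have h2 : |(c l : ℝ)| * |(q : ℝ) * ((c i : ℝ) * ((t.val : ℝ) / Q)) - b| ≤
          |(c l : ℝ)| * (R / H) := mul_le_mul_of_nonneg_left h hcl.le
      refine h2.trans_lt ?_
      rw [mul_div_assoc', div_lt_iff₀ hHr]
      exact hd
    refine ⟨q * (c i).natAbs, Nat.mul_pos hq hci, le_rfl, ?_⟩
    rcases le_total 0 (c i) with h0 | h0
    · refine ⟨c l * b, ?_⟩
      have e : ((q * (c i).natAbs : ℕ) : ℝ) = (q : ℝ) * (c i) := by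
        rw [Nat.cast_mul, Nat.cast_natAbs, abs_of_nonneg h0]
      rw [e]
      exact hkey
    · refine ⟨-(c l * b), ?_⟩
      have e : ((q * (c i).natAbs : ℕ) : ℝ) = -((q : ℝ) * (c i)) := by
        rw [Nat.cast_mul, Nat.cast_natAbs, abs_of_nonpos h0]
        push_cast
        ring
      have e2 : ((q * (c i).natAbs : ℕ) : ℝ) * ((c l : ℝ) * ((t.val : ℝ) / Q)) -
          ((-(c l * b) : ℤ) : ℝ) =
          -((q : ℝ) * (c i) * ((c l : ℝ) * ((t.val : ℝ) / Q)) - (c l * b : ℤ)) := by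
        rw [e]
        push_cast
        ring
      rw [e2, abs_neg]
      exact hkey
  · left
    rw [norm_S, hi]
    have h2 := ind_bound q hq n H ((c i : ℝ) * ((t.val : ℝ) / Q))
    have hRH : 0 < R / H := by positivity
    have h3 : ‖∑ h ∈ Icc 1 H, WC86.lin ((c i : ℝ) * ((t.val : ℝ) / Q)) (n + h) *
        (((if q ∣ n + h then 1 else 0 : ℝ)) : ℂ)‖ * (4 * (R / H)) ≤ 2 := by
      refine le_trans ?_ h2
      refine mul_le_mul_of_nonneg_left ?_ (norm_nonneg _)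
      linarith
    rw [le_div_iff₀ (by positivity)]
    have h4 : ‖∑ h ∈ Icc 1 H, WC86.lin ((c i : ℝ) * ((t.val : ℝ) / Q)) (n + h) *
        (((if q ∣ n + h then 1 else 0 : ℝ)) : ℂ)‖ * (4 * R) ≤ 2 * H := by
      have := mul_le_mul_of_nonneg_right h3 hHr.le
      have e : ‖∑ h ∈ Icc 1 H, WC86.lin ((c i : ℝ) * ((t.val : ℝ) / Q)) (n + h) *
        (((if q ∣ n + h then 1 else 0 : ℝ)) : ℂ)‖ * (4 * (R / H)) * H =
        ‖∑ h ∈ Icc 1 H, WC86.lin ((c i : ℝ) * ((t.val : ℝ) / Q)) (n + h) *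
        (((if q ∣ n + h then 1 else 0 : ℝ)) : ℂ)‖ * (4 * R) := by
        field_simp
      rw [e] at this
      exact this
    linarith

end X1

open X1

theorem rowX1 : X1_stmt := by
  intro s c k i l q ε hs hc hil hq hε
  obtain ⟨d, hd0, _, H₁, hH₁⟩ := (WC86.major WC86.muAP_top) (ε / 2)
    ((q * (c i).natAbs : ℕ) : ℝ) (by positivity)
  obtain ⟨R, hR⟩ : ∃ R, R = 3 / ε := ⟨_, rfl⟩
  have hR0 : 0 < R := by rw [hR]; positivity
  obtain ⟨H₂, hH₂⟩ := exists_nat_gt (|(c l : ℝ)| * R / d)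
  refine ⟨max H₁ H₂ + 1, fun H N hH hHN f hf hl hi => ?_⟩
  have hH1 : 1 ≤ H := by omega
  have hHr : (0 : ℝ) < H := by exact_mod_cast hH1
  have hlN : 0 ≤ Real.log N := Real.log_natCast_nonneg N
  have hHd : |(c l : ℝ)| * R < d * H := by
    rw [div_lt_iff₀ hd0] at hH₂
    have h1 : (H₂ : ℝ) ≤ H := by
      have : H₂ ≤ H := by omega
      exact_mod_cast this
    nlinarith
  obtain ⟨G, hG⟩ : ∃ G : ℕ → ℝ, G = fun n =>
    GS WC86.lin WC86.mu (WC86.Maj ((q * (c i).natAbs : ℕ) : ℝ) d) H n := ⟨_, rfl⟩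
  have hpt : ∀ n, |JJ f c k n H| ≤ 1 / (2 * R) + G n / H := fun n => by
    rw [hG]; exact point s c k f i l q n H R d hs hc hf hil hq hH1 hR0 hHd hl hi
  refine (LA_le N _ _ hpt).trans ?_
  have h2 : LA N (fun n => 1 / (2 * R) + G n / H) =
      LA N (fun _ => 1 / (2 * R)) + 1 / H * LA N G := by
    unfold LA
    rw [mul_div_assoc', ← add_div]
    congr 1
    rw [mul_sum, ← sum_add_distrib]
    refine sum_congr rfl fun n _ => by ring
  rw [h2]
  have h3 : LA N (fun _ => 1 / (2 * R)) ≤ 3 * (1 / (2 * R)) :=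
    (le_abs_self _).trans (rowD.1 N (fun _ => 1 / (2 * R)) (1 / (2 * R))
      fun _ => (abs_of_pos (by positivity)).le)
  have h4 : LA N G ≤ (ε / 2) * H := by
    unfold LA
    refine div_le_of_le_mul₀ hlN (by positivity) ?_
    have h5 := hH₁ H N (by omega) hHN
    rw [hG]
    refine h5.trans (le_of_eq ?_)
    ring
  have h5 : 1 / H * LA N G ≤ ε / 2 := by
    calc 1 / H * LA N G ≤ 1 / H * ((ε / 2) * H) :=
          mul_le_mul_of_nonneg_left h4 (by positivity)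
      _ = ε / 2 := by field_simp
  have h6 : 3 * (1 / (2 * R)) = ε / 2 := by
    rw [hR]
    field_simp
  linarith

end Pool.Agent.C4
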