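import Mathlib
import Pool.Agent.Lib.C4.Defs
import Pool.Agent.Lib.WC86.Sqrt
import Pool.Agent.Lib.WC86.Short
import Pool.Agent.Lib.WC86.Major
import Pool.Agent.Lib.MP_663568_dch.Law
import Pool.Agent.Lib.MP_663568_h6.UpQ

/-!
# Row W1: the frequencies in a set

helper71.
-/

set_option autoImplicit false
open Finset

namespace Pool.Agent.C4

open Pool.Agent.Lib.MP_663568_nt Pool.Agent.Lib.MP_663568_nt.Katai
  Pool.Agent.Lib.MP_663568_nt.H6 Pool.Agent.Lib.MP_663568_nt.Nul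

namespace W1

/-- The number of the `d > D` with `d ^ 2` dividing `m`. -/
noncomputable def T (D m : ℕ) : ℝ := ∑ d ∈ Ioc D m, if d ^ 2 ∣ m then 1 else 0

lemma T_nonneg (D m : ℕ) : 0 ≤ T D m := sum_nonneg fun d _ => by split_ifs <;> norm_num

lemma norm_lamC (n : ℕ) : ‖lamC n‖ ≤ 1 := by
  unfold lamC lam
  rw [Complex.norm_real, norm_pow, norm_neg, norm_one, one_pow]

lemma decomp (hW0 : W0_stmt) (D m : ℕ) (hm : 1 ≤ m) :
    ‖lamC m - ∑ d ∈ Icc 1 D, (if d ^ 2 ∣ m then WC86.mu (m / d ^ 2) else 0)‖ ≤ T D m := by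
  have e1 : ∀ t : ℕ, Icc 1 t = Ioc 0 t := by
    intro t; ext x; rw [mem_Icc, mem_Ioc]; omega
  rw [hW0 m hm (max D m) (le_max_right _ _), e1, e1,
    ← sum_Ioc_consecutive _ (Nat.zero_le D) (le_max_left D m), add_sub_cancel_left]
  refine (norm_sum_le _ _).trans ?_
  rcases le_total m D with h | h
  · rw [max_eq_left h, Ioc_self, sum_empty]
    exact T_nonneg _ _
  · rw [max_eq_right h]
    refine sum_le_sum fun d _ => ?_
    split_ifs
    · exact WC86.norm_mu_le _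
    · simp

lemma piece (a : ℝ) (d n H : ℕ) (hd : 1 ≤ d) (S : Set ℝ) (hS : (d : ℝ) ^ 2 * a ∈ S) :
    ‖∑ m ∈ Ioc n (n + H), WC86.lin a m * (if d ^ 2 ∣ m then WC86.mu (m / d ^ 2) else 0)‖ ≤
      GS WC86.lin WC86.mu S (H / d ^ 2) (n / d ^ 2) + 1 := by
  have hq : 0 < d ^ 2 := by positivity
  obtain ⟨q, hq'⟩ : ∃ q : ℕ, q = d ^ 2 := ⟨_, rfl⟩
  rw [← hq'] at hq ⊢
  have e1 : ∑ m ∈ Ioc n (n + H), WC86.lin a m * (if q ∣ m then WC86.mu (m / q) else 0) =
      ∑ j ∈ Ioc (n / q) ((n + H) / q), WC86.lin ((d : ℝ) ^ 2 * a) j * WC86.mu j := by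
    rw [← show ∑ m ∈ Ioc n (n + H), (if q ∣ m then WC86.lin a m * WC86.mu (m / q) else 0) =
      ∑ m ∈ Ioc n (n + H), WC86.lin a m * (if q ∣ m then WC86.mu (m / q) else 0) from
      sum_congr rfl fun m _ => by split_ifs <;> simp]
    rw [dilate (fun m => WC86.lin a m * WC86.mu (m / q)) q hq n H]
    refine sum_congr rfl fun j _ => ?_
    rw [Nat.mul_div_cancel_left _ hq]
    congr 1
    unfold WC86.lin
    congr 1
    rw [hq']
    push_cast
    ring
  rw [e1]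
  have hn := Nat.div_add_mod n q
  have hm := Nat.mod_lt n hq
  have hH := Nat.div_add_mod H q
  have hHm := Nat.mod_lt H hq
  have hnH := Nat.div_add_mod (n + H) q
  have hmH := Nat.mod_lt (n + H) hq
  have h1 : n / q + H / q ≤ (n + H) / q := by
    rw [Nat.le_div_iff_mul_le hq, show (n / q + H / q) * q = q * (n / q) + q * (H / q) by ring]
    omega
  have h2 : (n + H) / q ≤ n / q + H / q + 1 := by
    have : (n + H) / q < n / q + H / q + 2 := by
      rw [Nat.div_lt_iff_lt_mul hq,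
        show (n / q + H / q + 2) * q = q * (n / q) + q * (H / q) + 2 * q by ring]
      omega
    omega
  rw [← sum_Ioc_consecutive _ (Nat.le_add_right (n / q) (H / q)) h1]
  refine (norm_add_le _ _).trans (add_le_add ?_ ?_)
  · have h3 := ws_le_GS WC86.lin WC86.mu WC86.norm_lin_le WC86.norm_mu_le S (H / q) (n / q) _ hS
    unfold ws at h3
    rw [icc_ioc (fun m => WC86.lin ((d : ℝ) ^ 2 * a) m * WC86.mu m)] at h3
    exact h3
  · refine (norm_sum_le _ _).trans ?_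
    calc ∑ m ∈ Ioc (n / q + H / q) ((n + H) / q), ‖WC86.lin ((d : ℝ) ^ 2 * a) m * WC86.mu m‖
        ≤ ∑ m ∈ Ioc (n / q + H / q) ((n + H) / q), (1 : ℝ) := by
          refine sum_le_sum fun m _ => ?_
          rw [norm_mul]
          exact mul_le_one₀ (WC86.norm_lin_le _ _) (norm_nonneg _) (WC86.norm_mu_le _)
      _ = (((n + H) / q - (n / q + H / q) : ℕ) : ℝ) := by simp
      _ ≤ 1 := by
          have : (n + H) / q - (n / q + H / q) ≤ 1 := by omega
          exact_mod_cast this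

/-- The set of the frequencies multiplied by `d ^ 2`. -/
def mul2 (A : Set ℝ) (d : ℕ) : Set ℝ := {x | ∃ a ∈ A, x = (d : ℝ) ^ 2 * a}

lemma window (hW0 : W0_stmt) (A : Set ℝ) (D H n : ℕ) :
    GS WC86.lin lamC A H n ≤ ∑ d ∈ Icc 1 D, (GS WC86.lin WC86.mu (WC86.InM (mul2 A d)) (H / d ^ 2)
      (n / d ^ 2) + 1) + ∑ m ∈ Ioc n (n + H), T D m := by
  have h0 : 0 ≤ ∑ d ∈ Icc 1 D, (GS WC86.lin WC86.mu (WC86.InM (mul2 A d)) (H / d ^ 2)
      (n / d ^ 2) + 1) := sum_nonneg fun d _ => by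
    have := GS_nonneg WC86.lin WC86.mu (WC86.InM (mul2 A d)) (H / d ^ 2) (n / d ^ 2)
    linarith
  have h1 : 0 ≤ ∑ m ∈ Ioc n (n + H), T D m := sum_nonneg fun m _ => T_nonneg _ _
  unfold GS GG
  refine Real.iSup_le (fun y => ?_) (add_nonneg h0 h1)
  obtain ⟨a, ha⟩ := y
  change ‖∑ h ∈ Icc 1 H, WC86.lin a (n + h) * lamC (n + h)‖ ≤ _
  rw [icc_ioc (fun m => WC86.lin a m * lamC m)]
  have e : ∑ m ∈ Ioc n (n + H), WC86.lin a m * lamC m =
      ∑ d ∈ Icc 1 D, ∑ m ∈ Ioc n (n + H), WC86.lin a m *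
        (if d ^ 2 ∣ m then WC86.mu (m / d ^ 2) else 0) +
      ∑ m ∈ Ioc n (n + H), WC86.lin a m *
        (lamC m - ∑ d ∈ Icc 1 D, (if d ^ 2 ∣ m then WC86.mu (m / d ^ 2) else 0)) := by
    rw [sum_comm, ← sum_add_distrib]
    refine sum_congr rfl fun m _ => ?_
    rw [← mul_sum]
    ring
  rw [e]
  refine (norm_add_le _ _).trans (add_le_add ?_ ?_)
  · refine (norm_sum_le _ _).trans (sum_le_sum fun d hd => ?_)
    exact piece a d n H (mem_Icc.1 hd).1 _ ⟨0, ⟨a, ha, by simp⟩⟩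
  · refine (norm_sum_le _ _).trans (sum_le_sum fun m hm => ?_)
    rw [norm_mul]
    calc ‖WC86.lin a m‖ * _ ≤ 1 * _ := mul_le_mul_of_nonneg_right (WC86.norm_lin_le _ _)
          (norm_nonneg _)
      _ ≤ T D m := by
          rw [one_mul]
          exact decomp hW0 D m (by rw [mem_Ioc] at hm; omega)

lemma sum_div (g : ℕ → ℝ) (hg : ∀ m, 0 ≤ g m) (q H N : ℕ) (hq : 1 ≤ q) (hqH : q ≤ H) :
    ∑ n ∈ Ioc H N, (1 / (n : ℝ)) * g (n / q) ≤ ∑ m ∈ Icc 1 N, (1 / (m : ℝ)) * g m := by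
  have hmaps : ∀ n ∈ Ioc H N, n / q ∈ Icc 1 N := by
    intro n hn
    rw [mem_Ioc] at hn
    rw [mem_Icc]
    refine ⟨?_, (Nat.div_le_self _ _).trans hn.2⟩
    rw [Nat.le_div_iff_mul_le hq]
    omega
  rw [← sum_fiberwise_of_maps_to hmaps]
  refine sum_le_sum fun m hm => ?_
  rw [mem_Icc] at hm
  have hm0 : (0 : ℝ) < m := by exact_mod_cast hm.1
  have hq0 : (0 : ℝ) < q := by exact_mod_cast hq
  have h1 : ∀ n ∈ (Ioc H N).filter (fun n => n / q = m), (1 / (n : ℝ)) * g (n / q) ≤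
      (1 / ((q : ℝ) * m)) * g m := by
    intro n hn
    rw [mem_filter] at hn
    rw [hn.2]
    refine mul_le_mul_of_nonneg_right ?_ (hg m)
    apply one_div_le_one_div_of_le (by positivity)
    have : q * m ≤ n := by
      rw [← hn.2]; exact Nat.mul_div_le n q
    exact_mod_cast this
  have h2 : #((Ioc H N).filter (fun n => n / q = m)) ≤ q := by
    calc #((Ioc H N).filter (fun n => n / q = m)) ≤ #(Ico (q * m) (q * m + q)) := by
          refine card_le_card fun n hn => ?_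
          rw [mem_filter] at hn
          rw [mem_Ico]
          have h3 := Nat.div_add_mod n q
          have h4 := Nat.mod_lt n hq
          rw [hn.2] at h3
          omega
      _ = q := by simp
  calc _ ≤ ∑ n ∈ (Ioc H N).filter (fun n => n / q = m), (1 / ((q : ℝ) * m)) * g m :=
        sum_le_sum h1
    _ = (#((Ioc H N).filter (fun n => n / q = m)) : ℝ) * ((1 / ((q : ℝ) * m)) * g m) := by
        rw [sum_const, nsmul_eq_mul]
    _ ≤ (q : ℝ) * ((1 / ((q : ℝ) * m)) * g m) := by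
        have h3 : (#((Ioc H N).filter (fun n => n / q = m)) : ℝ) ≤ q := by exact_mod_cast h2
        have h4 := hg m
        gcongr
    _ = _ := by field_simp

lemma T_log (D M : ℕ) (hD : 1 ≤ D) :
    ∑ m ∈ Icc 1 M, (1 / (m : ℝ)) * T D m ≤ 1 / D * (1 + Real.log M) := by
  have hlog : 0 ≤ 1 + Real.log M := le_trans (sum_nonneg fun n _ => by positivity)
    (sum_inv_le_log M)
  have h1 : ∀ m ∈ Icc 1 M, (1 / (m : ℝ)) * T D m ≤
      ∑ d ∈ Ioc D M, if d ^ 2 ∣ m then 1 / (m : ℝ) else 0 := by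
    intro m hm
    rw [mem_Icc] at hm
    unfold T
    rw [mul_sum]
    calc ∑ d ∈ Ioc D m, (1 / (m : ℝ)) * (if d ^ 2 ∣ m then 1 else 0)
        = ∑ d ∈ Ioc D m, if d ^ 2 ∣ m then 1 / (m : ℝ) else 0 :=
          sum_congr rfl fun d _ => by split_ifs <;> simp
      _ ≤ _ := by
          apply sum_le_sum_of_subset_of_nonneg
          · intro d hd; rw [mem_Ioc] at hd ⊢; omega
          · intro d _ _; positivity
  refine (sum_le_sum h1).trans ?_
  rw [sum_comm]
  have h2 : ∀ d ∈ Ioc D M, ∑ m ∈ Icc 1 M, (if d ^ 2 ∣ m then 1 / (m : ℝ) else 0) ≤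
      ((d : ℝ) ^ 2)⁻¹ * (1 + Real.log M) := by
    intro d hd
    rw [mem_Ioc] at hd
    have hd0 : 0 < d := by omega
    have hq : 0 < d ^ 2 := by positivity
    have e := dilate (fun m : ℕ => 1 / (m : ℝ)) (d ^ 2) hq 0 M
    rw [Nat.zero_div, Nat.zero_add] at e
    have e1 : ∀ t : ℕ, Icc 1 t = Ioc 0 t := by
      intro t; ext x; rw [mem_Icc, mem_Ioc]; omega
    rw [e1, e]
    calc ∑ m ∈ Ioc 0 (M / d ^ 2), 1 / ((d ^ 2 * m : ℕ) : ℝ)
        = ((d : ℝ) ^ 2)⁻¹ * ∑ m ∈ Ioc 0 (M / d ^ 2), 1 / (m : ℝ) := by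
          rw [mul_sum]
          refine sum_congr rfl fun m _ => ?_
          push_cast
          rw [one_div, mul_inv, one_div]
      _ ≤ _ := by
          refine mul_le_mul_of_nonneg_left ?_ (by positivity)
          refine le_trans ?_ (sum_inv_le_log M)
          rw [e1]
          apply sum_le_sum_of_subset_of_nonneg
          · intro m hm
            rw [mem_Ioc] at hm ⊢
            exact ⟨hm.1, hm.2.trans (Nat.div_le_self _ _)⟩
          · intro m _ _; positivity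
  refine (sum_le_sum h2).trans ?_
  rw [← sum_mul]
  refine mul_le_mul_of_nonneg_right ?_ hlog
  rcases le_total D M with h | h
  · have h3 := sum_Ioc_inv_sq_le_sub (α := ℝ) (k := D) (n := M) (by omega) h
    have h4 : (0 : ℝ) ≤ (M : ℝ)⁻¹ := by positivity
    rw [one_div]
    linarith
  · rw [Ioc_eq_empty (by omega), sum_empty]
    positivity

lemma tail (D H N : ℕ) (hD : 1 ≤ D) (hHN : H ≤ N) :
    ∑ n ∈ Ioc H N, (1 / (n : ℝ)) * ∑ m ∈ Ioc n (n + H), T D m ≤
      2 * H / D * (1 + Real.log (2 * N)) := by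
  have h1 : ∀ n ∈ Ioc H N, (1 / (n : ℝ)) * ∑ m ∈ Ioc n (n + H), T D m ≤
      ∑ h ∈ Icc 1 H, 2 * ((1 / ((n + h : ℕ) : ℝ)) * T D (n + h)) := by
    intro n hn
    rw [mem_Ioc] at hn
    rw [← icc_ioc (fun m => T D m), mul_sum]
    refine sum_le_sum fun h hh => ?_
    rw [mem_Icc] at hh
    rw [← mul_assoc]
    refine mul_le_mul_of_nonneg_right ?_ (T_nonneg _ _)
    have hn0 : (0 : ℝ) < n := by
      have : 0 < n := by omega
      exact_mod_cast this
    have h3 : (0 : ℝ) < ((n + h : ℕ) : ℝ) := by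
      have : 0 < n + h := by omega
      exact_mod_cast this
    rw [mul_one_div, div_le_div_iff₀ hn0 h3]
    have h2 : ((n + h : ℕ) : ℝ) ≤ 2 * n := by
      have : n + h ≤ 2 * n := by omega
      exact_mod_cast this
    linarith
  refine (sum_le_sum h1).trans ?_
  rw [sum_comm]
  have h2 : ∀ h ∈ Icc 1 H, ∑ n ∈ Ioc H N, 2 * ((1 / ((n + h : ℕ) : ℝ)) * T D (n + h)) ≤
      2 * (1 / D * (1 + Real.log (2 * N))) := by
    intro h hh
    rw [mem_Icc] at hh
    rw [← mul_sum]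
    refine mul_le_mul_of_nonneg_left ?_ (by norm_num)
    have h3 := shift_sum (fun m : ℕ => (1 / (m : ℝ)) * T D m)
      (fun m => mul_nonneg (by positivity) (T_nonneg _ _)) (H + 1) N h (2 * N) (by omega) (by omega)
    have h4 := T_log D (2 * N) hD
    have e : Ioc H N = Icc (H + 1) N := by
      ext x; rw [mem_Ioc, mem_Icc]; omega
    rw [e]
    push_cast at h4
    exact h3.trans h4
  refine (sum_le_sum h2).trans ?_
  rw [sum_const, Nat.card_Icc, Nat.add_sub_cancel, nsmul_eq_mul]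
  apply le_of_eq
  ring

lemma sum_sq_le (D : ℕ) : ∑ d ∈ Icc 1 D, (1 / (d : ℝ) ^ 2) ≤ 2 := by
  rcases Nat.eq_zero_or_pos D with h | h
  · subst h; simp
  · have e1 : Icc 1 D = Ioc 0 D := by
      ext x; rw [mem_Icc, mem_Ioc]; omega
    rw [e1, ← sum_Ioc_consecutive _ (Nat.zero_le 1) h]
    have h3 := sum_Ioc_inv_sq_le_sub (α := ℝ) (k := 1) (n := D) (by omega) h
    have h4 : (0 : ℝ) ≤ (D : ℝ)⁻¹ := by positivity
    simp only [one_div]
    have h5 : ∑ i ∈ Ioc (0 : ℕ) 1, ((i : ℝ) ^ 2)⁻¹ = 1 := by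
      rw [show Ioc (0 : ℕ) 1 = {1} from rfl]
      simp
    rw [h5]
    push_cast at h3
    linarith

lemma sqrt_bd (v : ℝ) : √(6 * v) / Real.pi ≤ √v := by
  have h1 : √6 ≤ Real.pi := by
    rw [Real.sqrt_le_left (by positivity)]
    nlinarith [Real.pi_gt_three]
  rw [Real.sqrt_mul (by norm_num), div_le_iff₀ Real.pi_pos, mul_comm]
  exact mul_le_mul_of_nonneg_left h1 (Real.sqrt_nonneg _)

end W1

open W1

theorem rowW1 (hW0 : W0_stmt) : W1_stmt := by
  intro δ hδ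
  obtain ⟨D, hD⟩ := exists_nat_ge (24 / δ + 1)
  obtain ⟨C, hC⟩ := exists_nat_ge (16 / δ + 1)
  have h24 : 0 < 24 / δ := by positivity
  have h16 : 0 < 16 / δ := by positivity
  have hD1 : 1 ≤ D := by
    have : (1 : ℝ) ≤ D := by linarith
    exact_mod_cast this
  have hC1 : 1 ≤ C := by
    have : (1 : ℝ) ≤ C := by linarith
    exact_mod_cast this
  have hDr : (0 : ℝ) < D := by exact_mod_cast hD1
  have hCr : (0 : ℝ) < C := by exact_mod_cast hC1
  refine ⟨D, C, fun R hR => ?_⟩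
  obtain ⟨H₁, hH₁⟩ := WC86.sqrtLaw Pool.Agent.Lib.MP_663568_dch.minorLaw
    (WC86.major WC86.muAP_top) (δ / 8) R (by positivity) hR
  obtain ⟨K, hK⟩ := exists_nat_ge (16 * D / δ)
  refine ⟨D ^ 2 * (H₁ + 1) + K + 3, fun H N hH hN A => ?_⟩
  have hD2 : 1 ≤ D ^ 2 := Nat.one_le_pow _ _ hD1
  have hH3 : 3 ≤ H := by omega
  have hHK : K ≤ H := by omega
  have hHD : D ^ 2 * (H₁ + 1) ≤ H := by omega
  have hHN : H ≤ N := (Nat.le_self_pow (by omega) H).trans hN
  have hN3 : 3 ≤ N := hH3.trans hHN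
  have hHr : (0 : ℝ) < H := by
    have : 0 < H := by omega
    exact_mod_cast this
  have hNr : (3 : ℝ) ≤ N := by exact_mod_cast hN3
  have hlH : 1 ≤ Real.log H := by
    rw [Real.le_log_iff_exp_le hHr]
    have h1 := Real.exp_one_lt_d9
    have h2 : (3 : ℝ) ≤ H := by exact_mod_cast hH3
    linarith
  have hlN : 1 ≤ Real.log N := by
    rw [Real.le_log_iff_exp_le (by linarith)]
    have h1 := Real.exp_one_lt_d9
    linarith
  have hCl : C * Real.log H ≤ Real.log N := by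
    rw [← Real.log_pow]
    apply Real.log_le_log (by positivity)
    exact_mod_cast hN
  have hl2 : Real.log (2 * N) ≤ 1 + Real.log N := by
    rw [Real.log_mul (by norm_num) (by linarith)]
    have := Real.log_two_lt_d9
    linarith
  obtain ⟨g, hg⟩ : ∃ g : ℕ → ℕ → ℝ, g = fun d m =>
    GS WC86.lin WC86.mu (WC86.InM (mul2 A d)) (H / d ^ 2) m := ⟨_, rfl⟩
  have hg0 : ∀ d m, 0 ≤ g d m := fun d m => by rw [hg]; exact GS_nonneg _ _ _ _ _
  -- small n
  have p1 : ∑ n ∈ Icc 1 H, (1 / (n : ℝ)) * GS WC86.lin lamC A H n ≤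
      δ / 8 * (H * Real.log N) := by
    calc ∑ n ∈ Icc 1 H, (1 / (n : ℝ)) * GS WC86.lin lamC A H n
        ≤ ∑ n ∈ Icc 1 H, (1 / (n : ℝ)) * H := by
          refine sum_le_sum fun n _ => mul_le_mul_of_nonneg_left ?_ (by positivity)
          exact GS_le _ _ WC86.norm_lin_le norm_lamC _ _ _
      _ ≤ (1 + Real.log H) * H := by
          rw [← sum_mul]
          exact mul_le_mul_of_nonneg_right (sum_inv_le_log H) hHr.le
      _ ≤ (2 / C * Real.log N) * H := by
          refine mul_le_mul_of_nonneg_right ?_ hHr.le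
          rw [div_mul_eq_mul_div, le_div_iff₀ hCr]
          nlinarith
      _ ≤ (δ / 8 * Real.log N) * H := by
          have h1 : 2 / (C : ℝ) ≤ δ / 8 := by
            rw [div_le_div_iff₀ hCr (by norm_num)]
            have h2 : 16 / δ ≤ C := by linarith
            rw [div_le_iff₀ hδ] at h2
            linarith
          have h2 : 0 ≤ Real.log N := by linarith
          gcongr
      _ = _ := by ring
  -- the terms d ≤ D
  have p2 : ∀ d ∈ Icc 1 D, ∑ n ∈ Ioc H N, (1 / (n : ℝ)) * g d (n / d ^ 2) ≤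
      (1 / (d : ℝ) ^ 2) * ((√(WC86.outer (mul2 A d) R) + δ / 8) * (H * Real.log N)) := by
    intro d hd
    rw [mem_Icc] at hd
    have hd2 : 1 ≤ d ^ 2 := Nat.one_le_pow _ _ hd.1
    have hdD : d ^ 2 ≤ D ^ 2 := Nat.pow_le_pow_left hd.2 2
    have hdH : d ^ 2 * (H₁ + 1) ≤ H := (Nat.mul_le_mul_right _ hdD).trans hHD
    have hdH' : d ^ 2 ≤ H := by nlinarith
    have hH' : H₁ ≤ H / d ^ 2 := by
      rw [Nat.le_div_iff_mul_le (by omega)]
      nlinarith
    have hHN' : H / d ^ 2 ≤ N := (Nat.div_le_self _ _).trans hHN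
    have h1 := sum_div (g d) (hg0 d) (d ^ 2) H N hd2 hdH'
    have h2 := hH₁ (H / d ^ 2) N hH' hHN' (mul2 A d)
    have h3 : ((H / d ^ 2 : ℕ) : ℝ) ≤ H / (d : ℝ) ^ 2 := by
      have := @Nat.cast_div_le ℝ _ _ _ H (d ^ 2)
      push_cast at this
      exact this
    have h4 : 0 ≤ √(WC86.outer (mul2 A d) R) := Real.sqrt_nonneg _
    have h5 : 0 ≤ Real.log N := by linarith
    rw [hg] at h1
    calc _ ≤ (√(6 * WC86.outer (mul2 A d) R) / Real.pi + δ / 8) * ((H / d ^ 2 : ℕ) : ℝ) *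
          Real.log N := by rw [hg]; exact h1.trans h2
      _ ≤ (√(WC86.outer (mul2 A d) R) + δ / 8) * (H / (d : ℝ) ^ 2) * Real.log N := by
          have h6 := sqrt_bd (WC86.outer (mul2 A d) R)
          gcongr
      _ = _ := by ring
  -- the errors 1
  have p3 : ∑ n ∈ Ioc H N, (1 / (n : ℝ)) * ((D : ℝ)) ≤ δ / 8 * (H * Real.log N) := by
    calc ∑ n ∈ Ioc H N, (1 / (n : ℝ)) * ((D : ℝ)) ≤ (1 + Real.log N) * D := by
          rw [← sum_mul]
          refine mul_le_mul_of_nonneg_right (le_trans ?_ (sum_inv_le_log N)) hDr.le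
          apply sum_le_sum_of_subset_of_nonneg
          · intro n hn; rw [mem_Ioc] at hn; rw [mem_Icc]; omega
          · intro n _ _; positivity
      _ ≤ (2 * Real.log N) * D := by
          refine mul_le_mul_of_nonneg_right ?_ hDr.le
          linarith
      _ ≤ δ / 8 * (H * Real.log N) := by
          have h1 : 16 * D / δ ≤ H := hK.trans (by exact_mod_cast hHK)
          rw [div_le_iff₀ hδ] at h1
          have h2 : 0 ≤ Real.log N := by linarith
          nlinarith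
  -- the tail
  have p4 : ∑ n ∈ Ioc H N, (1 / (n : ℝ)) * ∑ m ∈ Ioc n (n + H), T D m ≤
      δ / 4 * (H * Real.log N) := by
    refine (tail D H N hD1 hHN).trans ?_
    calc 2 * H / D * (1 + Real.log (2 * N)) ≤ 2 * H / D * (3 * Real.log N) := by
          refine mul_le_mul_of_nonneg_left ?_ (by positivity)
          linarith
      _ = (6 / D) * (H * Real.log N) := by ring
      _ ≤ δ / 4 * (H * Real.log N) := by
          have h1 : 6 / (D : ℝ) ≤ δ / 4 := by
            rw [div_le_div_iff₀ hDr (by norm_num)]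
            have h2 : 24 / δ ≤ D := by linarith
            rw [div_le_iff₀ hδ] at h2
            linarith
          have h2 : 0 ≤ Real.log N := by linarith
          gcongr
  have hsplit : ∑ n ∈ Icc 1 N, (1 / (n : ℝ)) * GS WC86.lin lamC A H n =
      ∑ n ∈ Icc 1 H, (1 / (n : ℝ)) * GS WC86.lin lamC A H n +
      ∑ n ∈ Ioc H N, (1 / (n : ℝ)) * GS WC86.lin lamC A H n := by
    have e1 : ∀ t : ℕ, Icc 1 t = Ioc 0 t := by
      intro t; ext x; rw [mem_Icc, mem_Ioc]; omega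
    rw [e1, e1, sum_Ioc_consecutive _ (Nat.zero_le H) hHN]
  have hbig : ∑ n ∈ Ioc H N, (1 / (n : ℝ)) * GS WC86.lin lamC A H n ≤
      ∑ d ∈ Icc 1 D, ∑ n ∈ Ioc H N, (1 / (n : ℝ)) * g d (n / d ^ 2) +
      ∑ n ∈ Ioc H N, (1 / (n : ℝ)) * ((D : ℝ)) +
      ∑ n ∈ Ioc H N, (1 / (n : ℝ)) * ∑ m ∈ Ioc n (n + H), T D m := by
    rw [sum_comm, ← sum_add_distrib, ← sum_add_distrib]
    refine sum_le_sum fun n _ => ?_
    rw [← mul_sum, ← mul_add, ← mul_add]
    refine mul_le_mul_of_nonneg_left ((window hW0 A D H n).trans ?_) (by positivity)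
    rw [sum_add_distrib, hg]
    simp
  have hsum : ∑ d ∈ Icc 1 D, ∑ n ∈ Ioc H N, (1 / (n : ℝ)) * g d (n / d ^ 2) ≤
      (∑ d ∈ Icc 1 D, (1 / (d : ℝ) ^ 2) * √(WC86.outer (mul2 A d) R)) * (H * Real.log N) +
      δ / 4 * (H * Real.log N) := by
    refine (sum_le_sum p2).trans ?_
    have e : ∑ d ∈ Icc 1 D, (1 / (d : ℝ) ^ 2) *
        ((√(WC86.outer (mul2 A d) R) + δ / 8) * (H * Real.log N)) =
        (∑ d ∈ Icc 1 D, (1 / (d : ℝ) ^ 2) * √(WC86.outer (mul2 A d) R)) * (H * Real.log N) +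
        (∑ d ∈ Icc 1 D, (1 / (d : ℝ) ^ 2)) * (δ / 8 * (H * Real.log N)) := by
      rw [sum_mul, sum_mul, ← sum_add_distrib]
      exact sum_congr rfl fun d _ => by ring
    rw [e]
    have h1 := sum_sq_le D
    have h2 : 0 ≤ δ / 8 * (H * Real.log N) := by positivity
    nlinarith
  have hfin : ∑ d ∈ Icc 1 D, (1 / (d : ℝ) ^ 2) *
      √(WC86.outer {x | ∃ a ∈ A, x = (d : ℝ) ^ 2 * a} R) =
      ∑ d ∈ Icc 1 D, (1 / (d : ℝ) ^ 2) * √(WC86.outer (mul2 A d) R) := rfl
  rw [hfin, hsplit]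
  have h0 : 0 ≤ δ * (H * Real.log N) := by positivity
  have e : (∑ d ∈ Icc 1 D, (1 / (d : ℝ) ^ 2) * √(WC86.outer (mul2 A d) R) + δ) * H *
      Real.log N = (∑ d ∈ Icc 1 D, (1 / (d : ℝ) ^ 2) * √(WC86.outer (mul2 A d) R)) *
      (H * Real.log N) + δ * (H * Real.log N) := by ring
  rw [e]
  linarith

end Pool.Agent.C4
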