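import Mathlib
import Pool.Agent.Lib.C4.Defs2
import Pool.Agent.Lib.C4.A2
import Pool.Agent.Lib.C4.W1

/-!
# Row X2: one of the functions is `μ²`, one is `μ`

helper15.
-/

set_option autoImplicit false
open Finset

namespace Pool.Agent.C4

open Pool.Agent.Lib.MP_663568_nt Pool.Agent.Lib.MP_663568_nt.Katai
  Pool.Agent.Lib.MP_663568_nt.H6 Pool.Agent.Lib.MP_663568_nt.Nul

namespace X2

lemma abs_muR (n : ℕ) : |muR n| ≤ 1 := by
  unfold muR
  exact_mod_cast ArithmeticFunction.abs_moebius_le_one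

lemma sq_dvd {a b d : ℕ} (ha : Squarefree a) (hb : b ≠ 0) : d ^ 2 ∣ b ^ 2 * a ↔ d ∣ b := by
  constructor
  · intro h
    have hd : d ≠ 0 := by
      rintro rfl
      rw [zero_pow (by norm_num), zero_dvd_iff] at h
      exact mul_ne_zero (pow_ne_zero 2 hb) ha.ne_zero h
    rw [← Nat.factorization_le_iff_dvd hd hb]
    rw [← Nat.factorization_le_iff_dvd (pow_ne_zero 2 hd) (mul_ne_zero (pow_ne_zero 2 hb)
      ha.ne_zero)] at h
    intro p
    have h1 := h p
    simp only [Nat.factorization_mul (pow_ne_zero 2 hb) ha.ne_zero, Nat.factorization_pow,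
      Finsupp.add_apply, Finsupp.smul_apply, smul_eq_mul] at h1
    have h2 := Squarefree.natFactorization_le_one p ha
    omega
  · intro h
    exact Dvd.dvd.mul_right (pow_dvd_pow_of_dvd h 2) a

/-- The square of the Moebius function is a sum over the square divisors. -/
lemma sq_sum (m M : ℕ) (hm : 1 ≤ m) (hM : m ≤ M) :
    muR m ^ 2 = ∑ d ∈ Icc 1 M, if d ^ 2 ∣ m then muR d else 0 := by
  obtain ⟨a, b, hab, ha⟩ := Nat.sq_mul_squarefree m
  have hb : b ≠ 0 := by rintro rfl; simp at hab; omega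
  have ha0 : a ≠ 0 := ha.ne_zero
  have hbM : b ≤ M := by
    refine le_trans ?_ hM
    rw [← hab]
    nlinarith [Nat.pos_of_ne_zero hb, Nat.pos_of_ne_zero ha0]
  have h1 : ∑ d ∈ Icc 1 M, (if d ^ 2 ∣ m then muR d else 0) = ∑ d ∈ b.divisors, muR d := by
    rw [← sum_filter]
    refine sum_congr ?_ fun _ _ => rfl
    ext d
    rw [mem_filter, mem_Icc, Nat.mem_divisors, ← hab, sq_dvd ha hb]
    constructor
    · rintro ⟨_, h⟩
      exact ⟨h, hb⟩
    · rintro ⟨h, _⟩
      exact ⟨⟨Nat.pos_of_dvd_of_pos h (Nat.pos_of_ne_zero hb),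
        (Nat.le_of_dvd (Nat.pos_of_ne_zero hb) h).trans hbM⟩, h⟩
  have h2 : ∑ d ∈ b.divisors, muR d = if b = 1 then 1 else 0 := by
    have h3 : ∑ d ∈ b.divisors, ArithmeticFunction.moebius d = if b = 1 then 1 else 0 := by
      rw [← ArithmeticFunction.coe_mul_zeta_apply, ArithmeticFunction.moebius_mul_coe_zeta,
        ArithmeticFunction.one_apply]
    unfold muR
    rw [← Int.cast_sum, h3]
    split_ifs <;> simp
  rw [h1, h2]
  by_cases hb1 : b = 1
  · have hsq : Squarefree m := by rw [← hab, hb1]; simpa using ha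
    rw [if_pos hb1]
    unfold muR
    have := ArithmeticFunction.moebius_sq_eq_one_of_squarefree hsq
    exact_mod_cast this
  · have hsq : ¬ Squarefree m := by
      intro h
      have h3 := h b ⟨a, by rw [← hab]; ring⟩
      exact hb1 (Nat.isUnit_iff.1 h3)
    rw [if_neg hb1]
    unfold muR
    rw [ArithmeticFunction.moebius_eq_zero_of_not_squarefree hsq]
    simp

/-- The remainder of the sum. -/
noncomputable def rem (D m : ℕ) : ℝ := muR m ^ 2 - ∑ d ∈ Icc 1 D, muR d * (if d ^ 2 ∣ m then 1 else 0)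

lemma rem_le (D m : ℕ) (hm : 1 ≤ m) : |rem D m| ≤ W1.T D m := by
  have e1 : ∀ t : ℕ, Icc 1 t = Ioc 0 t := by
    intro t; ext x; rw [mem_Icc, mem_Ioc]; omega
  have e2 : ∑ d ∈ Icc 1 D, muR d * (if d ^ 2 ∣ m then 1 else 0) =
      ∑ d ∈ Icc 1 D, if d ^ 2 ∣ m then muR d else 0 :=
    sum_congr rfl fun d _ => by split_ifs <;> simp
  unfold rem
  rw [e2, sq_sum m (max D m) hm (le_max_right _ _), e1, e1,
    ← sum_Ioc_consecutive _ (Nat.zero_le D) (le_max_left D m), add_sub_cancel_left]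
  refine (abs_sum_le_sum_abs _ _).trans ?_
  rcases le_total m D with h | h
  · rw [max_eq_left h, Ioc_self, sum_empty]
    exact W1.T_nonneg _ _
  · rw [max_eq_right h]
    unfold W1.T
    refine sum_le_sum fun d _ => ?_
    split_ifs
    · exact abs_muR _
    · simp

lemma T_sum (D M : ℕ) (hD : 1 ≤ D) : ∑ m ∈ Icc 1 M, W1.T D m ≤ M / D := by
  have h1 : ∀ m ∈ Icc 1 M, W1.T D m ≤ ∑ d ∈ Ioc D M, if d ^ 2 ∣ m then (1 : ℝ) else 0 := by
    intro m hm
    rw [mem_Icc] at hm
    unfold W1.T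
    apply sum_le_sum_of_subset_of_nonneg
    · intro d hd; rw [mem_Ioc] at hd ⊢; omega
    · intro d _ _; positivity
  refine (sum_le_sum h1).trans ?_
  rw [sum_comm]
  have h2 : ∀ d ∈ Ioc D M, ∑ m ∈ Icc 1 M, (if d ^ 2 ∣ m then (1 : ℝ) else 0) ≤
      M * ((d : ℝ) ^ 2)⁻¹ := by
    intro d hd
    rw [mem_Ioc] at hd
    have hd0 : 0 < d := by omega
    have hq : 0 < d ^ 2 := by positivity
    rw [← sum_filter, sum_const, nsmul_eq_mul, mul_one]
    have e1 : Icc 1 M = Ioc 0 M := by
      ext x; rw [mem_Icc, mem_Ioc]; omega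
    rw [e1, Nat.Ioc_filter_dvd_card_eq_div]
    have h3 : ((M / d ^ 2 : ℕ) : ℝ) ≤ (M : ℝ) / ((d ^ 2 : ℕ) : ℝ) := Nat.cast_div_le
    push_cast at h3
    rw [div_eq_mul_inv] at h3
    exact h3
  refine (sum_le_sum h2).trans ?_
  rw [← mul_sum, div_eq_mul_inv]
  refine mul_le_mul_of_nonneg_left ?_ (Nat.cast_nonneg _)
  rcases le_total D M with h | h
  · have h3 := sum_Ioc_inv_sq_le_sub (α := ℝ) (k := D) (n := M) (by omega) h
    have h4 : (0 : ℝ) ≤ (M : ℝ)⁻¹ := by positivity
    linarith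
  · rw [Ioc_eq_empty (by omega), sum_empty]
    positivity

/-- The windows of the remainder. -/
noncomputable def TW (D H n : ℕ) : ℝ := (∑ a ∈ Icc 1 H, W1.T D (n + a)) / H

lemma T_window (D H N : ℕ) (hD : 1 ≤ D) (hHN : H ≤ N) (hN : 3 ≤ N) (hH : 1 ≤ H) :
    LA N (TW D H) ≤ 10 / D := by
  have hDr : (0 : ℝ) < D := by exact_mod_cast hD
  have hHr : (0 : ℝ) < H := by exact_mod_cast hH
  have hNr : (3 : ℝ) ≤ N := by exact_mod_cast hN
  have hL1 : 1 ≤ Real.log N := by
    rw [Real.le_log_iff_exp_le (by linarith)]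
    have := Real.exp_one_lt_d9
    linarith
  have e0 : ∀ n, ∑ a ∈ Icc 1 H, W1.T D (n + a) = ∑ m ∈ Ioc n (n + H), W1.T D m := fun n =>
    icc_ioc (fun m => W1.T D m) n H
  have h1 : ∑ n ∈ Icc 1 N, (1 / (n : ℝ)) * ∑ m ∈ Ioc n (n + H), W1.T D m ≤
      2 * H / D * (5 * Real.log N) := by
    have e1 : Icc 1 N = Ioc 0 N := by
      ext x; rw [mem_Icc, mem_Ioc]; omega
    rw [e1, ← sum_Ioc_consecutive _ (Nat.zero_le H) hHN]
    have h2 := W1.tail D H N hD hHN
    have h3 : ∑ n ∈ Ioc 0 H, (1 / (n : ℝ)) * ∑ m ∈ Ioc n (n + H), W1.T D m ≤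
        2 * H / D * (1 + Real.log N) := by
      have h4 : ∀ n ∈ Ioc 0 H, (1 / (n : ℝ)) * ∑ m ∈ Ioc n (n + H), W1.T D m ≤
          (1 / (n : ℝ)) * (2 * H / D) := by
        intro n hn
        rw [mem_Ioc] at hn
        refine mul_le_mul_of_nonneg_left ?_ (by positivity)
        have h5 : ∑ m ∈ Ioc n (n + H), W1.T D m ≤ ∑ m ∈ Icc 1 (2 * H), W1.T D m := by
          apply sum_le_sum_of_subset_of_nonneg
          · intro m hm
            rw [mem_Ioc] at hm
            rw [mem_Icc]
            omega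
          · intro m _ _
            exact W1.T_nonneg _ _
        have h6 := T_sum D (2 * H) hD
        push_cast at h6
        exact h5.trans h6
      refine (sum_le_sum h4).trans ?_
      rw [← sum_mul, mul_comm]
      refine mul_le_mul_of_nonneg_left ?_ (by positivity)
      have h5 := sum_inv_le_log H
      have e2 : Icc 1 H = Ioc 0 H := by
        ext x; rw [mem_Icc, mem_Ioc]; omega
      rw [e2] at h5
      have h6 : Real.log H ≤ Real.log N := Real.log_le_log hHr (by exact_mod_cast hHN)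
      linarith
    have hL2 : Real.log (2 * N) ≤ 1 + Real.log N := by
      rw [Real.log_mul (by norm_num) (by linarith)]
      have : Real.log 2 < 1 := by
        have := Real.log_two_lt_d9
        linarith
      linarith
    have h7 : 2 * H / D * (1 + Real.log (2 * N)) ≤ 2 * H / D * (2 + Real.log N) :=
      mul_le_mul_of_nonneg_left (by linarith) (by positivity)
    have h8 : 2 * H / D * (3 + 2 * Real.log N) ≤ 2 * H / D * (5 * Real.log N) :=
      mul_le_mul_of_nonneg_left (by linarith) (by positivity)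
    have e3 : 2 * (H : ℝ) / D * (3 + 2 * Real.log N) =
      2 * H / D * (1 + Real.log N) + 2 * H / D * (2 + Real.log N) := by ring
    linarith
  unfold LA
  rw [div_le_iff₀ (by linarith)]
  have e4 : ∑ n ∈ Icc 1 N, (1 / (n : ℝ)) * TW D H n =
      (∑ n ∈ Icc 1 N, (1 / (n : ℝ)) * ∑ m ∈ Ioc n (n + H), W1.T D m) / H := by
    rw [sum_div]
    refine sum_congr rfl fun n _ => ?_
    unfold TW
    rw [e0, mul_div_assoc']
  rw [e4, div_le_iff₀ hHr]
  refine h1.trans (le_of_eq ?_)
  field_simp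
  ring

lemma card_fix {s : ℕ} (c : Fin s → ℤ) (k : ℤ) (H a : ℕ) (i j : Fin s) (hij : j ≠ i)
    (hc : c j ≠ 0) : #((Sol c k H).filter fun h => h i = a) ≤ H ^ (s - 2) := by
  classical
  have h1 := A2.card_le (Function.update (fun _ => Icc 1 H) i {a}) c k j hc
  have h2 : (Sol c k H).filter (fun h => h i = a) ⊆
      (Fintype.piFinset (Function.update (fun _ => Icc 1 H) i {a})).filter
        fun h => ∑ i, c i * (h i : ℤ) = k := by
    intro h hh
    unfold Sol at hh
    rw [mem_filter, mem_filter, Fintype.mem_piFinset] at hh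
    rw [mem_filter, Fintype.mem_piFinset]
    refine ⟨fun m => ?_, hh.1.2⟩
    by_cases hm : m = i
    · subst hm
      rw [Function.update_self, mem_singleton]
      exact hh.2
    · rw [Function.update_of_ne hm]
      exact hh.1.1 m
  refine (card_le_card h2).trans (h1.trans ?_)
  have hi : i ∈ univ.erase j := mem_erase.2 ⟨hij.symm, mem_univ _⟩
  rw [← mul_prod_erase _ _ hi, Function.update_self, card_singleton, one_mul]
  refine le_of_eq ?_
  rw [prod_congr rfl (g := fun _ => H) fun m hm => by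
    rw [Function.update_of_ne (ne_of_mem_erase hm), Nat.card_Icc, Nat.add_sub_cancel], prod_const,
    card_erase_of_mem hi, card_erase_of_mem (mem_univ j), card_univ, Fintype.card_fin]
  congr 1

lemma sol_sum {s : ℕ} (c : Fin s → ℤ) (k : ℤ) (H : ℕ) (i j : Fin s) (hij : j ≠ i)
    (hc : c j ≠ 0) (w : ℕ → ℝ) (hw : ∀ a, 0 ≤ w a) :
    ∑ h ∈ Sol c k H, w (h i) ≤ (H : ℝ) ^ (s - 2) * ∑ a ∈ Icc 1 H, w a := by
  classical
  have hmaps : ∀ h ∈ Sol c k H, h i ∈ Icc 1 H := by
    intro h hh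
    unfold Sol at hh
    rw [mem_filter, Fintype.mem_piFinset] at hh
    exact hh.1 i
  rw [← sum_fiberwise_of_maps_to hmaps, mul_sum]
  refine sum_le_sum fun a _ => ?_
  have h1 : ∑ h ∈ (Sol c k H).filter (fun h => h i = a), w (h i) =
      (#((Sol c k H).filter fun h => h i = a) : ℝ) * w a := by
    rw [sum_congr rfl (g := fun _ => w a) fun h hh => by rw [(mem_filter.1 hh).2], sum_const,
      nsmul_eq_mul]
  rw [h1]
  refine mul_le_mul_of_nonneg_right ?_ (hw a)
  exact_mod_cast card_fix c k H a i j hij hc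

lemma prod_upd {s : ℕ} (f : Fin s → ℕ → ℝ) (i : Fin s) (g : ℕ → ℝ) (n : ℕ) (h : Fin s → ℕ) :
    ∏ m, (Function.update f i g) m (n + h m) =
      g (n + h i) * ∏ m ∈ univ.erase i, f m (n + h m) := by
  classical
  rw [← mul_prod_erase univ _ (mem_univ i), Function.update_self]
  congr 1
  refine prod_congr rfl fun m hm => ?_
  rw [Function.update_of_ne (ne_of_mem_erase hm)]

lemma JJ_decomp {s : ℕ} (f : Fin s → ℕ → ℝ) (c : Fin s → ℤ) (k : ℤ) (i : Fin s) (n H D : ℕ)
    (hi : f i = fun n => muR n ^ 2) :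
    JJ f c k n H = ∑ d ∈ Icc 1 D, muR d * JJ (Function.update f i
      (fun n => if d ^ 2 ∣ n then 1 else 0)) c k n H + JJ (Function.update f i (rem D)) c k n H := by
  unfold JJ
  simp only [mul_div_assoc', ← sum_div, ← add_div]
  congr 1
  simp only [prod_upd, mul_sum]
  rw [sum_comm, ← sum_add_distrib]
  refine sum_congr rfl fun h _ => ?_
  have e1 : ∏ m, f m (n + h m) = muR (n + h i) ^ 2 * ∏ m ∈ univ.erase i, f m (n + h m) := by
    rw [← mul_prod_erase univ _ (mem_univ i), hi]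
  rw [e1]
  unfold rem
  rw [sub_mul, sum_mul]
  have e2 : ∑ x ∈ Icc 1 D, muR x * ((if x ^ 2 ∣ n + h i then 1 else 0) *
      ∏ m ∈ univ.erase i, f m (n + h m)) = ∑ x ∈ Icc 1 D, muR x *
      (if x ^ 2 ∣ n + h i then 1 else 0) * ∏ m ∈ univ.erase i, f m (n + h m) :=
    sum_congr rfl fun x _ => by ring
  rw [e2]
  ring

lemma rem_JJ {s : ℕ} (f : Fin s → ℕ → ℝ) (c : Fin s → ℤ) (k : ℤ) (i j : Fin s) (n H D : ℕ)
    (hs : 2 ≤ s) (hij : j ≠ i) (hc : c j ≠ 0) (hf : ∀ i n, |f i n| ≤ 1) (hH : 1 ≤ H) :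
    |JJ (Function.update f i (rem D)) c k n H| ≤ TW D H n := by
  have hHr : (0 : ℝ) < H := by exact_mod_cast hH
  unfold JJ
  rw [abs_div, abs_of_nonneg (by positivity : (0 : ℝ) ≤ (H : ℝ) ^ (s - 1)),
    div_le_iff₀ (by positivity)]
  have h1 : |∑ h ∈ Sol c k H, ∏ m, (Function.update f i (rem D)) m (n + h m)| ≤
      ∑ h ∈ Sol c k H, W1.T D (n + h i) := by
    refine (abs_sum_le_sum_abs _ _).trans (sum_le_sum fun h hh => ?_)
    have hhi : 1 ≤ h i := by
      unfold Sol at hh
      rw [mem_filter, Fintype.mem_piFinset] at hh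
      exact (mem_Icc.1 (hh.1 i)).1
    rw [prod_upd, abs_mul]
    have h2 := rem_le D (n + h i) (by omega)
    have h3 : |∏ m ∈ univ.erase i, f m (n + h m)| ≤ 1 := by
      rw [abs_prod]
      exact prod_le_one (fun m _ => abs_nonneg _) fun m _ => hf m _
    calc |rem D (n + h i)| * |∏ m ∈ univ.erase i, f m (n + h m)| ≤ |rem D (n + h i)| * 1 :=
          mul_le_mul_of_nonneg_left h3 (abs_nonneg _)
      _ ≤ W1.T D (n + h i) := by rw [mul_one]; exact h2
  refine h1.trans ((sol_sum c k H i j hij hc (fun a => W1.T D (n + a))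
    fun a => W1.T_nonneg _ _).trans (le_of_eq ?_))
  obtain ⟨r, rfl⟩ : ∃ r, s = r + 2 := ⟨s - 2, by omega⟩
  have e1 : r + 2 - 2 = r := by omega
  have e2 : r + 2 - 1 = r + 1 := by omega
  rw [e1, e2]
  unfold TW
  field_simp
  ring

end X2

open X2

theorem rowX2 (hX1 : X1_stmt) : X2_stmt := by
  classical
  intro s c k i l ε hs hc hil hε
  obtain ⟨D, hD⟩ := exists_nat_ge (20 / ε + 1)
  have hD1 : 1 ≤ D := by
    have : 0 < 20 / ε := by positivity
    have : (1 : ℝ) ≤ D := by linarith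
    exact_mod_cast this
  have hDr : (0 : ℝ) < D := by exact_mod_cast hD1
  have hch : ∀ d : ℕ, ∃ H₀ : ℕ, 1 ≤ d → ∀ H N : ℕ, H₀ ≤ H → H ≤ N →
      ∀ f : Fin s → ℕ → ℝ, (∀ i n, |f i n| ≤ 1) → f l = muR →
        f i = (fun n => if d ^ 2 ∣ n then 1 else 0) →
        |LA N fun n => JJ f c k n H| ≤ ε / (2 * D) := by
    intro d
    by_cases hd : 1 ≤ d
    · obtain ⟨H₀, h⟩ := hX1 s c k i l (d ^ 2) (ε / (2 * D)) hs hc hil
        (Nat.one_le_pow _ _ hd) (by positivity)
      exact ⟨H₀, fun _ => h⟩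
    · exact ⟨0, fun h => absurd h hd⟩
  choose H₀ hH₀ using hch
  refine ⟨∑ d ∈ Icc 1 D, H₀ d + 3, fun H N hH hHN f hf hl hi => ?_⟩
  have hH1 : 1 ≤ H := by omega
  have hN3 : 3 ≤ N := by omega
  have hHd : ∀ d ∈ Icc 1 D, H₀ d ≤ H := by
    intro d hd
    have h1 : H₀ d ≤ ∑ d ∈ Icc 1 D, H₀ d := single_le_sum (f := H₀) (fun _ _ => Nat.zero_le _) hd
    omega
  have e1 : LA N (fun n => JJ f c k n H) = ∑ d ∈ Icc 1 D, muR d * LA N (fun n =>
      JJ (Function.update f i (fun n => if d ^ 2 ∣ n then 1 else 0)) c k n H) +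
      LA N (fun n => JJ (Function.update f i (rem D)) c k n H) := by
    simp only [JJ_decomp f c k i _ H D hi]
    unfold LA
    simp only [mul_div_assoc', ← sum_div, ← add_div, mul_add, mul_sum, sum_add_distrib]
    congr 2
    rw [sum_comm]
    refine sum_congr rfl fun d _ => sum_congr rfl fun n _ => by ring
  rw [e1]
  have h1 : |LA N (fun n => JJ (Function.update f i (rem D)) c k n H)| ≤ ε / 2 := by
    refine (?_ : _ ≤ LA N (TW D H)).trans ((T_window D H N hD1 hHN hN3 hH1).trans ?_)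
    · have hl' : 0 ≤ Real.log N := Real.log_natCast_nonneg N
      unfold LA
      rw [abs_div, abs_of_nonneg hl']
      refine div_le_div_of_nonneg_right ?_ hl'
      refine (abs_sum_le_sum_abs _ _).trans (sum_le_sum fun n _ => ?_)
      rw [abs_mul, abs_of_nonneg (by positivity)]
      exact mul_le_mul_of_nonneg_left
        (rem_JJ f c k i l n H D (by omega) hil.symm (hc l) hf hH1) (by positivity)
    · rw [div_le_iff₀ hDr]
      have h2 : 20 / ε ≤ D := by linarith
      rw [div_le_iff₀ hε] at h2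
      linarith
  have h2 : |∑ d ∈ Icc 1 D, muR d * LA N (fun n =>
      JJ (Function.update f i (fun n => if d ^ 2 ∣ n then 1 else 0)) c k n H)| ≤ ε / 2 := by
    refine (abs_sum_le_sum_abs _ _).trans ?_
    calc ∑ d ∈ Icc 1 D, |muR d * LA N (fun n =>
          JJ (Function.update f i (fun n => if d ^ 2 ∣ n then 1 else 0)) c k n H)| ≤
          ∑ d ∈ Icc 1 D, ε / (2 * D) := by
          refine sum_le_sum fun d hd => ?_
          have h3 := hH₀ d (mem_Icc.1 hd).1 H N (hHd d hd) hHN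
            (Function.update f i (fun n => if d ^ 2 ∣ n then 1 else 0)) ?_ ?_ ?_
          · rw [abs_mul]
            calc _ ≤ 1 * _ := mul_le_mul_of_nonneg_right (X2.abs_muR d) (abs_nonneg _)
              _ ≤ _ := by rw [one_mul]; exact h3
          · intro m n
            by_cases hm : m = i
            · subst hm
              rw [Function.update_self]
              split_ifs <;> simp
            · rw [Function.update_of_ne hm]
              exact hf m n
          · rw [Function.update_of_ne hil.symm]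
            exact hl
          · rw [Function.update_self]
      _ = ε / 2 := by
          rw [sum_const, Nat.card_Icc, Nat.add_sub_cancel, nsmul_eq_mul]
          field_simp
  refine (abs_add_le _ _).trans ?_
  linarith

end Pool.Agent.C4
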