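import Mathlib
import Pool.Agent.Lib.C4.Defs5
import Pool.Agent.Lib.C4.A0
import Pool.Agent.Lib.C4.X1
import Pool.Agent.Lib.C4.X2

/-!
# Row X3: equations which are not invariant under translation, one function is `μ`

helper7.
-/

set_option autoImplicit false
open Finset

namespace Pool.Agent.C4

open Pool.Agent.Lib.MP_663568_nt Pool.Agent.Lib.MP_663568_nt.Katai
  Pool.Agent.Lib.MP_663568_nt.H6 Pool.Agent.Lib.MP_663568_nt.Nul

namespace X3

/-- The logarithmic average of a shift by one. -/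
lemma LA_shift (N : ℕ) (g : ℕ → ℝ) (G : ℝ) (hg : ∀ n, |g n| ≤ G) (hN : 1 ≤ N) :
    |(LA N fun n => g (n + 1)) - LA N g| ≤ 2 * G / Real.log N := by
  have hl : 0 ≤ Real.log N := Real.log_natCast_nonneg N
  have hG : 0 ≤ G := (abs_nonneg _).trans (hg 0)
  have key : ∀ M : ℕ, |∑ n ∈ Icc 1 (M + 1), (1 / (n : ℝ)) * (g (n + 1) - g n) -
      g (M + 2) / ((M : ℝ) + 1)| ≤ G * (2 - 1 / ((M : ℝ) + 1)) := by
    intro M
    induction M with
    | zero =>
      simp only [zero_add, Icc_self, sum_singleton, Nat.cast_one, CharP.cast_eq_zero]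
      have h1 := hg 1
      have e : 1 / (1 : ℝ) * (g (1 + 1) - g 1) - g 2 / 1 = - g 1 := by
        norm_num
      rw [e, abs_neg]
      linarith
    | succ M ih =>
      rw [sum_Icc_succ_top (by omega)]
      have hM1 : (0 : ℝ) < (M : ℝ) + 1 := by positivity
      have hM2 : (0 : ℝ) < (M : ℝ) + 1 + 1 := by positivity
      have e : ∑ n ∈ Icc 1 (M + 1), (1 / (n : ℝ)) * (g (n + 1) - g n) +
          1 / ((M + 1 + 1 : ℕ) : ℝ) * (g (M + 1 + 1 + 1) - g (M + 1 + 1)) -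
          g (M + 1 + 2) / (((M + 1 : ℕ) : ℝ) + 1) =
          (∑ n ∈ Icc 1 (M + 1), (1 / (n : ℝ)) * (g (n + 1) - g n) -
            g (M + 2) / ((M : ℝ) + 1)) +
          (1 / ((M : ℝ) + 1) - 1 / ((M : ℝ) + 1 + 1)) * g (M + 2) := by
        push_cast
        have e1 : M + 1 + 1 + 1 = M + 3 := by omega
        have e2 : M + 1 + 2 = M + 3 := by omega
        have e3 : M + 1 + 1 = M + 2 := by omega
        rw [e1, e2, e3]
        field_simp
        ring
      rw [e]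
      have h1 : (0 : ℝ) ≤ 1 / ((M : ℝ) + 1) - 1 / ((M : ℝ) + 1 + 1) := by
        rw [sub_nonneg]
        exact one_div_le_one_div_of_le hM1 (by linarith)
      have h2 : |(1 / ((M : ℝ) + 1) - 1 / ((M : ℝ) + 1 + 1)) * g (M + 2)| ≤
          (1 / ((M : ℝ) + 1) - 1 / ((M : ℝ) + 1 + 1)) * G := by
        rw [abs_mul, abs_of_nonneg h1]
        exact mul_le_mul_of_nonneg_left (hg _) h1
      refine (abs_add_le _ _).trans ?_
      push_cast
      nlinarith [ih, h2]
  obtain ⟨M, rfl⟩ : ∃ M, N = M + 1 := ⟨N - 1, by omega⟩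
  have h1 := key M
  have hM1 : (0 : ℝ) < (M : ℝ) + 1 := by positivity
  have h2 : |g (M + 2) / ((M : ℝ) + 1)| ≤ G * (1 / ((M : ℝ) + 1)) := by
    rw [abs_div, abs_of_pos hM1, div_eq_mul_one_div]
    exact mul_le_mul_of_nonneg_right (hg _) (by positivity)
  have h3 : |∑ n ∈ Icc 1 (M + 1), (1 / (n : ℝ)) * (g (n + 1) - g n)| ≤ 2 * G := by
    have e : ∑ n ∈ Icc 1 (M + 1), (1 / (n : ℝ)) * (g (n + 1) - g n) =
        (∑ n ∈ Icc 1 (M + 1), (1 / (n : ℝ)) * (g (n + 1) - g n) - g (M + 2) / ((M : ℝ) + 1)) +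
          g (M + 2) / ((M : ℝ) + 1) := by ring
    rw [e]
    refine (abs_add_le _ _).trans ?_
    nlinarith [h1, h2]
  have e : (LA (M + 1) fun n => g (n + 1)) - LA (M + 1) g =
      (∑ n ∈ Icc 1 (M + 1), (1 / (n : ℝ)) * (g (n + 1) - g n)) / Real.log ((M + 1 : ℕ) : ℝ) := by
    unfold LA
    rw [← sub_div, ← sum_sub_distrib]
    congr 1
    exact sum_congr rfl fun n _ => by ring
  rw [e, abs_div, abs_of_nonneg hl]
  exact div_le_div_of_nonneg_right h3 hl

lemma LA_sub (N : ℕ) (g g' : ℕ → ℝ) : (LA N fun n => g n - g' n) = LA N g - LA N g' := by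
  unfold LA
  rw [← sub_div, ← sum_sub_distrib]
  congr 1
  exact sum_congr rfl fun n _ => by ring

lemma LA_avg (N I : ℕ) (g : ℕ → ℕ → ℝ) :
    (LA N fun n => (∑ j ∈ range I, g j n) / I) = (∑ j ∈ range I, LA N (g j)) / I := by
  unfold LA
  rw [← sum_div, div_right_comm]
  congr 1
  rw [sum_comm, sum_div]
  refine sum_congr rfl fun n _ => ?_
  rw [mul_div_assoc', mul_sum]

lemma prod_abs {s : ℕ} (f : Fin s → ℕ → ℝ) (hf : ∀ i n, |f i n| ≤ 1) (n : ℕ) (h : Fin s → ℕ) :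
    |∏ i, f i (n + h i)| ≤ 1 := by
  rw [abs_prod]
  exact prod_le_one (fun i _ => abs_nonneg _) fun i _ => hf _ _

lemma JJ_abs {s : ℕ} (f : Fin s → ℕ → ℝ) (c : Fin s → ℤ) (k : ℤ) (n H : ℕ) (hs : 1 ≤ s)
    (hc : ∀ i, c i ≠ 0) (hf : ∀ i n, |f i n| ≤ 1) (hH : 1 ≤ H) : |JJ f c k n H| ≤ 1 := by
  have hHr : (0 : ℝ) < H := by exact_mod_cast hH
  unfold JJ
  rw [abs_div, abs_of_nonneg (by positivity : (0 : ℝ) ≤ (H : ℝ) ^ (s - 1)),
    div_le_one (by positivity)]
  refine (abs_sum_le_sum_abs _ _).trans ?_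
  refine (sum_le_card_nsmul _ _ 1 fun h _ => prod_abs f hf n h).trans ?_
  rw [nsmul_eq_mul, mul_one]
  exact_mod_cast A0_card c k H hs hc

/-- Few solutions have a coordinate with a given value. -/
lemma card_bad {s : ℕ} (c : Fin s → ℤ) (k : ℤ) (H a : ℕ) (hs : 2 ≤ s) (hc : ∀ i, c i ≠ 0) :
    #((Sol c k H).filter fun h => ¬ ∀ m, h m ≠ a) ≤ s * H ^ (s - 2) := by
  classical
  have h1 : (Sol c k H).filter (fun h => ¬ ∀ m, h m ≠ a) ⊆
      (univ : Finset (Fin s)).biUnion fun i => (Sol c k H).filter fun h => h i = a := by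
    intro h hh
    rw [mem_filter] at hh
    obtain ⟨hh1, hh2⟩ := hh
    push Not at hh2
    obtain ⟨m, hm⟩ := hh2
    rw [mem_biUnion]
    exact ⟨m, mem_univ _, mem_filter.2 ⟨hh1, hm⟩⟩
  refine (card_le_card h1).trans (card_biUnion_le.trans ?_)
  have h2 : ∀ i ∈ (univ : Finset (Fin s)), #((Sol c k H).filter fun h => h i = a) ≤
      H ^ (s - 2) := by
    intro i _
    obtain ⟨j, hj⟩ : ∃ j : Fin s, j ≠ i := by
      have : Nontrivial (Fin s) := Fin.nontrivial_iff_two_le.2 hs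
      exact exists_ne i
    exact X2.card_fix c k H a i j hj (hc j)
  refine (sum_le_card_nsmul _ _ _ h2).trans (le_of_eq ?_)
  rw [card_univ, Fintype.card_fin, smul_eq_mul]

/-- The shift of `n` by one is a shift of `k`. -/
lemma JJ_shift {s : ℕ} (f : Fin s → ℕ → ℝ) (c : Fin s → ℤ) (k : ℤ) (n H : ℕ) (hs : 2 ≤ s)
    (hc : ∀ i, c i ≠ 0) (hf : ∀ i n, |f i n| ≤ 1) (hH : 1 ≤ H) :
    |JJ f c k (n + 1) H - JJ f c (k + ∑ i, c i) n H| ≤ 2 * s / H := by
  classical
  have hHr : (0 : ℝ) < H := by exact_mod_cast hH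
  have h1 := sum_filter_add_sum_filter_not (Sol c k H) (fun h => ∀ m, h m ≠ H)
    (fun h => ∏ i, f i (n + 1 + h i))
  have h2 := sum_filter_add_sum_filter_not (Sol c (k + ∑ i, c i) H) (fun h => ∀ m, h m ≠ 1)
    (fun h => ∏ i, f i (n + h i))
  have h3 : ∑ h ∈ (Sol c k H).filter (fun h => ∀ m, h m ≠ H), ∏ i, f i (n + 1 + h i) =
      ∑ h ∈ (Sol c (k + ∑ i, c i) H).filter (fun h => ∀ m, h m ≠ 1), ∏ i, f i (n + h i) := by
    refine sum_nbij' (fun h i => h i + 1) (fun h i => h i - 1) ?_ ?_ ?_ ?_ ?_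
    · intro h hh
      unfold Sol at hh ⊢
      simp only [mem_filter, Fintype.mem_piFinset, mem_Icc] at hh ⊢
      obtain ⟨⟨ha, hb⟩, hd⟩ := hh
      refine ⟨⟨fun i => ?_, ?_⟩, fun i => ?_⟩
      · have := ha i
        have := hd i
        omega
      · push_cast
        simp only [mul_add, sum_add_distrib, mul_one]
        rw [hb]
      · have := ha i
        omega
    · intro h hh
      unfold Sol at hh ⊢
      simp only [mem_filter, Fintype.mem_piFinset, mem_Icc] at hh ⊢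
      obtain ⟨⟨ha, hb⟩, hd⟩ := hh
      refine ⟨⟨fun i => ?_, ?_⟩, fun i => ?_⟩
      · have := ha i
        have := hd i
        omega
      · have e : ∀ i, ((h i - 1 : ℕ) : ℤ) = (h i : ℤ) - 1 := fun i => by
          have := (ha i).1
          push_cast [Nat.cast_sub this]
          ring
        simp only [e, mul_sub, sum_sub_distrib, mul_one]
        rw [hb]
        ring
      · have := ha i
        omega
    · intro h _
      funext i
      simp
    · intro h hh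
      unfold Sol at hh
      simp only [mem_filter, Fintype.mem_piFinset, mem_Icc] at hh
      funext i
      have := hh.1.1 i
      simp only
      omega
    · intro h _
      refine prod_congr rfl fun i _ => ?_
      congr 1
      ring
  have hb1 := card_bad c k H H hs hc
  have hb2 := card_bad c (k + ∑ i, c i) H 1 hs hc
  have h4 : |∑ h ∈ (Sol c k H).filter (fun h => ¬ ∀ m, h m ≠ H), ∏ i, f i (n + 1 + h i)| ≤
      s * (H : ℝ) ^ (s - 2) := by
    refine (abs_sum_le_sum_abs _ _).trans ?_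
    refine (sum_le_card_nsmul _ _ 1 fun h _ => prod_abs f hf (n + 1) h).trans ?_
    rw [nsmul_eq_mul, mul_one]
    exact_mod_cast hb1
  have h5 : |∑ h ∈ (Sol c (k + ∑ i, c i) H).filter (fun h => ¬ ∀ m, h m ≠ 1),
      ∏ i, f i (n + h i)| ≤ s * (H : ℝ) ^ (s - 2) := by
    refine (abs_sum_le_sum_abs _ _).trans ?_
    refine (sum_le_card_nsmul _ _ 1 fun h _ => prod_abs f hf n h).trans ?_
    rw [nsmul_eq_mul, mul_one]
    exact_mod_cast hb2
  have h6 : |∑ h ∈ Sol c k H, ∏ i, f i (n + 1 + h i) -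
      ∑ h ∈ Sol c (k + ∑ i, c i) H, ∏ i, f i (n + h i)| ≤ 2 * (s * (H : ℝ) ^ (s - 2)) := by
    rw [← h1, ← h2, h3]
    have e : ∀ a b d : ℝ, a + b - (a + d) = b - d := fun a b d => by ring
    rw [e]
    refine (abs_sub _ _).trans ?_
    linarith
  unfold JJ
  rw [← sub_div, abs_div, abs_of_nonneg (by positivity : (0 : ℝ) ≤ (H : ℝ) ^ (s - 1)),
    div_le_iff₀ (by positivity)]
  refine h6.trans (le_of_eq ?_)
  obtain ⟨r, rfl⟩ : ∃ r, s = r + 2 := ⟨s - 2, by omega⟩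
  have e1 : r + 2 - 2 = r := by omega
  have e2 : r + 2 - 1 = r + 1 := by omega
  rw [e1, e2]
  field_simp
  ring

/-- The average over the shifts. -/
theorem base (s : ℕ) (c : Fin s → ℤ) (k : ℤ) (f : Fin s → ℕ → ℝ) (l : Fin s) (n H I : ℕ)
    (hs : 3 ≤ s) (hc : ∀ i, c i ≠ 0) (hf : ∀ i n, |f i n| ≤ 1) (hH : 1 ≤ H) (hI : 1 ≤ I)
    (κ G : ℝ) (hκ : 0 ≤ κ) (hG : 0 ≤ G)
    (hcase : ∀ (Q : ℕ) [NeZero Q], ∀ t : ZMod Q,
      ‖∑ j ∈ range I, ee ((j : ℝ) * ((-∑ i, c i : ℤ) * ((t.val : ℝ) / Q)))‖ ≤ κ * I ∨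
        ‖S Q (f l) n H ((c l : ZMod Q) * t)‖ ≤ G) :
    |(∑ j ∈ range I, JJ f c (k + j * ∑ i, c i) n H) / I| ≤ κ + G / H := by
  classical
  obtain ⟨σ, hσ⟩ : ∃ σ : ℤ, σ = ∑ i, c i := ⟨_, rfl⟩
  rw [← hσ] at hcase ⊢
  obtain ⟨Q, hQM, hQ⟩ := Nat.exists_infinite_primes
    ((∑ i, (c i).natAbs) * H + (k.natAbs + I * σ.natAbs) + (∑ i, (c i).natAbs) + H + 1)
  have : Fact Q.Prime := ⟨hQ⟩
  have : NeZero Q := ⟨hQ.ne_zero⟩
  have hHQ : H < Q := by omega
  have hunit : ∀ i, ((c i : ℤ) : ZMod Q) ≠ 0 := by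
    intro i h
    rw [ZMod.intCast_zmod_eq_zero_iff_dvd] at h
    have h1 := Int.natAbs_dvd_natAbs.2 h
    rw [Int.natAbs_natCast] at h1
    have h2 := Nat.le_of_dvd (Int.natAbs_pos.2 (hc i)) h1
    have h3 : (c i).natAbs ≤ ∑ i, (c i).natAbs :=
      single_le_sum (f := fun i => (c i).natAbs) (fun _ _ => Nat.zero_le _) (mem_univ i)
    omega
  have hHr : (0 : ℝ) < H := by exact_mod_cast hH
  have hQr : (0 : ℝ) < Q := by exact_mod_cast hQ.pos
  have hIr : (0 : ℝ) < I := by exact_mod_cast hI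
  obtain ⟨i, hil⟩ : ∃ i : Fin s, i ≠ l := by
    have : Nontrivial (Fin s) := Fin.nontrivial_iff_two_le.2 (by omega)
    exact exists_ne l
  obtain ⟨j, hji, hjl⟩ : ∃ j : Fin s, j ≠ i ∧ j ≠ l := by
    by_contra hne
    push Not at hne
    have h1 : (univ : Finset (Fin s)) ⊆ {i, l} := by
      intro j _
      rw [mem_insert, mem_singleton]
      by_cases h : j = i
      · exact Or.inl h
      · exact Or.inr (hne j h)
    have h2 := card_le_card h1
    rw [card_univ, Fintype.card_fin] at h2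
    have h3 := card_le_two (a := i) (b := l)
    omega
  obtain ⟨A, hAd⟩ : ∃ A : Fin s → ZMod Q → ℝ, A = fun m t =>
    ‖S Q (f m) n H ((c m : ZMod Q) * t)‖ := ⟨_, rfl⟩
  obtain ⟨B, hBd⟩ : ∃ B : ZMod Q → ℝ, B = fun t =>
    ‖∑ j ∈ range I, ee ((j : ℝ) * ((-σ : ℤ) * ((t.val : ℝ) / Q)))‖ := ⟨_, rfl⟩
  have hA0 : ∀ m t, 0 ≤ A m t := fun m t => by rw [hAd]; exact norm_nonneg _
  have hB0 : ∀ t, 0 ≤ B t := fun t => by rw [hBd]; exact norm_nonneg _
  have hBI : ∀ t, B t ≤ I := fun t => by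
    rw [hBd]
    refine (norm_sum_le _ _).trans ?_
    refine (sum_le_card_nsmul _ _ 1 fun j _ => (norm_ee _).le).trans ?_
    rw [nsmul_eq_mul, mul_one, card_range]
  have hAH : ∀ m t, A m t ≤ H := fun m t => by
    rw [hAd]; exact (rowB1 (f m) n H Q (hf m) hH hHQ).2.2.1 _
  have hAA : ∀ a b, ∑ t : ZMod Q, A a t * A b t ≤ Q * H := by
    intro a b
    rw [hAd]
    exact X1.av_two (f a) (f b) (hf a) (hf b) Q hQ n H (c a) (c b) (hunit a) (hunit b) hH hHQ
  have hpt : ∀ t, B t * ∏ m, A m t ≤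
      (κ * I * H * (A l t * A j t) + I * G * (A i t * A j t)) * (H : ℝ) ^ (s - 3) := by
    intro t
    have h0 := X1.prod_three (fun m => A m t) H (fun m => hA0 m t) (fun m => hAH m t) i l j hil
      hji hjl
    refine (mul_le_mul_of_nonneg_left h0 (hB0 t)).trans ?_
    rw [← mul_assoc]
    refine mul_le_mul_of_nonneg_right ?_ (by positivity)
    have h1 := hA0 i t
    have h2 := hA0 l t
    have h3 := hA0 j t
    have h4 : 0 ≤ A l t * A j t := mul_nonneg h2 h3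
    have h5 : 0 ≤ A i t * A j t := mul_nonneg h1 h3
    rcases hcase Q t with h | h
    · have h6 : B t ≤ κ * I := by rw [hBd]; exact h
      have h7 : B t * A i t ≤ κ * I * H :=
        mul_le_mul h6 (hAH i t) h1 (by positivity)
      have h8 : 0 ≤ I * G * (A i t * A j t) := by positivity
      have h9 := mul_le_mul_of_nonneg_right h7 h4
      calc B t * (A i t * A l t * A j t) = B t * A i t * (A l t * A j t) := by ring
        _ ≤ κ * I * H * (A l t * A j t) := h9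
        _ ≤ _ := by linarith
    · have h6 : A l t ≤ G := by rw [hAd]; exact h
      have h7 : B t * A l t ≤ I * G := mul_le_mul (hBI t) h6 h2 (by positivity)
      have h8 : 0 ≤ κ * I * H * (A l t * A j t) := by positivity
      have h9 := mul_le_mul_of_nonneg_right h7 h5
      calc B t * (A i t * A l t * A j t) = B t * A l t * (A i t * A j t) := by ring
        _ ≤ I * G * (A i t * A j t) := h9
        _ ≤ _ := by linarith
  have hsum : ∑ t : ZMod Q, B t * ∏ m, A m t ≤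
      (κ * I * H + I * G) * (Q * H) * (H : ℝ) ^ (s - 3) := by
    refine (sum_le_sum fun t _ => hpt t).trans ?_
    rw [← sum_mul]
    refine mul_le_mul_of_nonneg_right ?_ (by positivity)
    rw [sum_add_distrib, ← mul_sum, ← mul_sum]
    have h1 := mul_le_mul_of_nonneg_left (hAA l j) (by positivity : 0 ≤ κ * I * H)
    have h2 := mul_le_mul_of_nonneg_left (hAA i j) (by positivity : 0 ≤ I * G)
    linarith
  have hid : ∀ j ∈ range I,
      ((∑ h ∈ Sol c (k + j * σ) H, ∏ i, f i (n + h i) : ℝ) : ℂ) =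
      (∑ t : ZMod Q, ZMod.stdAddChar (-((k + j * σ : ℤ) : ZMod Q) * t) *
      ∏ i, S Q (f i) n H ((c i : ZMod Q) * t)) / Q := by
    intro j hj
    rw [mem_range] at hj
    refine (X1.ortho s c (k + j * σ) f n H Q ?_).symm
    have h1 : (k + j * σ).natAbs ≤ k.natAbs + I * σ.natAbs := by
      refine (Int.natAbs_add_le _ _).trans ?_
      rw [Int.natAbs_mul, Int.natAbs_natCast]
      exact Nat.add_le_add_left (Nat.mul_le_mul_right _ hj.le) _
    omega
  have hnorm : |∑ j ∈ range I, ∑ h ∈ Sol c (k + j * σ) H, ∏ i, f i (n + h i)| ≤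
      (∑ t : ZMod Q, B t * ∏ m, A m t) / Q := by
    have e1 : |∑ j ∈ range I, ∑ h ∈ Sol c (k + j * σ) H, ∏ i, f i (n + h i)| =
        ‖∑ j ∈ range I, ((∑ h ∈ Sol c (k + j * σ) H, ∏ i, f i (n + h i) : ℝ) : ℂ)‖ := by
      rw [← Complex.ofReal_sum, Complex.norm_real, Real.norm_eq_abs]
    rw [e1, sum_congr rfl hid, ← sum_div, sum_comm, norm_div, Complex.norm_natCast]
    refine div_le_div_of_nonneg_right ?_ hQr.le
    refine (norm_sum_le _ _).trans (sum_le_sum fun t _ => ?_)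
    rw [← sum_mul, norm_mul, norm_prod, hAd]
    refine mul_le_mul_of_nonneg_right (le_of_eq ?_) (prod_nonneg fun _ _ => norm_nonneg _)
    rw [hBd]
    have e2 : ∑ j ∈ range I, ZMod.stdAddChar (-((k + j * σ : ℤ) : ZMod Q) * t) =
        ZMod.stdAddChar (-(k : ZMod Q) * t) *
          ∑ j ∈ range I, ee ((j : ℝ) * ((-σ : ℤ) * ((t.val : ℝ) / Q))) := by
      rw [mul_sum]
      refine sum_congr rfl fun j _ => ?_
      have e3 : -((k + j * σ : ℤ) : ZMod Q) * t =
          -(k : ZMod Q) * t + ((j * -σ : ℤ) : ZMod Q) * t := by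
        push_cast
        ring
      rw [e3, AddChar.map_add_eq_mul, X1.std_ee]
      congr 2
      push_cast
      ring
    rw [e2, norm_mul, AddChar.norm_apply, one_mul]
  obtain ⟨r, rfl⟩ : ∃ r, s = r + 3 := ⟨s - 3, by omega⟩
  have e1 : r + 3 - 3 = r := by omega
  have e2 : r + 3 - 1 = r + 2 := by omega
  unfold JJ
  rw [← sum_div, abs_div, abs_div, abs_of_pos hIr,
    abs_of_nonneg (by positivity : (0 : ℝ) ≤ (H : ℝ) ^ (r + 3 - 1)), e2,
    div_le_iff₀ hIr, div_le_iff₀ (by positivity)]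
  refine hnorm.trans ?_
  rw [div_le_iff₀ hQr]
  refine hsum.trans (le_of_eq ?_)
  rw [e1]
  field_simp
  ring

/-- The bound at `n`. -/
theorem point (s : ℕ) (c : Fin s → ℤ) (k : ℤ) (f : Fin s → ℕ → ℝ) (l : Fin s) (n H I : ℕ)
    (κ d d' : ℝ) (hs : 3 ≤ s) (hc : ∀ i, c i ≠ 0) (hf : ∀ i n, |f i n| ≤ 1) (hH : 1 ≤ H)
    (hI : 1 ≤ I) (hσ : ∑ i, c i ≠ 0) (hκ : 0 < κ) (hd' : 0 < d')
    (hdd : |(c l : ℝ)| * d' < d) (hκI : 1 ≤ 2 * κ * I * d') (hl : f l = muR) :
    |(∑ j ∈ range I, JJ f c (k + j * ∑ i, c i) n H) / I| ≤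
      κ + GS WC86.lin WC86.mu (WC86.Maj (((∑ i, c i).natAbs : ℕ) : ℝ) d) H n / H := by
  obtain ⟨σ, hσd⟩ : ∃ σ : ℤ, σ = ∑ i, c i := ⟨_, rfl⟩
  refine base s c k f l n H I hs hc hf hH hI κ _ hκ.le (GS_nonneg _ _ _ _ _) ?_
  rw [← hσd] at hσ ⊢
  intro Q _ t
  rcases le_or_gt (nd ((-σ : ℤ) * ((t.val : ℝ) / Q))) d' with h | h
  · right
    rw [hl]
    apply X1.S_mu
    obtain ⟨b, hb⟩ := nd_exists ((-σ : ℤ) * ((t.val : ℝ) / Q))
    rw [hb] at h
    have hσ1 : 1 ≤ σ.natAbs := Int.natAbs_pos.2 hσ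
    have hcl : 0 < |(c l : ℝ)| := abs_pos.2 (by exact_mod_cast hc l)
    have hkey : |((-σ : ℤ) : ℝ) * ((c l : ℝ) * ((t.val : ℝ) / Q)) - (c l * b : ℤ)| < d := by
      have e : ((-σ : ℤ) : ℝ) * ((c l : ℝ) * ((t.val : ℝ) / Q)) - (c l * b : ℤ) =
          (c l : ℝ) * (((-σ : ℤ) : ℝ) * ((t.val : ℝ) / Q) - b) := by
        push_cast
        ring
      rw [e, abs_mul]
      exact (mul_le_mul_of_nonneg_left h hcl.le).trans_lt hdd
    refine ⟨σ.natAbs, hσ1, le_rfl, ?_⟩
    rcases le_total 0 σ with h0 | h0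
    · refine ⟨-(c l * b), ?_⟩
      have e : ((σ.natAbs : ℕ) : ℝ) = (σ : ℝ) := by
        rw [Nat.cast_natAbs, abs_of_nonneg h0]
      have e2 : (σ : ℝ) * ((c l : ℝ) * ((t.val : ℝ) / Q)) - ((-(c l * b) : ℤ) : ℝ) =
          -(((-σ : ℤ) : ℝ) * ((c l : ℝ) * ((t.val : ℝ) / Q)) - (c l * b : ℤ)) := by
        push_cast
        ring
      rw [e, e2, abs_neg]
      exact hkey
    · refine ⟨c l * b, ?_⟩
      have e : ((σ.natAbs : ℕ) : ℝ) = ((-σ : ℤ) : ℝ) := by
        rw [Nat.cast_natAbs, abs_of_nonpos h0]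
      rw [e]
      exact hkey
  · left
    have h1 := norm_geom_le I ((-σ : ℤ) * ((t.val : ℝ) / Q))
    have h2 : ‖∑ j ∈ range I, ee ((j : ℝ) * ((-σ : ℤ) * ((t.val : ℝ) / Q)))‖ * (4 * d') ≤ 2 := by
      refine le_trans (mul_le_mul_of_nonneg_left ?_ (norm_nonneg _)) h1
      linarith
    have h3 : ‖∑ j ∈ range I, ee ((j : ℝ) * ((-σ : ℤ) * ((t.val : ℝ) / Q)))‖ * (4 * d') ≤
        κ * I * (4 * d') := by
      refine h2.trans ?_
      nlinarith
    exact le_of_mul_le_mul_right h3 (by positivity)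

end X3

open X3

theorem rowX3 : X3_stmt := by
  intro s c k l ε hs hc hσ hε
  obtain ⟨d, hd0, _, H₁, hH₁⟩ := (WC86.major WC86.muAP_top) (ε / 4)
    (((∑ i, c i).natAbs : ℕ) : ℝ) (by positivity)
  have hcl : 0 < |(c l : ℝ)| := abs_pos.2 (by exact_mod_cast hc l)
  obtain ⟨d', hd'⟩ : ∃ d', d' = d / (2 * |(c l : ℝ)|) := ⟨_, rfl⟩
  have hd'0 : 0 < d' := by rw [hd']; positivity
  have hdd : |(c l : ℝ)| * d' < d := by
    rw [hd']
    have : |(c l : ℝ)| * (d / (2 * |(c l : ℝ)|)) = d / 2 := by field_simp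
    rw [this]
    linarith
  obtain ⟨I, hI⟩ := exists_nat_gt (6 / (ε * d') + 1)
  have hI1 : 1 ≤ I := by
    have : 0 < 6 / (ε * d') := by positivity
    have : (1 : ℝ) ≤ I := by linarith
    exact_mod_cast this
  have hIr : (0 : ℝ) < I := by exact_mod_cast hI1
  have hκI : 1 ≤ 2 * (ε / 12) * I * d' := by
    have h1 : 6 / (ε * d') ≤ I := by linarith
    rw [div_le_iff₀ (by positivity)] at h1
    nlinarith
  obtain ⟨H₂, hH₂⟩ := exists_nat_gt (24 * s * I / ε)
  obtain ⟨H₃, hH₃⟩ := exists_nat_gt (Real.exp (8 * I / ε))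
  refine ⟨max H₁ (max H₂ H₃) + 2, fun H N hH hHN f hf hl => ?_⟩
  have hH1 : 1 ≤ H := by omega
  have hN1 : 1 ≤ N := by omega
  have hHr : (0 : ℝ) < H := by exact_mod_cast hH1
  have hNr : (0 : ℝ) < N := by exact_mod_cast hN1
  have hlN0 : 0 ≤ Real.log N := Real.log_natCast_nonneg N
  have hlN : 8 * I / ε ≤ Real.log N := by
    rw [Real.le_log_iff_exp_le hNr]
    have h1 : (H₃ : ℝ) ≤ N := by
      have : H₃ ≤ N := by omega
      exact_mod_cast this
    linarith
  have hlNpos : 0 < Real.log N := lt_of_lt_of_le (by positivity) hlN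
  have hHs : 24 * s * I / ε ≤ H := by
    have h1 : (H₂ : ℝ) ≤ H := by
      have : H₂ ≤ H := by omega
      exact_mod_cast this
    linarith
  obtain ⟨σ, hσd⟩ : ∃ σ : ℤ, σ = ∑ i, c i := ⟨_, rfl⟩
  obtain ⟨a, ha⟩ : ∃ a : ℕ → ℝ, a = fun j : ℕ => LA N fun n => JJ f c (k + (j : ℤ) * σ) n H := ⟨_, rfl⟩
  obtain ⟨δ, hδ⟩ : ∃ δ : ℝ, δ = 2 / Real.log N + 3 * (2 * s / H) := ⟨_, rfl⟩
  have hδ0 : 0 ≤ δ := by rw [hδ]; positivity
  have hstep : ∀ j, |a (j + 1) - a j| ≤ δ := by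
    intro j
    have h1 := LA_shift N (fun n => JJ f c (k + j * σ) n H) 1
      (fun n => JJ_abs f c _ n H (by omega) hc hf hH1) hN1
    have h2 : |LA N fun n => JJ f c (k + j * σ) (n + 1) H - JJ f c (k + j * σ + σ) n H| ≤
        3 * (2 * s / H) := rowD.1 N _ _ fun n => by
          have := JJ_shift f c (k + j * σ) n H (by omega) hc hf hH1
          rw [← hσd] at this
          exact this
    rw [LA_sub] at h2
    have e : a (j + 1) = LA N fun n => JJ f c (k + j * σ + σ) n H := by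
      rw [ha]
      simp only
      congr 1
      funext n
      congr 1
      push_cast
      ring
    have e' : a j = LA N fun n => JJ f c (k + j * σ) n H := by rw [ha]
    rw [e, e', hδ]
    have h3 := abs_sub_le (LA N fun n => JJ f c (k + j * σ + σ) n H)
      (LA N fun n => JJ f c (k + j * σ) (n + 1) H) (LA N fun n => JJ f c (k + j * σ) n H)
    rw [abs_sub_comm] at h2
    rw [mul_one] at h1
    linarith
  have hj : ∀ j, |a j - a 0| ≤ j * δ := by
    intro j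
    induction j with
    | zero => simp
    | succ j ih =>
      have h1 := hstep j
      have h2 := abs_sub_le (a (j + 1)) (a j) (a 0)
      push_cast
      linarith
  obtain ⟨G, hG⟩ : ∃ G : ℕ → ℝ, G = fun n =>
    GS WC86.lin WC86.mu (WC86.Maj (((∑ i, c i).natAbs : ℕ) : ℝ) d) H n := ⟨_, rfl⟩
  have hpt : ∀ n, |(∑ j ∈ range I, JJ f c (k + j * σ) n H) / I| ≤ ε / 12 + G n / H := fun n => by
    rw [hG, hσd]
    exact point s c k f l n H I (ε / 12) d d' hs hc hf hH1 hI1 hσ (by positivity) hd'0 hdd hκI hl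
  have h1 : |(∑ j ∈ range I, a j) / I| ≤ ε / 2 := by
    rw [ha, ← LA_avg N I fun j n => JJ f c (k + j * σ) n H]
    refine (X1.LA_le N _ _ hpt).trans ?_
    have h2 : LA N (fun n => ε / 12 + G n / H) =
        LA N (fun _ => ε / 12) + 1 / H * LA N G := by
      unfold LA
      rw [mul_div_assoc', ← add_div]
      congr 1
      rw [mul_sum, ← sum_add_distrib]
      refine sum_congr rfl fun n _ => by ring
    rw [h2]
    have h3 : LA N (fun _ => ε / 12) ≤ 3 * (ε / 12) :=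
      (le_abs_self _).trans (rowD.1 N (fun _ => ε / 12) (ε / 12)
        fun _ => (abs_of_pos (by positivity)).le)
    have h4 : LA N G ≤ (ε / 4) * H := by
      unfold LA
      refine div_le_of_le_mul₀ hlN0 (by positivity) ?_
      have h5 := hH₁ H N (by omega) hHN
      rw [hG]
      refine h5.trans (le_of_eq ?_)
      ring
    have h5 : 1 / H * LA N G ≤ ε / 4 := by
      calc 1 / H * LA N G ≤ 1 / H * ((ε / 4) * H) :=
            mul_le_mul_of_nonneg_left h4 (by positivity)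
        _ = ε / 4 := by field_simp
    linarith
  have h2 : |a 0 - (∑ j ∈ range I, a j) / I| ≤ I * δ := by
    have e : a 0 - (∑ j ∈ range I, a j) / I = (∑ j ∈ range I, (a 0 - a j)) / I := by
      rw [sum_sub_distrib, sum_const, card_range, nsmul_eq_mul]
      field_simp
    rw [e, abs_div, abs_of_pos hIr, div_le_iff₀ hIr]
    refine (abs_sum_le_sum_abs _ _).trans ?_
    have h3 : ∀ j ∈ range I, |a 0 - a j| ≤ I * δ := by
      intro j hj'
      rw [mem_range] at hj'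
      rw [abs_sub_comm]
      refine (hj j).trans (mul_le_mul_of_nonneg_right ?_ hδ0)
      exact_mod_cast hj'.le
    refine (sum_le_card_nsmul _ _ _ h3).trans (le_of_eq ?_)
    rw [card_range, nsmul_eq_mul]
    ring
  have h3 : I * δ ≤ ε / 2 := by
    rw [hδ]
    have h4 : I * (2 / Real.log N) ≤ ε / 4 := by
      rw [mul_div_assoc', div_le_iff₀ hlNpos]
      rw [div_le_iff₀ hε] at hlN
      linarith
    have h5 : I * (3 * (2 * s / H)) ≤ ε / 4 := by
      have e : I * (3 * (2 * (s : ℝ) / H)) = 6 * s * I / H := by ring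
      rw [e, div_le_iff₀ hHr]
      rw [div_le_iff₀ hε] at hHs
      linarith
    linarith
  have e0 : (LA N fun n => JJ f c k n H) = a 0 := by
    rw [ha]
    simp
  rw [e0]
  have h4 : a 0 = (a 0 - (∑ j ∈ range I, a j) / I) + (∑ j ∈ range I, a j) / I := by ring
  rw [h4]
  refine (abs_add_le _ _).trans ?_
  linarith

end Pool.Agent.C4
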