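import Pool.Agent.Lib.C4.A0
import Pool.Agent.Lib.C4.A1
import Pool.Agent.Lib.C4.Defs3

/-!
# Row Y1: a large exponential sum gives a large energy.  helper50
-/

set_option autoImplicit false
open Finset

namespace Pool.Agent.C4

open Pool.Agent.Lib.MP_663568_nt Pool.Agent.Lib.MP_663568_nt.Katai Pool.Agent.Lib.MP_663568_nt.H6

/-- the exponential sum of the window -/
noncomputable def Y1_T (n H : ℕ) (y : ℝ) : ℂ := ∑ h ∈ Icc 1 H, ee (y * h) * WC86.mu (n + h)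

theorem Y1_norm_mu (m : ℕ) : ‖WC86.mu m‖ ≤ 1 := by
  unfold WC86.mu
  rw [Complex.norm_intCast]
  exact_mod_cast ArithmeticFunction.abs_moebius_le_one

theorem Y1_ee_sub (x y : ℝ) : ‖ee x - ee y‖ ≤ 2 * Real.pi * |x - y| := by
  have h : ee x - ee y = ee y * (ee (x - y) - 1) := by
    rw [mul_sub, ← ee_add, mul_one, add_sub_cancel]
  have h1 : ee (x - y) = Complex.exp (Complex.I * ((2 * Real.pi * (x - y) : ℝ) : ℂ)) := by
    unfold ee
    congr 1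
    push_cast
    ring
  rw [h, norm_mul, norm_ee, one_mul, h1]
  refine (Real.norm_exp_I_mul_ofReal_sub_one_le).trans (le_of_eq ?_)
  rw [Real.norm_eq_abs, abs_mul, abs_of_nonneg (by positivity : (0 : ℝ) ≤ 2 * Real.pi)]

/-- the sum of the definition of `GS` has the same absolute value -/
theorem Y1_norm (n H : ℕ) (y : ℝ) :
    ‖∑ h ∈ Icc 1 H, WC86.lin y (n + h) * WC86.mu (n + h)‖ = ‖Y1_T n H y‖ := by
  have h : ∑ h ∈ Icc 1 H, WC86.lin y (n + h) * WC86.mu (n + h) = ee (y * n) * Y1_T n H y := by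
    unfold Y1_T WC86.lin
    rw [mul_sum]
    refine sum_congr rfl fun h _ => ?_
    rw [← mul_assoc, ← ee_add]
    congr 2
    push_cast
    ring
  rw [h, norm_mul, norm_ee, one_mul]

theorem Y1_lip (n H : ℕ) (y z : ℝ) :
    ‖Y1_T n H y - Y1_T n H z‖ ≤ 2 * Real.pi * |y - z| * (H : ℝ) ^ 2 := by
  unfold Y1_T
  rw [← sum_sub_distrib]
  calc ‖∑ h ∈ Icc 1 H, (ee (y * h) * WC86.mu (n + h) - ee (z * h) * WC86.mu (n + h))‖
      ≤ ∑ h ∈ Icc 1 H, ‖ee (y * h) * WC86.mu (n + h) - ee (z * h) * WC86.mu (n + h)‖ :=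
        norm_sum_le _ _
    _ ≤ ∑ h ∈ Icc 1 H, 2 * Real.pi * |y - z| * H := sum_le_sum fun h hh => ?_
    _ = 2 * Real.pi * |y - z| * (H : ℝ) ^ 2 := by
        rw [sum_const, Nat.card_Icc, nsmul_eq_mul, Nat.add_sub_cancel]
        ring
  rw [← sub_mul, norm_mul]
  have h1 := Y1_ee_sub (y * h) (z * h)
  rw [← sub_mul, abs_mul, abs_of_nonneg (by positivity : (0 : ℝ) ≤ (h : ℝ)), ← mul_assoc] at h1
  have h2 : (h : ℝ) ≤ H := by exact_mod_cast (mem_Icc.1 hh).2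
  calc ‖ee (y * h) - ee (z * h)‖ * ‖WC86.mu (n + h)‖ ≤ (2 * Real.pi * |y - z| * h) * 1 :=
        mul_le_mul h1 (Y1_norm_mu _) (norm_nonneg _) (by positivity)
    _ ≤ 2 * Real.pi * |y - z| * H := by
        rw [mul_one]
        exact mul_le_mul_of_nonneg_left h2 (by positivity)

/-- the values on the grid -/
theorem Y1_grid (Q : ℕ) [NeZero Q] (n H : ℕ) (m : ℤ) :
    S Q muR n H ((m : ℤ) : ZMod Q) = Y1_T n H ((m : ℝ) / Q) := by
  unfold S Y1_T
  refine sum_congr rfl fun h _ => ?_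
  have h1 : ((h : ZMod Q) * ((m : ℤ) : ZMod Q)) = (((h : ℤ) * m : ℤ) : ZMod Q) := by
    push_cast
    rfl
  rw [h1, ZMod.stdAddChar_coe, mul_comm]
  have h2 : ee ((m : ℝ) / Q * h) = Complex.exp (2 * Real.pi * Complex.I * ((h : ℤ) * m : ℤ) / Q) := by
    unfold ee
    congr 1
    push_cast
    ring
  rw [h2]
  congr 1

/-- many large values on the grid -/
theorem Y1_energy (Q : ℕ) [NeZero Q] (n H : ℕ) (M y r : ℝ) (hM : 0 ≤ M)
    (hy : M / 2 ≤ ‖Y1_T n H y‖) (hr : 0 < r) (hr1 : r < 1)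
    (hr2 : 2 * Real.pi * r * (H : ℝ) ^ 2 ≤ M / 4) (hQ : 2 ≤ Q * r) :
    Q * r / 2 * (M / 4) ^ 4 ≤ ∑ t : ZMod Q, ‖S Q muR n H t‖ ^ 4 := by
  have hQ0 : (0 : ℝ) < Q := by
    have : Q ≠ 0 := NeZero.ne Q
    positivity
  set φ : ℕ → ZMod Q := fun j => ((⌈(Q : ℝ) * y⌉ + (j : ℤ) : ℤ) : ZMod Q) with hφ
  have hinj : Set.InjOn φ (range ⌊(Q : ℝ) * r⌋₊ : Set ℕ) := by
    intro i hi j hj hij
    rw [hφ] at hij
    simp only at hij
    rw [ZMod.intCast_eq_intCast_iff_dvd_sub] at hij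
    have hlt : ⌊(Q : ℝ) * r⌋₊ < Q := by
      rw [Nat.floor_lt (by positivity)]
      calc (Q : ℝ) * r < Q * 1 := mul_lt_mul_of_pos_left hr1 hQ0
        _ = Q := mul_one _
    have hi1 := mem_range.1 (mem_coe.1 hi)
    have hj1 := mem_range.1 (mem_coe.1 hj)
    have h0 := Int.eq_zero_of_abs_lt_dvd hij (by rw [abs_lt]; constructor <;> omega)
    omega
  have hbig : ∀ j ∈ range ⌊(Q : ℝ) * r⌋₊, (M / 4) ^ 4 ≤ ‖S Q muR n H (φ j)‖ ^ 4 := by
    intro j hj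
    have hj1 : j + 1 ≤ ⌊(Q : ℝ) * r⌋₊ := mem_range.1 hj
    have hj2 : ((j : ℝ) + 1) ≤ Q * r := by
      have := (Nat.cast_le (α := ℝ)).2 hj1
      push_cast at this
      exact this.trans (Nat.floor_le (by positivity))
    rw [hφ]
    simp only
    rw [Y1_grid]
    have hc1 := Int.le_ceil ((Q : ℝ) * y)
    have hc2 := Int.ceil_lt_add_one ((Q : ℝ) * y)
    set m : ℤ := ⌈(Q : ℝ) * y⌉ + (j : ℤ) with hm
    have hmr : (m : ℝ) = ⌈(Q : ℝ) * y⌉ + j := by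
      rw [hm]
      push_cast
      rfl
    have hd : |(m : ℝ) / Q - y| ≤ r := by
      have h1 : (m : ℝ) / Q - y = (m - Q * y) / Q := by field_simp
      rw [h1, abs_div, abs_of_pos hQ0, div_le_iff₀ hQ0, abs_of_nonneg (by
        rw [hmr]
        have : (0 : ℝ) ≤ j := by positivity
        linarith), hmr]
      linarith
    have hl := Y1_lip n H ((m : ℝ) / Q) y
    have hl2 : 2 * Real.pi * |(m : ℝ) / Q - y| * (H : ℝ) ^ 2 ≤ M / 4 :=
      le_trans (mul_le_mul_of_nonneg_right (mul_le_mul_of_nonneg_left hd (by positivity))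
        (by positivity)) hr2
    have hn := norm_sub_norm_le (Y1_T n H y) (Y1_T n H ((m : ℝ) / Q))
    rw [norm_sub_rev] at hn
    exact pow_le_pow_left₀ (by linarith) (by linarith) 4
  have hcard : (Q : ℝ) * r / 2 ≤ ⌊(Q : ℝ) * r⌋₊ := by
    have := Nat.lt_floor_add_one ((Q : ℝ) * r)
    linarith
  calc (Q : ℝ) * r / 2 * (M / 4) ^ 4 ≤ ⌊(Q : ℝ) * r⌋₊ * (M / 4) ^ 4 :=
        mul_le_mul_of_nonneg_right hcard (by positivity)
    _ = ∑ j ∈ range ⌊(Q : ℝ) * r⌋₊, (M / 4) ^ 4 := by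
        rw [sum_const, card_range, nsmul_eq_mul]
    _ ≤ ∑ j ∈ range ⌊(Q : ℝ) * r⌋₊, ‖S Q muR n H (φ j)‖ ^ 4 := sum_le_sum hbig
    _ = ∑ t ∈ (range ⌊(Q : ℝ) * r⌋₊).image φ, ‖S Q muR n H t‖ ^ 4 :=
        (sum_image (f := fun t => ‖S Q muR n H t‖ ^ 4) hinj).symm
    _ ≤ _ := sum_le_sum_of_subset_of_nonneg (subset_univ _) fun _ _ _ => by positivity

theorem rowY1 : Y1_stmt := by
  refine ⟨4096 * Real.pi, by nlinarith [Real.pi_gt_three], fun n H hH => ?_⟩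
  have hmu : ∀ m, |muR m| ≤ 1 := fun m => by
    unfold muR
    exact_mod_cast ArithmeticFunction.abs_moebius_le_one
  obtain ⟨-, -, hJ, hJ0⟩ := rowA0 rowA1 muR hmu
  have hH0 : (0 : ℝ) < H := by exact_mod_cast hH
  set M := GS WC86.lin WC86.mu Set.univ H n with hM
  have hM0 : 0 ≤ M := GG_nonneg _ _ _ _
  rcases hM0.eq_or_lt with h0 | hMpos
  · rw [← h0, zero_div, zero_pow (by norm_num)]
    exact mul_nonneg (by positivity) (hJ0 n H)
  have hML : M ≤ H := GG_le _ _ (fun i m => by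
    unfold WC86.lin
    rw [norm_ee]) Y1_norm_mu H n
  obtain ⟨y, hy⟩ : ∃ y : ℝ, M / 2 ≤ ‖Y1_T n H y‖ := by
    have h1 : M / 2 < ⨆ i : {i : ℝ // i ∈ (Set.univ : Set ℝ)},
        ‖∑ h ∈ Icc 1 H, WC86.lin i.1 (n + h) * WC86.mu (n + h)‖ := by
      have : M = ⨆ i : {i : ℝ // i ∈ (Set.univ : Set ℝ)},
        ‖∑ h ∈ Icc 1 H, WC86.lin i.1 (n + h) * WC86.mu (n + h)‖ := rfl
      rw [← this]
      linarith
    have : Nonempty {i : ℝ // i ∈ (Set.univ : Set ℝ)} := ⟨⟨0, Set.mem_univ _⟩⟩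
    obtain ⟨i, hi⟩ := exists_lt_of_lt_ciSup h1
    exact ⟨i.1, by
      rw [← Y1_norm]
      exact hi.le⟩
  set r : ℝ := M / (8 * Real.pi * (H : ℝ) ^ 2) with hr
  have hpi := Real.pi_pos
  have hr0 : 0 < r := by positivity
  have hr1 : r < 1 := by
    rw [hr, div_lt_one (by positivity)]
    have h1 : (1 : ℝ) ≤ H := by exact_mod_cast hH
    nlinarith [Real.pi_gt_three, mul_pos hH0 hH0]
  have hr2 : 2 * Real.pi * r * (H : ℝ) ^ 2 = M / 4 := by
    rw [hr]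
    field_simp
    ring
  obtain ⟨Q, hQ⟩ := exists_nat_gt (max (4 * (H : ℝ)) (2 / r))
  have hQ1 : 4 * H < Q := by
    have := (le_max_left _ _).trans_lt hQ
    exact_mod_cast this
  have hQ2 : 2 ≤ Q * r := by
    have := (le_max_right _ _).trans_lt hQ
    rw [div_lt_iff₀ hr0] at this
    exact this.le
  have : NeZero Q := ⟨by omega⟩
  have hQ0 : (0 : ℝ) < Q := by
    have : 0 < Q := by omega
    exact_mod_cast this
  rw [hJ n H Q hQ1]
  have hE := Y1_energy Q n H M y r hM0 hy hr0 hr1 hr2.le hQ2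
  unfold eS
  rw [← mul_div_assoc, le_div_iff₀ (by positivity)]
  calc (M / H) ^ 5 * (Q * (H : ℝ) ^ 3) = 4096 * Real.pi * (Q * r / 2 * (M / 4) ^ 4) := by
        rw [hr]
        field_simp
        ring
    _ ≤ _ := mul_le_mul_of_nonneg_left hE (by positivity)

end Pool.Agent.C4
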