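import Mathlib
import Pool.Agent.Lib.C4.Defs3
import Pool.Agent.Lib.C4.X1

/-!
# Row Y2: the correlations are bounded by the largest exponential sum

helper15.
-/

set_option autoImplicit false
open Finset

namespace Pool.Agent.C4

open Pool.Agent.Lib.MP_663568_nt Pool.Agent.Lib.MP_663568_nt.Katai
  Pool.Agent.Lib.MP_663568_nt.H6 Pool.Agent.Lib.MP_663568_nt.Nul

theorem rowY2 : Y2_stmt := by
  intro s c k f l n H hs hc hf hl hH
  obtain ⟨i, hil⟩ : ∃ i : Fin s, i ≠ l := by
    by_contra hne
    push Not at hne
    have h1 : (univ : Finset (Fin s)) ⊆ {l} := fun j _ => mem_singleton.2 (hne j)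
    have h2 := card_le_card h1
    rw [card_univ, Fintype.card_fin, card_singleton] at h2
    omega
  have hG := GS_nonneg WC86.lin WC86.mu Set.univ H n
  have h := X1.base s c k f i l n H hs hc hf hil hH 0 (GS WC86.lin WC86.mu Set.univ H n) le_rfl hG
    fun Q _ t => Or.inr (by
      rw [hl]
      exact X1.S_mu Set.univ Q n H (c l) t (Set.mem_univ _))
  rw [zero_add] at h
  exact h

end Pool.Agent.C4
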