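import Pool.Agent.Lib.C4.Defs4
import Pool.Agent.Lib.TU.V2
import Pool.Agent.Lib.TU.H
import Pool.Agent.Lib.TU.RowA

/-!
# Row Z: one bounded length of the windows is enough (helper11)
-/

set_option autoImplicit false
open Finset

namespace Pool.Agent.C4

/-- The sum of `Q1C` in the notation of the row V2. -/
lemma z_eq (N H : ℕ) : ∑ n ∈ Icc 1 N, (1 / (n : ℝ)) *
    Pool.Agent.Lib.MP_663568_nt.H6.GS WC86.lin WC86.mu Set.univ H n = TU.V2.AV Set.univ N H := by
  rw [← TU.V2.AV_eq, WC86.Avg_eq]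

/-- **Row Z.** -/
theorem rowZ : Z_stmt := by
  intro hyp ε hε
  obtain ⟨e, he⟩ : ∃ e : ℝ, e = ε / 12 := ⟨_, rfl⟩
  have he0 : 0 < e := by rw [he]; positivity
  obtain ⟨L₂, hL₂⟩ := hyp e he0
  obtain ⟨L₀, hL₀⟩ := TU.V2.AV_long (TU.rowH TU.rowA) e he0
  refine ⟨max (max L₀ L₂) (max ⌈2 * (L₂ : ℝ) / e⌉₊ 3), fun H N hH hHN => ?_⟩
  have h0 : L₀ ≤ H := (le_max_left _ _).trans ((le_max_left _ _).trans hH)
  have h2 : L₂ ≤ H := (le_max_right _ _).trans ((le_max_left _ _).trans hH)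
  have h3 : 3 ≤ H := (le_max_right _ _).trans ((le_max_right _ _).trans hH)
  have h4 : 2 * (L₂ : ℝ) ≤ e * H := by
    have h5 : 2 * (L₂ : ℝ) / e ≤ H := by
      refine (Nat.le_ceil _).trans ?_
      exact_mod_cast (le_max_left _ _).trans ((le_max_right _ _).trans hH)
    rw [div_le_iff₀ he0] at h5
    linarith
  obtain ⟨l, hl1, hl2, hl⟩ := hL₂ (2 * N) (by omega)
  rw [z_eq] at hl ⊢
  have h6 := hL₀ H h0 l hl1 N hHN Set.univ
  have hl0 : (0 : ℝ) < l := by exact_mod_cast hl1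
  have hlL : (l : ℝ) ≤ L₂ := by exact_mod_cast hl2
  have hN : (3 : ℝ) ≤ N := by exact_mod_cast h3.trans hHN
  have hH0 : (0 : ℝ) ≤ H := by positivity
  have hlog : 1 ≤ Real.log N := by
    rw [Real.le_log_iff_exp_le (by linarith)]
    have := Real.exp_one_lt_d9
    linarith
  have hlog2 : Real.log ((2 * N : ℕ) : ℝ) ≤ 2 * Real.log N := by
    push_cast
    rw [Real.log_mul (by norm_num) (by linarith)]
    have := Real.log_two_lt_d9
    linarith
  have h7 : 2 * (H : ℝ) / l * TU.V2.AV Set.univ (2 * N) l ≤ 4 * e * H * Real.log N := by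
    have h8 : 2 * (H : ℝ) / l * TU.V2.AV Set.univ (2 * N) l ≤
        2 * (H : ℝ) / l * (e * l * (2 * Real.log N)) := by
      refine mul_le_mul_of_nonneg_left (hl.trans ?_) (by positivity)
      exact mul_le_mul_of_nonneg_left hlog2 (by positivity)
    refine h8.trans (le_of_eq ?_)
    field_simp
    ring
  have h9 : (3 * e * H + 2 * l) * (1 + Real.log N) ≤ (4 * e * H) * (2 * Real.log N) := by
    refine mul_le_mul (by linarith) (by linarith) (by linarith) (by positivity)
  have h10 : ε * H * Real.log N = 12 * e * H * Real.log N := by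
    rw [he]; ring
  rw [h10]
  refine h6.trans ?_
  calc (3 * e * H + 2 * l) * (1 + Real.log N) + 2 * H / l * TU.V2.AV Set.univ (2 * N) l ≤
      (4 * e * H) * (2 * Real.log N) + 4 * e * H * Real.log N := add_le_add h9 h7
    _ = 12 * e * H * Real.log N := by ring

end Pool.Agent.C4
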