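import Mathlib
import Pool.Agent.Lib.C4.Bridge
import Pool.Agent.Lib.C4.A0
import Pool.Agent.Lib.C4.A1
import Pool.Agent.Lib.C4.A2m
import Pool.Agent.Lib.C4.A3m
import Pool.Agent.Lib.C4.B1
import Pool.Agent.Lib.C4.B2
import Pool.Agent.Lib.C4.B3
import Pool.Agent.Lib.C4.B4
import Pool.Agent.Lib.C4.M1
import Pool.Agent.Lib.C4.M2
import Pool.Agent.Lib.C4.D
import Pool.Agent.Lib.C4.P
import Pool.Agent.Lib.C4.EF
import Pool.Agent.Lib.C4.G2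
import Pool.Agent.Lib.C4.W1mu
import Pool.Agent.Lib.C4.W2
import Pool.Agent.Lib.C4.W3F
import Pool.Agent.Lib.C4.X1
import Pool.Agent.Lib.C4.X2
import Pool.Agent.Lib.C4.X3
import Pool.Agent.Lib.C4.Y1
import Pool.Agent.Lib.C4.Y2
import Pool.Agent.Lib.C4.Z

/-!
# The logarithmic Chowla conjecture on average over the solutions of a linear equation

Q1 is equivalent to the logarithmic Chowla conjecture for `μ^{j_1}(n + h_1) ⋯ μ^{j_s}(n + h_s)` with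
exponents `j_i ∈ {1, 2}`, not all equal to `2` (Tao). Here these correlations are averaged over the
solutions `h ∈ {1, …, H}^s` of one linear equation `c_1 h_1 + … + c_s h_s = k`. The averages tend to
zero unless `∑ c_i = 0`, `k = 0` and all `j_i = 1`; in this case they all tend to zero if and only if
Q1 holds for `G = ℝ` and `f = e(x)`.
-/

set_option autoImplicit false

namespace Pool.Agent.C4.LinearEquations

/-- The sum over the solutions `h ∈ {1, …, H}^s` of `c_1 h_1 + … + c_s h_s = k` of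
`μ(n + h_1)^{j_1} ⋯ μ(n + h_s)^{j_s}`, divided by `H^{s - 1}`. -/
noncomputable def Corr {s : ℕ} (c : Fin s → ℤ) (k : ℤ) (j : Fin s → ℕ) (n H : ℕ) : ℝ :=
  (∑ h ∈ (Fintype.piFinset fun _ : Fin s => Finset.Icc 1 H).filter
      (fun h => ∑ i, c i * (h i : ℤ) = k),
    ∏ i, ((ArithmeticFunction.moebius (n + h i) : ℤ) : ℝ) ^ j i) / (H : ℝ) ^ (s - 1)

/-- The sum over `n ≤ N` with weight `1 / n`. -/
noncomputable def LogSum {s : ℕ} (c : Fin s → ℤ) (k : ℤ) (j : Fin s → ℕ) (N H : ℕ) : ℝ :=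
  ∑ n ∈ Finset.Icc 1 N, (1 / (n : ℝ)) * Corr c k j n H

/-- Smallness for every large `H`, uniformly in `N ≥ H`. -/
def Always {s : ℕ} (c : Fin s → ℤ) (k : ℤ) (j : Fin s → ℕ) : Prop :=
  ∀ ε : ℝ, 0 < ε → ∃ H₀ : ℕ, ∀ H N : ℕ, H₀ ≤ H → H ≤ N → |LogSum c k j N H| ≤ ε * Real.log N

/-- Smallness on logarithmic average over the `H` in every window `[Y, W Y]`, `W` and `Y` large,
uniformly in `N ≥ W Y`. -/
def OnScales {s : ℕ} (c : Fin s → ℤ) (k : ℤ) (j : Fin s → ℕ) : Prop :=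
  ∀ ε : ℝ, 0 < ε → ∃ H₀ : ℕ, ∀ W Y N : ℕ, H₀ ≤ W → H₀ ≤ Y → W * Y ≤ N →
    ∑ H ∈ Finset.Icc Y (W * Y), (1 / (H : ℝ)) * |LogSum c k j N H| ≤
      ε * Real.log W * Real.log N

/-- The logarithmic average over `n ≤ N` of the supremum over the real numbers `y` of
`|∑_{h ≤ H} e((h + n) y) μ(n + h)|`: the average of Q1 for `G = ℝ`, `Γ = ℤ`, `f = e(x)`, `x₀ = 0`. -/
noncomputable def Circ (N H : ℕ) : ℝ :=
  ∑ n ∈ Finset.Icc 1 N, (1 / (n : ℝ)) * ⨆ y : ℝ,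
    ‖∑ h ∈ Finset.Icc 1 H,
      Complex.exp (2 * Real.pi * Complex.I * (((h + n : ℕ) : ℝ) * y : ℝ)) *
        ((ArithmeticFunction.moebius (n + h) : ℤ) : ℂ)‖

/-- **The logarithmic Chowla conjecture on average over the solutions of a linear equation.** -/
theorem result :
    (∀ (s : ℕ) (c : Fin s → ℤ) (k : ℤ), 3 ≤ s → (∀ i, c i ≠ 0) → ∑ i, c i = 0 → k ≠ 0 →
      OnScales c k fun _ => 1) ∧
    (∀ (s : ℕ) (c : Fin s → ℤ) (k : ℤ) (j : Fin s → ℕ), 3 ≤ s → (∀ i, c i ≠ 0) →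
      (∀ i, j i = 1 ∨ j i = 2) → (∃ i, j i = 1) → (∑ i, c i ≠ 0 ∨ ∃ i, j i = 2) →
      Always c k j) ∧
    List.TFAE [
      ∀ ε : ℝ, 0 < ε → ∃ H₀ : ℕ, ∀ H N : ℕ, H₀ ≤ H → H ≤ N → Circ N H ≤ ε * H * Real.log N,
      OnScales ![1, 1, -1, -1] 0 fun _ => 1,
      ∀ (s : ℕ) (c : Fin s → ℤ) (k : ℤ) (j : Fin s → ℕ), 3 ≤ s → (∀ i, c i ≠ 0) →
        (∀ i, j i = 1 ∨ j i = 2) → (∃ i, j i = 1) → Always c k j] := by
  have hA1 := Pool.Agent.C4.rowA1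
  have hA0 := Pool.Agent.C4.rowA0 hA1
  have hA2 := Pool.Agent.C4.rowA2m
  have hA3 := Pool.Agent.C4.rowA3m hA2
  have hB1 := Pool.Agent.C4.rowB1
  have hB2 := Pool.Agent.C4.rowB2
  have hB3 := Pool.Agent.C4.rowB3
  have hB4 := Pool.Agent.C4.rowB4
  have hM1 := Pool.Agent.C4.rowM1 hB1 hB2 hB3 hB4
  have hM2 := Pool.Agent.C4.rowM2 hB1 hB2 hB3 hB4
  have hD := Pool.Agent.C4.rowD
  have hW3 : Pool.Agent.C4.W3F Pool.Agent.C4.muR :=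
    Pool.Agent.C4.rowW3F hA1 hA0 hB1 hD Pool.Agent.C4.rowW2 Pool.Agent.C4.muR
      Pool.Agent.C4.Fi.muR_abs Pool.Agent.C4.rowW1mu
  have hEF := Pool.Agent.C4.rowEF hA0 hA1 hA2 hA3 hM1 hM2 hD Pool.Agent.C4.rowP
  have hX2 := Pool.Agent.C4.rowX2 Pool.Agent.C4.rowX1
  have hQW := Pool.Agent.C4.QW_of hA0 hD hEF hW3 Pool.Agent.C4.rowG2 hX2 Pool.Agent.C4.rowY1
    Pool.Agent.C4.rowY2 Pool.Agent.C4.rowZ
  obtain ⟨h1, h2, h3⟩ := Pool.Agent.C4.QX_of hQW Pool.Agent.C4.rowX3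
  refine ⟨fun s c k hs hc hsum hk => h1 s c k _ hs hc hsum (fun _ => rfl) hk,
    fun s c k j hs hc hj1 hj2 h => h2 s c k j hs hc ⟨hj1, hj2⟩ h, ?_⟩
  have e1 : Pool.Agent.C4.Q1C ↔ ∀ ε : ℝ, 0 < ε → ∃ H₀ : ℕ, ∀ H N : ℕ, H₀ ≤ H → H ≤ N →
      Circ N H ≤ ε * H * Real.log N := by
    unfold Pool.Agent.C4.Q1C Circ
    simp only [Pool.Agent.C4.circ_eq]
  have e3 : Pool.Agent.C4.Q1C ↔ ∀ (s : ℕ) (c : Fin s → ℤ) (k : ℤ) (j : Fin s → ℕ), 3 ≤ s →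
      (∀ i, c i ≠ 0) → Pool.Agent.C4.Exps j → Pool.Agent.C4.Point c k j := h3.out 0 2
  tfae_have 1 ↔ 3 := by
    rw [← e1]
    refine e3.trans ⟨fun h s c k j hs hc hj1 hj2 => h s c k j hs hc ⟨hj1, hj2⟩,
      fun h s c k j hs hc hj => h s c k j hs hc hj.1 hj.2⟩
  tfae_have 1 ↔ 2 := by
    rw [← e1]
    exact h3.out 0 1
  tfae_finish

end Pool.Agent.C4.LinearEquations
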