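import Pool.Agent.Lib.C4.Defs

/-! # Row W0: the Liouville function is a sum of Moebius functions -/

set_option autoImplicit false
open Finset

namespace Pool.Agent.C4

/-- The square part is determined. -/
theorem sq_part_unique {a b c d : ℕ} (hb : Squarefree b) (hc : Squarefree c)
    (ha : a ≠ 0) (hd : d ≠ 0) (h : b * a ^ 2 = c * d ^ 2) : a = d := by
  have hb0 : b ≠ 0 := hb.ne_zero
  have hc0 : c ≠ 0 := hc.ne_zero
  apply Nat.eq_of_factorization_eq ha hd
  intro p
  have h1 := congrArg (fun x => Nat.factorization x p) h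
  simp only [Nat.factorization_mul hb0 (pow_ne_zero 2 ha),
    Nat.factorization_mul hc0 (pow_ne_zero 2 hd), Nat.factorization_pow, Finsupp.add_apply,
    Finsupp.smul_apply, smul_eq_mul] at h1
  have h2 := Squarefree.natFactorization_le_one p hb
  have h3 := Squarefree.natFactorization_le_one p hc
  omega

theorem rowW0 : W0_stmt := by
  intro m hm D hD
  obtain ⟨b, a, hab, hb⟩ := Nat.sq_mul_squarefree m
  have ha : a ≠ 0 := by rintro rfl; simp at hab; omega
  have hb0 : b ≠ 0 := hb.ne_zero
  have hle : a ≤ D := by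
    refine le_trans ?_ hD
    rw [← hab]
    nlinarith [Nat.pos_of_ne_zero hb0, Nat.pos_of_ne_zero ha]
  rw [Finset.sum_eq_single a]
  · have h1 : a ^ 2 ∣ m := ⟨b, hab.symm⟩
    rw [if_pos h1]
    have h2 : m / a ^ 2 = b := by
      rw [← hab]
      exact Nat.mul_div_cancel_left b (pow_pos (Nat.pos_of_ne_zero ha) 2)
    rw [h2, WC86.mu, ArithmeticFunction.moebius_apply_of_squarefree hb, lamC, lam, ← hab,
      ArithmeticFunction.cardFactors_mul (pow_ne_zero 2 ha) hb0,
      ArithmeticFunction.cardFactors_pow, pow_add, pow_mul]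
    simp
  · intro d hd hda
    split_ifs with h
    · obtain ⟨c, hc⟩ := h
      have hd0 : d ≠ 0 := by have := (Finset.mem_Icc.1 hd).1; omega
      have h2 : m / d ^ 2 = c := by
        rw [hc]
        exact Nat.mul_div_cancel_left c (pow_pos (Nat.pos_of_ne_zero hd0) 2)
      rw [h2, WC86.mu]
      by_cases hsq : Squarefree c
      · exact absurd (sq_part_unique hb hsq ha hd0 (by rw [mul_comm b, mul_comm c, hab, hc])).symm hda
      · rw [ArithmeticFunction.moebius_eq_zero_of_not_squarefree hsq]
        simp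
    · rfl
  · intro h
    exact absurd (Finset.mem_Icc.2 ⟨Nat.one_le_iff_ne_zero.2 ha, hle⟩) h

end Pool.Agent.C4
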