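import Mathlib
import Pool.Agent.Lib.C4.Defs
import Pool.Agent.Lib.MP_663568_h6.UpQ
import Pool.Agent.Lib.WC86.Zero

/-!
# Row W3: the Fourier coefficients at the multiples `p k`

helper71.
-/

set_option autoImplicit false
open Finset

namespace Pool.Agent.C4

open Pool.Agent.Lib.MP_663568_nt Pool.Agent.Lib.MP_663568_nt.Katai
  Pool.Agent.Lib.MP_663568_nt.H6 Pool.Agent.Lib.MP_663568_nt.Nul

namespace W3

lemma abs_lam (n : ℕ) : |lam n| ≤ 1 := by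
  unfold lam
  rw [abs_pow, abs_neg, abs_one, one_pow]

lemma norm_lamC (n : ℕ) : ‖lamC n‖ ≤ 1 := by
  unfold lamC
  rw [Complex.norm_real]
  exact abs_lam n

lemma LA_sum (N : ℕ) (P : Finset ℕ) (w : ℕ → ℝ) (g : ℕ → ℕ → ℝ) :
    LA N (fun n => ∑ p ∈ P, w p * g p n) = ∑ p ∈ P, w p * LA N (g p) := by
  unfold LA
  simp only [mul_div_assoc', ← sum_div, mul_sum]
  rw [sum_comm]
  congr 1
  refine sum_congr rfl fun p _ => sum_congr rfl fun n _ => by ring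

lemma LA_le (N : ℕ) (g g' : ℕ → ℝ) (h : ∀ n, |g n| ≤ g' n) : |LA N g| ≤ LA N g' := by
  have hl : 0 ≤ Real.log N := Real.log_natCast_nonneg N
  unfold LA
  rw [abs_div, abs_of_nonneg hl]
  refine div_le_div_of_nonneg_right ?_ hl
  refine (abs_sum_le_sum_abs _ _).trans (sum_le_sum fun n _ => ?_)
  rw [abs_mul, abs_of_nonneg (by positivity)]
  exact mul_le_mul_of_nonneg_left (h n) (by positivity)

lemma outer_anti (A : Set ℝ) (R R' : ℝ) (h0 : 0 < R') (h : R' ≤ R) :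
    WC86.outer A R ≤ WC86.outer A R' := by
  unfold WC86.outer
  refine ENNReal.toReal_mono ?_ (MeasureTheory.measure_mono ?_)
  · refine ne_top_of_le_ne_top ENNReal.one_ne_top ?_
    refine (MeasureTheory.measure_mono (fun y hy => hy.1)).trans ?_
    rw [Real.volume_Icc]; norm_num
  · rintro y ⟨hy, α, hα, b, hb⟩
    exact ⟨hy, α, hα, b, hb.trans (one_div_le_one_div_of_le h0 h)⟩

lemma std_ee (Q : ℕ) [NeZero Q] (j : ℤ) (t : ZMod Q) :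
    ZMod.stdAddChar ((j : ZMod Q) * t) = ee ((j : ℝ) * ((t.val : ℝ) / Q)) := by
  have e : (j : ZMod Q) * t = ((j * (t.val : ℤ) : ℤ) : ZMod Q) := by
    push_cast
    rw [ZMod.natCast_zmod_val]
  rw [e, ZMod.stdAddChar_coe, ee]
  congr 1
  push_cast
  ring

lemma norm_sum_neg (P : Finset ℕ) (w : ℕ → ℝ) (k : ℤ) (y : ℝ) :
    ‖∑ p ∈ P, (w p : ℂ) * ee (-((p : ℝ) * k * y))‖ =
      ‖∑ p ∈ P, (w p : ℂ) * ee ((p : ℝ) * k * y)‖ := by
  have e : ∑ p ∈ P, (w p : ℂ) * ee (-((p : ℝ) * k * y)) =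
      (starRingEnd ℂ) (∑ p ∈ P, (w p : ℂ) * ee ((p : ℝ) * k * y)) := by
    rw [map_sum]
    refine sum_congr rfl fun p _ => ?_
    rw [map_mul, Complex.conj_ofReal, conj_ee]
  rw [e, RCLike.norm_conj]

/-- The set of frequencies. -/
def Fr (P : Finset ℕ) (w : ℕ → ℝ) (k m : ℤ) (κ : ℝ) : Set ℝ :=
  {x | ∃ y : ℝ, κ ≤ ‖∑ p ∈ P, (w p : ℂ) * ee ((p : ℝ) * k * y)‖ ∧ x = (m : ℝ) * y}

lemma norm_S (Q : ℕ) [NeZero Q] (n H : ℕ) (m : ℤ) (t : ZMod Q) :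
    ‖S Q lam n H ((m : ZMod Q) * t)‖ =
      ‖∑ h ∈ Icc 1 H, WC86.lin ((m : ℝ) * ((t.val : ℝ) / Q)) (n + h) * lamC (n + h)‖ := by
  have e : ∑ h ∈ Icc 1 H, WC86.lin ((m : ℝ) * ((t.val : ℝ) / Q)) (n + h) * lamC (n + h) =
      ee ((m : ℝ) * ((t.val : ℝ) / Q) * n) * S Q lam n H ((m : ZMod Q) * t) := by
    unfold S
    rw [mul_sum]
    refine sum_congr rfl fun h _ => ?_
    have e1 : ((h : ZMod Q)) * ((m : ZMod Q) * t) = (((h : ℤ) * m : ℤ) : ZMod Q) * t := by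
      push_cast; ring
    rw [e1, std_ee]
    unfold WC86.lin lamC
    have e2 : (m : ℝ) * ((t.val : ℝ) / Q) * ((n + h : ℕ) : ℝ) =
        (m : ℝ) * ((t.val : ℝ) / Q) * n + (((h : ℤ) * m : ℤ) : ℝ) * ((t.val : ℝ) / Q) := by
      push_cast; ring
    rw [e2, ee_add]
    ring
  rw [e, norm_mul, norm_ee, one_mul]

lemma av_two (hB1 : B1_stmt) (Q : ℕ) [NeZero Q] (hQ : Q.Prime) (n H : ℕ) (a b : ℤ)
    (ha : (a : ZMod Q) ≠ 0) (hb : (b : ZMod Q) ≠ 0) (hH : 1 ≤ H) (hHQ : H < Q) :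
    ∑ t : ZMod Q, ‖S Q lam n H ((a : ZMod Q) * t)‖ * ‖S Q lam n H ((b : ZMod Q) * t)‖ ≤
      Q * H := by
  have : Fact Q.Prime := ⟨hQ⟩
  have h1 := (hB1 lam n H Q abs_lam hH hHQ).1
  have h2 : ∀ a : ℤ, (a : ZMod Q) ≠ 0 → ∑ t : ZMod Q, ‖S Q lam n H ((a : ZMod Q) * t)‖ ^ 2 ≤
      Q * H := by
    intro a ha
    have e : ∑ t : ZMod Q, ‖S Q lam n H ((a : ZMod Q) * t)‖ ^ 2 =
        ∑ t : ZMod Q, ‖S Q lam n H t‖ ^ 2 :=
      Fintype.sum_equiv (Equiv.mulLeft₀ (a : ZMod Q) ha) _ _ fun t => rfl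
    rw [e]
    exact h1
  have h3 := h2 a ha
  have h4 := h2 b hb
  calc ∑ t : ZMod Q, ‖S Q lam n H ((a : ZMod Q) * t)‖ * ‖S Q lam n H ((b : ZMod Q) * t)‖
      ≤ ∑ t : ZMod Q, ((1 / 2) * ‖S Q lam n H ((a : ZMod Q) * t)‖ ^ 2 +
          (1 / 2) * ‖S Q lam n H ((b : ZMod Q) * t)‖ ^ 2) := by
        refine sum_le_sum fun t _ => ?_
        nlinarith [sq_nonneg (‖S Q lam n H ((a : ZMod Q) * t)‖ -
          ‖S Q lam n H ((b : ZMod Q) * t)‖)]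
    _ ≤ Q * H := by
        rw [sum_add_distrib, ← mul_sum, ← mul_sum]
        linarith

lemma point (hA1 : A1_stmt) (hB1 : B1_stmt) (s : ℕ) (c : Fin (s + 3) → ℤ) (hc : ∀ i, c i ≠ 0)
    (k : ℤ) (P : Finset ℕ) (w : ℕ → ℝ) (hw : ∀ p, |w p| ≤ 1 / (p : ℝ)) (κ : ℝ) (hκ : 0 ≤ κ)
    (n H : ℕ) (hH : 1 ≤ H) :
    |∑ p ∈ P, w p * J lam c (p * k) n H| ≤
      κ + LL P * (GS WC86.lin lamC (Fr P w k (c 0) κ) H n / H) := by
  obtain ⟨Q, hQM, hQ⟩ := Nat.exists_infinite_primes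
    ((∑ i, (c i).natAbs) * H + (∑ p ∈ P, ((p : ℤ) * k).natAbs) + (∑ i, (c i).natAbs) + H + 1)
  have : Fact Q.Prime := ⟨hQ⟩
  have : NeZero Q := ⟨hQ.ne_zero⟩
  have hHQ : H < Q := by omega
  have hunit : ∀ i, ((c i : ℤ) : ZMod Q) ≠ 0 := by
    intro i h
    rw [ZMod.intCast_zmod_eq_zero_iff_dvd] at h
    have h1 := Int.natAbs_dvd_natAbs.2 h
    rw [Int.natAbs_natCast] at h1
    have h2 := Nat.le_of_dvd (Int.natAbs_pos.2 (hc i)) h1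
    have h3 : (c i).natAbs ≤ ∑ i, (c i).natAbs :=
      single_le_sum (f := fun i => (c i).natAbs) (fun _ _ => Nat.zero_le _) (mem_univ i)
    omega
  have hHr : (0 : ℝ) < H := by exact_mod_cast hH
  have hQr : (0 : ℝ) < Q := by exact_mod_cast hQ.pos
  obtain ⟨G, hG⟩ : ∃ G, G = GS WC86.lin lamC (Fr P w k (c 0) κ) H n := ⟨_, rfl⟩
  have hG0 : 0 ≤ G := by rw [hG]; exact GS_nonneg _ _ _ _ _
  have hL0 : 0 ≤ LL P := sum_nonneg fun p _ => by positivity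
  obtain ⟨Kf, hK⟩ : ∃ Kf : ZMod Q → ℂ, Kf = fun t =>
    ∑ p ∈ P, (w p : ℂ) * ZMod.stdAddChar (-(((p * k : ℤ)) : ZMod Q) * t) := ⟨_, rfl⟩
  have hKn : ∀ t, ‖Kf t‖ = ‖∑ p ∈ P, (w p : ℂ) * ee ((p : ℝ) * k * ((t.val : ℝ) / Q))‖ := by
    intro t
    rw [← norm_sum_neg, hK]
    congr 1
    refine sum_congr rfl fun p _ => ?_
    have e := std_ee Q (-(p * k)) t
    push_cast at e
    push_cast
    rw [e]
    congr 2
    ring
  have hKL : ∀ t, ‖Kf t‖ ≤ LL P := by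
    intro t
    rw [hKn]
    refine (norm_sum_le _ _).trans (sum_le_sum fun p _ => ?_)
    rw [norm_mul, norm_ee, mul_one, Complex.norm_real]
    exact hw p
  have hSH : ∀ t, ‖S Q lam n H t‖ ≤ H := (hB1 lam n H Q abs_lam hH hHQ).2.2.1
  have hSG : ∀ t : ZMod Q, κ ≤ ‖Kf t‖ → ‖S Q lam n H ((c 0 : ZMod Q) * t)‖ ≤ G := by
    intro t ht
    rw [norm_S, hG]
    have h1 := ws_le_GS WC86.lin lamC WC86.norm_lin_le norm_lamC (Fr P w k (c 0) κ) H n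
      ((c 0 : ℝ) * ((t.val : ℝ) / Q)) ⟨_, by rw [hKn] at ht; exact ht, rfl⟩
    exact h1
  have hcase : ∀ t, ‖Kf t‖ * ‖S Q lam n H ((c 0 : ZMod Q) * t)‖ ≤ κ * H + LL P * G := by
    intro t
    rcases le_or_gt κ ‖Kf t‖ with h | h
    · have h1 := hSG t h
      have h2 := hKL t
      have h3 : ‖Kf t‖ * ‖S Q lam n H ((c 0 : ZMod Q) * t)‖ ≤ LL P * G := by gcongr
      have : 0 ≤ κ * H := by positivity
      linarith
    · have h2 := hSH ((c 0 : ZMod Q) * t)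
      have h3 : ‖Kf t‖ * ‖S Q lam n H ((c 0 : ZMod Q) * t)‖ ≤ κ * H := by gcongr
      have : 0 ≤ LL P * G := by positivity
      linarith
  have hprod : ∀ t : ZMod Q, ‖Kf t * ∏ i, S Q lam n H ((c i : ZMod Q) * t)‖ ≤
      (κ * H + LL P * G) * H ^ s * (‖S Q lam n H ((c 1 : ZMod Q) * t)‖ *
        ‖S Q lam n H ((c 2 : ZMod Q) * t)‖) := by
    intro t
    rw [Fin.prod_univ_succ, Fin.prod_univ_succ, Fin.prod_univ_succ, norm_mul, norm_mul, norm_mul,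
      norm_mul]
    have h1 : ‖∏ i : Fin s, S Q lam n H ((c i.succ.succ.succ : ZMod Q) * t)‖ ≤ (H : ℝ) ^ s := by
      rw [norm_prod]
      calc ∏ i : Fin s, ‖S Q lam n H ((c i.succ.succ.succ : ZMod Q) * t)‖ ≤
          ∏ i : Fin s, (H : ℝ) := prod_le_prod (fun i _ => norm_nonneg _) fun i _ => hSH _
        _ = (H : ℝ) ^ s := by simp
    have h2 := hcase t
    have e1 : (Fin.succ 0 : Fin (s + 3)) = 1 := rfl
    have e2 : (Fin.succ (Fin.succ 0) : Fin (s + 3)) = 2 := rfl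
    rw [e1, e2]
    have h3 : 0 ≤ κ * H + LL P * G := by positivity
    calc ‖Kf t‖ * (‖S Q lam n H ((c 0 : ZMod Q) * t)‖ * (‖S Q lam n H ((c 1 : ZMod Q) * t)‖ *
          (‖S Q lam n H ((c 2 : ZMod Q) * t)‖ *
            ‖∏ i : Fin s, S Q lam n H ((c i.succ.succ.succ : ZMod Q) * t)‖)))
        = (‖Kf t‖ * ‖S Q lam n H ((c 0 : ZMod Q) * t)‖) *
          ‖∏ i : Fin s, S Q lam n H ((c i.succ.succ.succ : ZMod Q) * t)‖ *
          (‖S Q lam n H ((c 1 : ZMod Q) * t)‖ * ‖S Q lam n H ((c 2 : ZMod Q) * t)‖) := by ring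
      _ ≤ _ := by gcongr
  -- the identity
  have hid : ((∑ p ∈ P, w p * J lam c (p * k) n H : ℝ) : ℂ) =
      (∑ t : ZMod Q, Kf t * ∏ i, S Q lam n H ((c i : ZMod Q) * t)) /
        ((Q : ℂ) * (H : ℂ) ^ (s + 2)) := by
    have h1 : ∀ p ∈ P, ((w p * J lam c (p * k) n H : ℝ) : ℂ) =
        (∑ t : ZMod Q, (w p : ℂ) * ZMod.stdAddChar (-(((p * k : ℤ)) : ZMod Q) * t) *
          ∏ i, S Q lam n H ((c i : ZMod Q) * t)) / ((Q : ℂ) * (H : ℂ) ^ (s + 2)) := by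
      intro p hp
      have h2 := hA1 (s + 3) c (p * k) lam n H Q (by
        have : ((p : ℤ) * k).natAbs ≤ ∑ p ∈ P, ((p : ℤ) * k).natAbs :=
          single_le_sum (f := fun p : ℕ => ((p : ℤ) * k).natAbs) (fun _ _ => Nat.zero_le _) hp
        omega)
      unfold J
      rw [Complex.ofReal_mul, Complex.ofReal_div, ← h2]
      unfold F
      simp only [mul_assoc, ← mul_sum]
      push_cast
      rw [div_div, mul_div_assoc]
    rw [Complex.ofReal_sum, sum_congr rfl h1, ← sum_div, sum_comm, hK]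
    congr 1
    refine sum_congr rfl fun t _ => ?_
    rw [sum_mul]
  have hnorm : |∑ p ∈ P, w p * J lam c (p * k) n H| =
      ‖((∑ p ∈ P, w p * J lam c (p * k) n H : ℝ) : ℂ)‖ := by
    rw [Complex.norm_real, Real.norm_eq_abs]
  rw [hnorm, hid, norm_div, norm_mul, norm_pow, Complex.norm_natCast, Complex.norm_natCast,
    div_le_iff₀ (by positivity)]
  refine (norm_sum_le _ _).trans ((sum_le_sum fun t _ => hprod t).trans ?_)
  rw [← mul_sum]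
  have h1 := av_two hB1 Q hQ n H (c 1) (c 2) (hunit 1) (hunit 2) hH hHQ
  have h3 : 0 ≤ κ * H + LL P * G := by positivity
  rw [← hG]
  calc (κ * H + LL P * G) * H ^ s * ∑ t : ZMod Q, (‖S Q lam n H ((c 1 : ZMod Q) * t)‖ *
        ‖S Q lam n H ((c 2 : ZMod Q) * t)‖) ≤ (κ * H + LL P * G) * H ^ s * (Q * H) := by
        gcongr
    _ = _ := by
        field_simp
        ring

lemma sum_sq (P : Finset ℕ) (P₀ : ℕ) (h0 : 2 ≤ P₀) (hP : ∀ p ∈ P, P₀ ≤ p) :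
    ∑ p ∈ P, 1 / (p : ℝ) ^ 2 ≤ 2 / (P₀ : ℝ) := by
  obtain ⟨M, hM⟩ : ∃ M : ℕ, P₀ ≤ M ∧ ∀ p ∈ P, p ≤ M :=
    ⟨P₀ + P.sup id, Nat.le_add_right _ _, fun p hp => by
      have := le_sup (f := id) hp
      simp only [id] at this
      omega⟩
  have h1 := sum_Ioc_inv_sq_le_sub (α := ℝ) (k := P₀ - 1) (n := M) (by omega) (by omega)
  have h2 : ∑ p ∈ P, 1 / (p : ℝ) ^ 2 ≤ ∑ p ∈ Ioc (P₀ - 1) M, ((p : ℝ) ^ 2)⁻¹ := by
    simp only [one_div]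
    apply sum_le_sum_of_subset_of_nonneg
    · intro p hp
      have h3 := hP p hp
      have h4 := hM.2 p hp
      rw [mem_Ioc]
      omega
    · intro p _ _; positivity
  have h3 : (0 : ℝ) ≤ (M : ℝ)⁻¹ := by positivity
  have h4 : (((P₀ - 1 : ℕ) : ℝ))⁻¹ ≤ 2 / (P₀ : ℝ) := by
    rw [Nat.cast_sub (by omega), Nat.cast_one]
    have h5 : (2 : ℝ) ≤ P₀ := by exact_mod_cast h0
    rw [inv_eq_one_div, div_le_div_iff₀ (by linarith) (by linarith)]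
    linarith
  linarith

lemma Fr_mul (P : Finset ℕ) (w : ℕ → ℝ) (k m : ℤ) (κ : ℝ) (d : ℕ) :
    {x : ℝ | ∃ a ∈ Fr P w k m κ, x = (d : ℝ) ^ 2 * a} =
      {x | ∃ y : ℝ, κ ≤ ‖∑ p ∈ P, ((w p : ℝ) : ℂ) * ee ((p : ℝ) * k * y)‖ ∧
        x = (((d : ℤ) ^ 2 * m : ℤ) : ℝ) * y} := by
  ext x
  constructor
  · rintro ⟨a, ⟨y, hy, rfl⟩, rfl⟩
    refine ⟨y, hy, ?_⟩
    push_cast
    ring
  · rintro ⟨y, hy, rfl⟩
    refine ⟨_, ⟨y, hy, rfl⟩, ?_⟩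
    push_cast
    ring

end W3

open W3

theorem rowW3 (hA1 : A1_stmt) (_hA0 : A0_stmt) (hB1 : B1_stmt) (hD : D_stmt) (hW1 : W1_stmt)
    (hW2 : W2_stmt) : W3_stmt := by
  intro s c k δ hs hc hk hδ
  obtain ⟨s, rfl⟩ : ∃ s', s = s' + 3 := ⟨s - 3, by omega⟩
  obtain ⟨D, C, hDC⟩ := hW1 (δ / 4) (by positivity)
  obtain ⟨τ, hτ⟩ : ∃ τ, τ = δ / 12 := ⟨_, rfl⟩
  have hτ0 : 0 < τ := by rw [hτ]; positivity
  obtain ⟨θ, hθ⟩ : ∃ θ : ℝ, θ = δ / (4 * (D + 1)) := ⟨_, rfl⟩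
  have hθ0 : 0 < θ := by rw [hθ]; positivity
  obtain ⟨P₁, hP₁⟩ := exists_nat_ge (8 * |(c 0 : ℝ)| / (τ ^ 2 * θ ^ 2))
  refine ⟨P₁ + 2, C, fun P hP hL => ?_⟩
  obtain ⟨κ, hκ⟩ : ∃ κ, κ = τ * LL P := ⟨_, rfl⟩
  have hκ0 : 0 < κ := by rw [hκ]; positivity
  have hκτ : τ ≤ κ := by rw [hκ]; nlinarith
  have hR : ∀ d : ℕ, ∃ R : ℝ, 1 ≤ R ∧ (1 ≤ d → ∀ w : ℕ → ℂ, (∀ p, ‖w p‖ ≤ 1 / (p : ℝ)) →
      WC86.outer {x | ∃ y : ℝ, κ ≤ ‖∑ p ∈ P, w p * ee ((p : ℝ) * k * y)‖ ∧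
        x = (((d : ℤ) ^ 2 * c 0 : ℤ) : ℝ) * y} R ≤
        4 * |(((d : ℤ) ^ 2 * c 0 : ℤ) : ℝ)| / κ ^ 2 * ∑ p ∈ P, 1 / (p : ℝ) ^ 2) := by
    intro d
    by_cases hd : 1 ≤ d
    · have hm : ((d : ℤ) ^ 2 * c 0 : ℤ) ≠ 0 := by
        refine mul_ne_zero (pow_ne_zero 2 ?_) (hc 0)
        exact_mod_cast (show d ≠ 0 by omega)
      obtain ⟨R, hR1, hR2⟩ := hW2 P k _ κ (fun p hp => by have := hP p hp; omega) hk hm hκ0
      exact ⟨R, hR1, fun _ => hR2⟩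
    · exact ⟨1, le_rfl, fun h => absurd h hd⟩
  choose Rf hRf1 hRf2 using hR
  obtain ⟨R, hRd⟩ : ∃ R : ℝ, R = ∑ d ∈ Icc 1 D, Rf d + 1 := ⟨_, rfl⟩
  have hRpos : 0 ≤ ∑ d ∈ Icc 1 D, Rf d := sum_nonneg fun d _ => by
    have := hRf1 d
    linarith
  have hR1 : 1 ≤ R := by rw [hRd]; linarith
  have hRle : ∀ d ∈ Icc 1 D, Rf d ≤ R := by
    intro d hd
    have h1 : Rf d ≤ ∑ d ∈ Icc 1 D, Rf d :=
      single_le_sum (f := Rf) (fun d _ => by have := hRf1 d; linarith) hd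
    rw [hRd]; linarith
  obtain ⟨H₁, hH₁⟩ := hDC R hR1
  refine ⟨H₁ + 1, fun H N hH hN => ?_⟩
  have hH1 : 1 ≤ H := by omega
  have hHr : (0 : ℝ) < H := by exact_mod_cast hH1
  have hlN : 0 ≤ Real.log N := Real.log_natCast_nonneg N
  obtain ⟨r, hr⟩ : ∃ r : ℕ → ℝ, r = fun p : ℕ => LA N fun n => J lam c (p * k) n H := ⟨_, rfl⟩
  obtain ⟨w, hw⟩ : ∃ w : ℕ → ℝ, w = fun p => if 0 ≤ r p then 1 / (p : ℝ) else -(1 / (p : ℝ)) :=
    ⟨_, rfl⟩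
  have hw1 : ∀ p, |w p| ≤ 1 / (p : ℝ) := by
    intro p
    have h0 : (0 : ℝ) ≤ 1 / (p : ℝ) := by positivity
    rw [hw]
    dsimp only
    split_ifs
    · rw [abs_of_nonneg h0]
    · rw [abs_neg, abs_of_nonneg h0]
  have hwr : ∀ p : ℕ, (1 / (p : ℝ)) * |r p| = w p * r p := by
    intro p
    rw [hw]
    dsimp only
    split_ifs with h
    · rw [abs_of_nonneg h]
    · rw [abs_of_neg (not_le.1 h)]; ring
  obtain ⟨G, hG⟩ : ∃ G : ℕ → ℝ, G = fun n => GS WC86.lin lamC (Fr P w k (c 0) κ) H n := ⟨_, rfl⟩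
  have hG0 : ∀ n, 0 ≤ G n := fun n => by rw [hG]; exact GS_nonneg _ _ _ _ _
  have hpt : ∀ n, |∑ p ∈ P, w p * J lam c (p * k) n H| ≤ κ + LL P * (G n / H) := fun n => by
    rw [hG]; exact point hA1 hB1 s c hc k P w hw1 κ hκ0.le n H hH1
  have h1 : ∑ p ∈ P, (1 / (p : ℝ)) * |LA N fun n => J lam c (p * k) n H| =
      LA N (fun n => ∑ p ∈ P, w p * J lam c (p * k) n H) := by
    rw [LA_sum N P w (fun p n => J lam c (p * k) n H)]
    refine sum_congr rfl fun p _ => ?_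
    have := hwr p
    rw [hr] at this
    exact this
  rw [h1]
  refine (le_abs_self _).trans ((LA_le N _ _ hpt).trans ?_)
  -- the two parts
  have h2 : LA N (fun n => κ + LL P * (G n / H)) =
      LA N (fun _ => κ) + LL P / H * LA N G := by
    unfold LA
    rw [mul_div_assoc', ← add_div]
    congr 1
    rw [mul_sum, ← sum_add_distrib]
    refine sum_congr rfl fun n _ => by ring
  rw [h2]
  have h3 : LA N (fun _ => κ) ≤ 3 * κ :=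
    (le_abs_self _).trans (hD.1 N (fun _ => κ) κ fun _ => (abs_of_pos hκ0).le)
  have hout : ∀ d ∈ Icc 1 D, √(WC86.outer {x | ∃ a ∈ Fr P w k (c 0) κ, x = (d : ℝ) ^ 2 * a} R) ≤
      d * θ := by
    intro d hd
    have hd1 : 1 ≤ d := (mem_Icc.1 hd).1
    have hdr : (0 : ℝ) < d := by exact_mod_cast hd1
    rw [Real.sqrt_le_left (by positivity), Fr_mul]
    refine (outer_anti _ R (Rf d) (by have := hRf1 d; linarith) (hRle d hd)).trans ?_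
    refine (hRf2 d hd1 (fun p => ((w p : ℝ) : ℂ)) fun p => by
      rw [Complex.norm_real]; exact hw1 p).trans ?_
    have h4 := sum_sq P (P₁ + 2) (by omega) hP
    have h5 : |(((d : ℤ) ^ 2 * c 0 : ℤ) : ℝ)| = (d : ℝ) ^ 2 * |(c 0 : ℝ)| := by
      push_cast
      rw [abs_mul, abs_of_nonneg (by positivity)]
    rw [h5]
    have hP2 : (0 : ℝ) < ((P₁ + 2 : ℕ) : ℝ) := by positivity
    calc 4 * ((d : ℝ) ^ 2 * |(c 0 : ℝ)|) / κ ^ 2 * ∑ p ∈ P, 1 / (p : ℝ) ^ 2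
        ≤ 4 * ((d : ℝ) ^ 2 * |(c 0 : ℝ)|) / τ ^ 2 * (2 / ((P₁ + 2 : ℕ) : ℝ)) := by
          gcongr
      _ = (d : ℝ) ^ 2 * (8 * |(c 0 : ℝ)| / τ ^ 2 / ((P₁ + 2 : ℕ) : ℝ)) := by ring
      _ ≤ (d : ℝ) ^ 2 * θ ^ 2 := by
          refine mul_le_mul_of_nonneg_left ?_ (by positivity)
          rw [div_le_iff₀ hP2, div_le_iff₀ (by positivity)]
          rw [div_le_iff₀ (by positivity)] at hP₁
          have h6 : (P₁ : ℝ) ≤ ((P₁ + 2 : ℕ) : ℝ) := by push_cast; linarith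
          calc 8 * |(c 0 : ℝ)| ≤ (P₁ : ℝ) * (τ ^ 2 * θ ^ 2) := hP₁
            _ ≤ ((P₁ + 2 : ℕ) : ℝ) * (τ ^ 2 * θ ^ 2) := by gcongr
            _ = _ := by ring
      _ = (d * θ) ^ 2 := by ring
  have hsum : ∑ d ∈ Icc 1 D, (1 / (d : ℝ) ^ 2) *
      √(WC86.outer {x | ∃ a ∈ Fr P w k (c 0) κ, x = (d : ℝ) ^ 2 * a} R) ≤ δ / 4 := by
    calc _ ≤ ∑ d ∈ Icc 1 D, θ := by
          refine sum_le_sum fun d hd => ?_
          have hd1 : 1 ≤ d := (mem_Icc.1 hd).1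
          have hdr : (1 : ℝ) ≤ d := by exact_mod_cast hd1
          calc _ ≤ (1 / (d : ℝ) ^ 2) * (d * θ) :=
                mul_le_mul_of_nonneg_left (hout d hd) (by positivity)
            _ = θ / d := by field_simp
            _ ≤ θ := div_le_self hθ0.le hdr
      _ = D * θ := by rw [sum_const, Nat.card_Icc, Nat.add_sub_cancel, nsmul_eq_mul]
      _ ≤ δ / 4 := by
          rw [hθ]
          have hD0 : (0 : ℝ) ≤ D := Nat.cast_nonneg _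
          rw [mul_div_assoc', div_le_div_iff₀ (by positivity) (by norm_num)]
          nlinarith
  have h4 : LA N G ≤ (δ / 4 + δ / 4) * H := by
    unfold LA
    refine div_le_of_le_mul₀ hlN (by positivity) ?_
    have h5 := hH₁ H N (by omega) hN (Fr P w k (c 0) κ)
    rw [hG]
    refine h5.trans ?_
    gcongr
  have h5 : LL P / H * LA N G ≤ LL P * (δ / 2) := by
    calc LL P / H * LA N G ≤ LL P / H * ((δ / 4 + δ / 4) * H) := by
          refine mul_le_mul_of_nonneg_left h4 ?_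
          have : 0 ≤ LL P := by linarith
          positivity
      _ = LL P * (δ / 2) := by field_simp; ring
  have h6 : κ = δ / 12 * LL P := by rw [hκ, hτ]
  have h7 : 0 ≤ δ * LL P := by
    have : 0 ≤ LL P := by linarith
    positivity
  linarith

end Pool.Agent.C4
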